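import Pool.Agent.Helper93.TS.StD

/-!
NAND gates for a formula.
-/

namespace Pool.Agent.Helper93.TS

private theorem app_Alc {α : Type} (l1 l2 : List α) (R : ℕ → α → Prop) :
    (∀ i (h : i < (l1 ++ l2).length), R i (l1 ++ l2)[i]) ↔
      ((∀ i (h : i < l1.length), R i l1[i]) ∧
        (∀ i (h : i < l2.length), R (l1.length + i) l2[i])) := by
  constructor
  · intro H
    refine ⟨fun i h => ?_, fun i h => ?_⟩
    · have := H i (by simp; omega)
      rwa [List.getElem_append_left h] at this
    · have := H (l1.length + i) (by simp; omega)
      rw [List.getElem_append_right (by omega)] at this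
      simpa using this
  · rintro ⟨H1, H2⟩ i h
    by_cases hi : i < l1.length
    · rw [List.getElem_append_left hi]
      exact H1 i hi
    · have h3 : i - l1.length < l2.length := by
        simp only [List.length_append] at h; omega
      have := H2 (i - l1.length) h3
      rw [List.getElem_append_right (by omega)]
      have e : l1.length + (i - l1.length) = i := by omega
      rw [e] at this
      exact this

private theorem spl_Alc (a b : ℕ) (R : ℕ → Prop) :
    (∀ i < a + b + 1, R i) ↔
      ((∀ i < a, R i) ∧ (∀ i < b, R (a + i)) ∧ R (a + b)) := by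
  constructor
  · intro H
    exact ⟨fun i h => H i (by omega), fun i h => H _ (by omega), H _ (by omega)⟩
  · rintro ⟨H1, H2, H3⟩ i h
    rcases lt_or_ge i a with h1 | h1
    · exact H1 i h1
    · rcases lt_or_ge i (a + b) with h2 | h2
      · have := H2 (i - a) (by omega)
        rwa [show a + (i - a) = i by omega] at this
      · have : i = a + b := by omega
        rw [this]; exact H3

/-- the gates for a formula -/
theorem hAlc : StAlc := by
  intro S src cw n0 G φ hsrc hcw
  induction φ generalizing n0 with
  | tt =>
    intro _
    refine ⟨[], cw, by simp, hcw, by simp, fun e => ⟨fun _ => true, fun T hT _ => ?_⟩⟩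
    simp [hT]
  | var s =>
    intro _
    refine ⟨[], src s, by simp, hsrc s, by simp, fun e => ⟨fun _ => true, fun T _ hs => ?_⟩⟩
    simp [hs]
  | nand a b iha ihb =>
    intro hG
    simp only [Fm.size_nand] at hG
    obtain ⟨la, pa, h1a, h2a, h3a, h4a⟩ := iha n0 (by omega)
    obtain ⟨lb, pb, h1b, h2b, h3b, h4b⟩ := ihb (n0 + la.length) (by omega)
    refine ⟨la ++ lb ++ [(pa, pb)], n0 + (la.length + lb.length), ?_, by omega, ?_, ?_⟩
    · simp only [List.length_append, List.length_cons, List.length_nil, Fm.size_nand]
      omega
    · intro q hq
      simp only [List.mem_append, List.mem_singleton] at hq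
      rcases hq with (hq | hq) | hq
      · exact h3a q hq
      · exact h3b q hq
      · rw [hq]; exact ⟨h2a, h2b⟩
    · intro e
      obtain ⟨va, hva⟩ := h4a e
      obtain ⟨vb, hvb⟩ := h4b e
      refine ⟨fun i => if i < la.length then va i else if i < la.length + lb.length then
        vb (i - la.length) else !(a.eval e && b.eval e), fun T hT hs => ?_⟩
      obtain ⟨A1, A2⟩ := hva T hT hs
      obtain ⟨B1, B2⟩ := hvb T hT hs
      have hlen : (la ++ lb ++ [(pa, pb)]).length = la.length + lb.length + 1 := by
        simp only [List.length_append, List.length_cons, List.length_nil]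
      have key : (∀ i < (la ++ lb ++ [(pa, pb)]).length, T (n0 + i) =
          (if i < la.length then va i else if i < la.length + lb.length then
            vb (i - la.length) else !(a.eval e && b.eval e))) ↔
          ((∀ i < la.length, T (n0 + i) = va i) ∧
            (∀ i < lb.length, T (n0 + la.length + i) = vb i) ∧
            T (n0 + (la.length + lb.length)) = !(a.eval e && b.eval e)) := by
        rw [hlen, spl_Alc la.length lb.length]
        refine and_congr ?_ (and_congr ?_ ?_)
        · refine forall₂_congr fun i hi => ?_
          rw [if_pos hi]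
        · refine forall₂_congr fun i hi => ?_
          rw [if_neg (by omega), if_pos (by omega), ← add_assoc,
            show la.length + i - la.length = i by omega]
        · rw [if_neg (by omega), if_neg (by omega)]
      have key2 : (∀ i (h : i < (la ++ lb ++ [(pa, pb)]).length),
          T (n0 + i) = !(T ((la ++ lb ++ [(pa, pb)])[i].1) && T ((la ++ lb ++ [(pa, pb)])[i].2))) ↔
          ((∀ i (h : i < la.length), T (n0 + i) = !(T (la[i].1) && T (la[i].2))) ∧
            (∀ i (h : i < lb.length), T (n0 + la.length + i) = !(T (lb[i].1) && T (lb[i].2))) ∧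
            T (n0 + (la.length + lb.length)) = !(T pa && T pb)) := by
        rw [app_Alc (la ++ lb) [(pa, pb)] (fun i q => T (n0 + i) = !(T q.1 && T q.2)),
          app_Alc la lb (fun i q => T (n0 + i) = !(T q.1 && T q.2)), and_assoc]
        refine and_congr Iff.rfl (and_congr ?_ ?_)
        · refine forall₂_congr fun i hi => ?_
          rw [← add_assoc]
        · simp
      refine ⟨?_, ?_⟩
      · rw [key, key2, A1, B1]
        constructor
        · rintro ⟨x, y, z⟩
          refine ⟨x, y, ?_⟩
          rw [z, A2 x, B2 y]
        · rintro ⟨x, y, z⟩
          refine ⟨x, y, ?_⟩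
          rw [z, A2 x, B2 y]
      · rw [key]
        rintro ⟨x, y, z⟩
        rw [z]; rfl

end Pool.Agent.Helper93.TS
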