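import Pool.Agent.Helper93.TS.StN

/-!
# Project TS, module BEN: the Beneš network realizes all permutations
-/

set_option linter.all false

namespace Pool.Agent.Helper93.TS

open Pool.Agent.Helper72

private lemma clr_cons_Ben {K : ℕ} (b : Fin K) (c : Bool) (a : Pos K) :
    clr b.succ (Fin.cons (α := fun _ => Bool) c a : Pos (K + 1))
      = Fin.cons (α := fun _ => Bool) c (clr b a) := by
  unfold clr
  rw [Fin.cons_update]

private lemma flp_cons_Ben {K : ℕ} (b : Fin K) (c : Bool) (a : Pos K) :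
    flp b.succ (Fin.cons (α := fun _ => Bool) c a : Pos (K + 1))
      = Fin.cons (α := fun _ => Bool) c (flp b a) := by
  unfold flp
  rw [Fin.cons_update, Fin.cons_succ]

private lemma flp0_Ben {K : ℕ} (c : Bool) (a : Pos K) :
    flp 0 (Fin.cons (α := fun _ => Bool) c a : Pos (K + 1))
      = Fin.cons (α := fun _ => Bool) (!c) a := by
  unfold flp
  rw [Fin.cons_zero]
  exact Fin.update_cons_zero _ _ _

private lemma tail_clr0_Ben {K : ℕ} (c : Bool) (a : Pos K) :
    Fin.tail (clr 0 (Fin.cons (α := fun _ => Bool) c a : Pos (K + 1))) = a := by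
  unfold clr
  rw [Fin.update_cons_zero, Fin.tail_cons]

/-- layers switching digit 0 -/
private lemma lay0_Ben {K : ℕ} (l : ℕ) (h : dm (K + 1) l = 0) (ρ : Pos K → Bool) (c : Bool)
    (a : Pos K) :
    lay (K + 1) l (fun q => ρ (Fin.tail q)) (Fin.cons (α := fun _ => Bool) c a : Pos (K + 1))
      = Fin.cons (α := fun _ => Bool) (c ^^ ρ a) a := by
  have h0 : dm (K + 1) l < K + 1 := by omega
  unfold lay
  rw [dif_pos h0]
  have h1 : (⟨dm (K + 1) l, h0⟩ : Fin (K + 1)) = 0 := by
    apply Fin.ext; simpa using h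
  rw [h1]
  beta_reduce
  rw [tail_clr0_Ben, flp0_Ben]
  cases ρ a <;> simp

/-- layers switching the other digits -/
private lemma layS_Ben {K : ℕ} (l : ℕ) (hl : l < 2 * K) (ρ : Bool → Pos K → Bool) (c : Bool)
    (a : Pos K) :
    lay (K + 1) (l + 1) (fun q => ρ (q 0) (Fin.tail q))
      (Fin.cons (α := fun _ => Bool) c a : Pos (K + 1))
      = Fin.cons (α := fun _ => Bool) c (lay K l (ρ c) a) := by
  have h0 : dm K l < K := by unfold dm; omega
  have h1 : dm (K + 1) (l + 1) = dm K l + 1 := by unfold dm; omega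
  have h2 : dm (K + 1) (l + 1) < K + 1 := by omega
  unfold lay
  rw [dif_pos h0, dif_pos h2]
  have h3 : (⟨dm (K + 1) (l + 1), h2⟩ : Fin (K + 1)) = (⟨dm K l, h0⟩ : Fin K).succ := by
    apply Fin.ext; simpa using h1
  rw [h3, clr_cons_Ben, flp_cons_Ben]
  beta_reduce
  rw [Fin.cons_zero, Fin.tail_cons]
  split_ifs <;> rfl

/-- the middle of the network -/
private lemma mid_Ben {K : ℕ} (S : ℕ → Pos (K + 1) → Bool) (τ : Pos K → Bool)
    (σ : Bool → ℕ → Pos K → Bool) (h0 : S 0 = fun q => τ (Fin.tail q))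
    (hS : ∀ l < 2 * K, S (l + 1) = fun q => σ (q 0) l (Fin.tail q)) (l : ℕ) (hl : l ≤ 2 * K) :
    ∀ (c : Bool) (a : Pos K),
    route (K + 1) S (l + 1) (Fin.cons (α := fun _ => Bool) c a : Pos (K + 1))
      = Fin.cons (α := fun _ => Bool) (c ^^ τ (route K (σ c) l a)) (route K (σ c) l a) := by
  induction l with
  | zero =>
    intro c a
    have e : route (K + 1) S (0 + 1) (Fin.cons (α := fun _ => Bool) c a : Pos (K + 1))
        = lay (K + 1) 0 (S 0) (Fin.cons (α := fun _ => Bool) c a : Pos (K + 1)) := rfl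
    rw [e, h0, lay0_Ben 0 (by unfold dm; omega) τ c a]
    rfl
  | succ l ih =>
    intro c a
    have e : route (K + 1) S (l + 1 + 1) (Fin.cons (α := fun _ => Bool) c a : Pos (K + 1))
        = route (K + 1) S (l + 1)
          (lay (K + 1) (l + 1) (S (l + 1)) (Fin.cons (α := fun _ => Bool) c a : Pos (K + 1))) := rfl
    rw [e, hS l (by omega), layS_Ben l (by omega) (fun c => σ c l) c a, ih (by omega)]
    rfl

theorem hBen (h : StBen1) : StBen := by
  intro K
  induction K with
  | zero =>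
    intro π
    refine ⟨fun _ _ => false, fun q => ?_⟩
    exact Subsingleton.elim _ _
  | succ K ih =>
    intro π
    -- the equivalence with the product
    let e : Pos (K + 1) ≃ Pos K × Bool :=
      { toFun := fun q => (Fin.tail q, q 0)
        invFun := fun x => Fin.cons (α := fun _ => Bool) x.2 x.1
        left_inv := fun q => Fin.cons_self_tail q
        right_inv := fun x => by
          show (Fin.tail (Fin.cons (α := fun _ => Bool) x.2 x.1 : Pos (K + 1)),
            (Fin.cons (α := fun _ => Bool) x.2 x.1 : Pos (K + 1)) 0) = x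
          rw [Fin.tail_cons, Fin.cons_zero] }
    obtain ⟨σ₀, τ₀, p, hp⟩ := h (Pos K) ((e.symm.trans π).trans e)
    choose σ hσ using fun c => ih (p c)
    let S : ℕ → Pos (K + 1) → Bool := fun l q =>
      if l = 0 then τ₀ (Fin.tail q) else if l = 2 * K + 1 then σ₀ (Fin.tail q)
      else σ (q 0) (l - 1) (Fin.tail q)
    refine ⟨S, ?_⟩
    have hS0 : S 0 = fun q => τ₀ (Fin.tail q) := by
      funext q; simp [S]
    have hSl : ∀ l < 2 * K, S (l + 1) = fun q => σ (q 0) l (Fin.tail q) := by
      intro l hl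
      funext q
      have h1 : ¬ (l + 1 = 2 * K + 1) := by omega
      simp only [S, Nat.add_eq_zero_iff, one_ne_zero, and_false, if_false, if_neg h1,
        Nat.add_sub_cancel]
    have hSe : S (2 * K + 1) = fun q => σ₀ (Fin.tail q) := by
      funext q
      simp [S]
    have key : ∀ (c : Bool) (a : Pos K),
        route (K + 1) S (2 * (K + 1)) (Fin.cons (α := fun _ => Bool) c a : Pos (K + 1))
          = π (Fin.cons (α := fun _ => Bool) c a : Pos (K + 1)) := by
      intro c a
      have e1 : route (K + 1) S (2 * (K + 1)) (Fin.cons (α := fun _ => Bool) c a : Pos (K + 1))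
        = route (K + 1) S (2 * K + 1) (lay (K + 1) (2 * K + 1) (S (2 * K + 1))
          (Fin.cons (α := fun _ => Bool) c a : Pos (K + 1))) := rfl
      rw [e1, hSe, lay0_Ben (2 * K + 1) (by unfold dm; omega) σ₀ c a,
        mid_Ben S τ₀ σ hS0 hSl (2 * K) le_rfl (c ^^ σ₀ a) a, hσ]
      have h2 := hp a (c ^^ σ₀ a)
      have h3 : ((c ^^ σ₀ a) ^^ σ₀ a) = c := by
        cases c <;> cases σ₀ a <;> rfl
      rw [h3] at h2
      have h4 : e (π (e.symm (a, c))) = (p (c ^^ σ₀ a) a, (c ^^ σ₀ a) ^^ τ₀ (p (c ^^ σ₀ a) a)) := h2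
      have h5 : π (e.symm (a, c)) = e.symm (p (c ^^ σ₀ a) a, (c ^^ σ₀ a) ^^ τ₀ (p (c ^^ σ₀ a) a)) := by
        rw [← h4, Equiv.symm_apply_apply]
      exact h5.symm
    intro q
    have := key (q 0) (Fin.tail q)
    rwa [Fin.cons_self_tail] at this

end Pool.Agent.Helper93.TS
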