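import Pool.Agent.Helper93.TS.StN

namespace Pool.Agent.Helper93.TS

theorem hBen1 : StBen1 := by
  intro α _ _ π
  classical
  -- Hall
  have hall : ∀ s : Finset α, s.card ≤
      (s.biUnion (fun a => ({(π (a, false)).1, (π (a, true)).1} : Finset α))).card := by
    intro s
    have h1 : ((s ×ˢ (Finset.univ : Finset Bool)).image π).card = s.card * 2 := by
      rw [Finset.card_image_of_injective _ π.injective, Finset.card_product]
      simp
    have h2 : (s ×ˢ (Finset.univ : Finset Bool)).image π ⊆
        (s.biUnion (fun a => ({(π (a, false)).1, (π (a, true)).1} : Finset α))) ×ˢ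
          (Finset.univ : Finset Bool) := by
      intro x hx
      rw [Finset.mem_image] at hx
      obtain ⟨⟨a, c⟩, hac, rfl⟩ := hx
      rw [Finset.mem_product] at hac
      rw [Finset.mem_product]
      refine ⟨?_, Finset.mem_univ _⟩
      rw [Finset.mem_biUnion]
      refine ⟨a, hac.1, ?_⟩
      cases c <;> simp
    have h3 := Finset.card_le_card h2
    rw [h1, Finset.card_product] at h3
    simp only [Finset.card_univ, Fintype.card_bool] at h3
    omega
  obtain ⟨f, hf, hft⟩ := (Finset.all_card_le_biUnion_card_iff_exists_injective _).1 hall
  have hb : ∀ a, ∃ c : Bool, f a = (π (a, c)).1 := by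
    intro a
    have := hft a
    simp only [Finset.mem_insert, Finset.mem_singleton] at this
    rcases this with h | h
    · exact ⟨false, h⟩
    · exact ⟨true, h⟩
  choose b hb using hb
  have i0 : Function.Injective (fun a => (π (a, b a)).1) := by
    intro x y hxy
    apply hf
    rw [hb x, hb y]
    exact hxy
  have b0 : Function.Bijective (fun a => (π (a, b a)).1) :=
    Finite.injective_iff_bijective.1 i0
  -- two different points with the same first component
  have key : ∀ u v w : α × Bool, (π u).1 = (π v).1 → (π u).1 = (π w).1 → u ≠ v → u ≠ w → v = w := by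
    intro u v w h1 h2 h3 h4
    by_contra h5
    have e3 : (π u).2 ≠ (π v).2 := fun h => h3 (π.injective (Prod.ext h1 h))
    have e4 : (π u).2 ≠ (π w).2 := fun h => h4 (π.injective (Prod.ext h2 h))
    have e5 : (π v).2 ≠ (π w).2 := fun h => h5 (π.injective (Prod.ext (h1.symm.trans h2) h))
    revert e3 e4 e5
    cases (π u).2 <;> cases (π v).2 <;> cases (π w).2 <;> simp
  have i1 : Function.Injective (fun a => (π (a, !b a)).1) := by
    intro x y hxy
    obtain ⟨z, hz⟩ := b0.2 ((π (x, !b x)).1)
    have n1 : ((z, b z) : α × Bool) ≠ (x, !b x) := by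
      intro h
      have e1 := congrArg Prod.fst h
      have e2 := congrArg Prod.snd h
      simp only at e1 e2
      subst e1
      cases hbz : b z <;> simp [hbz] at e2
    have n2 : ((z, b z) : α × Bool) ≠ (y, !b y) := by
      intro h
      have e1 := congrArg Prod.fst h
      have e2 := congrArg Prod.snd h
      simp only at e1 e2
      subst e1
      cases hbz : b z <;> simp [hbz] at e2
    have := key (z, b z) (x, !b x) (y, !b y) hz (hz.trans hxy) n1 n2
    exact congrArg Prod.fst this
  have bc : ∀ c : Bool, Function.Bijective (fun a => (π (a, c ^^ b a)).1) := by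
    intro c
    cases c
    · simpa using b0
    · have := Finite.injective_iff_bijective.1 i1
      simpa using this
  let p : Bool → Equiv.Perm α := fun c => Equiv.ofBijective _ (bc c)
  have hp : ∀ c a, p c a = (π (a, c ^^ b a)).1 := fun c a => rfl
  refine ⟨b, fun x => (π ((p false).symm x, b ((p false).symm x))).2, p, ?_⟩
  intro a c
  apply Prod.ext
  · rfl
  · show (π (a, c ^^ b a)).2 = (c ^^ (π ((p false).symm (p c a), b ((p false).symm (p c a)))).2)
    cases c with
    | false =>
      rw [Equiv.symm_apply_apply]
      simp
    | true =>
      set z := (p false).symm (p true a) with hz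
      have e1 : p false z = p true a := by rw [hz, Equiv.apply_symm_apply]
      rw [hp, hp] at e1
      have e2 : (π (z, b z)).1 = (π (a, true ^^ b a)).1 := by simpa using e1
      have n1 : ((z, b z) : α × Bool) ≠ (a, true ^^ b a) := by
        intro h
        have e1 := congrArg Prod.fst h
        have e2 := congrArg Prod.snd h
        simp only at e1 e2
        rw [← e1] at e2
        cases hbz : b z <;> simp [hbz] at e2
      have e3 : (π (z, b z)).2 ≠ (π (a, true ^^ b a)).2 :=
        fun h => n1 (π.injective (Prod.ext e2 h))
      revert e3
      cases (π (z, b z)).2 <;> cases (π (a, true ^^ b a)).2 <;> simp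

end Pool.Agent.Helper93.TS
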