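import Pool.Agent.Helper93.TS.StD

/-!
# Project TS, module CHK: the check of a tableau is in `Dc`.
-/

namespace Pool.Agent.Helper93.TS

/-- uniform representability of a family of transformations -/
private def UG (R : ℕ → ℕ → ℕ → ℕ → Word → (ℕ → Bool) → Word) : Prop :=
  ∃ D : ℕ, ∀ v τ β κ u : ℕ,
    RepP u (max u (v + τ + β + κ) + D) ((v + τ + β + κ + 2) ^ D) (R v τ β κ)

private theorem pw1 (b k : ℕ) (hb : 2 ≤ b) : k ≤ b ^ k :=
  (Nat.lt_two_pow_self (n := k)).le.trans (Nat.pow_le_pow_left hb k)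

private theorem pwm (b x y : ℕ) (hb : 2 ≤ b) (h : x ≤ y) : b ^ x ≤ b ^ y :=
  Nat.pow_le_pow_right (by omega) h

/-- `b ^ x + b ^ y + z ≤ b ^ (x + y + z + 2)` -/
private theorem pw3 (b x y z : ℕ) (hb : 2 ≤ b) : b ^ x + b ^ y + z ≤ b ^ (x + y + z + 2) := by
  have h1 := pwm b x (x + y + z) hb (by omega)
  have h2 := pwm b y (x + y + z) hb (by omega)
  have h3 := (pw1 b z hb).trans (pwm b z (x + y + z) hb (by omega))
  have h4 : b ^ (x + y + z + 2) = b ^ (x + y + z) * (b * b) := by ring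
  have h5 : 4 ≤ b * b := by nlinarith
  have h6 : b ^ (x + y + z) * 4 ≤ b ^ (x + y + z) * (b * b) := Nat.mul_le_mul_left _ h5
  omega

section

variable {C : ℕ} (hR : StRep C) (hC : 1 ≤ C)

include hR hC

private theorem ug_of {R : ℕ → ℕ → ℕ → ℕ → Word → (ℕ → Bool) → Word} (D : ℕ)
    (h : ∀ v τ β κ u : ℕ, ∃ v1 q, v1 ≤ max u (v + τ + β + κ) + D ∧
      q ≤ (v + τ + β + κ + 2) ^ D ∧ RepP u v1 q (R v τ β κ)) : UG R := by
  refine ⟨D + C + 4, fun v τ β κ u => ?_⟩
  obtain ⟨v1, q, h1, h2, h3⟩ := h v τ β κ u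
  refine hR.mono _ _ _ _ _ _ _ h3 le_rfl (by omega) ?_
  have := pw3 (v + τ + β + κ + 2) D 0 C (by omega)
  have h4 := pwm (v + τ + β + κ + 2) (D + 0 + C + 2) (D + C + 4) (by omega) (by omega)
  omega

private theorem ug_id : UG (fun _ _ _ _ w _ => w) := by
  refine ug_of hR hC C fun v τ β κ u => ⟨u, C, by omega, pw1 _ _ (by omega), hR.id u⟩

private theorem ug_fst : UG (fun _ _ _ _ w _ => fst w) := by
  refine ug_of hR hC C fun v τ β κ u => ⟨u + 1, C, by omega, pw1 _ _ (by omega), hR.fst u⟩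

private theorem ug_snd : UG (fun _ _ _ _ w _ => snd w) := by
  refine ug_of hR hC C fun v τ β κ u => ⟨u + 1, C, by omega, pw1 _ _ (by omega), hR.snd u⟩

private theorem ug_trk : UG (fun _ _ _ κ w _ => tr κ w) := by
  refine ug_of hR hC C fun v τ β κ u => ⟨κ, C, by omega, pw1 _ _ (by omega), hR.tr u κ⟩

private theorem ug_pair {R1 R2 : ℕ → ℕ → ℕ → ℕ → Word → (ℕ → Bool) → Word} (h1 : UG R1)
    (h2 : UG R2) : UG (fun v τ β κ w c => pair (R1 v τ β κ w c) (R2 v τ β κ w c)) := by
  obtain ⟨D1, h1⟩ := h1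
  obtain ⟨D2, h2⟩ := h2
  refine ug_of hR hC (D1 + D2 + 2 * C + 3) fun v τ β κ u => ?_
  have h := hR.pair u _ _ _ _ _ _ (h1 v τ β κ u) (h2 v τ β κ u)
  have h' := hR.mono _ _ u _ _ _ _ h (by omega) le_rfl le_rfl
  refine ⟨_, _, ?_, ?_, h'⟩
  · omega
  · have := pw3 (v + τ + β + κ + 2) D1 D2 (2 * C) (by omega)
    have h4 := pwm (v + τ + β + κ + 2) (D1 + D2 + 2 * C + 2) (D1 + D2 + 2 * C + 3) (by omega)
      (by omega)
    omega

private theorem ug_comp {R1 R2 : ℕ → ℕ → ℕ → ℕ → Word → (ℕ → Bool) → Word} (h1 : UG R1)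
    (h2 : UG R2) : UG (fun v τ β κ w c => R1 v τ β κ (R2 v τ β κ w c) c) := by
  obtain ⟨D1, h1⟩ := h1
  obtain ⟨D2, h2⟩ := h2
  refine ug_of hR hC ((D1 + D2 + 4) * C + D1 + D2) fun v τ β κ u => ?_
  have h := hR.comp u _ _ _ _ _ _ (h1 v τ β κ u) (h2 v τ β κ _)
  refine ⟨_, _, ?_, ?_, h⟩
  · omega
  · have := pw3 (v + τ + β + κ + 2) D1 D2 2 (by omega)
    calc ((v + τ + β + κ + 2) ^ D1 + (v + τ + β + κ + 2) ^ D2 + 2) ^ C
        ≤ ((v + τ + β + κ + 2) ^ (D1 + D2 + 2 + 2)) ^ C := Nat.pow_le_pow_left this C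
      _ = (v + τ + β + κ + 2) ^ ((D1 + D2 + 4) * C) := by rw [← pow_mul]
      _ ≤ _ := pwm _ _ _ (by omega) (by omega)

private theorem ug_sub (U B : ℕ → ℕ → ℕ → ℕ → ℕ) (P : ℕ → ℕ → ℕ → ℕ → ℕ → Fm ℕ) (D : ℕ)
    (h1 : ∀ v τ β κ, U v τ β κ + B v τ β κ ≤ v + τ + β + κ + D)
    (h2 : ∀ v τ β κ, ∀ j < U v τ β κ, (P v τ β κ j).size ≤ (v + τ + β + κ + 2) ^ D) :
    UG (fun v τ β κ w c => sub (U v τ β κ) (B v τ β κ) (fun j => (P v τ β κ j).eval c) w) := by
  refine ug_of hR hC (D + C + 3) fun v τ β κ u => ?_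
  refine ⟨_, _, ?_, ?_, hR.sub u _ _ _ _ (h2 v τ β κ)⟩
  · have := h1 v τ β κ
    omega
  · have := pw3 (v + τ + β + κ + 2) D 0 C (by omega)
    have h4 := pwm (v + τ + β + κ + 2) (D + 0 + C + 2) (D + C + 3) (by omega) (by omega)
    omega

private theorem ug_congr {R R' : ℕ → ℕ → ℕ → ℕ → Word → (ℕ → Bool) → Word} (h : UG R)
    (he : ∀ v τ β κ w c, R v τ β κ w c = R' v τ β κ w c) : UG R' := by
  obtain ⟨D, h⟩ := h
  refine ⟨D, fun v τ β κ u => hR.congr _ _ _ _ _ (h v τ β κ u) fun w c a _ => by rw [he]⟩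

/-- the record of the gate, as a transformation -/
private theorem ug_rec : UG (fun _ τ β κ w c =>
    sub β (β + 2) (fun j => c (τ + j)) (tr κ (fst (fst w)))) := by
  refine ug_of hR hC ((((1 + C + C + 2) ^ C + C + 2) ^ C + C + 2) ^ C + 2) fun v τ β κ u => ?_
  have hs := hR.sub u β (β + 2) 1 (fun j => Fm.var (τ + j)) (fun j _ => by simp)
  have ht := hR.tr (β + (β + 2)) κ
  have hf := hR.fst κ
  have hf2 := hR.fst (κ + 1)
  have h1 := hR.comp _ _ _ _ _ _ _ hs ht
  have h2 := hR.comp _ _ _ _ _ _ _ h1 hf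
  have h3 := hR.comp _ _ _ _ _ _ _ h2 hf2
  refine ⟨_, _, ?_, ?_, h3⟩
  · omega
  · exact (pw1 (v + τ + β + κ + 2) _ (by omega)).trans (pwm _ _ _ (by omega) (by omega))

end

/-- digits of the time -/
private def tf (τ : ℕ) (j : ℕ) : Fm ℕ := if j < τ then Fm.var j else Fm.ff

private theorem tf_eval (τ : ℕ) (c : ℕ → Bool) (j : ℕ) : (tf τ j).eval c = trunc τ c j := by
  unfold tf trunc
  split_ifs with h <;> simp [h]

private theorem tf_size (τ j : ℕ) : (tf τ j).size ≤ 3 := by
  unfold tf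
  split_ifs <;> simp

/-- first stage -/
private def R1 (_ τ β κ : ℕ) (w : Word) (c : ℕ → Bool) : Word :=
  pair w (pair (sub β (β + 2) (fun j => c (τ + j)) (tr κ (fst (fst w))))
    (pair (sub (τ + 1) β (trunc τ c) (snd (snd (snd (fst w)))))
      (pair (sub (τ + 1 + β) 0 (cat (τ + 1) (trunc τ c) (fun j => c (τ + j)))
          (snd (snd (snd (fst w)))))
        (sub (τ + 1 + β) 0 (cat (τ + 1) (inc (trunc τ c)) (fun j => c (τ + j)))
          (snd (snd (snd (fst w))))))))

/-- parameters of the second stage -/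
private def L2 (w : Word) : Word := pair (fst (fst (fst (snd w)))) (fst (snd (fst (snd w))))

/-- second stage -/
private def R2 (_ _ β _ : ℕ) (w : Word) (c : ℕ → Bool) : Word :=
  pair w (pair (sub β 0 (fun j => c (2 * j)) (fst (snd (snd w))))
    (pair (sub β 0 (fun j => c (2 * j + 1)) (fst (snd (snd w))))
      (sub β 0 (fun j => c (2 * j)) (snd (fst w)))))

/-- parameters of the third stage -/
private def L3 (w : Word) : Word := fst (snd (snd (fst w)))

/-- third stage -/
private def R3 (v _ _ κ : ℕ) (w : Word) (c : ℕ → Bool) : Word :=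
  pair w (sub v 0 c (pair (tr κ (fst (fst (fst (fst w)))))
    (pair (fst (snd (fst (fst (fst w))))) (fst (snd (snd (fst (fst (fst w)))))))))

section

variable {C : ℕ} (hR : StRep C) (hC : 1 ≤ C)

include hR hC

private theorem ug_W : UG (fun _ _ _ _ w _ => snd (snd (snd (fst w)))) := by
  have hs := ug_snd hR hC
  have hf := ug_fst hR hC
  exact ug_comp hR hC hs (ug_comp hR hC hs (ug_comp hR hC hs hf))

private theorem ug_R1 : UG R1 := by
  have hW := ug_W hR hC
  refine ug_pair hR hC (ug_id hR hC) (ug_pair hR hC (ug_rec hR hC) (ug_pair hR hC ?_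
    (ug_pair hR hC ?_ ?_)))
  · have h := ug_sub hR hC (fun _ τ _ _ => τ + 1) (fun _ _ β _ => β) (fun _ τ _ _ j => tf τ j) 5
      (fun v τ β κ => by omega) (fun v τ β κ j _ => (tf_size τ j).trans
        ((show 3 ≤ 2 ^ 5 by norm_num).trans (Nat.pow_le_pow_left (by omega) 5)))
    refine ug_congr hR hC (ug_comp hR hC h hW) fun v τ β κ w c => ?_
    simp only [tf_eval]
  · have h := ug_sub hR hC (fun _ τ β _ => τ + 1 + β) (fun _ _ _ _ => 0)
      (fun _ τ _ _ j => if j < τ + 1 then tf τ j else Fm.var (τ + (j - (τ + 1)))) 5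
      (fun v τ β κ => by omega) (fun v τ β κ j _ => by
        refine le_trans (b := 3) ?_
          ((show 3 ≤ 2 ^ 5 by norm_num).trans (Nat.pow_le_pow_left (by omega) 5))
        split_ifs
        · exact tf_size τ j
        · simp)
    refine ug_congr hR hC (ug_comp hR hC h hW) fun v τ β κ w c => ?_
    congr 1
    funext j
    unfold cat
    split_ifs
    · exact tf_eval _ _ _
    · rfl
  · have h := ug_sub hR hC (fun _ τ β _ => τ + 1 + β) (fun _ _ _ _ => 0)
      (fun _ τ _ _ j => if j < τ + 1 then Fm.incF (tf τ) j else Fm.var (τ + (j - (τ + 1)))) 5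
      (fun v τ β κ => by omega) (fun v τ β κ j _ => by
        have h1 : 12 * τ + 15 ≤ (v + τ + β + κ + 2) ^ 5 := by
          have h2 : 2 ^ 4 * (v + τ + β + κ + 2) ≤ (v + τ + β + κ + 2) ^ 4 * (v + τ + β + κ + 2) :=
            Nat.mul_le_mul_right _ (Nat.pow_le_pow_left (by omega) 4)
          have h3 : (v + τ + β + κ + 2) ^ 4 * (v + τ + β + κ + 2) = (v + τ + β + κ + 2) ^ 5 :=
            (pow_succ _ _).symm
          omega
        refine le_trans ?_ h1
        split_ifs with hj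
        · have := Fm.size_incF_le (tf τ) j 3 (fun i _ => tf_size τ i)
          omega
        · rw [Fm.size_var]
          omega)
    refine ug_congr hR hC (ug_comp hR hC h hW) fun v τ β κ w c => ?_
    congr 1
    funext j
    unfold cat
    split_ifs
    · rw [Fm.eval_incF]
      simp only [tf_eval]
      rfl
    · rfl

private theorem ug_L1 : UG (fun _ _ _ _ w _ => snd w) := ug_snd hR hC

private theorem ug_L2 : UG (fun _ _ _ _ w _ => L2 w) := by
  have hs := ug_snd hR hC
  have hf := ug_fst hR hC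
  exact ug_pair hR hC
    (ug_comp hR hC hf (ug_comp hR hC hf (ug_comp hR hC hf hs)))
    (ug_comp hR hC hf (ug_comp hR hC hs (ug_comp hR hC hf hs)))

private theorem ug_L3 : UG (fun _ _ _ _ w _ => L3 w) := by
  have hs := ug_snd hR hC
  have hf := ug_fst hR hC
  exact ug_comp hR hC hf (ug_comp hR hC hs (ug_comp hR hC hs hf))

private theorem ug_R2 : UG R2 := by
  have hs := ug_snd hR hC
  have hf := ug_fst hR hC
  have hRow := ug_comp hR hC hf (ug_comp hR hC hs hs)
  have hI := ug_comp hR hC hs hf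
  have h2 := ug_sub hR hC (fun _ _ β _ => β) (fun _ _ _ _ => 0) (fun _ _ _ _ j => Fm.var (2 * j))
    0 (fun v τ β κ => by omega) (fun v τ β κ j _ => by simp)
  have h3 := ug_sub hR hC (fun _ _ β _ => β) (fun _ _ _ _ => 0)
    (fun _ _ _ _ j => Fm.var (2 * j + 1)) 0 (fun v τ β κ => by omega)
    (fun v τ β κ j _ => by simp)
  exact ug_pair hR hC (ug_id hR hC) (ug_pair hR hC (ug_comp hR hC h2 hRow)
    (ug_pair hR hC (ug_comp hR hC h3 hRow) (ug_comp hR hC h2 hI)))

private theorem ug_R3 : UG R3 := by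
  have hs := ug_snd hR hC
  have hf := ug_fst hR hC
  have h0 := ug_comp hR hC hf (ug_comp hR hC hf (ug_comp hR hC hf hf))
  have h1 := ug_comp hR hC (ug_trk hR hC) h0
  have h00 := ug_comp hR hC hf (ug_comp hR hC hf hf)
  have hy := ug_comp hR hC hf (ug_comp hR hC hs h00)
  have hz := ug_comp hR hC hf (ug_comp hR hC hs (ug_comp hR hC hs h00))
  have h2 := ug_sub hR hC (fun v _ _ _ => v) (fun _ _ _ _ => 0) (fun _ _ _ _ j => Fm.var j)
    0 (fun v τ β κ => by omega) (fun v τ β κ j _ => by simp)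
  exact ug_pair hR hC (ug_id hR hC) (ug_comp hR hC h2 (ug_pair hR hC h1 (ug_pair hR hC hy hz)))

end

/-- a family of predicates in `Dc` -/
private def UD (k : ℕ) (f : ℕ → ℕ → ℕ → ℕ → Word → Prop) : Prop :=
  ∃ D : ℕ, ∀ v τ β κ : ℕ, Dc (v + τ + β + κ + D) (Nat.clog 2 (v + τ + β + 2) + 4 + k)
    ((v + τ + β + κ + 2) ^ D) (f v τ β κ)

private theorem lam_le (v τ β : ℕ) : Nat.clog 2 (v + τ + β + 2) ≤ v + τ + β + 2 :=
  Nat.clog_le_of_le_pow (Nat.lt_two_pow_self).le

private theorem le_lam (v τ β : ℕ) :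
    16 * (v + τ + β + 2) ≤ 2 ^ (Nat.clog 2 (v + τ + β + 2) + 4) := by
  have h := Nat.le_pow_clog (b := 2) (by norm_num) (v + τ + β + 2)
  rw [pow_add]
  omega

private theorem lam_pow (v τ β : ℕ) :
    2 ^ (Nat.clog 2 (v + τ + β + 2) + 4) ≤ 32 * (v + τ + β + 2) := by
  have h1 : 2 ^ (Nat.clog 2 (v + τ + β + 2)).pred < v + τ + β + 2 :=
    Nat.pow_pred_clog_lt_self (by norm_num) (by omega)
  have h0 : 0 < Nat.clog 2 (v + τ + β + 2) := Nat.clog_pos (by norm_num) (by omega)
  obtain ⟨k, hk⟩ : ∃ k, Nat.clog 2 (v + τ + β + 2) = k + 1 := ⟨_, (Nat.succ_pred_eq_of_pos h0).symm⟩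
  rw [hk] at h1 ⊢
  simp only [Nat.pred_succ] at h1
  have : 2 ^ (k + 1 + 4) = 32 * 2 ^ k := by ring
  omega

private theorem ud_ld {C : ℕ} (hR : StRep C) (hC : 1 ≤ C) (hL : StLD) {k : ℕ}
    {f : ℕ → ℕ → ℕ → ℕ → Word → Prop} {R : ℕ → ℕ → ℕ → ℕ → Word → (ℕ → Bool) → Word}
    {L : Word → Word} (hf : UD k f) (h1 : UG R) (h2 : UG (fun _ _ _ _ w _ => L w)) :
    UD (k + 1) (fun v τ β κ w => f v τ β κ (R v τ β κ w (fun j =>
      decide (j < 2 ^ (Nat.clog 2 (v + τ + β + 2) + 4)) && L w (bin j)))) := by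
  obtain ⟨D, hf⟩ := hf
  obtain ⟨D1, h1⟩ := h1
  obtain ⟨D2, h2⟩ := h2
  obtain ⟨E, hL⟩ := hL
  refine ⟨(D + D1 + D2 + C + k + 20) * E + (D + D1 + D2 + 6), fun v τ β κ => ?_⟩
  beta_reduce
  have hl1 : Nat.clog 2 (v + τ + β + 2) + 4 ≤ v + τ + β + 6 := by
    have := lam_le v τ β
    omega
  have hl2 := lam_pow v τ β
  have hl3 := le_lam v τ β
  have g0 := hf v τ β κ
  have g1 := h1 v τ β κ (v + τ + β + κ + D)
  have g2 := h2 v τ β κ (Nat.clog 2 (v + τ + β + 2) + 4)
  generalize Nat.clog 2 (v + τ + β + 2) + 4 = lam at *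
  generalize hn : v + τ + β + κ + 2 = n at *
  have hn2 : 2 ≤ n := by omega
  have e1 := hR.mono _ _ (v + τ + β + κ + D)
    (v + τ + β + κ + ((D + D1 + D2 + C + k + 20) * E + (D + D1 + D2 + 6))) _
    (n ^ D1 + n ^ D2 + C) _ g1 le_rfl (by omega) (by omega)
  have e2 := hR.mono _ _ lam
    (v + τ + β + κ + ((D + D1 + D2 + C + k + 20) * E + (D + D1 + D2 + 6))) _
    (n ^ D1 + n ^ D2 + C) _ g2 le_rfl (by omega) (by omega)
  have h := hL _ (lam + k) _ _ lam (n ^ D1 + n ^ D2 + C) _ _ _ g0 e1 e2 (by omega)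
  have hb : (n ^ D + (n ^ D1 + n ^ D2 + C) + 2 ^ lam + (lam + k) + 2) ≤
      n ^ (D + D1 + D2 + C + k + 20) := by
    have a1 := pwm n D (D + D1 + D2 + C + k + 8) hn2 (by omega)
    have a2 := pwm n D1 (D + D1 + D2 + C + k + 8) hn2 (by omega)
    have a3 := pwm n D2 (D + D1 + D2 + C + k + 8) hn2 (by omega)
    have a4 := (pw1 n C hn2).trans (pwm n C (D + D1 + D2 + C + k + 8) hn2 (by omega))
    have a5 := (pw1 n k hn2).trans (pwm n k (D + D1 + D2 + C + k + 8) hn2 (by omega))
    have a6 : 64 * n ≤ n ^ (D + D1 + D2 + C + k + 8) := by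
      calc 64 * n = 2 ^ 6 * n := by norm_num
        _ ≤ n ^ 6 * n := Nat.mul_le_mul_right _ (Nat.pow_le_pow_left hn2 6)
        _ = n ^ 7 := (pow_succ _ _).symm
        _ ≤ _ := pwm _ _ _ hn2 (by omega)
    have a7 : n ^ (D + D1 + D2 + C + k + 20) = n ^ (D + D1 + D2 + C + k + 8) * n ^ 12 := by
      rw [← pow_add]
    have a8 : 2 ^ 12 ≤ n ^ 12 := Nat.pow_le_pow_left hn2 12
    have a9 : n ^ (D + D1 + D2 + C + k + 8) * 2 ^ 12 ≤
      n ^ (D + D1 + D2 + C + k + 8) * n ^ 12 := Nat.mul_le_mul_left _ a8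
    rw [← a7] at a9
    omega
  refine h.mono_s ?_
  calc _ ≤ (n ^ (D + D1 + D2 + C + k + 20)) ^ E := Nat.pow_le_pow_left hb E
    _ = n ^ ((D + D1 + D2 + C + k + 20) * E) := (pow_mul _ _ _).symm
    _ ≤ _ := pwm _ _ _ hn2 (by omega)

/-- the bits read off the final word -/
private def B4 (β τ : ℕ) (w : Word) : Bits :=
  { k0 := snd (fst (fst (snd (fst (fst w))))) zero
    k1 := snd (snd (fst (snd (fst (fst w))))) zero
    va := fst (snd (fst w)) zero
    vb := fst (snd (snd (fst w))) zero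
    vg := fst (snd (snd (snd (fst (fst w))))) zero
    vn := snd (snd (snd (snd (fst (fst w))))) zero
    vr := snd w zero
    ct := snd (snd (snd (fst w))) zero
    az := decide (∀ j < β, fst (fst (fst (snd (fst (fst w))))) (bin j) = false)
    tz := decide (∀ j < τ, snd (fst (fst (fst w))) (bin j) = false) }

/-- the final predicate -/
private def P4 (v τ β _ : ℕ) (w : Word) : Prop :=
  ¬ ((B4 β τ w).ok = true ∧ fin v β τ (snd (snd (snd (fst (fst (fst (fst w)))))) ) = true)

/-- prefix of an address -/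
private def pf (l : List Bool) (a : Addr) : Addr := l.foldr acons a

/-- the addresses needed -/
private noncomputable def A4 (v τ β : ℕ) : ℕ → Addr
  | 0 => pf [false, false, true, false, false, true] zero
  | 1 => pf [false, false, true, false, true, true] zero
  | 2 => pf [false, true, false] zero
  | 3 => pf [false, true, true, false] zero
  | 4 => pf [false, false, true, true, true, false] zero
  | 5 => pf [false, false, true, true, true, true] zero
  | 6 => pf [true] zero
  | 7 => pf [false, true, true, true] zero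
  | 8 => pf [false, false, false, false, true, true, true]
      (cat (τ + 1) (bin (2 ^ τ)) (trunc β (bin v)))
  | j + 9 => if j < β then pf [false, false, true, false, false, false] (bin j)
      else pf [false, false, false, true] (bin (j - β))

/-- the formula -/
private def Ph (β τ : ℕ) : Fm ℕ :=
  let az := Fm.conjL ((List.range β).map fun j => (Fm.var (j + 9)).not)
  let tz := Fm.conjL ((List.range τ).map fun j => (Fm.var (β + j + 9)).not)
  let ok := Fm.ite (Fm.var 0)
    (Fm.ite (Fm.var 1) (Fm.iff (Fm.var 4) (Fm.ite az (Fm.var 6) Fm.tt))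
      (Fm.and (Fm.iff (Fm.var 5) (Fm.var 2)) (Fm.or tz.not (Fm.var 4).not)))
    (Fm.ite (Fm.var 1) (Fm.iff (Fm.var 4) (Fm.var 7))
      (Fm.iff (Fm.var 4) (Fm.nand (Fm.var 2) (Fm.var 3))))
  (Fm.and ok (Fm.var 8)).not

private theorem Ph_size (v τ β κ : ℕ) : (Ph β τ).size ≤ (v + τ + β + κ + 2) ^ 10 := by
  have h1 := Fm.size_conjL_le ((List.range β).map fun j => (Fm.var (j + 9)).not) 3 (by
    intro a ha
    simp only [List.mem_map, List.mem_range] at ha
    obtain ⟨j, hj, rfl⟩ := ha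
    simp)
  have h2 := Fm.size_conjL_le ((List.range τ).map fun j => (Fm.var (β + j + 9)).not) 3 (by
    intro a ha
    simp only [List.mem_map, List.mem_range] at ha
    obtain ⟨j, hj, rfl⟩ := ha
    simp)
  simp only [List.length_map, List.length_range] at h1 h2
  have h3 : 2 ^ 9 * (v + τ + β + κ + 2) ≤ (v + τ + β + κ + 2) ^ 9 * (v + τ + β + κ + 2) :=
    Nat.mul_le_mul_right _ (Nat.pow_le_pow_left (by omega) 9)
  have h4 : (v + τ + β + κ + 2) ^ 9 * (v + τ + β + κ + 2) = (v + τ + β + κ + 2) ^ 10 :=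
    (pow_succ _ _).symm
  simp only [Ph, Fm.size_not, Fm.size_and, Fm.size_ite, Fm.size_iff, Fm.size_or, Fm.size_var,
    Fm.size_tt, Fm.size_nand]
  omega

private theorem Ph_eval (v τ β κ : ℕ) (w : Word) :
    (Ph β τ).eval (fun j => decide (j < β + τ + 9) && w (A4 v τ β j)) = true ↔
      P4 v τ β κ w := by
  have haz : (Fm.conjL ((List.range β).map fun j => (Fm.var (j + 9)).not)).eval
      (fun j => decide (j < β + τ + 9) && w (A4 v τ β j)) = (B4 β τ w).az := by
    rw [Bool.eq_iff_iff, Fm.eval_conjL]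
    simp only [List.mem_map, List.mem_range, forall_exists_index, and_imp,
      forall_apply_eq_imp_iff₂, B4, decide_eq_true_eq]
    refine forall₂_congr fun j hj => ?_
    have : j < β + τ := by omega
    simp [A4, hj, this, pf, fst, snd]
  have htz : (Fm.conjL ((List.range τ).map fun j => (Fm.var (β + j + 9)).not)).eval
      (fun j => decide (j < β + τ + 9) && w (A4 v τ β j)) = (B4 β τ w).tz := by
    rw [Bool.eq_iff_iff, Fm.eval_conjL]
    simp only [List.mem_map, List.mem_range, forall_exists_index, and_imp,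
      forall_apply_eq_imp_iff₂, B4, decide_eq_true_eq]
    refine forall₂_congr fun j hj => ?_
    simp [A4, hj, pf, fst, snd]
  simp only [Ph, Fm.eval_not, Fm.eval_and, Fm.eval_ite, haz, htz, Fm.eval_iff, Fm.eval_var,
    Fm.eval_tt, Fm.eval_or, Fm.eval_nand]
  simp only [P4, Bits.ok]
  have e : ∀ j < 9, (decide (j < β + τ + 9) && w (A4 v τ β j)) = w (A4 v τ β j) := by
    intro j hj
    have : j < β + τ + 9 := by omega
    simp [this]
  rw [e 0 (by norm_num), e 1 (by norm_num), e 2 (by norm_num), e 3 (by norm_num),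
    e 4 (by norm_num), e 5 (by norm_num), e 6 (by norm_num), e 7 (by norm_num),
    e 8 (by norm_num)]
  have e0 : w (A4 v τ β 0) = (B4 β τ w).k0 := rfl
  have e1 : w (A4 v τ β 1) = (B4 β τ w).k1 := rfl
  have e2 : w (A4 v τ β 2) = (B4 β τ w).va := rfl
  have e3 : w (A4 v τ β 3) = (B4 β τ w).vb := rfl
  have e4 : w (A4 v τ β 4) = (B4 β τ w).vg := rfl
  have e5 : w (A4 v τ β 5) = (B4 β τ w).vn := rfl
  have e6 : w (A4 v τ β 6) = (B4 β τ w).vr := rfl
  have e7 : w (A4 v τ β 7) = (B4 β τ w).ct := rfl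
  have e8 : w (A4 v τ β 8) =
    fin v β τ (snd (snd (snd (fst (fst (fst (fst w))))))) := rfl
  rw [e0, e1, e2, e3, e4, e5, e6, e7, e8]
  have key : ∀ X Y : Bool, ((!(X && Y)) = true ↔ ¬ (X = true ∧ Y = true)) := by decide
  exact key _ _

private theorem supp_zero (v : ℕ) : Supp v zero := fun _ _ => rfl

private theorem supp_acons (v : ℕ) (b : Bool) (a : Addr) (h : Supp v a) :
    Supp (v + 1) (acons b a) := by
  intro i hi
  cases i with
  | zero => omega
  | succ i => exact h i (by omega)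

private theorem supp_pf (l : List Bool) (v : ℕ) (a : Addr) (h : Supp v a) :
    Supp (v + l.length) (pf l a) := by
  induction l with
  | nil => exact h
  | cons b l ih => exact supp_acons _ _ _ ih

private theorem supp_A4 (v τ β κ j : ℕ) (hj : j < β + τ + 9) :
    Supp (v + τ + β + κ + 20) (A4 v τ β j) := by
  have hz : ∀ l : List Bool, l.length ≤ 20 → Supp (v + τ + β + κ + 20) (pf l zero) := by
    intro l hl
    exact (supp_pf l 0 zero (supp_zero 0)).mono (by omega)
  unfold A4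
  split
  · exact hz _ (by simp)
  · exact hz _ (by simp)
  · exact hz _ (by simp)
  · exact hz _ (by simp)
  · exact hz _ (by simp)
  · exact hz _ (by simp)
  · exact hz _ (by simp)
  · exact hz _ (by simp)
  · have h1 : Supp (τ + 1 + β) (cat (τ + 1) (bin (2 ^ τ)) (trunc β (bin v))) := by
      intro i hi
      have h2 : ¬ i < τ + 1 := by omega
      have h3 : ¬ i - (τ + 1) < β := by omega
      simp [cat, h2, trunc, h3]
    exact (supp_pf [false, false, false, false, true, true, true] _ _ h1).mono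
      (by simp only [List.length_cons, List.length_nil]; omega)
  · rename_i j
    split_ifs with h
    · have h1 : Supp β (bin j) := supp_bin (h.trans Nat.lt_two_pow_self)
      exact (supp_pf _ _ _ h1).mono (by simp only [List.length_cons, List.length_nil]; omega)
    · have h1 : Supp τ (bin (j - β)) := supp_bin ((show j - β < τ by omega).trans
        Nat.lt_two_pow_self)
      exact (supp_pf _ _ _ h1).mono (by simp only [List.length_cons, List.length_nil]; omega)

private theorem ud_P4 (hT : StTab) : UD 1 P4 := by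
  obtain ⟨C, hT⟩ := hT
  refine ⟨20 * C + 20, fun v τ β κ => ?_⟩
  have hl2 := lam_pow v τ β
  have hl3 := le_lam v τ β
  have hs := Ph_size v τ β κ
  have he := Ph_eval v τ β κ
  generalize Nat.clog 2 (v + τ + β + 2) + 4 = lam at *
  have h := hT (v + τ + β + κ + (20 * C + 20)) lam (β + τ + 9) (A4 v τ β) (Ph β τ) (by omega)
    (fun j hj => (supp_A4 v τ β κ j hj).mono (by omega))
  refine (h.congr fun w => (he w).symm).mono_s ?_
  have hn32 : 2 ^ lam ≤ 32 * (v + τ + β + κ + 2) := by omega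
  have hn2 : 2 ≤ v + τ + β + κ + 2 := by omega
  generalize v + τ + β + κ + 2 = n at *
  have hb : (Ph β τ).size + 2 ^ lam + 2 ≤ n ^ 20 := by
    have a1 := pwm n 10 12 hn2 (by omega)
    have a2 : 32 * n ≤ n ^ 12 := by
      calc 32 * n = 2 ^ 5 * n := by norm_num
        _ ≤ n ^ 5 * n := Nat.mul_le_mul_right _ (Nat.pow_le_pow_left hn2 5)
        _ = n ^ 6 := (pow_succ _ _).symm
        _ ≤ _ := pwm _ _ _ hn2 (by omega)
    have a3 : n ^ 20 = n ^ 12 * n ^ 8 := by rw [← pow_add]
    have a4 : 2 ^ 8 ≤ n ^ 8 := Nat.pow_le_pow_left hn2 8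
    have a5 : n ^ 12 * 2 ^ 8 ≤ n ^ 12 * n ^ 8 := Nat.mul_le_mul_left _ a4
    rw [← a3] at a5
    omega
  calc _ ≤ (n ^ 20) ^ C := Nat.pow_le_pow_left hb C
    _ = n ^ (20 * C) := (pow_mul _ _ _).symm
    _ ≤ _ := pwm _ _ _ hn2 (by omega)

private theorem bin_two_mul (j : ℕ) : bin (2 * j) = acons false (bin j) := by
  funext i
  cases i with
  | zero => simp [bin]
  | succ i =>
    rw [acons_succ, bin_apply, bin_apply, Nat.testBit_succ]
    congr 1
    omega

private theorem bin_two_mul_add (j : ℕ) : bin (2 * j + 1) = acons true (bin j) := by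
  funext i
  cases i with
  | zero => simp [bin]
  | succ i =>
    rw [acons_succ, bin_apply, bin_apply, Nat.testBit_succ]
    congr 1
    omega

private theorem pair_f (x y : Word) (a : Addr) : pair x y (acons false a) = x a := by
  simp [pair]

private theorem pair_t (x y : Word) (a : Addr) : pair x y (acons true a) = y a := by
  simp [pair]

/-- parameters loaded from a word -/
private def pr (K : ℕ) (L : Word) : ℕ → Bool := fun j => decide (j < K) && L (bin j)

private theorem trunc_congr {k : ℕ} {a b : Addr} (h : ∀ j < k, a j = b j) :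
    trunc k a = trunc k b := by
  funext j
  by_cases hj : j < k
  · simp [trunc, hj, h j hj]
  · simp [trunc, hj]

private theorem sub_congr {U B : ℕ} {a b : Addr} (h : ∀ j < U, a j = b j) (y : Word) :
    sub U B a y = sub U B b y := by
  funext x
  unfold sub
  congr 1
  funext j
  by_cases hj : j < U
  · simp [cat, hj, h j hj]
  · simp [cat, hj]

private theorem sub_zero_block {U : ℕ} (a b : Addr) (h : ∀ j < U, a j = b j) (y : Word) :
    sub U 0 a y zero = y (trunc U b) := by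
  unfold sub
  congr 1
  funext j
  by_cases hj : j < U
  · simp [cat, trunc, hj, h j hj]
  · simp [cat, trunc, hj]

private theorem trunc_cat (U B : ℕ) (a g : Addr) :
    trunc (U + B) (cat U a g) = cat U a (trunc B (trunc B g)) := by
  funext j
  by_cases hj : j < U
  · have : j < U + B := by omega
    simp [cat, trunc, hj, this]
  · by_cases hj2 : j - U < B
    · have : j < U + B := by omega
      simp [cat, trunc, hj, this, hj2]
    · have : ¬ j < U + B := by omega
      simp [cat, trunc, hj, this, hj2]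

private theorem look_f (β K : ℕ) (hK : 2 * β ≤ K) (A B X : Word) :
    sub β 0 (fun j => pr K (pair A B) (2 * j)) X zero = look β A X := by
  refine sub_zero_block _ (idx A) (fun j hj => ?_) X
  have : 2 * j < K := by omega
  simp only [pr, this, decide_true, Bool.true_and, bin_two_mul, pair_f, idx]

private theorem look_t (β K : ℕ) (hK : 2 * β ≤ K) (A B X : Word) :
    sub β 0 (fun j => pr K (pair A B) (2 * j + 1)) X zero = look β B X := by
  refine sub_zero_block _ (idx B) (fun j hj => ?_) X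
  have : 2 * j + 1 < K := by omega
  simp only [pr, this, decide_true, Bool.true_and, bin_two_mul_add, pair_t, idx]

private theorem look_r (v K : ℕ) (hK : v ≤ K) (A X : Word) :
    sub v 0 (pr K A) X zero = look v A X := by
  refine sub_zero_block _ (idx A) (fun j hj => ?_) X
  have : j < K := by omega
  simp only [pr, this, decide_true, Bool.true_and, idx]

/-- the three stages together -/
private theorem stages (v τ β κ K : ℕ) (hK : v + τ + 2 * β + 2 ≤ K) (w : Word) :
    P4 v τ β κ (R3 v τ β κ (R2 v τ β κ (R1 v τ β κ w (pr K (snd w)))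
      (pr K (L2 (R1 v τ β κ w (pr K (snd w))))))
      (pr K (L3 (R2 v τ β κ (R1 v τ β κ w (pr K (snd w)))
      (pr K (L2 (R1 v τ β κ w (pr K (snd w))))))))) ↔
    (let x := tr κ (fst (fst w))
    let y := fst (snd (fst w))
    let z := fst (snd (snd (fst w)))
    let W := snd (snd (snd (fst w)))
    ¬ ((bits v β τ x (pair x (pair y z)) W (snd w)).ok = true ∧ fin v β τ W = true)) := by
  have hc : ∀ j < τ + β, pr K (snd w) j = idx (snd w) j := by
    intro j hj
    have : j < K := by omega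
    simp [pr, idx, this]
  have ht : trunc τ (pr K (snd w)) = trunc τ (idx (snd w)) := trunc_congr fun j hj =>
    hc j (by omega)
  have hrec : sub β (β + 2) (fun j => pr K (snd w) (τ + j)) (tr κ (fst (fst w))) =
      sub β (β + 2) (fun j => idx (snd w) (τ + j)) (tr κ (fst (fst w))) :=
    sub_congr (fun j hj => hc _ (by omega)) _
  have hg : ∀ t : Addr, ∀ W : Word,
      sub (τ + 1 + β) 0 (cat (τ + 1) t (fun j => pr K (snd w) (τ + j))) W zero =
      sub (τ + 1) β t W (trunc β fun j => idx (snd w) (τ + j)) := by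
    intro t W
    rw [sub_zero_block _ (cat (τ + 1) t (fun j => idx (snd w) (τ + j))), trunc_cat]
    · rfl
    · intro j hj
      by_cases h : j < τ + 1
      · simp [cat, h]
      · have := hc (τ + (j - (τ + 1))) (by omega)
        simp [cat, h, this]
  have hB : B4 β τ (R3 v τ β κ (R2 v τ β κ (R1 v τ β κ w (pr K (snd w)))
      (pr K (L2 (R1 v τ β κ w (pr K (snd w))))))
      (pr K (L3 (R2 v τ β κ (R1 v τ β κ w (pr K (snd w)))
      (pr K (L2 (R1 v τ β κ w (pr K (snd w))))))))) =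
      bits v β τ (tr κ (fst (fst w))) (pair (tr κ (fst (fst w)))
        (pair (fst (snd (fst w))) (fst (snd (snd (fst w)))))) (snd (snd (snd (fst w))))
        (snd w) := by
    simp only [B4, R3, R2, R1, L2, L3, fst_pair, snd_pair, hrec, ht, hg,
      look_f β K (by omega), look_t β K (by omega), look_r v K (by omega)]
    rfl
  have hF : snd (snd (snd (fst (fst (fst (fst (R3 v τ β κ (R2 v τ β κ (R1 v τ β κ w
      (pr K (snd w))) (pr K (L2 (R1 v τ β κ w (pr K (snd w))))))
      (pr K (L3 (R2 v τ β κ (R1 v τ β κ w (pr K (snd w)))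
      (pr K (L2 (R1 v τ β κ w (pr K (snd w))))))))))))))) = snd (snd (snd (fst w))) := by
    simp only [R3, R2, R1, fst_pair]
  unfold P4
  rw [hB, hF]

theorem hChk (h1 : StTab) (h2 : StLD) (h3 : StRepC) (h4 : StMono) : StChk := by
  obtain ⟨C, hC, hR⟩ := h3
  have u1 := ud_P4 h1
  have u2 := ud_ld hR hC h2 u1 (ug_R3 hR hC) (ug_L3 hR hC)
  have u3 := ud_ld hR hC h2 u2 (ug_R2 hR hC) (ug_L2 hR hC)
  have u4 := ud_ld hR hC h2 u3 (ug_R1 hR hC) (ug_L1 hR hC)
  obtain ⟨D, hD⟩ := u4
  obtain ⟨M, hM⟩ := h4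
  refine ⟨(D + 2 * M + 30) * M + D + 10, fun v τ β κ => ?_⟩
  have g := hD v τ β κ
  beta_reduce at g
  have hK : v + τ + 2 * β + 2 ≤ 2 ^ (Nat.clog 2 (v + τ + β + 2) + 4) := by
    have := le_lam v τ β
    omega
  have g' := g.congr (g := fun w =>
    let x := tr κ (fst (fst w))
    let y := fst (snd (fst w))
    let z := fst (snd (snd (fst w)))
    let W := snd (snd (snd (fst w)))
    ¬ ((bits v β τ x (pair x (pair y z)) W (snd w)).ok = true ∧ fin v β τ W = true))
    (fun w => (stages v τ β κ _ hK w).symm)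
  have hl := lam_le v τ β
  generalize hcl : Nat.clog 2 (v + τ + β + 2) = cl at *
  have g2 := hM _ (v + τ + β + κ + ((D + 2 * M + 30) * M + D + 10)) _
    (cl + ((D + 2 * M + 30) * M + D + 10)) _ _ g' (by omega) (by omega)
  refine g2.mono_s ?_
  have hn2 : 2 ≤ v + τ + β + κ + 2 := by omega
  have hcl2 : cl ≤ v + τ + β + κ + 2 := by omega
  generalize v + τ + β + κ + 2 = n at *
  have hb : n ^ D + (cl + ((D + 2 * M + 30) * M + D + 10)) + 2 ≤ n ^ (D + 2 * M + 30) := by
    have a0 : (D + 2 * M + 30) * M + D + 12 ≤ n ^ (D + 2 * M + 20) := by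
      have b1 : D + 1 ≤ 2 ^ D := Nat.lt_two_pow_self
      have b2 : M + 1 ≤ 2 ^ M := Nat.lt_two_pow_self
      have b3 : 2 ^ (D + 2 * M + 20) = 2 ^ D * (2 ^ M * 2 ^ M) * 2 ^ 20 := by
        rw [← pow_add, ← pow_add, ← pow_add]
        congr 1
        omega
      have b4 : (D + 1) * ((M + 1) * (M + 1)) ≤ 2 ^ D * (2 ^ M * 2 ^ M) :=
        Nat.mul_le_mul b1 (Nat.mul_le_mul b2 b2)
      have b5 : (D + 2 * M + 30) * M + D + 12 ≤ (D + 1) * ((M + 1) * (M + 1)) * 2 ^ 20 := by
        nlinarith [Nat.zero_le (D * M), Nat.zero_le (D * M * M), Nat.zero_le (M * M)]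
      calc _ ≤ (D + 1) * ((M + 1) * (M + 1)) * 2 ^ 20 := b5
        _ ≤ 2 ^ D * (2 ^ M * 2 ^ M) * 2 ^ 20 := Nat.mul_le_mul_right _ b4
        _ = 2 ^ (D + 2 * M + 20) := b3.symm
        _ ≤ _ := Nat.pow_le_pow_left hn2 _
    have a1 := pwm n D (D + 2 * M + 20) hn2 (by omega)
    have a2 : n ≤ n ^ (D + 2 * M + 20) := Nat.le_self_pow (by omega) n
    have a3 : n ^ (D + 2 * M + 30) = n ^ (D + 2 * M + 20) * n ^ 10 := by rw [← pow_add]
    have a4 : 2 ^ 10 ≤ n ^ 10 := Nat.pow_le_pow_left hn2 10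
    have a5 : n ^ (D + 2 * M + 20) * 2 ^ 10 ≤ n ^ (D + 2 * M + 20) * n ^ 10 :=
      Nat.mul_le_mul_left _ a4
    rw [← a3] at a5
    omega
  calc _ ≤ (n ^ (D + 2 * M + 30)) ^ M := Nat.pow_le_pow_left hb M
    _ = n ^ ((D + 2 * M + 30) * M) := (pow_mul _ _ _).symm
    _ ≤ _ := pwm _ _ _ hn2 (by omega)

end Pool.Agent.Helper93.TS
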