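import Pool.Agent.Helper93.TS.StD

namespace Pool.Agent.Helper93.TS

private theorem tt_Chw (κ : ℕ) (x : Word) : tr κ (tr κ x) = tr κ x := by
  funext a
  simp only [tr]
  congr 1
  exact trunc_of_supp (supp_trunc κ a)

private theorem tr_of_supp_Chw {κ : ℕ} {x : Word} {a : Addr} (h : Supp κ a) : tr κ x a = x a := by
  simp only [tr]
  rw [trunc_of_supp h]

private theorem supp_cat_Chw (U β : ℕ) (I a : Addr) : Supp (U + β) (cat U I (trunc β a)) := by
  intro i hi
  have h1 : ¬ i < U := by omega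
  have h2 : ¬ i - U < β := by omega
  simp [cat, trunc, h1, h2]

private theorem sub_tr_Chw (U β : ℕ) (I : Addr) (W : Word) (κ : ℕ) (h : U + β = κ) :
    sub U β I (tr κ W) = sub U β I W := by
  subst h
  funext a
  simp only [sub]
  exact tr_of_supp_Chw (supp_cat_Chw U β I a)

private theorem inp_Chw (v : ℕ) (x y z : Word) (a : Addr) :
    pair x (pair (tr v y) (tr v z)) (trunc v a) = pair x (pair y z) (trunc v a) := by
  have hs : Supp v (atail (atail (trunc v a))) := by
    intro i hi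
    have h1 : ¬ i + 1 + 1 < v := by omega
    simp [atail, trunc, h1]
  simp only [pair]
  rw [tr_of_supp_Chw hs, tr_of_supp_Chw hs]

private theorem idx_Chw (k j : ℕ) (hj : j < k) (I : Word) : idx (tr k I) j = idx I j := by
  simp only [idx]
  exact tr_of_supp_Chw (supp_bin (hj.trans Nat.lt_two_pow_self))

private theorem bits_Chw (v β τ : ℕ) (x y z W I : Word) :
    bits v β τ x (pair x (pair (tr v y) (tr v z))) (tr (τ + 1 + β) W) (tr (τ + β) I) =
      bits v β τ x (pair x (pair y z)) W I := by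
  have ht : trunc τ (idx (tr (τ + β) I)) = trunc τ (idx I) := by
    funext i
    by_cases hi : i < τ
    · simp only [trunc]
      rw [idx_Chw (τ + β) i (by omega)]
    · simp [trunc, hi]
  have hg : ∀ i, i < β → idx (tr (τ + β) I) (τ + i) = idx I (τ + i) := fun i hi =>
    idx_Chw (τ + β) (τ + i) (by omega) I
  have hcat : ∀ b : Addr, cat β (fun j => idx (tr (τ + β) I) (τ + j)) b =
      cat β (fun j => idx I (τ + j)) b := by
    intro b
    funext i
    by_cases hi : i < β
    · rw [cat_of_lt _ _ hi, cat_of_lt _ _ hi, hg i hi]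
    · simp [cat, hi]
  have hrec : sub β (β + 2) (fun j => idx (tr (τ + β) I) (τ + j)) x =
      sub β (β + 2) (fun j => idx I (τ + j)) x := by
    funext a
    simp only [sub]
    rw [hcat]
  have htg : trunc β (fun j => idx (tr (τ + β) I) (τ + j)) = trunc β (fun j => idx I (τ + j)) := by
    funext i
    by_cases hi : i < β
    · simp only [trunc]
      rw [hg i hi]
    · simp [trunc, hi]
  have hrow : ∀ J : Addr, sub (τ + 1) β J (tr (τ + 1 + β) W) = sub (τ + 1) β J W := fun J =>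
    sub_tr_Chw (τ + 1) β J W _ rfl
  have hlook : ∀ A : Word, look β A (tr (τ + β) I) = look β A I := by
    intro A
    simp only [look]
    exact tr_of_supp_Chw ((supp_trunc β _).mono (by omega))
  have hlv : ∀ A : Word, look v A (pair x (pair (tr v y) (tr v z))) =
      look v A (pair x (pair y z)) := by
    intro A
    simp only [look]
    exact inp_Chw v x y z _
  have htz : (decide (∀ j < τ, idx (tr (τ + β) I) j = false)) =
      decide (∀ j < τ, idx I j = false) := by
    apply decide_eq_decide.2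
    constructor
    · intro h j hj
      rw [← idx_Chw (τ + β) j (by omega)]
      exact h j hj
    · intro h j hj
      rw [idx_Chw (τ + β) j (by omega)]
      exact h j hj
  unfold bits
  simp only [ht, hrec, htg, hrow, hlook, hlv, htz]

private theorem fin_Chw (v β τ : ℕ) (W : Word) : fin v β τ (tr (τ + 1 + β) W) = fin v β τ W := by
  simp only [fin]
  exact tr_of_supp_Chw (supp_cat_Chw _ _ _ _)

/-- the restriction of the word -/
private def R_Chw (v τ β κ : ℕ) (w : Word) : Word :=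
  pair (pair (tr κ (fst (fst w))) (pair (tr v (fst (snd (fst w))))
    (pair (tr v (fst (snd (snd (fst w))))) (tr (τ + 1 + β) (snd (snd (snd (fst w))))))))
    (tr (τ + β) (snd w))

private theorem rep_Chw {C : ℕ} (h : StRep C) : ∃ q : ℕ, ∀ v τ β κ V : ℕ,
    Rep V (max (max κ v) (τ + β) + 5) q (R_Chw v τ β κ) := by
  set q1 : ℕ := (C + C + 2) ^ C with hq1
  set q2 : ℕ := (q1 + C + 2) ^ C with hq2
  set q3 : ℕ := (q2 + C + 2) ^ C with hq3
  set q4 : ℕ := (q3 + C + 2) ^ C with hq4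
  have f1 : ∀ V k, RepP V (k + 1) q1 (fun w _ => tr k (fst w)) := fun V k =>
    h.comp V k (k + 1) C C (fun w _ => tr k w) (fun w _ => fst w) (h.tr V k) (h.fst k)
  have s1 : ∀ V k, RepP V (k + 1) q1 (fun w _ => tr k (snd w)) := fun V k =>
    h.comp V k (k + 1) C C (fun w _ => tr k w) (fun w _ => snd w) (h.tr V k) (h.snd k)
  -- x
  have x2 : ∀ V k, RepP V (k + 2) q2 (fun w _ => tr k (fst (fst w))) := fun V k =>
    h.comp V (k + 1) (k + 2) q1 C (fun w _ => tr k (fst w)) (fun w _ => fst w) (f1 V k)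
      (h.fst (k + 1))
  -- y
  have y2 : ∀ V k, RepP V (k + 2) q2 (fun w _ => tr k (fst (snd w))) := fun V k =>
    h.comp V (k + 1) (k + 2) q1 C (fun w _ => tr k (fst w)) (fun w _ => snd w) (f1 V k)
      (h.snd (k + 1))
  have y3 : ∀ V k, RepP V (k + 3) q3 (fun w _ => tr k (fst (snd (fst w)))) := fun V k =>
    h.comp V (k + 2) (k + 3) q2 C (fun w _ => tr k (fst (snd w))) (fun w _ => fst w) (y2 V k)
      (h.fst (k + 2))
  -- z
  have z3 : ∀ V k, RepP V (k + 3) q3 (fun w _ => tr k (fst (snd (snd w)))) := fun V k =>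
    h.comp V (k + 2) (k + 3) q2 C (fun w _ => tr k (fst (snd w))) (fun w _ => snd w) (y2 V k)
      (h.snd (k + 2))
  have z4 : ∀ V k, RepP V (k + 4) q4 (fun w _ => tr k (fst (snd (snd (fst w))))) := fun V k =>
    h.comp V (k + 3) (k + 4) q3 C (fun w _ => tr k (fst (snd (snd w)))) (fun w _ => fst w) (z3 V k)
      (h.fst (k + 3))
  -- W
  have w2 : ∀ V k, RepP V (k + 2) q2 (fun w _ => tr k (snd (snd w))) := fun V k =>
    h.comp V (k + 1) (k + 2) q1 C (fun w _ => tr k (snd w)) (fun w _ => snd w) (s1 V k)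
      (h.snd (k + 1))
  have w3 : ∀ V k, RepP V (k + 3) q3 (fun w _ => tr k (snd (snd (snd w)))) := fun V k =>
    h.comp V (k + 2) (k + 3) q2 C (fun w _ => tr k (snd (snd w))) (fun w _ => snd w) (w2 V k)
      (h.snd (k + 2))
  have w4 : ∀ V k, RepP V (k + 4) q4 (fun w _ => tr k (snd (snd (snd (fst w))))) := fun V k =>
    h.comp V (k + 3) (k + 4) q3 C (fun w _ => tr k (snd (snd (snd w)))) (fun w _ => fst w) (w3 V k)
      (h.fst (k + 3))
  set q : ℕ := (q2 + (q3 + (q4 + q4 + C) + C) + C) + q1 + C + C with hq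
  refine ⟨q, fun v τ β κ V => ?_⟩
  have p1 := h.pair V _ _ _ _ _ _ (z4 V v) (w4 V (τ + 1 + β))
  have p2 := h.pair (V + 1) _ _ _ _ _ _ (y3 (V + 1) v) p1
  have p3 := h.pair (V + 1 + 1) _ _ _ _ _ _ (x2 (V + 1 + 1) κ) p2
  have p4 := h.pair (V + 1 + 1 + 1) _ _ _ _ _ _ p3 (s1 (V + 1 + 1 + 1) (τ + β))
  exact h.mono _ _ V (max (max κ v) (τ + β) + 5) _ q _ p4 (by omega) (by omega) (by omega)

theorem hChw (h0 : StMono) (h1 : StChk) (h2 : StDR) (h3 : StRepC) : StChw := by
  obtain ⟨C0, h0⟩ := h0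
  obtain ⟨C1, h1⟩ := h1
  obtain ⟨C2, h2⟩ := h2
  obtain ⟨C3, -, h3⟩ := h3
  obtain ⟨q, hq⟩ := rep_Chw h3
  set D : ℕ := (C1 + (q + 2)) * C2 with hD
  set E : ℕ := (D + 1) * C0 with hE
  -- a large constant
  have hC : ∃ C : ℕ, 5 ≤ C ∧ C1 ≤ C ∧ (C + 4) ^ C0 * 2 ^ E ≤ 2 ^ C := by
    have ht := tendsto_pow_const_div_const_pow_of_one_lt C0 (r := (2 : ℝ)) (by norm_num)
    have he := ht.eventually (gt_mem_nhds (show (0 : ℝ) < 1 / 2 ^ (E + 4) by positivity))
    obtain ⟨N, hN⟩ := Filter.eventually_atTop.1 he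
    refine ⟨max (max 5 C1) N, by omega, by omega, ?_⟩
    set C := max (max 5 C1) N with hCdef
    have h5 := hN (C + 4) (by omega)
    rw [div_lt_div_iff₀ (by positivity) (by positivity), one_mul] at h5
    have h6 : ((C + 4) ^ C0 * 2 ^ (E + 4) : ℕ) < 2 ^ (C + 4) := by
      have : (((C + 4) ^ C0 * 2 ^ (E + 4) : ℕ) : ℝ) < ((2 ^ (C + 4) : ℕ) : ℝ) := by
        push_cast
        push_cast at h5
        exact h5
      exact_mod_cast this
    rw [pow_add, pow_add, ← mul_assoc] at h6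
    exact (Nat.lt_of_mul_lt_mul_right h6).le
  obtain ⟨C, hC5, hCC1, hCC⟩ := hC
  refine ⟨C, fun v τ β κ => ?_⟩
  have g1 := h1 v τ β κ
  have g2 := h2 _ _ _ _ _ _ _ g1 (hq v τ β κ _)
  have g3 := h0 _ (max (max κ v) (τ + β) + C) _ (Nat.clog 2 (v + τ + β + 2) + C) _ _ g2 (by omega)
    (by omega)
  have g4 := g3.congr (g := fun w =>
    let x := tr κ (fst (fst w))
    let y := fst (snd (fst w))
    let z := fst (snd (snd (fst w)))
    let W := snd (snd (snd (fst w)))
    ¬ ((bits v β τ x (pair x (pair y z)) W (snd w)).ok = true ∧ fin v β τ W = true)) (by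
      intro w
      simp only [R_Chw, fst_pair, snd_pair, tt_Chw, bits_Chw, fin_Chw])
  refine g4.mono_s ?_
  set B : ℕ := v + τ + β + κ + 2 with hB
  have hB2 : 2 ≤ B := by omega
  have hclog : Nat.clog 2 (v + τ + β + 2) ≤ B := by
    have : Nat.clog 2 (v + τ + β + 2) ≤ v + τ + β + 2 := by
      apply Nat.clog_le_of_le_pow
      exact Nat.lt_two_pow_self.le
    omega
  have e1 : B ^ C1 + q + 2 ≤ B ^ (C1 + (q + 2)) := by
    have a1 : q + 3 ≤ B ^ (q + 2) := by
      calc q + 3 ≤ 2 ^ (q + 2) := Nat.lt_two_pow_self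
        _ ≤ B ^ (q + 2) := Nat.pow_le_pow_left hB2 _
    have a2 : 1 ≤ B ^ C1 := Nat.one_le_pow _ _ (by omega)
    rw [pow_add]
    calc B ^ C1 + q + 2 ≤ B ^ C1 * (q + 3) := by nlinarith
      _ ≤ B ^ C1 * B ^ (q + 2) := Nat.mul_le_mul_left _ a1
  have e2 : (B ^ C1 + q + 2) ^ C2 ≤ B ^ D := by
    rw [hD, pow_mul]
    exact Nat.pow_le_pow_left e1 _
  have e3 : (B ^ C1 + q + 2) ^ C2 + (Nat.clog 2 (v + τ + β + 2) + C) + 2 ≤
      (C + 4) * B ^ (D + 1) := by
    have a1 : B ^ D ≤ B ^ (D + 1) := Nat.pow_le_pow_right (by omega) (by omega)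
    have a2 : B ≤ B ^ (D + 1) := Nat.le_self_pow (by omega) _
    nlinarith
  calc ((B ^ C1 + q + 2) ^ C2 + (Nat.clog 2 (v + τ + β + 2) + C) + 2) ^ C0
      ≤ ((C + 4) * B ^ (D + 1)) ^ C0 := Nat.pow_le_pow_left e3 _
    _ = (C + 4) ^ C0 * B ^ E := by rw [mul_pow, ← pow_mul]
    _ ≤ B ^ C := by
        have hEC : E ≤ C := by
          have : 2 ^ E ≤ 2 ^ C := le_trans (Nat.le_mul_of_pos_left _ (by positivity)) hCC
          exact (Nat.pow_le_pow_iff_right (by norm_num)).1 this
        have a1 : (C + 4) ^ C0 ≤ 2 ^ (C - E) := by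
          have : (C + 4) ^ C0 * 2 ^ E ≤ 2 ^ (C - E) * 2 ^ E := by
            rw [← pow_add, Nat.sub_add_cancel hEC]
            exact hCC
          exact Nat.le_of_mul_le_mul_right this (by positivity)
        calc (C + 4) ^ C0 * B ^ E ≤ B ^ (C - E) * B ^ E :=
              Nat.mul_le_mul_right _ (a1.trans (Nat.pow_le_pow_left hB2 _))
          _ = B ^ C := by rw [← pow_add, Nat.sub_add_cancel hEC]

end Pool.Agent.Helper93.TS
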