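import Pool.Agent.Helper93.TS.StM

/-!
# Project TS, module Compl: the complement
-/

namespace Pool.Agent.Helper93.TS

/-- memory cells become `some i`, clock bits from `t` on are replaced by `false` -/
private def s1_Compl {ι : Type} (t : ℕ) : Option (V ι) → Fm (Option (V (Option ι)))
  | none => .var none
  | some (.mem i) => .var (some (.mem (some i)))
  | some (.clk j) => if j < t then .var (some (.clk j)) else .ff
  | some (.par j) => .var (some (.par j))

private def s0_Compl {ι : Type} (t : ℕ) : V ι → Fm (V (Option ι))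
  | .mem i => .var (.mem (some i))
  | .clk j => if j < t then .var (.clk j) else .ff
  | .par j => .var (.par j)

private theorem s1_size_Compl {ι : Type} (t : ℕ) (o : Option (V ι)) :
    (s1_Compl t o).size ≤ 3 := by
  rcases o with _ | (i | j | j)
  · simp [s1_Compl]
  · simp [s1_Compl]
  · simp only [s1_Compl]
    split_ifs <;> simp
  · simp [s1_Compl]

private theorem s0_size_Compl {ι : Type} (t : ℕ) (o : V ι) : (s0_Compl t o).size ≤ 3 := by
  rcases o with i | j | j
  · simp [s0_Compl]
  · simp only [s0_Compl]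
    split_ifs <;> simp
  · simp [s0_Compl]

private theorem s1_eval_Compl {ι : Type} (t n : ℕ) (m' : Option ι → Bool) (m : ι → Bool) (r : Bool)
    (hn : n < 2 ^ t) (hm : ∀ i, m' (some i) = m i) :
    (fun o => (s1_Compl t o).eval (oenv (env m' n zero) r)) = oenv (env m n zero) r := by
  funext o
  rcases o with _ | (i | j | j)
  · rfl
  · exact hm i
  · simp only [s1_Compl]
    split_ifs with h
    · simp
    · have : n.testBit j = false :=
        Nat.testBit_lt_two_pow (hn.trans_le (Nat.pow_le_pow_right (by norm_num) (not_lt.1 h)))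
      simp [this]
  · rfl

private theorem s0_eval_Compl {ι : Type} (t n : ℕ) (m' : Option ι → Bool) (m : ι → Bool)
    (hn : n < 2 ^ t) (hm : ∀ i, m' (some i) = m i) :
    (fun o => (s0_Compl t o).eval (env m' n zero)) = env m n zero := by
  funext o
  rcases o with i | j | j
  · exact hm i
  · simp only [s0_Compl]
    split_ifs with h
    · simp
    · have : n.testBit j = false :=
        Nat.testBit_lt_two_pow (hn.trans_le (Nat.pow_le_pow_right (by norm_num) (not_lt.1 h)))
      simp [this]
  · rfl

private def nx_Compl {ι : Type} (M : Mac ι) (t : ℕ) : Option ι → Fm (Option (V (Option ι)))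
  | none => .not (.var (some (.mem (some M.out))))
  | some i => .ite (.var (some (.clk t))) (.var (some (.mem (some i))))
      ((M.nx i).bind (s1_Compl t))

private def M_Compl {ι : Type} (M : Mac ι) (t : ℕ) : Mac (Option ι) where
  nx := nx_Compl M t
  ad j := (M.ad j).bind (s0_Compl t)
  out := none

private theorem runA_Compl {ι : Type} (M : Mac ι) (v t : ℕ) (w : Word) (n : ℕ)
    (hn : n ≤ 2 ^ t) (i : ι) : (M_Compl M t).run v w zero 0 zero n (some i) =
      M.run v w zero 0 zero n i := by
  induction n generalizing i with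
  | zero => rfl
  | succ n ih =>
    rw [Mac.run_succ, Mac.run_succ, Nat.zero_add]
    have ih' := ih (by omega)
    obtain ⟨m, hm⟩ : ∃ m, m = M.run v w zero 0 zero n := ⟨_, rfl⟩
    obtain ⟨m', hm'⟩ : ∃ m', m' = (M_Compl M t).run v w zero 0 zero n := ⟨_, rfl⟩
    rw [← hm, ← hm'] at ih' ⊢
    have haddr : (M_Compl M t).addr v zero n m' = M.addr v zero n m := by
      funext j
      change (decide (j < v) && ((M.ad j).bind (s0_Compl t)).eval (env m' n zero)) =
        (decide (j < v) && (M.ad j).eval (env m n zero))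
      rw [Fm.eval_bind, s0_eval_Compl t n m' m (by omega) ih']
    change (Fm.ite (.var (some (.clk t))) (.var (some (.mem (some i))))
      ((M.nx i).bind (s1_Compl t))).eval (oenv (env m' n zero)
      (w ((M_Compl M t).addr v zero n m'))) = (M.nx i).eval (oenv (env m n zero)
      (w (M.addr v zero n m)))
    have h0 : n.testBit t = false := Nat.testBit_lt_two_pow (by omega)
    rw [Fm.eval_ite, Fm.eval_var, oenv_some, env_clk, h0, cond_false, Fm.eval_bind,
      s1_eval_Compl t n m' m _ (by omega) ih', haddr]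

private theorem runB_Compl {ι : Type} (M : Mac ι) (v t : ℕ) (w : Word) (n : ℕ)
    (hn : n ≤ 2 ^ t) (m : Option ι → Bool) (i : ι) :
    (M_Compl M t).run v w zero (2 ^ t) m n (some i) = m (some i) := by
  induction n with
  | zero => rfl
  | succ n ih =>
    rw [Mac.run_succ]
    have ih' := ih (by omega)
    obtain ⟨m', hm'⟩ : ∃ m', m' = (M_Compl M t).run v w zero (2 ^ t) m n := ⟨_, rfl⟩
    rw [← hm'] at ih' ⊢
    change (Fm.ite (.var (some (.clk t))) (.var (some (.mem (some i))))
      ((M.nx i).bind (s1_Compl t))).eval (oenv (env m' (2 ^ t + n) zero)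
      (w ((M_Compl M t).addr v zero (2 ^ t + n) m'))) = m (some i)
    have h0 : (2 ^ t + n).testBit t = true := by
      rw [Nat.testBit_two_pow_add_eq, Nat.testBit_lt_two_pow (by omega)]
      rfl
    rw [Fm.eval_ite, Fm.eval_var, oenv_some, env_clk, h0, cond_true, Fm.eval_var, oenv_some,
      env_mem, ih']

theorem hCompl : StCompl := by
  refine ⟨4, ?_⟩
  intro v t s f hf
  obtain ⟨ι, hι, M, hb, hfM⟩ := hf
  have hsz : 3 * s + 10 ≤ (s + t + 2) ^ 4 := by
    have h1 : 2 ≤ s + t + 2 := by omega
    have hs1 : 1 ≤ s := (Fm.one_le_size _).trans (hb.nx_le M.out)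
    have h2 : (s + 2) ^ 4 ≤ (s + t + 2) ^ 4 := Nat.pow_le_pow_left (by omega) 4
    have h3 : 3 * s + 10 ≤ (s + 2) ^ 4 := by
      nlinarith [Nat.zero_le s, Nat.zero_le (s ^ 2), Nat.zero_le (s ^ 3), Nat.zero_le (s ^ 4)]
    exact h3.trans h2
  refine ⟨Option ι, inferInstance, M_Compl M t, ⟨?_, ?_, ?_⟩, ?_⟩
  · have := hb.card_le
    rw [Fintype.card_option]
    omega
  · intro o
    rcases o with _ | i
    · change (Fm.not (.var (some (.mem (some M.out))))).size ≤ _
      rw [Fm.size_not, Fm.size_var]
      omega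
    · change (Fm.ite (.var (some (.clk t))) (.var (some (.mem (some i))))
        ((M.nx i).bind (s1_Compl t))).size ≤ _
      have h1 := Fm.size_bind_le (s1_Compl t) (M.nx i) 3 (s1_size_Compl t) (by norm_num)
      have h2 := hb.nx_le i
      rw [Fm.size_ite, Fm.size_var, Fm.size_var]
      omega
  · intro j hj
    change ((M.ad j).bind (s0_Compl t)).size ≤ _
    have h1 := Fm.size_bind_le (s0_Compl t) (M.ad j) 3 (s0_size_Compl t) (by norm_num)
    have h2 := hb.ad_le j hj
    omega
  · intro w
    beta_reduce
    rw [hfM]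
    have h1 : 2 ^ (t + 1) = 2 ^ t + (2 ^ t - 1) + 1 := by
      have : 1 ≤ 2 ^ t := Nat.one_le_two_pow
      rw [pow_succ]
      omega
    rw [h1, Mac.run_succ]
    obtain ⟨m', hm'⟩ : ∃ m', m' = (M_Compl M t).run v w zero 0 zero (2 ^ t + (2 ^ t - 1)) :=
      ⟨_, rfl⟩
    have h2 : m' (some M.out) = M.run v w zero 0 zero (2 ^ t) M.out := by
      rw [hm', Mac.run_add, Nat.zero_add, runB_Compl M v t w _ (by omega),
        runA_Compl M v t w _ le_rfl]
    rw [← hm', ← h2]
    change ¬ m' (some M.out) = true ↔ (Fm.not (.var (some (.mem (some M.out))))).eval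
      (oenv (env m' _ zero) _) = true
    rw [Fm.eval_not, Fm.eval_var, oenv_some, env_mem]
    cases m' (some M.out) <;> simp

end Pool.Agent.Helper93.TS
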