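import Pool.Agent.Helper93.TS.StN
import Pool.Agent.Helper72.CodeInj

/-!
# Project TS, module CORE: reduction to SAT, assembly
-/

set_option autoImplicit false

namespace Pool.Agent.Helper93.TS

open Pool.Agent.Helper72

/-- set the field of the constants to the standard values -/
private def fixC {k : ℕ} (val : Fld → Pos (k + 2) → Bool) : Fld → Pos (k + 2) → Bool
  | .rc l β, q => val (.rc l β) q
  | .sw l, q => val (.sw l) q
  | .st i, q => val (.st i) q
  | .rd, q => val .rd q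
  | .ad j, q => val (.ad j) q
  | .cs, q => q ⟨0, by omega⟩

private theorem fixC_cs {k : ℕ} (val : Fld → Pos (k + 2) → Bool) (b : Bool) :
    fixC val .cs (cpos (k + 2) b) = b := by
  simp [fixC, cpos]

private theorem fixC_sol {σ : ℕ} {M : Mac (Fin (σ + 1))} {v k : ℕ} {x : Word}
    {val : Fld → Pos (k + 2) → Bool} (h : Sol M v k x val) : Sol M v k x (fixC val) where
  layer := h.layer
  look := h.look
  key := h.key
  valL := h.valL
  valX := h.valX
  ad := h.ad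
  adk := h.adk
  adk1 := h.adk1
  step := h.step
  adj := h.adj
  init := h.init
  acc := h.acc

private theorem cbV_size {K α F S : ℕ} {bit : ℕ → Fm (Option ℕ)}
    (h : ∀ i < K, (bit i).size ≤ S) : ∀ φ ∈ cbV K α F bit, φ.size ≤ S + 3 := by
  intro φ hφ
  unfold cbV at hφ
  simp only [List.mem_append, List.mem_flatMap, List.mem_range, List.mem_cons,
    List.not_mem_nil, or_false] at hφ
  rcases hφ with ((hφ | ⟨i, hi, hφ⟩) | ⟨i, hi, hφ⟩) | hφ
  · rcases hφ with rfl | rfl | rfl <;> simp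
  · rcases hφ with rfl | rfl | rfl
    · simp
    · simp
    · have := h i hi
      omega
  · rcases hφ with rfl | rfl | rfl
    · simp
    · simp
    · have := Fm.size_cst_le (ι := Option ℕ) (F.testBit i)
      omega
  · rcases hφ with rfl | rfl | rfl <;> simp

private theorem cb_size {K α S : ℕ} (B : Fm TV)
    (hB : B.All (fun u => ∀ i < K, (u.bit i).size ≤ S)) (hS : 3 ≤ S) :
    ∀ φ ∈ cb K α B, φ.size ≤ S + 3 := by
  induction B with
  | tt =>
    intro φ hφ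
    exact cbV_size (S := S) (fun i _ => (Fm.size_cst_le _).trans hS) φ hφ
  | var u =>
    intro φ hφ
    exact cbV_size hB φ hφ
  | nand a b iha ihb =>
    intro φ hφ
    simp only [cb, List.mem_append, List.mem_cons, List.not_mem_nil, or_false] at hφ
    rcases hφ with hφ | hφ | hφ
    · rcases hφ with rfl | rfl | rfl | rfl | rfl | rfl <;> simp
    · exact iha hB.1 φ hφ
    · exact ihb hB.2 φ hφ

private theorem all_mono {P Q : TV → Prop} (h : ∀ u, P u → Q u) (B : Fm TV) (hB : B.All P) :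
    B.All Q := by
  induction B with
  | tt => trivial
  | var u => exact h u hB
  | nand a b iha ihb => exact ⟨iha hB.1, ihb hB.2⟩

private theorem pow_add_le {X a b c : ℕ} (hX : 2 ≤ X) (ha : a ≤ X ^ c) (hb : b ≤ X ^ c) :
    a + b ≤ X ^ (c + 1) := by
  rw [pow_succ]
  have h1 : X ^ c * 2 ≤ X ^ c * X := Nat.mul_le_mul_left _ hX
  omega

private theorem self_le_pow {X : ℕ} (hX : 2 ≤ X) (n : ℕ) : n ≤ X ^ n :=
  (Nat.lt_two_pow_self.le).trans (Nat.pow_le_pow_left hX n)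

theorem hCore (h1 : StFin) (h2 : StSol1) (h3 : StSol2) (h4 : StTpl) (h5 : StEqv) (h6 : StWhl)
    (h7 : StMux) (h8 : StRepC) : StCore := by
  obtain ⟨C1, h4⟩ := h4
  obtain ⟨C2, h7⟩ := h7
  obtain ⟨C3, -, h8⟩ := h8
  refine ⟨2 * C1 + 29 + ((2 * C1 + 17) * C2 + C3 + 1), ?_⟩
  intro v k s f hf hv
  obtain ⟨σ, M, hout, hBd, hM⟩ := h1 v k s f hf
  obtain ⟨B, hBs, hBa, hB⟩ := h4 σ M v k s hBd hv
  obtain ⟨X, hX⟩ : ∃ X, X = s + k + 2 := ⟨_, rfl⟩
  rw [← hX] at hBs hBa ⊢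
  have hX2 : 2 ≤ X := by omega
  have hX1 : 1 ≤ X := by omega
  obtain ⟨α, hα⟩ : ∃ α, α = C1 * Nat.clog 2 X + 5 := ⟨_, rfl⟩
  have hcs : Fld.cs.num < 2 ^ α := by
    have e : Fld.cs.num = Nat.pair 5 0 := rfl
    have e2 : Nat.pair 5 0 = 30 := by decide
    rw [e, e2]
    calc 30 < 2 ^ 5 := by norm_num
      _ ≤ 2 ^ α := Nat.pow_le_pow_right (by norm_num) (by omega)
  have hall : B.All (fun u => u.fld.num < 2 ^ α) := by
    refine all_mono (fun u hu => ?_) B hBa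
    exact hu.1.trans_le (Nat.pow_le_pow_right (by norm_num) (by omega))
  have hallb : B.All (fun u => ∀ i < k + 2, (u.bit i).size ≤ X ^ C1 + 3) := by
    refine all_mono (fun u hu i hi => ?_) B hBa
    have := hu.2 i hi
    omega
  obtain ⟨j, E0, bl, tl, hbl, htl, hE0, hblm, htlm, hcode⟩ := h6 (k + 2) α B hcs hall
  have hcbs := cb_size (α := α) B hallb (by omega)
  have hz1 : ∀ φ ∈ bl, φ.size ≤ X ^ C1 + 3 + 3 := by
    intro φ hφ
    rcases hblm φ hφ with h | h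
    · omega
    · exact hcbs φ h
  have hz2 : ∀ φ ∈ tl, φ.size ≤ X ^ C1 + 3 + 3 := by
    intro φ hφ
    rcases htlm φ hφ with rfl | rfl <;> simp
  obtain ⟨W, hW, hWx⟩ := h7 (k + 2) E0 (v - 1) (X ^ C1 + 3 + 3) bl tl (by omega) hbl htl hz1 hz2
  -- sizes
  have hclog : Nat.clog 2 X ≤ X := by
    have := Nat.clog_le_of_le_pow (b := 2) (x := X) (y := X) Nat.lt_two_pow_self.le
    exact this
  have hKα : k + 2 + α + 2 ≤ X ^ (C1 + 7) := by
    have e1 : k + 2 + α + 2 ≤ (C1 + 6) * X := by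
      have : C1 * Nat.clog 2 X ≤ C1 * X := Nat.mul_le_mul_left _ hclog
      have e : (C1 + 6) * X = C1 * X + 6 * X := by ring
      omega
    calc k + 2 + α + 2 ≤ (C1 + 6) * X := e1
      _ ≤ X ^ (C1 + 6) * X := Nat.mul_le_mul_right _ (self_le_pow hX2 _)
      _ = X ^ (C1 + 7) := by rw [← pow_succ]
  have h200 : 200 ≤ X ^ 8 := (by norm_num : 200 ≤ 2 ^ 8).trans (Nat.pow_le_pow_left hX2 8)
  have hE : 2 ^ E0 ≤ X ^ (2 * C1 + 15) := by
    calc 2 ^ E0 ≤ 200 * B.size * (k + 2 + α + 2) := hE0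
      _ ≤ X ^ 8 * X ^ C1 * X ^ (C1 + 7) := by
          apply Nat.mul_le_mul _ hKα
          exact Nat.mul_le_mul h200 hBs
      _ = X ^ (2 * C1 + 15) := by
          rw [← pow_add, ← pow_add]
          congr 1
          ring
  refine ⟨2 ^ (k + 2) * (3 * 2 ^ E0) + tl.length, k + 2 + E0 + 3, W, ?_, ?_, ?_, ?_, ?_⟩
  · have e : 2 ^ (k + 2 + E0 + 3) = 8 * (2 ^ (k + 2) * 2 ^ E0) := by
      rw [pow_add, pow_add]; ring
    have e2 : 1 ≤ 2 ^ (k + 2) := Nat.one_le_two_pow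
    have e3 : 3 * 2 ^ E0 ≤ 2 ^ (k + 2) * (3 * 2 ^ E0) := Nat.le_mul_of_pos_left _ (by omega)
    rw [e]
    have e4 : 2 ^ (k + 2) * (3 * 2 ^ E0) = 3 * (2 ^ (k + 2) * 2 ^ E0) := by ring
    omega
  · have e1 : 2 ^ k ≤ 2 ^ (k + 2) := Nat.pow_le_pow_right (by norm_num) (by omega)
    have e2 : 1 ≤ 2 ^ E0 := Nat.one_le_two_pow
    have e3 : 2 ^ (k + 2) ≤ 2 ^ (k + 2) * (3 * 2 ^ E0) := Nat.le_mul_of_pos_right _ (by omega)
    omega
  · have e : 2 ^ (k + 2 + E0 + 3) = 2 ^ k * (32 * 2 ^ E0) := by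
      rw [pow_add, pow_add, pow_add]; ring
    rw [e]
    apply Nat.mul_le_mul_left
    have h32 : 32 ≤ X ^ 5 := (by norm_num : 32 ≤ 2 ^ 5).trans (Nat.pow_le_pow_left hX2 5)
    calc 32 * 2 ^ E0 ≤ X ^ 5 * X ^ (2 * C1 + 15) := Nat.mul_le_mul h32 hE
      _ = X ^ (5 + (2 * C1 + 15)) := (pow_add _ _ _).symm
      _ ≤ _ := Nat.pow_le_pow_right hX1 (by omega)
  · -- the representation
    have hq : k + 2 + 2 ^ E0 + (X ^ C1 + 3 + 3) + 2 ≤ X ^ (2 * C1 + 17) := by
      have a1 : k + 2 + 8 ≤ X ^ (2 * C1 + 15) := by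
        calc k + 2 + 8 ≤ X + 8 := by omega
          _ ≤ X * 5 := by omega
          _ ≤ X * X ^ 5 := Nat.mul_le_mul_left _ (self_le_pow hX2 5)
          _ = X ^ 6 := by ring
          _ ≤ X ^ (2 * C1 + 15) := Nat.pow_le_pow_right hX1 (by omega)
      have a2 : X ^ C1 ≤ X ^ (2 * C1 + 15) := Nat.pow_le_pow_right hX1 (by omega)
      have a3 := pow_add_le hX2 a1 hE
      have a4 : X ^ (2 * C1 + 15) ≤ X ^ (2 * C1 + 15 + 1) := Nat.pow_le_pow_right hX1 (by omega)
      have a5 := pow_add_le hX2 a3 (a2.trans a4)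
      have a6 : 2 * C1 + 15 + 1 + 1 = 2 * C1 + 17 := by ring
      rw [a6] at a5
      omega
    refine h8.mono _ _ _ _ _ _ _ hW le_rfl (Nat.sub_le v 1) ?_
    have b1 : (k + 2 + 2 ^ E0 + (X ^ C1 + 3 + 3) + 2) ^ C2 ≤ X ^ ((2 * C1 + 17) * C2 + C3) := by
      calc (k + 2 + 2 ^ E0 + (X ^ C1 + 3 + 3) + 2) ^ C2 ≤ (X ^ (2 * C1 + 17)) ^ C2 :=
            Nat.pow_le_pow_left hq _
        _ = X ^ ((2 * C1 + 17) * C2) := (pow_mul _ _ _).symm
        _ ≤ X ^ ((2 * C1 + 17) * C2 + C3) := Nat.pow_le_pow_right hX1 (by omega)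
    have b2 : C3 ≤ X ^ ((2 * C1 + 17) * C2 + C3) :=
      (self_le_pow hX2 C3).trans (Nat.pow_le_pow_right hX1 (by omega))
    exact (pow_add_le hX2 b1 b2).trans (Nat.pow_le_pow_right hX1 (Nat.le_add_left _ _))
  · intro x
    -- the formula
    have hcx : (whole (k + 2) α j (benv (v - 1) x) B).code =
        List.ofFn fun i : Fin (2 ^ (k + 2) * (3 * 2 ^ E0) + tl.length) => W x (bin i) := by
      rw [hcode, ← hWx x]
      congr 1
      apply List.map_congr_left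
      intro φ hφ
      rcases htlm φ hφ with rfl | rfl <;> rfl
    have hsat : ((List.ofFn fun i : Fin (2 ^ (k + 2) * (3 * 2 ^ E0) + tl.length) =>
        W x (bin i)) ∈ SAT) ↔
        ∃ g, (whole (k + 2) α j (benv (v - 1) x) B).eval g = true := by
      rw [← hcx]
      constructor
      · rintro ⟨φ, hφ, g, hg⟩
        exact ⟨g, by rw [← code_injective hφ]; exact hg⟩
      · rintro ⟨g, hg⟩
        exact ⟨_, rfl, g, hg⟩
    rw [hsat, h5 (k + 2) α j (benv (v - 1) x) B hcs hall]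
    constructor
    · rintro ⟨y, hy⟩
      rw [hM] at hy
      obtain ⟨val, hval⟩ := h3 σ M v k x y hv hout hy
      exact ⟨fixC val, fixC_cs val, (hB x (fixC val) (fixC_cs val)).2 (fixC_sol hval)⟩
    · rintro ⟨val, hc, hval⟩
      obtain ⟨y, hy⟩ := h2 σ M v k x val hv hout ((hB x val hc).1 hval)
      exact ⟨y, (hM _).2 hy⟩

end Pool.Agent.Helper93.TS
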