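import Pool.Agent.Helper93.TS.StN

/-!
Module CPL: completeness of the check of the look-ups (sorting).
-/

namespace Pool.Agent.Helper93.TS

private theorem sort_Cpl (α : Type) [Fintype α] (N : ℕ) (hN : Fintype.card α = N) (c : α → ℕ)
    (hc : Function.Injective c) : ∃ e : Fin N ≃ α, ∀ i j, i < j ↔ c (e i) < c (e j) := by
  let _ : LinearOrder α := LinearOrder.lift' c hc
  let f : Fin N ≃o α := Fintype.orderIsoFinOfCardEq α hN
  refine ⟨f.toEquiv, fun i j => ?_⟩
  have h1 : i < j ↔ f i < f j := (f.lt_iff_lt).symm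
  exact h1

/-- position with the digits of `n` -/
private def pos_Cpl (K n : ℕ) : Pos K := fun i => n.testBit i

private theorem incP_pos_Cpl (K n : ℕ) : incP (pos_Cpl K n) = pos_Cpl K (n + 1) := by
  funext i
  have h := congrFun (inc_bin n) i.val
  have h2 : incP (pos_Cpl K n) i = inc (bin n) i.val := by
    unfold incP inc pos_Cpl bin
    congr 1
    apply decide_eq_decide.2
    constructor
    · intro hh j hj
      exact hh ⟨j, hj.trans i.2⟩ hj
    · intro hh j hj
      exact hh j.val hj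
  rw [h2, h]
  rfl

private theorem pos_ofBits_Cpl (K : ℕ) (q : Pos K) : pos_Cpl K (Nat.ofBits q) = q := by
  funext i
  unfold pos_Cpl
  rw [Nat.testBit_ofBits_lt _ _ i.2]

private theorem ofBits_pos_Cpl (K n : ℕ) (hn : n < 2 ^ K) : Nat.ofBits (pos_Cpl K n) = n := by
  apply Nat.eq_of_testBit_eq
  intro i
  by_cases hi : i < K
  · rw [Nat.testBit_ofBits_lt _ _ hi]
    rfl
  · rw [Nat.testBit_ofBits_ge _ _ (Nat.not_lt.1 hi)]
    exact (Nat.testBit_lt_two_pow (hn.trans_le
      (Nat.pow_le_pow_right (by norm_num) (Nat.not_lt.1 hi)))).symm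

private theorem ofBits_inj_Cpl (K : ℕ) {q q' : Pos K} (h : Nat.ofBits q = Nat.ofBits q') :
    q = q' := by
  rw [← pos_ofBits_Cpl K q, ← pos_ofBits_Cpl K q', h]

private def eqv_Cpl (K : ℕ) : Pos K ≃ Fin (2 ^ K) where
  toFun q := ⟨Nat.ofBits q, Nat.ofBits_lt_two_pow q⟩
  invFun r := pos_Cpl K r.val
  left_inv q := pos_ofBits_Cpl K q
  right_inv r := Fin.ext (ofBits_pos_Cpl K r.val r.2)

/-- the sorting code -/
private def cod_Cpl {K : ℕ} (R : Pos K → Rc K) (q : Pos K) : ℕ :=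
  (Nat.ofBits (R q).key * 2 + (R q).look.toNat) * 2 ^ K + Nat.ofBits q

private theorem cod_div_Cpl {K : ℕ} (R : Pos K → Rc K) (q : Pos K) :
    cod_Cpl R q / 2 ^ K / 2 = Nat.ofBits (R q).key := by
  unfold cod_Cpl
  rw [Nat.add_comm, Nat.add_mul_div_right _ _ (Nat.two_pow_pos K),
    Nat.div_eq_of_lt (Nat.ofBits_lt_two_pow q), Nat.zero_add]
  have h := Bool.toNat_lt (R q).look
  omega

private theorem cod_inj_Cpl {K : ℕ} (R : Pos K → Rc K) : Function.Injective (cod_Cpl R) := by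
  intro q q' h
  have h1 : cod_Cpl R q % 2 ^ K = Nat.ofBits q := by
    unfold cod_Cpl
    rw [Nat.add_comm, Nat.add_mul_mod_self_right, Nat.mod_eq_of_lt (Nat.ofBits_lt_two_pow q)]
  have h2 : cod_Cpl R q' % 2 ^ K = Nat.ofBits q' := by
    unfold cod_Cpl
    rw [Nat.add_comm, Nat.add_mul_mod_self_right, Nat.mod_eq_of_lt (Nat.ofBits_lt_two_pow q')]
  apply ofBits_inj_Cpl
  rw [← h1, ← h2, h]

theorem hCpl : StCpl := by
  intro K R h0 h1
  obtain ⟨e, he⟩ := sort_Cpl (Pos K) (2 ^ K)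
    (by rw [Fintype.card_fun, Fintype.card_bool, Fintype.card_fin]) (cod_Cpl R) (cod_inj_Cpl R)
  refine ⟨(eqv_Cpl K).trans e, ?_⟩
  intro q hq
  obtain ⟨r, rfl⟩ : ∃ r : Fin (2 ^ K), q = (eqv_Cpl K).symm r :=
    ⟨eqv_Cpl K q, ((eqv_Cpl K).symm_apply_apply q).symm⟩
  have hqr : (eqv_Cpl K).symm r = pos_Cpl K r.val := rfl
  have hinc : incP ((eqv_Cpl K).symm r) = pos_Cpl K (r.val + 1) := by
    rw [hqr, incP_pos_Cpl]
  obtain ⟨s, hs, hs2⟩ : ∃ s : Fin (2 ^ K), incP ((eqv_Cpl K).symm r) = (eqv_Cpl K).symm s ∧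
      (s.val = r.val + 1 ∨ s.val = 0) := by
    refine ⟨eqv_Cpl K (incP ((eqv_Cpl K).symm r)), ((eqv_Cpl K).symm_apply_apply _).symm, ?_⟩
    rw [hinc]
    by_cases hlt : r.val + 1 < 2 ^ K
    · left
      exact ofBits_pos_Cpl K _ hlt
    · right
      have he : r.val + 1 = 2 ^ K := by have := r.2; omega
      have hz : pos_Cpl K (2 ^ K) = pos_Cpl K 0 := by
        funext i
        unfold pos_Cpl
        rw [Nat.testBit_two_pow_of_ne (by have := i.2; omega), Nat.zero_testBit]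
      rw [he, hz]
      exact ofBits_pos_Cpl K 0 (Nat.two_pow_pos K)
  have e1 : ((eqv_Cpl K).trans e) ((eqv_Cpl K).symm r) = e r := by simp
  have e2 : ((eqv_Cpl K).trans e) (incP ((eqv_Cpl K).symm r)) = e s := by rw [hs]; simp
  simp only [e1, e2] at hq ⊢
  obtain ⟨g1, g2⟩ := h1 (e s) hq
  set t := (R (e s)).key with ht
  have hkt : (R t).key = t := h0 t g1
  have hct : cod_Cpl R t < cod_Cpl R (e s) := by
    have a1 : cod_Cpl R t = (Nat.ofBits t * 2 + 0) * 2 ^ K + Nat.ofBits t := by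
      unfold cod_Cpl; rw [hkt, g1]; rfl
    have a2 : cod_Cpl R (e s) = (Nat.ofBits t * 2 + 1) * 2 ^ K + Nat.ofBits (e s) := by
      unfold cod_Cpl; rw [hq, ← ht]; rfl
    have a3 := Nat.ofBits_lt_two_pow t
    rw [a1, a2]
    nlinarith
  have hts : e.symm t < s := by
    rw [he, e.apply_symm_apply]
    exact hct
  have hsr : s.val = r.val + 1 := by
    rcases hs2 with h | h
    · exact h
    · exfalso
      have := Fin.lt_def.1 hts
      omega
  have hrs : r < s := by rw [Fin.lt_def]; omega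
  have hc1 : cod_Cpl R t ≤ cod_Cpl R (e r) := by
    have : e.symm t ≤ r := by
      rw [Fin.le_def]
      have := Fin.lt_def.1 hts
      omega
    rcases this.lt_or_eq with h | h
    · have := (he _ _).1 h
      rw [e.apply_symm_apply] at this
      exact this.le
    · rw [← h, e.apply_symm_apply]
  have hc2 : cod_Cpl R (e r) ≤ cod_Cpl R (e s) := ((he _ _).1 hrs).le
  have hkey : (R (e r)).key = t := by
    apply ofBits_inj_Cpl
    have b1 := Nat.div_le_div_right (c := 2) (Nat.div_le_div_right (c := 2 ^ K) hc1)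
    have b2 := Nat.div_le_div_right (c := 2) (Nat.div_le_div_right (c := 2 ^ K) hc2)
    rw [cod_div_Cpl, cod_div_Cpl] at b1 b2
    rw [hkt] at b1
    rw [← ht] at b2
    omega
  refine ⟨hkey, ?_⟩
  cases hl : (R (e r)).look with
  | false =>
    have := h0 (e r) hl
    rw [← g2, ← hkey, this]
  | true =>
    obtain ⟨_, g4⟩ := h1 (e r) hl
    rw [← g4, hkey, g2]

end Pool.Agent.Helper93.TS
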