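import Pool.Agent.Helper93.TS.StM

/-!
# Project TS, module DR: static transformations of words
-/

namespace Pool.Agent.Helper93.TS

/-- DR: static transformations of words -/
theorem hDR (h : StRR) : StDR := by
  obtain ⟨C, hC⟩ := h
  refine ⟨C, ?_⟩
  rintro v t s v' q f R ⟨ι, inst, M, hM, hf⟩ hR
  obtain ⟨M', hB, hout, hrun⟩ := hC ι M v v' q s (fun w _ => R w) hM hR
  refine ⟨ι, inst, M', hB, fun w => ?_⟩
  change f (R w) ↔ _
  rw [hf (R w), hout, hrun w zero 0 zero (2 ^ t)]

end Pool.Agent.Helper93.TS
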