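import Pool.Agent.Helper93.TS.StD

/-! Project TS, module Desc -/

namespace Pool.Agent.Helper93.TS

private theorem cond_congr_Desc {v τ : ℕ} {r : Recs} {inp : Word} {T T' : ℕ → ℕ → Bool}
    {t g β : ℕ} (hv : v ≤ 2 ^ β) (hr : (r g).2.2.1 < 2 ^ β ∧ (r g).2.2.2 < 2 ^ β)
    (hg : g < 2 ^ β) (h0 : ∀ k < 2 ^ β, T t k = T' t k) (h1 : T (t + 1) g = T' (t + 1) g) :
    cond v τ r inp T t g ↔ cond v τ r inp T' t g := by
  unfold cond
  rcases h : r g with ⟨b0, b1, A, B⟩
  have hA : A < 2 ^ β := by rw [h] at hr; exact hr.1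
  have hB : B < 2 ^ β := by rw [h] at hr; exact hr.2
  have h2 : (fun j => decide (j < v) && T t j) = fun j => decide (j < v) && T' t j := by
    funext j
    by_cases hj : j < v
    · rw [h0 j (hj.trans_le hv)]
    · simp [hj]
  cases b0 <;> cases b1 <;> simp only [h0 g hg, h0 A hA, h0 B hB, h1, h2]

theorem hDesc (h1 : StDw) (h2 : StDn) : StDesc := by
  intro v τ s β σ M hM hb hβ
  obtain ⟨r, hr, hrun⟩ := h2 v τ s β σ M hM hb hβ
  have hs : 1 ≤ v + τ + s + 1 := by omega
  have h16 : 2 ^ 4 ≤ 2 ^ β := (Nat.pow_le_pow_left (by omega) 4).trans hβ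
  have hβ4 : 4 ≤ β := (Nat.pow_le_pow_iff_right (by norm_num)).1 h16
  have hv : v ≤ 2 ^ β := by
    refine le_trans ?_ hβ
    calc v ≤ v + τ + s + 2 := by omega
      _ = (v + τ + s + 2) ^ 1 := (pow_one _).symm
      _ ≤ (v + τ + s + 2) ^ 4 := Nat.pow_le_pow_right (by omega) (by norm_num)
  obtain ⟨x0, hx0, hw⟩ := h1 v β τ r hβ4 hv hr
  refine ⟨x0, hx0, fun inp => ?_⟩
  rw [← hrun inp]
  have hpos : 0 < 2 ^ τ := by positivity
  constructor
  · rintro ⟨W, hW, hf⟩
    refine ⟨wv β τ W, fun t ht g hg => ?_, hf⟩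
    refine (hw inp W t g ht hg).1 (hW _ ?_)
    calc t + 2 ^ τ * g < 2 ^ τ + 2 ^ τ * g := by omega
      _ = 2 ^ τ * (g + 1) := by ring
      _ ≤ 2 ^ τ * 2 ^ β := Nat.mul_le_mul_left _ hg
      _ = 2 ^ (τ + β) := (pow_add _ _ _).symm
  · rintro ⟨T, hT, hf⟩
    let W : Word := fun a => T (Nat.ofBits fun j : Fin (τ + 1) => a j)
      (Nat.ofBits fun j : Fin β => a (τ + 1 + j))
    have key : ∀ t g, t ≤ 2 ^ τ → g < 2 ^ β → wv β τ W t g = T t g := by
      intro t g ht hg
      have ht' : t < 2 ^ (τ + 1) := by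
        rw [pow_succ]
        omega
      have e1 : (Nat.ofBits fun j : Fin (τ + 1) =>
          cat (τ + 1) (bin t) (trunc β (bin g)) j) = t := by
        have : (fun j : Fin (τ + 1) => cat (τ + 1) (bin t) (trunc β (bin g)) j) =
            fun j : Fin (τ + 1) => bin t j := by
          funext j
          rw [cat_of_lt _ _ j.2]
        rw [this]
        exact bin_inj (bin_ofBits (supp_bin ht'))
      have e2 : (Nat.ofBits fun j : Fin β =>
          cat (τ + 1) (bin t) (trunc β (bin g)) (τ + 1 + j)) = g := by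
        have : (fun j : Fin β => cat (τ + 1) (bin t) (trunc β (bin g)) (τ + 1 + j)) =
            fun j : Fin β => bin g j := by
          funext j
          rw [cat_add, trunc_of_supp (supp_bin hg)]
        rw [this]
        exact bin_inj (bin_ofBits (supp_bin hg))
      change T _ _ = T t g
      rw [e1, e2]
    refine ⟨W, fun n hn => ?_, ?_⟩
    · have ht : n % 2 ^ τ < 2 ^ τ := Nat.mod_lt _ hpos
      have hg : n / 2 ^ τ < 2 ^ β := by
        rw [Nat.div_lt_iff_lt_mul hpos, mul_comm, ← pow_add]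
        exact hn
      have e := (hw inp W (n % 2 ^ τ) (n / 2 ^ τ) ht hg).2
        ((cond_congr_Desc hv (hr _) hg (fun k hk => key _ _ ht.le hk)
          (key _ _ (by omega) hg)).2 (hT _ ht _ hg))
      rwa [Nat.mod_add_div] at e
    · have hv2 : v < 2 ^ β := by
        refine lt_of_lt_of_le ?_ hβ
        calc v < v + τ + s + 2 := by omega
          _ = (v + τ + s + 2) ^ 1 := (pow_one _).symm
          _ ≤ (v + τ + s + 2) ^ 4 := Nat.pow_le_pow_right (by omega) (by norm_num)
      change wv β τ W (2 ^ τ) v = true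
      rw [key _ _ le_rfl hv2, hf]

end Pool.Agent.Helper93.TS
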