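import Pool.Agent.Helper93.TS.StD

/-!
Project TS, module DIAG: diagonalization, assembly.
-/

namespace Pool.Agent.Helper93.TS

private theorem two_mul_le_Diag (p c : ℕ) (hc : c + 2 ≤ p) : 2 * (2 * p) * c ≤ 2 ^ (2 * p) := by
  have h1 : p ≤ 2 ^ p := Nat.lt_two_pow_self.le
  have h2 : 4 * c ≤ 2 ^ p := by
    calc 4 * c ≤ 4 * 2 ^ c := Nat.mul_le_mul_left _ Nat.lt_two_pow_self.le
      _ = 2 ^ (c + 2) := by rw [pow_add]; ring
      _ ≤ 2 ^ p := Nat.pow_le_pow_right (by norm_num) hc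
  calc 2 * (2 * p) * c = p * (4 * c) := by ring
    _ ≤ 2 ^ p * 2 ^ p := Nat.mul_le_mul h1 h2
    _ = 2 ^ (2 * p) := by rw [two_mul, pow_add]

/-- the choice of the constant -/
private theorem const_Diag (A a c : ℕ) : ∃ C : ℕ, A ≤ C ∧ ∀ N : ℕ, 2 ≤ N →
    (N ^ a + 2 * N + C + 2) ^ c ≤ N ^ C := by
  obtain ⟨p, hp⟩ : ∃ p, p = c + a + A + 8 := ⟨_, rfl⟩
  refine ⟨2 ^ (2 * p), ?_, ?_⟩
  · calc A ≤ 2 * p := by omega
      _ ≤ 2 ^ (2 * p) := Nat.lt_two_pow_self.le
  · intro N hN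
    have hN0 : 0 < N := by omega
    have e1 : N ^ a ≤ N ^ (2 * p) := Nat.pow_le_pow_right hN0 (by omega)
    have e2 : 2 * N ≤ N ^ (2 * p) := by
      calc 2 * N ≤ N * N := Nat.mul_le_mul_right _ hN
        _ = N ^ 2 := by ring
        _ ≤ N ^ (2 * p) := Nat.pow_le_pow_right hN0 (by omega)
    have e3 : 2 ^ (2 * p) ≤ N ^ (2 * p) := Nat.pow_le_pow_left hN _
    have e4 : 2 ≤ N ^ (2 * p) := by
      calc 2 ≤ N := hN
        _ = N ^ 1 := (pow_one N).symm
        _ ≤ N ^ (2 * p) := Nat.pow_le_pow_right hN0 (by omega)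
    have e5 : N ^ a + 2 * N + 2 ^ (2 * p) + 2 ≤ N ^ (2 * p + 2) := by
      have : 4 * N ^ (2 * p) ≤ N ^ (2 * p + 2) := by
        rw [pow_add]
        have : 4 ≤ N ^ 2 := by nlinarith
        nlinarith [Nat.mul_le_mul_left (N ^ (2 * p)) this]
      omega
    calc (N ^ a + 2 * N + 2 ^ (2 * p) + 2) ^ c ≤ (N ^ (2 * p + 2)) ^ c :=
          Nat.pow_le_pow_left e5 _
      _ = N ^ ((2 * p + 2) * c) := (pow_mul _ _ _).symm
      _ ≤ N ^ (2 ^ (2 * p)) := by
          apply Nat.pow_le_pow_right hN0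
          calc (2 * p + 2) * c ≤ 2 * (2 * p) * c := Nat.mul_le_mul_right _ (by omega)
            _ ≤ 2 ^ (2 * p) := two_mul_le_Diag p c (by omega)

private theorem clog_le_Diag (n : ℕ) : Nat.clog 2 n ≤ n :=
  Nat.clog_le_of_le_pow Nat.lt_two_pow_self.le

theorem hDiag (h1 : StDesc) (h2 : StChw) (h3 : StLoop) (h4 : StFin) (h5 : StMono) : StDiag := by
  obtain ⟨C1, h2⟩ := h2
  obtain ⟨C2, h3⟩ := h3
  obtain ⟨C3, h5⟩ := h5
  obtain ⟨C, hC1, hC⟩ := const_Diag (C1 + 1) ((C1 + 5) * C2) C3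
  refine ⟨C, ?_⟩
  intro v τ s β κ hs hκ
  let P : Word → Prop := fun w =>
    ¬ ((bits v β τ (tr κ (fst (fst w))) (pair (tr κ (fst (fst w)))
      (pair (fst (snd (fst w))) (fst (snd (snd (fst w))))))
      (snd (snd (snd (fst w)))) (snd w)).ok = true ∧
      fin v β τ (snd (snd (snd (fst w)))) = true)
  have hP : Dc (max (max κ v) (τ + β) + C1) (Nat.clog 2 (v + τ + β + 2) + C1)
    ((v + τ + β + κ + 2) ^ C1) P := h2 v τ β κ
  let h : Word → Prop := fun w => ∃ n < 2 ^ (τ + β), P (pair w (iw n))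
  have hh : Dc (max (max κ v) (τ + β) + C) (τ + β + Nat.clog 2 (v + τ + β + 2) + C)
      ((v + τ + β + κ + 2) ^ C) h := by
    have e1 := h3 _ _ _ (τ + β) P hP
    have e2 := h5 _ (max (max κ v) (τ + β) + C) _ (τ + β + Nat.clog 2 (v + τ + β + 2) + C) _ _ e1
      (by omega) (by omega)
    refine e2.mono_s ?_
    set N := v + τ + β + κ + 2 with hN
    have hN2 : 2 ≤ N := by omega
    have hN0 : 0 < N := by omega
    have hcl : Nat.clog 2 (v + τ + β + 2) ≤ N := (clog_le_Diag _).trans (by omega)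
    have hcl' : Nat.clog 2 (v + τ + β + 2) ≤ v + τ + β + 2 := clog_le_Diag _
    have hmax : max (max κ v) (τ + β) ≤ N := by omega
    have hA : N ^ C1 + (max (max κ v) (τ + β) + C1) + (Nat.clog 2 (v + τ + β + 2) + C1) +
        (τ + β) + 2 ≤ N ^ (C1 + 5) := by
      have a1 : C1 ≤ N ^ C1 := by
        calc C1 ≤ 2 ^ C1 := Nat.lt_two_pow_self.le
          _ ≤ N ^ C1 := Nat.pow_le_pow_left hN2 _
      have a2 : 3 * N ≤ N ^ 3 := by
        have : 4 ≤ N ^ 2 := by nlinarith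
        calc 3 * N ≤ 4 * N := by omega
          _ ≤ N ^ 2 * N := Nat.mul_le_mul_right _ this
          _ = N ^ 3 := by ring
      have a3 : N ^ C1 ≤ N ^ (C1 + 3) := Nat.pow_le_pow_right hN0 (by omega)
      have a4 : N ^ 3 ≤ N ^ (C1 + 3) := Nat.pow_le_pow_right hN0 (by omega)
      have a5 : 4 * N ^ (C1 + 3) ≤ N ^ (C1 + 5) := by
        have : 4 ≤ N ^ 2 := by nlinarith
        calc 4 * N ^ (C1 + 3) ≤ N ^ 2 * N ^ (C1 + 3) := Nat.mul_le_mul_right _ this
          _ = N ^ (C1 + 5) := by rw [← pow_add]; congr 1; omega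
      omega
    calc ((N ^ C1 + (max (max κ v) (τ + β) + C1) + (Nat.clog 2 (v + τ + β + 2) + C1) +
          (τ + β) + 2) ^ C2 + (τ + β + Nat.clog 2 (v + τ + β + 2) + C) + 2) ^ C3
        ≤ (N ^ ((C1 + 5) * C2) + 2 * N + C + 2) ^ C3 := by
          apply Nat.pow_le_pow_left
          have : (N ^ C1 + (max (max κ v) (τ + β) + C1) + (Nat.clog 2 (v + τ + β + 2) + C1) +
              (τ + β) + 2) ^ C2 ≤ N ^ ((C1 + 5) * C2) := by
            rw [pow_mul]
            exact Nat.pow_le_pow_left hA _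
          omega
      _ ≤ N ^ C := hC N hN2
  have hexp : ∀ x y z, h (pair x (pair y z)) ↔ ∃ n < 2 ^ (τ + β),
      ¬ ((bits v β τ (tr κ x) (pair (tr κ x) (pair y (fst z))) (snd z) (iw n)).ok = true ∧
        fin v β τ (snd z) = true) := by
    intro x y z
    simp only [h, P, fst_pair, snd_pair]
  have htr : ∀ x : Word, tr κ (tr κ x) = tr κ x := by
    intro x
    funext a
    simp only [tr, trunc_of_supp (supp_trunc κ a)]
  refine ⟨fun x => ∃ y, ∀ z, h (pair x (pair y z)), h, hh, fun x => Iff.rfl, ?_, ?_⟩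
  · intro x
    simp only [hexp, htr]
  · intro g hg hcontra
    obtain ⟨σ, M, hout, hbd, hM⟩ := h4 _ _ _ _ hg
    obtain ⟨x0, hx0, hx⟩ := h1 v τ s β σ M hout hbd hs
    have hx0' : tr κ x0 = x0 := by
      funext a
      have e : trunc (2 * β + 2) (trunc κ a) = trunc (2 * β + 2) a := by
        funext i
        by_cases hi : i < 2 * β + 2
        · have : i < κ := by omega
          simp [trunc, hi, this]
        · simp [trunc, hi]
      rw [tr, hx0, e, ← hx0]
    have hz : ∀ y z, (∀ W, h (pair x0 (pair y (pair z W)))) ↔ ¬ g (pair x0 (pair y z)) := by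
      intro y z
      rw [hM, ← hx]
      simp only [hexp, hx0', fst_pair, snd_pair]
      constructor
      · rintro hW ⟨W, hok, hfin⟩
        obtain ⟨n, hn, hbad⟩ := hW W
        exact hbad ⟨hok n hn, hfin⟩
      · intro hne W
        by_contra hcon
        push Not at hcon
        exact hne ⟨W, fun n hn => (hcon n hn).1, (hcon 0 (by positivity)).2⟩
    have hc : (∃ y, ∀ z, h (pair x0 (pair y z))) ↔ ∀ y, ∃ z, g (pair x0 (pair y z)) :=
      hcontra x0
    have hc2 : (∃ y, ∀ z, h (pair x0 (pair y z))) ↔ ∃ y, ∀ z, ¬ g (pair x0 (pair y z)) := by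
      constructor
      · rintro ⟨y, hy⟩
        exact ⟨y, fun z => (hz y z).1 fun W => hy _⟩
      · rintro ⟨y, hy⟩
        refine ⟨y, fun z => ?_⟩
        have := (hz y (fst z)).2 (hy _) (snd z)
        rwa [pair_fst_snd] at this
    rw [hc2] at hc
    by_cases hq : ∀ y, ∃ z, g (pair x0 (pair y z))
    · obtain ⟨y, hy⟩ := hc.2 hq
      obtain ⟨z, hz⟩ := hq y
      exact hy z hz
    · have hq' := hq
      push Not at hq'
      exact hq (hc.1 hq')

end Pool.Agent.Helper93.TS
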