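import Pool.Agent.Helper93.TS.StD

/-!
# Project TS, module DN: the wires of a machine
-/

set_option autoImplicit false

namespace Pool.Agent.Helper93.TS

/-- kinds of wires -/
private inductive Wi where
  | ad : ℕ → Wi
  | mem : ℕ → Wi
  | cw : Wi
  | rw : Wi
  | fw : Wi
  | clk : ℕ → Wi
  | gate : ℕ → ℕ → Wi
  | other : Wi

/-- the kind of the wire with number `g`; `B` is the number of the constant wire -/
private def dec_Dn (v B τ K L g : ℕ) : Wi :=
  if g < v then .ad g else
  if g < B then .mem (g - v) else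
  if g = B then .cw else
  if g = B + 1 then .rw else
  if g = B + 2 then .fw else
  if g < B + 3 + τ then .clk (g - (B + 3)) else
  if g < B + 3 + τ + K * L then .gate ((g - (B + 3 + τ)) / L) ((g - (B + 3 + τ)) % L) else
  .other

private theorem dec_ad_Dn {v B τ K L g : ℕ} (h : g < v) : dec_Dn v B τ K L g = .ad g := by
  unfold dec_Dn
  rw [if_pos h]

private theorem dec_mem_Dn {v B τ K L i : ℕ} (h : v + i < B) :
    dec_Dn v B τ K L (v + i) = .mem i := by
  unfold dec_Dn
  rw [if_neg (by omega), if_pos h, Nat.add_sub_cancel_left]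

private theorem dec_cw_Dn {v B τ K L : ℕ} (h : v ≤ B) : dec_Dn v B τ K L B = .cw := by
  unfold dec_Dn
  rw [if_neg (by omega), if_neg (by omega), if_pos rfl]

private theorem dec_rw_Dn {v B τ K L : ℕ} (h : v ≤ B) : dec_Dn v B τ K L (B + 1) = .rw := by
  unfold dec_Dn
  rw [if_neg (by omega), if_neg (by omega), if_neg (by omega), if_pos rfl]

private theorem dec_fw_Dn {v B τ K L : ℕ} (h : v ≤ B) : dec_Dn v B τ K L (B + 2) = .fw := by
  unfold dec_Dn
  rw [if_neg (by omega), if_neg (by omega), if_neg (by omega), if_neg (by omega), if_pos rfl]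

private theorem dec_clk_Dn {v B τ K L j : ℕ} (h : v ≤ B) (hj : j < τ) :
    dec_Dn v B τ K L (B + 3 + j) = .clk j := by
  unfold dec_Dn
  rw [if_neg (by omega), if_neg (by omega), if_neg (by omega), if_neg (by omega),
    if_neg (by omega), if_pos (by omega), Nat.add_sub_cancel_left]

private theorem dec_gate_Dn {v B τ K L k i : ℕ} (h : v ≤ B) (hk : k < K) (hi : i < L) :
    dec_Dn v B τ K L (B + 3 + τ + k * L + i) = .gate k i := by
  have h1 : k * L + i < K * L := by
    have : (k + 1) * L ≤ K * L := Nat.mul_le_mul_right L hk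
    rw [Nat.add_mul, Nat.one_mul] at this
    omega
  have h2 : B + 3 + τ + k * L + i - (B + 3 + τ) = k * L + i := by omega
  unfold dec_Dn
  rw [if_neg (by omega), if_neg (by omega), if_neg (by omega), if_neg (by omega),
    if_neg (by omega), if_neg (by omega), if_pos (by omega), h2]
  have h3 : (k * L + i) / L = k := by
    rw [Nat.mul_comm, Nat.mul_add_div (by omega), Nat.div_eq_of_lt hi, Nat.add_zero]
  have h4 : (k * L + i) % L = i := by
    rw [Nat.mul_comm, Nat.mul_add_mod, Nat.mod_eq_of_lt hi]
  rw [h3, h4]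

private theorem dec_other_Dn {v B τ K L g : ℕ} (h : v ≤ B) (hg : B + 3 + τ + K * L ≤ g) :
    dec_Dn v B τ K L g = .other := by
  unfold dec_Dn
  rw [if_neg (by omega), if_neg (by omega), if_neg (by omega), if_neg (by omega),
    if_neg (by omega), if_neg (by omega), if_neg (by omega)]

private theorem cases_Dn {v B : ℕ} (τ K L g : ℕ) (h : v ≤ B) (hL : 0 < L) :
    g < v ∨ (∃ i, v + i < B ∧ g = v + i) ∨ g = B ∨ g = B + 1 ∨ g = B + 2 ∨
      (∃ j < τ, g = B + 3 + j) ∨ (∃ k < K, ∃ i < L, g = B + 3 + τ + k * L + i) ∨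
      B + 3 + τ + K * L ≤ g := by
  rcases Nat.lt_or_ge g v with h1 | h1
  · exact Or.inl h1
  right
  rcases Nat.lt_or_ge g B with h2 | h2
  · left
    exact ⟨g - v, by omega, by omega⟩
  right
  rcases Nat.lt_or_ge g (B + 3) with h3 | h3
  · have : g = B ∨ g = B + 1 ∨ g = B + 2 := by omega
    rcases this with h4 | h4 | h4
    · exact Or.inl h4
    · exact Or.inr (Or.inl h4)
    · exact Or.inr (Or.inr (Or.inl h4))
  right; right; right
  rcases Nat.lt_or_ge g (B + 3 + τ) with h4 | h4
  · left
    exact ⟨g - (B + 3), by omega, by omega⟩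
  right
  rcases Nat.lt_or_ge g (B + 3 + τ + K * L) with h5 | h5
  · left
    refine ⟨(g - (B + 3 + τ)) / L, ?_, (g - (B + 3 + τ)) % L, Nat.mod_lt _ hL, ?_⟩
    · rw [Nat.div_lt_iff_lt_mul hL]
      omega
    · have := Nat.div_add_mod (g - (B + 3 + τ)) L
      rw [Nat.mul_comm] at this
      omega
  · exact Or.inr h5

/-- the record of a kind -/
private def rk_Dn (v B : ℕ) (l : ℕ → List (ℕ × ℕ)) (p : ℕ → ℕ) : Wi → Bool × Bool × ℕ × ℕ
  | .ad j => (false, false, p j, B)
  | .mem i => (true, false, p (v + i), 0)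
  | .cw => (true, true, 1, 0)
  | .rw => (true, true, 0, 0)
  | .fw => (true, false, B + 2, 0)
  | .clk j => (false, true, j, 0)
  | .gate k i => if h : i < (l k).length then (false, false, (l k)[i].1, (l k)[i].2)
      else (true, true, 1, 0)
  | .other => (true, true, 1, 0)

/-- the sources of the variables -/
private def src_Dn {σ : ℕ} (v B τ : ℕ) : Option (V (Fin (σ + 1))) → ℕ
  | none => B + 1
  | some (.mem i) => v + i
  | some (.clk j) => if j < τ then B + 3 + j else B + 2
  | some (.par _) => B + 2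

/-- the formulas: negated address bits, then the memory cells -/
private def fo_Dn {σ : ℕ} (M : Mac (Fin (σ + 1))) (v k : ℕ) : Fm (Option (V (Fin (σ + 1)))) :=
  if k < v then ((M.ad k).not).bind (fun u => Fm.var (some u)) else
    if h : k - v < σ + 1 then M.nx ⟨k - v, h⟩ else Fm.tt

private theorem fo_size_Dn {σ v s : ℕ} {M : Mac (Fin (σ + 1))} (hM : M.Bd v s) (k : ℕ) :
    (fo_Dn M v k).size ≤ s + 2 := by
  unfold fo_Dn
  split_ifs with h1 h2
  · refine (Fm.size_bind_le _ _ 1 (fun i => le_rfl) le_rfl).trans ?_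
    rw [Nat.mul_one, Fm.size_not]
    have := hM.ad_le k h1
    omega
  · have := hM.nx_le ⟨k - v, h2⟩
    omega
  · rw [Fm.size_tt]
    omega

private theorem fo_ad_Dn {σ v : ℕ} (M : Mac (Fin (σ + 1))) {k : ℕ} (hk : k < v)
    (e : V (Fin (σ + 1)) → Bool) (b : Bool) :
    (fo_Dn M v k).eval (oenv e b) = !((M.ad k).eval e) := by
  unfold fo_Dn
  rw [if_pos hk, Fm.eval_bind, Fm.eval_not]
  rfl

private theorem fo_nx_Dn {σ v : ℕ} (M : Mac (Fin (σ + 1))) (i : Fin (σ + 1))
    (e : Option (V (Fin (σ + 1))) → Bool) :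
    (fo_Dn M v (v + i)).eval e = (M.nx i).eval e := by
  unfold fo_Dn
  have h : v + (i : ℕ) - v < σ + 1 := by
    rw [Nat.add_sub_cancel_left]
    exact i.2
  rw [if_neg (by omega), dif_pos h]
  have h2 : (⟨v + (i : ℕ) - v, h⟩ : Fin (σ + 1)) = i := by
    apply Fin.ext
    exact Nat.add_sub_cancel_left v i
  rw [h2]

private theorem run_step_Dn {σ v : ℕ} (M : Mac (Fin (σ + 1))) (inp : Word) (t : ℕ)
    (i : Fin (σ + 1)) : M.run v inp zero 0 zero (t + 1) i =
      (M.nx i).eval (oenv (env (M.run v inp zero 0 zero t) t zero)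
        (inp (M.addr v zero t (M.run v inp zero 0 zero t)))) := by
  rw [Mac.run_succ, Nat.zero_add]
  rfl

private theorem testBit_Dn {τ t g j : ℕ} (hj : j < τ) :
    (t + 2 ^ τ * g).testBit j = t.testBit j := by
  have h1 := Nat.testBit_mod_two_pow (t + 2 ^ τ * g) τ j
  have h2 := Nat.testBit_mod_two_pow t τ j
  rw [Nat.add_mul_mod_self_left, h2] at h1
  simpa [hj] using h1.symm

private theorem cond_nand_Dn {v τ : ℕ} {r : Recs} {inp : Word} {T : ℕ → ℕ → Bool} {t g A B : ℕ}
    (h : r g = (false, false, A, B)) :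
    cond v τ r inp T t g ↔ T t g = !(T t A && T t B) := by
  unfold cond
  rw [h]

private theorem cond_mem_Dn {v τ : ℕ} {r : Recs} {inp : Word} {T : ℕ → ℕ → Bool} {t g A B : ℕ}
    (h : r g = (true, false, A, B)) :
    cond v τ r inp T t g ↔ T (t + 1) g = T t A ∧ (t = 0 → T t g = false) := by
  unfold cond
  rw [h]

private theorem cond_clk_Dn {v τ : ℕ} {r : Recs} {inp : Word} {T : ℕ → ℕ → Bool} {t g A B : ℕ}
    (h : r g = (false, true, A, B)) :
    cond v τ r inp T t g ↔ T t g = (t + 2 ^ τ * g).testBit A := by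
  unfold cond
  rw [h]

private theorem cond_rd_Dn {v τ : ℕ} {r : Recs} {inp : Word} {T : ℕ → ℕ → Bool} {t g B : ℕ}
    (h : r g = (true, true, 0, B)) :
    cond v τ r inp T t g ↔ T t g = inp (fun j => decide (j < v) && T t j) := by
  unfold cond
  rw [h]
  simp

private theorem cond_cst_Dn {v τ : ℕ} {r : Recs} {inp : Word} {T : ℕ → ℕ → Bool} {t g B : ℕ}
    (h : r g = (true, true, 1, B)) :
    cond v τ r inp T t g ↔ T t g = true := by
  unfold cond
  rw [h]
  simp

/-- the values of a tableau -/
private def va_Dn {σ : ℕ} (v B τ : ℕ) (M : Mac (Fin (σ + 1))) (inp : Word)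
    (l : ℕ → List (ℕ × ℕ)) (val : ℕ → ℕ → ℕ → Bool) (t g : ℕ) : Wi → Bool
  | .ad j => (M.ad j).eval (env (M.run v inp zero 0 zero t) t zero)
  | .mem i => if h : i < σ + 1 then M.run v inp zero 0 zero t ⟨i, h⟩ else false
  | .cw => true
  | .rw => inp (M.addr v zero t (M.run v inp zero 0 zero t))
  | .fw => false
  | .clk j => (t + 2 ^ τ * g).testBit j
  | .gate k i => if i < (l k).length then val k t i else true
  | .other => true

theorem hDn (h : StAlc) : StDn := by
  intro v τ s β σ M hout hM hβ
  have hσs : σ + 1 ≤ s := by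
    have := hM.card_le
    rwa [Fintype.card_fin] at this
  -- the numbers
  obtain ⟨B, hB⟩ : ∃ B, B = v + (σ + 1) := ⟨_, rfl⟩
  obtain ⟨L, hL⟩ : ∃ L, L = s + 2 := ⟨_, rfl⟩
  have hvB : v ≤ B := by omega
  have hL0 : 0 < L := by omega
  have hG : B + 3 + τ + B * L ≤ 2 ^ β := by
    refine le_trans ?_ hβ
    obtain ⟨X, hX⟩ : ∃ X, X = v + τ + s + 2 := ⟨_, rfl⟩
    rw [← hX]
    have h1 : B * L ≤ X * X := Nat.mul_le_mul (by omega) (by omega)
    have h2 : B + 3 + τ ≤ X + 1 := by omega
    have h3 : 2 ≤ X := by omega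
    have h4 : 4 * (X * X) ≤ X ^ 4 := by
      have h5 : X ^ 4 = (X * X) * (X * X) := by ring
      rw [h5]
      exact Nat.mul_le_mul_right _ (by nlinarith)
    nlinarith
  -- the gates
  have hgate : ∀ k, ∃ (l : List (ℕ × ℕ)) (p : ℕ), k < B →
      (l.length ≤ L ∧ p < 2 ^ β ∧ (∀ q ∈ l, q.1 < 2 ^ β ∧ q.2 < 2 ^ β) ∧
        (∀ e : Option (V (Fin (σ + 1))) → Bool, ∃ val : ℕ → Bool, ∀ T : ℕ → Bool,
          T B = true → (∀ u, T (src_Dn v B τ u) = e u) →
          ((∀ i (h : i < l.length), T (B + 3 + τ + k * L + i) = !(T (l[i].1) && T (l[i].2))) ↔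
            (∀ i < l.length, T (B + 3 + τ + k * L + i) = val i)) ∧
          ((∀ i < l.length, T (B + 3 + τ + k * L + i) = val i) →
            T p = (fo_Dn M v k).eval e))) := by
    intro k
    by_cases hk : k < B
    · have hsz := fo_size_Dn hM k
      have h1 : (k + 1) * L ≤ B * L := Nat.mul_le_mul_right L hk
      rw [Nat.add_mul, Nat.one_mul] at h1
      obtain ⟨l, p, h2, h3, h4, h5⟩ := h (Option (V (Fin (σ + 1)))) (src_Dn v B τ) B
        (B + 3 + τ + k * L) (2 ^ β) (fo_Dn M v k) (by
          intro u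
          rcases u with _ | (i | j | j)
          · show B + 1 < 2 ^ β
            omega
          · show v + (i : ℕ) < 2 ^ β
            have := i.2
            omega
          · show (if j < τ then B + 3 + j else B + 2) < 2 ^ β
            split_ifs <;> omega
          · show B + 2 < 2 ^ β
            omega) (by omega) (by omega)
      exact ⟨l, p, fun _ => ⟨by omega, h3, h4, h5⟩⟩
    · exact ⟨[], 0, fun h => absurd h hk⟩
  choose l p hlp using hgate
  refine ⟨fun g => rk_Dn v B l p (dec_Dn v B τ B L g), ?_, ?_⟩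
  · -- bounds
    intro g
    show (rk_Dn v B l p (dec_Dn v B τ B L g)).2.2.1 < 2 ^ β ∧
      (rk_Dn v B l p (dec_Dn v B τ B L g)).2.2.2 < 2 ^ β
    rcases cases_Dn τ B L g hvB hL0 with h1 | ⟨i, hi, rfl⟩ | rfl | rfl | rfl | ⟨j, hj, rfl⟩ |
      ⟨k, hk, i, hi, rfl⟩ | h1
    · rw [dec_ad_Dn h1]
      exact ⟨(hlp g (by omega)).2.1, by show B < 2 ^ β; omega⟩
    · rw [dec_mem_Dn hi]
      exact ⟨(hlp (v + i) hi).2.1, by show 0 < 2 ^ β; omega⟩
    · rw [dec_cw_Dn hvB]
      exact ⟨by show 1 < 2 ^ β; omega, by show 0 < 2 ^ β; omega⟩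
    · rw [dec_rw_Dn hvB]
      exact ⟨by show 0 < 2 ^ β; omega, by show 0 < 2 ^ β; omega⟩
    · rw [dec_fw_Dn hvB]
      exact ⟨by show B + 2 < 2 ^ β; omega, by show 0 < 2 ^ β; omega⟩
    · rw [dec_clk_Dn hvB hj]
      exact ⟨by show j < 2 ^ β; omega, by show 0 < 2 ^ β; omega⟩
    · rw [dec_gate_Dn hvB hk hi]
      unfold rk_Dn
      by_cases h2 : i < (l k).length
      · simp only [dif_pos h2]
        exact (hlp k hk).2.2.1 _ (List.getElem_mem h2)
      · simp only [dif_neg h2]
        exact ⟨by omega, by omega⟩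
    · rw [dec_other_Dn hvB h1]
      exact ⟨by show 1 < 2 ^ β; omega, by show 0 < 2 ^ β; omega⟩
  -- the records
  set r : Recs := fun g => rk_Dn v B l p (dec_Dn v B τ B L g) with hr
  have r_ad : ∀ g, g < v → r g = (false, false, p g, B) := by
    intro g hg
    show rk_Dn v B l p (dec_Dn v B τ B L g) = _
    rw [dec_ad_Dn hg]
    rfl
  have r_mem : ∀ i, v + i < B → r (v + i) = (true, false, p (v + i), 0) := by
    intro i hi
    show rk_Dn v B l p (dec_Dn v B τ B L (v + i)) = _
    rw [dec_mem_Dn hi]
    rfl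
  have r_cw : r B = (true, true, 1, 0) := by
    show rk_Dn v B l p (dec_Dn v B τ B L B) = _
    rw [dec_cw_Dn hvB]
    rfl
  have r_rw : r (B + 1) = (true, true, 0, 0) := by
    show rk_Dn v B l p (dec_Dn v B τ B L (B + 1)) = _
    rw [dec_rw_Dn hvB]
    rfl
  have r_fw : r (B + 2) = (true, false, B + 2, 0) := by
    show rk_Dn v B l p (dec_Dn v B τ B L (B + 2)) = _
    rw [dec_fw_Dn hvB]
    rfl
  have r_clk : ∀ j, j < τ → r (B + 3 + j) = (false, true, j, 0) := by
    intro j hj
    show rk_Dn v B l p (dec_Dn v B τ B L (B + 3 + j)) = _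
    rw [dec_clk_Dn hvB hj]
    rfl
  have r_gate : ∀ k, k < B → ∀ i (hi : i < (l k).length),
      r (B + 3 + τ + k * L + i) = (false, false, (l k)[i].1, (l k)[i].2) := by
    intro k hk i hi
    show rk_Dn v B l p (dec_Dn v B τ B L (B + 3 + τ + k * L + i)) = _
    rw [dec_gate_Dn hvB hk (lt_of_lt_of_le hi (hlp k hk).1)]
    show (if h : i < (l k).length then (false, false, (l k)[i].1, (l k)[i].2)
      else (true, true, 1, 0)) = _
    rw [dif_pos hi]
  have r_gate' : ∀ k, k < B → ∀ i, i < L → (l k).length ≤ i →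
      r (B + 3 + τ + k * L + i) = (true, true, 1, 0) := by
    intro k hk i hi hi'
    show rk_Dn v B l p (dec_Dn v B τ B L (B + 3 + τ + k * L + i)) = _
    rw [dec_gate_Dn hvB hk hi]
    show (if h : i < (l k).length then (false, false, (l k)[i].1, (l k)[i].2)
      else (true, true, 1, 0)) = _
    rw [dif_neg (by omega)]
  have r_other : ∀ g, B + 3 + τ + B * L ≤ g → r g = (true, true, 1, 0) := by
    intro g hg
    show rk_Dn v B l p (dec_Dn v B τ B L g) = _
    rw [dec_other_Dn hvB hg]
    rfl
  intro inp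
  constructor
  · rintro ⟨T, hT, hfin⟩
    have hfw : ∀ t ≤ 2 ^ τ, T t (B + 2) = false := by
      intro t
      induction t with
      | zero =>
        intro _
        exact ((cond_mem_Dn r_fw).1 (hT 0 (by positivity) (B + 2) (by omega))).2 rfl
      | succ t ih =>
        intro ht
        rw [((cond_mem_Dn r_fw).1 (hT t (by omega) (B + 2) (by omega))).1]
        exact ih (by omega)
    have hmem : ∀ t ≤ 2 ^ τ, ∀ i : Fin (σ + 1),
        T t (v + i) = M.run v inp zero 0 zero t i := by
      intro t
      induction t with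
      | zero =>
        intro _ i
        have hi := i.2
        exact ((cond_mem_Dn (r_mem i (by omega))).1
          (hT 0 (by positivity) (v + i) (by omega))).2 rfl
      | succ t ih =>
        intro ht i
        have iht := ih (by omega)
        have htt : t < 2 ^ τ := by omega
        have hcw : T t B = true := (cond_cst_Dn r_cw).1 (hT t htt B (by omega))
        -- the values of the sources
        have hsrc : ∀ u, T t (src_Dn v B τ u) =
            oenv (env (M.run v inp zero 0 zero t) t zero) (T t (B + 1)) u := by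
          intro u
          rcases u with _ | (i | j | j)
          · rfl
          · exact iht i
          · show T t (if j < τ then B + 3 + j else B + 2) = t.testBit j
            by_cases hj : j < τ
            · rw [if_pos hj, (cond_clk_Dn (r_clk j hj)).1 (hT t htt (B + 3 + j) (by omega)),
                testBit_Dn hj]
            · rw [if_neg hj, hfw t htt.le]
              symm
              exact Nat.testBit_lt_two_pow
                (lt_of_lt_of_le htt (Nat.pow_le_pow_right (by norm_num) (by omega)))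
          · exact hfw t htt.le
        have hval : ∀ k, k < B → T t (p k) = (fo_Dn M v k).eval
            (oenv (env (M.run v inp zero 0 zero t) t zero) (T t (B + 1))) := by
          intro k hk
          obtain ⟨hk1, hk2, hk3, hk4⟩ := hlp k hk
          obtain ⟨val, hval⟩ := hk4 (oenv (env (M.run v inp zero 0 zero t) t zero) (T t (B + 1)))
          obtain ⟨hv1, hv2⟩ := hval (T t) hcw hsrc
          apply hv2
          apply hv1.1
          intro i hi
          have h1 : (k + 1) * L ≤ B * L := Nat.mul_le_mul_right L hk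
          rw [Nat.add_mul, Nat.one_mul] at h1
          exact (cond_nand_Dn (r_gate k hk i hi)).1
            (hT t htt (B + 3 + τ + k * L + i) (by omega))
        -- the address
        have had : (fun j => decide (j < v) && T t j) =
            M.addr v zero t (M.run v inp zero 0 zero t) := by
          funext j
          unfold Mac.addr
          by_cases hj : j < v
          · rw [(cond_nand_Dn (r_ad j hj)).1 (hT t htt j (by omega)), hcw, hval j (by omega),
              fo_ad_Dn M hj]
            simp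
          · simp [hj]
        have hrd : T t (B + 1) = inp (M.addr v zero t (M.run v inp zero 0 zero t)) := by
          rw [(cond_rd_Dn r_rw).1 (hT t htt (B + 1) (by omega)), had]
        have hi := i.2
        rw [((cond_mem_Dn (r_mem i (by omega))).1 (hT t htt (v + i) (by omega))).1,
          hval (v + i) (by omega), fo_nx_Dn, hrd, run_step_Dn]
    rw [← hmem (2 ^ τ) le_rfl 0]
    exact hfin
  · intro hrun
    have hchoose : ∀ k t, ∃ val : ℕ → Bool, k < B → ∀ T : ℕ → Bool,
        T B = true → (∀ u, T (src_Dn v B τ u) =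
          oenv (env (M.run v inp zero 0 zero t) t zero)
            (inp (M.addr v zero t (M.run v inp zero 0 zero t))) u) →
          ((∀ i (h : i < (l k).length), T (B + 3 + τ + k * L + i) =
              !(T ((l k)[i].1) && T ((l k)[i].2))) ↔
            (∀ i < (l k).length, T (B + 3 + τ + k * L + i) = val i)) ∧
          ((∀ i < (l k).length, T (B + 3 + τ + k * L + i) = val i) →
            T (p k) = (fo_Dn M v k).eval (oenv (env (M.run v inp zero 0 zero t) t zero)
            (inp (M.addr v zero t (M.run v inp zero 0 zero t))))) := by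
      intro k t
      by_cases hk : k < B
      · obtain ⟨val, hval⟩ := (hlp k hk).2.2.2 (oenv (env (M.run v inp zero 0 zero t) t zero)
          (inp (M.addr v zero t (M.run v inp zero 0 zero t))))
        exact ⟨val, fun _ => hval⟩
      · exact ⟨fun _ => false, fun h => absurd h hk⟩
    choose val hval using hchoose
    obtain ⟨T, hTd⟩ : ∃ T : ℕ → ℕ → Bool, T = fun t g =>
      va_Dn v B τ M inp l val t g (dec_Dn v B τ B L g) := ⟨_, rfl⟩
    have T_ad : ∀ t g, g < v → T t g =
        (M.ad g).eval (env (M.run v inp zero 0 zero t) t zero) := by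
      intro t g hg
      rw [hTd]
      show va_Dn v B τ M inp l val t g (dec_Dn v B τ B L g) = _
      rw [dec_ad_Dn hg]
      rfl
    have T_mem : ∀ t (i : Fin (σ + 1)), T t (v + i) = M.run v inp zero 0 zero t i := by
      intro t i
      have hi := i.2
      rw [hTd]
      show va_Dn v B τ M inp l val t (v + i) (dec_Dn v B τ B L (v + i)) = _
      rw [dec_mem_Dn (by omega)]
      show (if h : (i : ℕ) < σ + 1 then M.run v inp zero 0 zero t ⟨i, h⟩ else false) = _
      rw [dif_pos hi]
    have T_cw : ∀ t, T t B = true := by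
      intro t
      rw [hTd]
      show va_Dn v B τ M inp l val t B (dec_Dn v B τ B L B) = _
      rw [dec_cw_Dn hvB]
      rfl
    have T_rw : ∀ t, T t (B + 1) = inp (M.addr v zero t (M.run v inp zero 0 zero t)) := by
      intro t
      rw [hTd]
      show va_Dn v B τ M inp l val t (B + 1) (dec_Dn v B τ B L (B + 1)) = _
      rw [dec_rw_Dn hvB]
      rfl
    have T_fw : ∀ t, T t (B + 2) = false := by
      intro t
      rw [hTd]
      show va_Dn v B τ M inp l val t (B + 2) (dec_Dn v B τ B L (B + 2)) = _
      rw [dec_fw_Dn hvB]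
      rfl
    have T_clk : ∀ t j, j < τ → T t (B + 3 + j) = (t + 2 ^ τ * (B + 3 + j)).testBit j := by
      intro t j hj
      rw [hTd]
      show va_Dn v B τ M inp l val t (B + 3 + j) (dec_Dn v B τ B L (B + 3 + j)) = _
      rw [dec_clk_Dn hvB hj]
      rfl
    have T_gate : ∀ t k, k < B → ∀ i, i < L → T t (B + 3 + τ + k * L + i) =
        if i < (l k).length then val k t i else true := by
      intro t k hk i hi
      rw [hTd]
      show va_Dn v B τ M inp l val t (B + 3 + τ + k * L + i)
        (dec_Dn v B τ B L (B + 3 + τ + k * L + i)) = _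
      rw [dec_gate_Dn hvB hk hi]
      rfl
    have T_other : ∀ t g, B + 3 + τ + B * L ≤ g → T t g = true := by
      intro t g hg
      rw [hTd]
      show va_Dn v B τ M inp l val t g (dec_Dn v B τ B L g) = _
      rw [dec_other_Dn hvB hg]
      rfl
    have hsrc : ∀ t < 2 ^ τ, ∀ u, T t (src_Dn v B τ u) =
        oenv (env (M.run v inp zero 0 zero t) t zero)
          (inp (M.addr v zero t (M.run v inp zero 0 zero t))) u := by
      intro t ht u
      rcases u with _ | (i | j | j)
      · exact T_rw t
      · exact T_mem t i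
      · show T t (if j < τ then B + 3 + j else B + 2) = t.testBit j
        by_cases hj : j < τ
        · rw [if_pos hj, T_clk t j hj, testBit_Dn hj]
        · rw [if_neg hj, T_fw t]
          symm
          exact Nat.testBit_lt_two_pow
            (lt_of_lt_of_le ht (Nat.pow_le_pow_right (by norm_num) (by omega)))
      · exact T_fw t
    have hgv : ∀ t k, k < B → ∀ i < (l k).length,
        T t (B + 3 + τ + k * L + i) = val k t i := by
      intro t k hk i hi
      rw [T_gate t k hk i (lt_of_lt_of_le hi (hlp k hk).1), if_pos hi]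
    have hp : ∀ t < 2 ^ τ, ∀ k, k < B → T t (p k) = (fo_Dn M v k).eval
        (oenv (env (M.run v inp zero 0 zero t) t zero)
          (inp (M.addr v zero t (M.run v inp zero 0 zero t)))) := by
      intro t ht k hk
      exact (hval k t hk (T t) (T_cw t) (hsrc t ht)).2 (hgv t k hk)
    refine ⟨T, ?_, ?_⟩
    · intro t ht g _
      rcases cases_Dn τ B L g hvB hL0 with h1 | ⟨i, hi, rfl⟩ | rfl | rfl | rfl | ⟨j, hj, rfl⟩ |
        ⟨k, hk, i, hi, rfl⟩ | h1
      · rw [cond_nand_Dn (r_ad g h1), T_ad t g h1, T_cw t, hp t ht g (by omega), fo_ad_Dn M h1]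
        simp
      · have hi' : i < σ + 1 := by omega
        rw [cond_mem_Dn (r_mem i hi), hp t ht (v + i) hi]
        have e1 := T_mem (t + 1) ⟨i, hi'⟩
        have e2 := fo_nx_Dn (v := v) M ⟨i, hi'⟩ (oenv (env (M.run v inp zero 0 zero t) t zero)
          (inp (M.addr v zero t (M.run v inp zero 0 zero t))))
        have e3 := T_mem t ⟨i, hi'⟩
        constructor
        · rw [e2]
          refine e1.trans ?_
          rw [run_step_Dn]
        · intro h0
          refine e3.trans ?_
          rw [h0]
          rfl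
      · rw [cond_cst_Dn r_cw]
        exact T_cw t
      · rw [cond_rd_Dn r_rw, T_rw t]
        congr 1
        funext j
        unfold Mac.addr
        by_cases hj : j < v
        · rw [T_ad t j hj]
        · simp [hj]
      · rw [cond_mem_Dn r_fw, T_fw, T_fw]
        exact ⟨rfl, fun _ => rfl⟩
      · rw [cond_clk_Dn (r_clk j hj)]
        exact T_clk t j hj
      · by_cases h2 : i < (l k).length
        · rw [cond_nand_Dn (r_gate k hk i h2)]
          exact (hval k t hk (T t) (T_cw t) (hsrc t ht)).1.2 (hgv t k hk) i h2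
        · rw [cond_cst_Dn (r_gate' k hk i hi (not_lt.1 h2)), T_gate t k hk i hi, if_neg h2]
      · rw [cond_cst_Dn (r_other g h1)]
        exact T_other t g h1
    · rw [← hrun]
      exact T_mem (2 ^ τ) 0

end Pool.Agent.Helper93.TS
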