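import Pool.Agent.Helper93.TS.StD

/-!
Project TS, module DW: the word describing a list of wires.
-/

namespace Pool.Agent.Helper93.TS

/-- the number formed by `n` bits of `a` from position `p` on -/
private def num_Dw (n p : ℕ) (a : Addr) : ℕ := Nat.ofBits fun j : Fin n => a (p + j)

private theorem num_eq_Dw (n p : ℕ) (a : Addr) (m : ℕ) (hm : m < 2 ^ n)
    (h : ∀ j < n, a (p + j) = m.testBit j) : num_Dw n p a = m := by
  unfold num_Dw
  apply Nat.eq_of_testBit_eq
  intro i
  by_cases hi : i < n
  · rw [Nat.testBit_ofBits_lt _ _ hi]
    exact h i hi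
  · rw [Nat.testBit_ofBits_ge _ _ (Nat.not_lt.1 hi)]
    exact (Nat.testBit_lt_two_pow (hm.trans_le
      (Nat.pow_le_pow_right (by norm_num) (Nat.not_lt.1 hi)))).symm

private theorem num_congr_Dw (n p : ℕ) (a b : Addr) (h : ∀ j < n, a (p + j) = b (p + j)) :
    num_Dw n p a = num_Dw n p b := by
  unfold num_Dw
  congr 1
  funext j
  exact h j j.2

private theorem trunc_trunc_Dw (β : ℕ) (a : Addr) : trunc β (trunc β a) = trunc β a :=
  trunc_of_supp (supp_trunc β a)

private theorem iw_bin_Dw (n j : ℕ) : iw n (bin j) = n.testBit j := by
  classical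
  unfold iw
  rw [Bool.eq_iff_iff, decide_eq_true_eq]
  constructor
  · rintro ⟨i, hi, h⟩
    rwa [bin_inj hi]
  · intro h
    exact ⟨j, rfl, h⟩

private theorem idx_iw_Dw (n : ℕ) : idx (iw n) = bin n := by
  funext j
  exact iw_bin_Dw n j

theorem hDw : StDw := by
  intro v β τ r hβ hv hr
  classical
  let x0 : Word := fun a =>
    if a (β + 1) = true then
      (if a β = true then (r (num_Dw β 0 a)).2.1 else (r (num_Dw β 0 a)).1)
    else
      (if a β = true then (r (num_Dw β 0 a)).2.2.2.testBit (num_Dw β (β + 2) a)
        else (r (num_Dw β 0 a)).2.2.1.testBit (num_Dw β (β + 2) a))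
  refine ⟨x0, ?_, ?_⟩
  · intro a
    have e1 : trunc (2 * β + 2) a β = a β := by
      have : β < 2 * β + 2 := by omega
      simp [trunc, this]
    have e2 : trunc (2 * β + 2) a (β + 1) = a (β + 1) := by
      have : β + 1 < 2 * β + 2 := by omega
      simp [trunc, this]
    have e3 : num_Dw β 0 (trunc (2 * β + 2) a) = num_Dw β 0 a := by
      apply num_congr_Dw
      intro j hj
      have : 0 + j < 2 * β + 2 := by omega
      simp only [trunc, this, decide_true, Bool.true_and]
    have e4 : num_Dw β (β + 2) (trunc (2 * β + 2) a) = num_Dw β (β + 2) a := by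
      apply num_congr_Dw
      intro j hj
      have : β + 2 + j < 2 * β + 2 := by omega
      simp only [trunc, this, decide_true, Bool.true_and]
    simp only [x0, e1, e2, e3, e4]
  · intro inp W t g ht hg
    set n := t + 2 ^ τ * g with hn
    have hc : idx (iw n) = bin n := idx_iw_Dw n
    have hnt : ∀ i < τ, n.testBit i = t.testBit i := by
      intro i hi
      rw [hn, add_comm, Nat.testBit_two_pow_mul_add _ ht, if_pos hi]
    have hng : ∀ i, n.testBit (τ + i) = g.testBit i := by
      intro i
      rw [hn, add_comm, Nat.testBit_two_pow_mul_add _ ht, if_neg (by omega)]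
      congr 1
      omega
    have hT : trunc τ (bin n) = bin t := by
      funext i
      by_cases hi : i < τ
      · simp [trunc, hi, bin_apply, hnt i hi]
      · have := supp_bin ht i (Nat.not_lt.1 hi)
        rw [this]
        simp [trunc, hi]
    have hG : (fun j => bin n (τ + j)) = bin g := by
      funext j
      exact hng j
    -- the record of wire `g`
    have hrec : ∀ a : Addr, sub β (β + 2) (bin g) x0 a =
        if a 1 = true then (if a 0 = true then (r g).2.1 else (r g).1)
        else (if a 0 = true then (r g).2.2.2.testBit (num_Dw β 2 a)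
          else (r g).2.2.1.testBit (num_Dw β 2 a)) := by
      intro a
      have e0 : cat β (bin g) (trunc (β + 2) a) β = a 0 := by
        simp [cat, trunc]
      have e1 : cat β (bin g) (trunc (β + 2) a) (β + 1) = a 1 := by
        simp [cat, trunc]
      have e2 : num_Dw β 0 (cat β (bin g) (trunc (β + 2) a)) = g := by
        apply num_eq_Dw _ _ _ _ hg
        intro j hj
        have : 0 + j < β := by omega
        rw [cat_of_lt _ _ this]
        simp [bin_apply]
      have e3 : num_Dw β (β + 2) (cat β (bin g) (trunc (β + 2) a)) = num_Dw β 2 a := by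
        unfold num_Dw
        congr 1
        funext j
        have h1 : ¬ β + 2 + (j : ℕ) < β := by omega
        have h2 : β + 2 + (j : ℕ) - β = 2 + j := by omega
        have h3 : 2 + (j : ℕ) < β + 2 := by omega
        simp [cat, trunc, h1, h2, h3]
      simp only [sub, x0, e0, e1, e2, e3]
    have hjA : ∀ j < 2 ^ β, fst (fst (sub β (β + 2) (bin g) x0)) (bin j) =
        (r g).2.2.1.testBit j := by
      intro j hj
      have : num_Dw β 2 (acons false (acons false (bin j))) = j := by
        apply num_eq_Dw _ _ _ _ hj
        intro i _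
        have : 2 + i = i + 1 + 1 := by omega
        rw [this, acons_succ, acons_succ, bin_apply]
      simp only [fst, hrec, this]
      simp [acons]
    have hjB : ∀ j < 2 ^ β, fst (snd (sub β (β + 2) (bin g) x0)) (bin j) =
        (r g).2.2.2.testBit j := by
      intro j hj
      have : num_Dw β 2 (acons true (acons false (bin j))) = j := by
        apply num_eq_Dw _ _ _ _ hj
        intro i _
        have : 2 + i = i + 1 + 1 := by omega
        rw [this, acons_succ, acons_succ, bin_apply]
      simp only [fst, snd, hrec, this]
      simp [acons]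
    have hk0 : snd (fst (sub β (β + 2) (bin g) x0)) zero = (r g).1 := by
      simp only [fst, snd, hrec]
      simp [acons]
    have hk1 : snd (snd (sub β (β + 2) (bin g) x0)) zero = (r g).2.1 := by
      simp only [snd, hrec]
      simp [acons]
    have hβ2 : β < 2 ^ β := Nat.lt_two_pow_self
    have hidx : ∀ (X : Word) (m : ℕ), m < 2 ^ β → (∀ j < 2 ^ β, X (bin j) = m.testBit j) →
        trunc β (idx X) = bin m := by
      intro X m hm hX
      funext i
      by_cases hi : i < β
      · simp [trunc, hi, idx, hX i (hi.trans hβ2), bin_apply]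
      · have := supp_bin hm i (Nat.not_lt.1 hi)
        rw [this]
        simp [trunc, hi]
    have hA := hidx _ _ (hr g).1 hjA
    have hB := hidx _ _ (hr g).2 hjB
    have hrow : ∀ a, sub (τ + 1) β (bin t) W (trunc β a) = W (cat (τ + 1) (bin t) (trunc β a)) := by
      intro a
      simp only [sub, trunc_trunc_Dw]
    have hrowN : ∀ a, sub (τ + 1) β (bin (t + 1)) W (trunc β a) =
        W (cat (τ + 1) (bin (t + 1)) (trunc β a)) := by
      intro a
      simp only [sub, trunc_trunc_Dw]
    have hlook : ∀ (X : Word) (m : ℕ), m < 2 ^ β → trunc β (idx X) = bin m →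
        look β X (sub (τ + 1) β (bin t) W) = wv β τ W t m := by
      intro X m hm hX
      simp only [look, hX, sub, wv]
    have hvr : trunc v (idx (sub (τ + 1) β (bin t) W)) =
        fun j => decide (j < v) && wv β τ W t j := by
      funext j
      simp only [trunc, idx, sub, wv]
    have haz : (∀ j < β, fst (fst (sub β (β + 2) (bin g) x0)) (bin j) = false) ↔
        (r g).2.2.1 = 0 := by
      constructor
      · intro h
        apply Nat.eq_of_testBit_eq
        intro i
        rw [Nat.zero_testBit]
        by_cases hi : i < β
        · rw [← hjA i (hi.trans hβ2)]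
          exact h i hi
        · exact supp_bin (hr g).1 i (Nat.not_lt.1 hi)
      · intro h j hj
        rw [hjA j (hj.trans hβ2), h, Nat.zero_testBit]
    have htz : (∀ j < τ, bin n j = false) ↔ t = 0 := by
      constructor
      · intro h
        apply Nat.eq_of_testBit_eq
        intro i
        rw [Nat.zero_testBit]
        by_cases hi : i < τ
        · rw [← hnt i hi]
          exact h i hi
        · exact supp_bin ht i (Nat.not_lt.1 hi)
      · intro h j hj
        rw [bin_apply, hnt j hj, h, Nat.zero_testBit]
    have hvA := hlook _ _ (hr g).1 hA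
    have hvB := hlook _ _ (hr g).2 hB
    have hvg : sub (τ + 1) β (bin t) W (trunc β (bin g)) = wv β τ W t g := hrow _
    have hvn : sub (τ + 1) β (bin (t + 1)) W (trunc β (bin g)) = wv β τ W (t + 1) g := hrowN _
    have hct : look β (fst (fst (sub β (β + 2) (bin g) x0))) (iw n) =
        n.testBit (r g).2.2.1 := by
      simp only [look, hA, iw_bin_Dw]
    have hvr' : look v (sub (τ + 1) β (bin t) W) inp =
        inp (fun j => decide (j < v) && wv β τ W t j) := by
      simp only [look, hvr]
    have hb : bits v β τ x0 inp W (iw n) =
        { k0 := (r g).1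
          k1 := (r g).2.1
          va := wv β τ W t (r g).2.2.1
          vb := wv β τ W t (r g).2.2.2
          vg := wv β τ W t g
          vn := wv β τ W (t + 1) g
          vr := inp (fun j => decide (j < v) && wv β τ W t j)
          ct := n.testBit (r g).2.2.1
          az := decide ((r g).2.2.1 = 0)
          tz := decide (t = 0) } := by
      simp only [bits, hc, hT, hG, inc_bin, hk0, hk1, hvA, hvB, hvg, hvn, hct, hvr', haz, htz]
    rw [hb]
    unfold Bits.ok cond
    obtain ⟨k0, k1, A, B⟩ : Bool × Bool × ℕ × ℕ := r g
    cases k0 <;> cases k1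
    · simp
    · simp [hn]
    · by_cases h0 : t = 0 <;> simp [h0]
    · by_cases h0 : A = 0 <;> simp [h0]

end Pool.Agent.Helper93.TS
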