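import Pool.Agent.Helper93.TS.StE

/-! Project TS, module EA: lemma A. -/

namespace Pool.Agent.Helper93.TS

open Pool.Agent.Helper72 Filter

theorem Dk.mono_EA {k : ℕ} {ρ τ η ρ' τ' η' : ℝ} {f : Word → Prop} (h : Dk k ρ τ η f)
    (h1 : ρ ≤ ρ') (h2 : τ ≤ τ') (h3 : η ≤ η') : Dk k ρ' τ' η' f := by
  obtain ⟨v, t, s, hv, ht, hs, hD⟩ := h
  have hk : (0 : ℝ) ≤ k := Nat.cast_nonneg k
  exact ⟨v, t, s, hv.trans (mul_le_mul_of_nonneg_right h1 hk),
    ht.trans (mul_le_mul_of_nonneg_right h2 hk),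
    hs.trans (Real.rpow_le_rpow_of_exponent_le (by norm_num)
      (mul_le_mul_of_nonneg_right h3 hk)), hD⟩

theorem Dk.congr_EA {k : ℕ} {ρ τ η : ℝ} {f g : Word → Prop} (h : Dk k ρ τ η f)
    (hfg : ∀ w, g w ↔ f w) : Dk k ρ τ η g := by
  obtain ⟨v, t, s, hv, ht, hs, hD⟩ := h
  exact ⟨v, t, s, hv, ht, hs, hD.congr hfg⟩

theorem S2.mono_EA {k : ℕ} {m ε m' ε' : ℝ} {f : Word → Prop} (h : S2 k m ε f)
    (h1 : m ≤ m') (h2 : ε ≤ ε') : S2 k m' ε' f := by
  obtain ⟨g, hg, hf⟩ := h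
  exact ⟨g, hg.mono_EA h1 h1 h2, hf⟩

theorem S2.congr_EA {k : ℕ} {m ε : ℝ} {f g : Word → Prop} (h : S2 k m ε f)
    (hfg : ∀ w, g w ↔ f w) : S2 k m ε g := by
  obtain ⟨p, hp, hf⟩ := h
  exact ⟨p, hp, fun x => (hfg x).trans (hf x)⟩

/-- static transformations of words -/
def Good_EA (R : Word → Word) : Prop := ∃ a q : ℕ, ∀ v, Rep v (v + a) q R

theorem good_id_EA {C : ℕ} (h : StRep C) : Good_EA (fun w => w) := ⟨0, C, fun v => h.id v⟩

theorem good_fst_EA {C : ℕ} (h : StRep C) : Good_EA (fun w => fst w) := ⟨1, C, fun v => h.fst v⟩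

theorem good_snd_EA {C : ℕ} (h : StRep C) : Good_EA (fun w => snd w) := ⟨1, C, fun v => h.snd v⟩

theorem good_pair_EA {C : ℕ} (h : StRep C) {R1 R2 : Word → Word} (h1 : Good_EA R1)
    (h2 : Good_EA R2) : Good_EA (fun w => pair (R1 w) (R2 w)) := by
  obtain ⟨a1, q1, k1⟩ := h1
  obtain ⟨a2, q2, k2⟩ := h2
  refine ⟨max a1 a2, q1 + q2 + C + C, fun v => ?_⟩
  have := h.pair v (v + a1) (v + a2) q1 q2 _ _ (k1 v) (k2 v)
  exact h.mono (v + 1) (max (v + a1) (v + a2)) v (v + max a1 a2) (q1 + q2 + C)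
    (q1 + q2 + C + C) _ this (Nat.le_succ v) (by omega) le_rfl

theorem good_comp_EA {C : ℕ} (h : StRep C) {R1 R2 : Word → Word} (h1 : Good_EA R1)
    (h2 : Good_EA R2) : Good_EA (fun w => R1 (R2 w)) := by
  obtain ⟨a1, q1, k1⟩ := h1
  obtain ⟨a2, q2, k2⟩ := h2
  refine ⟨a1 + a2, (q1 + q2 + 2) ^ C, fun v => ?_⟩
  have := h.comp v (v + a1) (v + a1 + a2) q1 q2 _ _ (k1 v) (k2 (v + a1))
  rw [← Nat.add_assoc]
  exact this

theorem good_fun_EA (h : StEst) {R : Word → Word} (hR : Good_EA R) {ε : ℝ} (hε : 0 < ε) :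
    ∃ η : ℝ, 0 < η ∧ ∀ᶠ k : ℕ in atTop, ∀ (ρ τ : ℝ) (f : Word → Prop),
    Dk k ρ τ η f → Dk k (ρ + ε) τ ε (fun w => f (R w)) := by
  obtain ⟨a, q, hR⟩ := hR
  exact h R a q hR ε hε

theorem dseq_ge_EA {c : ℝ} (hc : 1 ≤ c) (hc2 : c ≤ 2) (j : ℕ) : 2 ≤ dseq c j := by
  induction j with
  | zero => exact le_rfl
  | succ j ih =>
    show 2 ≤ 1 + dseq c j / c
    have : 1 ≤ dseq c j / c := by
      rw [le_div_iff₀ (by linarith)]
      linarith
    linarith

theorem dseq_le_EA {c : ℝ} (hc : 1 ≤ c) (hc2 : c ≤ 2) (j : ℕ) : dseq c j ≤ j + 2 := by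
  induction j with
  | zero =>
    show (2 : ℝ) ≤ _
    norm_num
  | succ j ih =>
    show 1 + dseq c j / c ≤ _
    have h2 := dseq_ge_EA hc hc2 j
    have : dseq c j / c ≤ dseq c j := div_le_self (by linarith) hc
    push_cast
    linarith

/-- the first steps: speedup and composition -/
theorem front_EA (h1 : StEsp) (h2 : StEix) (h6 : StEst) (h7 : StRepC) (B e : ℝ) (he : 0 < e) :
    ∃ η : ℝ, 0 < η ∧ ∀ᶠ k : ℕ in atTop, ∀ (ρ τ u : ℝ) (f : Word → Prop), 0 ≤ ρ → ρ ≤ B →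
      0 ≤ u → u ≤ ρ → u ≤ τ → τ ≤ B → Dk k ρ τ η f →
      ∃ g : Word → Prop, Dk k (ρ + e) (τ - u + e) e g ∧
        ∀ x, f x ↔ ∃ y, ∀ z, g (pair (pair x y) z) := by
  obtain ⟨C, -, hC⟩ := h7
  have hR : Good_EA (fun w => pair (fst w) (pair (snd w) w)) :=
    good_pair_EA hC (good_fst_EA hC) (good_pair_EA hC (good_snd_EA hC) (good_id_EA hC))
  obtain ⟨η4, p4, E4⟩ := good_fun_EA h6 hR (show 0 < e / 4 by linarith)
  set e3 : ℝ := min (e / 4) η4 with he3
  have he30 : 0 < e3 := lt_min (by linarith) p4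
  have he3a : e3 ≤ e / 4 := min_le_left _ _
  have he3b : e3 ≤ η4 := min_le_right _ _
  obtain ⟨η3, p3, E3⟩ := h2 (B + e) e3 he30
  set e2 : ℝ := min (e / 4) η3 with he2
  have he20 : 0 < e2 := lt_min (by linarith) p3
  have he2a : e2 ≤ e / 4 := min_le_left _ _
  have he2b : e2 ≤ η3 := min_le_right _ _
  obtain ⟨η2, p2, E2⟩ := good_fun_EA h6 (good_fst_EA hC) he20
  set e1 : ℝ := min e2 (min η2 η3) with he1
  have he10 : 0 < e1 := lt_min he20 (lt_min p2 p3)
  have he1a : e1 ≤ e2 := min_le_left _ _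
  have he1b : e1 ≤ η2 := (min_le_right _ _).trans (min_le_left _ _)
  have he1c : e1 ≤ η3 := (min_le_right _ _).trans (min_le_right _ _)
  obtain ⟨η1, p1, E1⟩ := h1 B e1 he10
  refine ⟨η1, p1, ?_⟩
  filter_upwards [E1, E2, E3, E4] with k K1 K2 K3 K4
  intro ρ τ u f hρ0 hρB hu hρu huτ hτB hf
  have hk0 : (0 : ℝ) ≤ k := Nat.cast_nonneg k
  obtain ⟨U, β, g, hU, hβ, hg, hfg⟩ := K1 ρ τ u f hρ0 hρB hτB hu huτ hf
  have D2 := K2 _ _ _ (hg.mono_EA le_rfl le_rfl he1b)
  have D3 := K3 (ρ + e1 + e2) (τ - u + e1) u U β (fun w => g (fst w)) (by linarith) (by linarith)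
    (by linarith) (by linarith) (by linarith) hU
    (hβ.trans (mul_le_mul_of_nonneg_right he1c hk0)) (D2.mono_EA le_rfl le_rfl he2b)
  have D4 := K4 _ _ _ (D3.mono_EA le_rfl le_rfl he3b)
  refine ⟨_, D4.mono_EA ?_ ?_ (by linarith), ?_⟩
  · rw [max_eq_left (by linarith)]
    linarith
  · linarith
  · intro x
    rw [hfg x]
    refine exists_congr fun y => forall_congr' fun z => ?_
    simp only [fst_pair, snd_pair]

/-- the last steps: complement, slowdown, complement -/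
theorem back_EA (h3 : StEslo) (h4 : StEcpl) {c : ℝ} (hc : 1 ≤ c) (hE : Easy c) (B e : ℝ)
    (he : 0 < e) :
    ∃ η : ℝ, 0 < η ∧ ∀ᶠ k : ℕ in atTop, ∀ (ρ τ : ℝ) (g : Word → Prop), 1 ≤ ρ → ρ ≤ B →
      τ ≤ B → Dk k ρ τ η g → Dk k ρ (c * max ρ τ + e) e (fun w => ∀ z, g (pair w z)) := by
  have hc0 : 0 < c := by linarith
  obtain ⟨η3, p3, E3⟩ := h4 (c * (B + e) + e) (e / 3) (by linarith)
  set e2 : ℝ := min (e / 3) η3 with he2
  have he20 : 0 < e2 := lt_min (by linarith) p3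
  have he2a : e2 ≤ e / 3 := min_le_left _ _
  have he2b : e2 ≤ η3 := min_le_right _ _
  obtain ⟨η2, p2, E2⟩ := h3 c hc hE (B + e) e2 he20
  set e1 : ℝ := min (e / (3 * c)) η2 with he1
  have he10 : 0 < e1 := lt_min (by positivity) p2
  have he1a : e1 ≤ e / (3 * c) := min_le_left _ _
  have he1b : e1 ≤ η2 := min_le_right _ _
  have he1c : c * e1 ≤ e / 3 := by
    have := mul_le_mul_of_nonneg_left he1a hc0.le
    refine this.trans (le_of_eq ?_)
    field_simp
  have he1d : e1 ≤ e := by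
    have : e1 ≤ c * e1 := le_mul_of_one_le_left he10.le hc
    linarith
  obtain ⟨η1, p1, E1⟩ := h4 B e1 he10
  refine ⟨η1, p1, ?_⟩
  filter_upwards [E1, E2, E3] with k K1 K2 K3
  intro ρ τ g hρ1 hρB hτB hg
  have D1 := K1 ρ τ g hτB hg
  have D2 := K2 ρ (τ + e1) (fun w => ¬ g w) hρ1 (by linarith) (by linarith)
    (D1.mono_EA le_rfl le_rfl he1b)
  have hmax : max ρ (τ + e1) ≤ max ρ τ + e1 :=
    max_le ((le_max_left _ _).trans (by linarith)) (by linarith [le_max_right ρ τ])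
  have hmB : max ρ τ ≤ B := max_le hρB hτB
  have hcm : c * max ρ (τ + e1) ≤ c * max ρ τ + e / 3 := by
    have := mul_le_mul_of_nonneg_left hmax hc0.le
    linarith
  have hcB : c * max ρ τ ≤ c * B := mul_le_mul_of_nonneg_left hmB hc0.le
  have D3 := K3 ρ (c * max ρ (τ + e1) + e2) _ (by nlinarith) (D2.mono_EA le_rfl le_rfl he2b)
  refine (D3.mono_EA le_rfl (by linarith) (by linarith)).congr_EA fun w => ?_
  push Not
  rfl

theorem hEA (h1 : StEsp) (h2 : StEix) (h3 : StEslo) (h4 : StEcpl) (h5 : StEca) (h6 : StEst)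
    (h7 : StRepC) : StEA := by
  intro c hc hc2 hE j
  have hc0 : 0 < c := by linarith
  induction j with
  | zero =>
    intro B ε hε
    obtain ⟨C, hC1, hC⟩ := h7
    have hR : Good_EA (fun w => pair (pair (fst w) (fst (snd w))) (snd (snd w))) :=
      good_pair_EA hC (good_pair_EA hC (good_fst_EA hC)
        (good_comp_EA hC (good_fst_EA hC) (good_snd_EA hC)))
        (good_comp_EA hC (good_snd_EA hC) (good_snd_EA hC))
    obtain ⟨η2, p2, E2⟩ := good_fun_EA h6 hR (show 0 < ε / 2 by linarith)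
    set e : ℝ := min (ε / 2) η2 with he
    have he0 : 0 < e := lt_min (by linarith) p2
    have hea : e ≤ ε / 2 := min_le_left _ _
    have heb : e ≤ η2 := min_le_right _ _
    obtain ⟨η1, p1, E1⟩ := front_EA h1 h2 h6 ⟨C, hC1, hC⟩ (2 * B) e he0
    refine ⟨η1, p1, ?_⟩
    filter_upwards [E1, E2] with k K1 K2
    intro m f hm hmB hf
    have hB0 : 0 ≤ B := by linarith
    obtain ⟨g, hg, hfg⟩ := K1 m (dseq c 0 * m) m f (by linarith) (by linarith) (by linarith)
      le_rfl (by show m ≤ 2 * m; linarith) (by show 2 * m ≤ 2 * B; linarith) hf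
    have D2 := K2 _ _ _ (hg.mono_EA le_rfl le_rfl heb)
    refine ⟨_, D2.mono_EA (by linarith) ?_ (by linarith), fun x => ?_⟩
    · show 2 * m - m + e ≤ m + ε
      linarith
    · rw [hfg x]
      refine exists_congr fun y => forall_congr' fun z => ?_
      simp only [fst_pair, snd_pair]
  | succ j ih =>
    intro B ε hε
    have hd2 := dseq_ge_EA hc hc2 j
    have hdle := dseq_le_EA hc hc2 j
    have hdc : 1 ≤ dseq c j / c := by
      rw [le_div_iff₀ hc0]
      linarith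
    obtain ⟨ηf, pf, Ef⟩ := h5 (ε / 3) (by linarith)
    set εa : ℝ := min ηf (ε / 3) with hεa
    have hεa0 : 0 < εa := lt_min pf (by linarith)
    have hεaa : εa ≤ ηf := min_le_left _ _
    have hεab : εa ≤ ε / 3 := min_le_right _ _
    obtain ⟨ηa, pa, Ea⟩ := ih (B + 1) εa hεa0
    set e5 : ℝ := min (min 1 (ε / 3)) ηa with he5
    have he50 : 0 < e5 := lt_min (lt_min one_pos (by linarith)) pa
    have he5a : e5 ≤ 1 := (min_le_left _ _).trans (min_le_left _ _)
    have he5b : e5 ≤ ε / 3 := (min_le_left _ _).trans (min_le_right _ _)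
    have he5c : e5 ≤ ηa := min_le_right _ _
    set B1 : ℝ := ((j : ℝ) + 3) * max B 0 + 1 with hB1
    obtain ⟨η2, p2, E2⟩ := back_EA h3 h4 hc hE (B1 + 1) (e5 / 2) (by linarith)
    set e1 : ℝ := min (e5 / 4) η2 with he1
    have he10 : 0 < e1 := lt_min (by linarith) p2
    have he1a : e1 ≤ e5 / 4 := min_le_left _ _
    have he1b : e1 ≤ η2 := min_le_right _ _
    obtain ⟨η1, p1, E1⟩ := front_EA h1 h2 h6 h7 B1 e1 he10
    refine ⟨η1, p1, ?_⟩
    filter_upwards [E1, E2, Ea, Ef] with k K1 K2 Ka Kf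
    intro m f hm hmB hf
    have hB : max B 0 = B := max_eq_left (by linarith)
    have hj0 : (0 : ℝ) ≤ j := Nat.cast_nonneg j
    have hBB1 : B ≤ B1 := by
      rw [hB1, hB]
      nlinarith
    have hds : dseq c (j + 1) = 1 + dseq c j / c := rfl
    have hd3 : dseq c j / c ≤ (j : ℝ) + 2 := (div_le_self (by linarith) hc).trans hdle
    have hτB : dseq c (j + 1) * m ≤ B1 := by
      rw [hds, hB1, hB]
      have h0 : (1 + dseq c j / c) * m ≤ ((j : ℝ) + 3) * m :=
        mul_le_mul_of_nonneg_right (by linarith) (by linarith)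
      have h1' : ((j : ℝ) + 3) * m ≤ ((j : ℝ) + 3) * B :=
        mul_le_mul_of_nonneg_left hmB (by linarith)
      linarith
    have hτm : m ≤ dseq c (j + 1) * m := by
      rw [hds]
      nlinarith
    obtain ⟨g, hg, hfg⟩ := K1 m (dseq c (j + 1) * m) m f (by linarith) (by linarith) (by linarith)
      le_rfl hτm hτB hf
    have hτ : dseq c (j + 1) * m - m + e1 = dseq c j / c * m + e1 := by
      rw [hds]
      ring
    rw [hτ] at hg
    have hmd : m ≤ dseq c j / c * m := le_mul_of_one_le_left (by linarith) hdc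
    have D2 := K2 (m + e1) (dseq c j / c * m + e1) g (by linarith) (by linarith)
      (by linarith) (hg.mono_EA le_rfl le_rfl he1b)
    rw [max_eq_right (by linarith)] at D2
    have hcd : c * (dseq c j / c * m + e1) = dseq c j * m + c * e1 := by
      field_simp
    rw [hcd] at D2
    have hce : c * e1 ≤ e5 / 2 := by nlinarith
    have D3 : Dk k (m + e5) (dseq c j * (m + e5)) ηa (fun w => ∀ z, g (pair w z)) := by
      refine D2.mono_EA (by linarith) ?_ (by linarith)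
      nlinarith
    have D4 := Ka (m + e5) _ (by linarith) (by linarith) D3
    have D5 := Kf _ _ (D4.mono_EA le_rfl hεaa)
    refine (D5.mono_EA (by linarith) (by linarith)).congr_EA fun x => ?_
    exact hfg x

end Pool.Agent.Helper93.TS
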