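import Pool.Agent.Helper93.TS.StE

/-!
Project TS, module EB: lemma B.
-/

namespace Pool.Agent.Helper93.TS

open Pool.Agent.Helper72 Filter

private theorem Dk_mono_EB {k : ℕ} {ρ ρ' τ τ' η η' : ℝ} {f : Word → Prop} (h : Dk k ρ τ η f)
    (h1 : ρ ≤ ρ') (h2 : τ ≤ τ') (h3 : η ≤ η') : Dk k ρ' τ' η' f := by
  obtain ⟨v, t, s, hv, ht, hs, hd⟩ := h
  have hk : (0 : ℝ) ≤ k := Nat.cast_nonneg k
  refine ⟨v, t, s, hv.trans (mul_le_mul_of_nonneg_right h1 hk),
    ht.trans (mul_le_mul_of_nonneg_right h2 hk), hs.trans ?_, hd⟩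
  exact Real.rpow_le_rpow_of_exponent_le (by norm_num) (mul_le_mul_of_nonneg_right h3 hk)

private theorem Dk_congr_EB {k : ℕ} {ρ τ η : ℝ} {f g : Word → Prop} (h : Dk k ρ τ η f)
    (hfg : ∀ w, g w ↔ f w) : Dk k ρ τ η g := by
  obtain ⟨v, t, s, hv, ht, hs, hd⟩ := h
  exact ⟨v, t, s, hv, ht, hs, hd.congr hfg⟩

private theorem S2_mono_EB {k : ℕ} {m m' ε ε' : ℝ} {f : Word → Prop} (h : S2 k m ε f)
    (h1 : m ≤ m') (h2 : ε ≤ ε') : S2 k m' ε' f := by
  obtain ⟨p, hp, hf⟩ := h
  exact ⟨p, Dk_mono_EB hp h1 h1 h2, hf⟩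

private theorem S2_congr_EB {k : ℕ} {m ε : ℝ} {f g : Word → Prop} (h : S2 k m ε f)
    (hfg : ∀ w, g w ↔ f w) : S2 k m ε g := by
  obtain ⟨p, hp, hf⟩ := h
  exact ⟨p, hp, fun x => (hfg x).trans (hf x)⟩

/-- a universal quantifier -/
private theorem all_EB (hcp : StEcpl) (hsl : StEslo) (c : ℝ) (hc1 : 1 ≤ c) (he : Easy c)
    (B ε : ℝ) (hε : 0 < ε) : ∃ η : ℝ, 0 < η ∧ ∀ᶠ k : ℕ in atTop, ∀ (ρ τ : ℝ) (f : Word → Prop),
      1 ≤ ρ → ρ ≤ B → τ ≤ B → Dk k ρ τ η f →
      Dk k ρ (c * max ρ τ + ε) ε (fun x => ∀ y, f (pair x y)) := by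
  have hc0 : (0 : ℝ) < c := by linarith
  obtain ⟨η1, p1, E1⟩ := hcp (c * (B + ε) + ε) (ε / 4) (by positivity)
  obtain ⟨η2, p2, E2⟩ := hsl c hc1 he (B + ε) (min (ε / 4) η1) (lt_min (by positivity) p1)
  obtain ⟨η3, p3, E3⟩ := hcp B (min (ε / (4 * c)) η2) (lt_min (by positivity) p2)
  refine ⟨η3, p3, ?_⟩
  filter_upwards [E1, E2, E3] with k E1 E2 E3
  intro ρ τ f hρ1 hρB hτB hf
  have a3 := E3 ρ τ f hτB hf
  have hm3 : min (ε / (4 * c)) η2 ≤ ε / (4 * c) := min_le_left _ _
  have hm3' : ε / (4 * c) ≤ ε / 4 := by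
    apply div_le_div_of_nonneg_left hε.le (by norm_num)
    linarith
  have a2 := E2 ρ (τ + min (ε / (4 * c)) η2) (fun w => ¬ f w) hρ1 (by linarith) (by linarith)
    (Dk_mono_EB a3 le_rfl le_rfl (min_le_right _ _))
  have hm2 : min (ε / 4) η1 ≤ ε / 4 := min_le_left _ _
  have hmax : max ρ (τ + min (ε / (4 * c)) η2) ≤ max ρ τ + ε / (4 * c) := by
    apply max_le
    · have : 0 < ε / (4 * c) := by positivity
      linarith [le_max_left ρ τ]
    · linarith [le_max_right ρ τ]
  have hmul : c * max ρ (τ + min (ε / (4 * c)) η2) ≤ c * max ρ τ + ε / 4 := by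
    calc c * max ρ (τ + min (ε / (4 * c)) η2) ≤ c * (max ρ τ + ε / (4 * c)) :=
          mul_le_mul_of_nonneg_left hmax hc0.le
      _ = c * max ρ τ + ε / 4 := by field_simp
  have hmaxB : c * max ρ τ ≤ c * B := mul_le_mul_of_nonneg_left (max_le hρB hτB) hc0.le
  have hcε : 0 < c * ε := by positivity
  have a1 := E1 ρ _ _ (by nlinarith) (Dk_mono_EB a2 le_rfl le_rfl (min_le_right _ _))
  refine Dk_congr_EB (Dk_mono_EB a1 le_rfl (by linarith) (by linarith)) ?_
  intro w
  simp only [not_exists, not_not]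

private theorem dseq_ge_EB (c : ℝ) (hc1 : 1 ≤ c) (hc2 : c ≤ 2) (j : ℕ) : 2 ≤ dseq c j := by
  induction j with
  | zero => simp [dseq]
  | succ j ih =>
    have hc0 : (0 : ℝ) < c := by linarith
    have : 1 ≤ dseq c j / c := by
      rw [le_div_iff₀ hc0]; linarith
    simp only [dseq]
    linarith

private theorem sseq_ge_EB (d r : ℝ) (hd : 2 ≤ d) (hr : 0 ≤ r) (l : ℕ) : 2 ≤ sseq d r l := by
  induction l with
  | zero => simpa [sseq] using hd
  | succ l ih =>
    have : 0 ≤ r ^ (l + 1) := pow_nonneg hr _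
    simp only [sseq]
    linarith

/-- the regrouping is a static transformation -/
private theorem rep_EB (h : StRepC) : ∃ q : ℕ, ∀ v, Rep v (v + 2) q
    (fun w => pair (fst (fst w)) (pair (snd (fst w)) (snd w))) := by
  obtain ⟨C, hC, H⟩ := h
  refine ⟨(C + C + 2) ^ C + ((C + C + 2) ^ C + C + C + C) + C + C, fun v => ?_⟩
  have e1 := H.comp v (v + 1) (v + 1 + 1) C C _ _ (H.fst v) (H.fst (v + 1))
  have e2 := H.comp v (v + 1) (v + 1 + 1) C C _ _ (H.snd v) (H.fst (v + 1))
  have e3 := H.pair v _ _ _ _ _ _ e2 (H.snd v)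
  have e4 := H.mono (v + 1) _ v (v + 2) _ _ _ e3 (by omega) (by simp) (le_refl _)
  have e5 := H.pair v _ _ _ _ _ _ e1 e4
  exact H.mono (v + 1) _ v (v + 2) _ _ _ e5 (by omega) (by simp) (le_refl _)

theorem hEB (h1 : StEA) (h2 : StEsp) (h3 : StEix) (h4 : StEslo) (h5 : StEcpl) (h6 : StEca)
    (h7 : StEst) (h8 : StRepC) : StEB := by
  intro c hc1 hc2 he j l B ε hd hε
  have hc0 : (0 : ℝ) < c := by linarith
  have hd2 : 2 ≤ dseq c j := dseq_ge_EB c hc1 hc2 j
  generalize hdd : dseq c j = d at *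
  have hd0 : (0 : ℝ) < d := by linarith
  generalize hrr : c ^ 2 / d = r
  have hdr : d * r = c ^ 2 := by rw [← hrr]; field_simp
  have hr1 : 1 ≤ r := by
    rw [← hrr, le_div_iff₀ hd0]; linarith
  have hrc : r ≤ c := by
    rw [← hrr, div_le_iff₀ hd0]; nlinarith
  obtain ⟨q, hq⟩ := rep_EB h8
  induction l generalizing B ε with
  | zero =>
    obtain ⟨η, p, E⟩ := h1 c hc1 hc2 he j B ε hε
    refine ⟨η, p, ?_⟩
    filter_upwards [E] with k E
    intro m f hm hmB hf
    have := E m f hm hmB (by simpa [sseq, hdd] using hf)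
    simpa using this
  | succ l ih =>
    have hr0 : (0 : ℝ) ≤ r := by linarith
    have hK1 : 1 ≤ r ^ l := one_le_pow₀ hr1
    have hS2 : 2 ≤ sseq d r l := sseq_ge_EB d r hd2 hr0 l
    have hSS : sseq d r (l + 1) = sseq d r l + r ^ (l + 1) := rfl
    have hRK : r ^ (l + 1) = r * r ^ l := by ring
    generalize r ^ l = K at *
    generalize sseq d r (l + 1) = S' at *
    generalize sseq d r l = S at *
    generalize r ^ (l + 1) = R at *
    subst hSS
    have hK0 : (0 : ℝ) < K := by linarith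
    have hRK1 : K ≤ R := by rw [hRK]; nlinarith
    have hRcK : R ≤ c * K := by rw [hRK]; nlinarith
    have hdR : d * R = c * (c * K) := by rw [hRK, ← mul_assoc, hdr]; ring
    have hR0 : 0 < R := by linarith
    -- constants
    obtain ⟨η8, p8, E8⟩ := h6 (ε / 2) (by positivity)
    obtain ⟨η7, p7, E7⟩ := h1 c hc1 hc2 he j (R * B + ε) (min (ε / 4) η8)
      (lt_min (by positivity) p8)
    obtain ⟨η6, p6, E6⟩ := all_EB h5 h4 c hc1 he (c * K * B + ε) (min (ε / 4) η7)
      (lt_min (by positivity) p7)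
    obtain ⟨η5, p5, E5⟩ := h3 (c * K * B + ε) (min (ε / 16) η6) (lt_min (by positivity) p6)
    obtain ⟨η4, p4, E4⟩ := h4 c hc1 he (K * B + ε) (min (ε / 32) η5) (lt_min (by positivity) p5)
    obtain ⟨η9, p9, E9⟩ := h7 _ 2 q hq (min (ε / 256) η4) (lt_min (by positivity) p4)
    obtain ⟨η10, p10, E10⟩ := h5 (K * B + ε) (min (ε / 256) η9) (lt_min (by positivity) p9)
    obtain ⟨η3, p3, E3⟩ := ih (B + ε) (min (ε / 256) η10) (lt_min (by positivity) p10)
    obtain ⟨θ, hθ⟩ : ∃ θ : ℝ, θ = ε / (256 * K) := ⟨_, rfl⟩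
    have hθ0 : 0 < θ := by rw [hθ]; positivity
    have hKθ : K * θ = ε / 256 := by rw [hθ]; field_simp
    have hθε : θ ≤ ε / 256 := by rw [← hKθ]; nlinarith
    obtain ⟨η2, p2, E2⟩ := h5 (S * B + θ) (min θ η3) (lt_min hθ0 p3)
    obtain ⟨η1, p1, E1⟩ := h2 ((S + R) * B) (min θ (min η2 η5))
      (lt_min hθ0 (lt_min p2 p5))
    refine ⟨η1, p1, ?_⟩
    filter_upwards [E1, E2, E3, E4, E5, E6, E7, E8, E9, E10] with k E1 E2 E3 E4 E5 E6 E7 E8 E9 E10
    intro m f hm hmB hf
    have hm0 : 0 < m := by linarith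
    have hKm0 : 0 < K * m := by positivity
    have hKmB : K * m ≤ K * B := mul_le_mul_of_nonneg_left hmB hK0.le
    have hRmB : R * m ≤ R * B := mul_le_mul_of_nonneg_left hmB hR0.le
    have hS0 : 0 < S := by linarith
    have hSmB : S * m ≤ S * B := mul_le_mul_of_nonneg_left hmB hS0.le
    have hKRm : K * m ≤ R * m := mul_le_mul_of_nonneg_right hRK1 hm0.le
    have hRcKm : R * m ≤ c * K * m := mul_le_mul_of_nonneg_right hRcK hm0.le
    have hcKmB : c * K * m ≤ c * K * B := mul_le_mul_of_nonneg_left hmB (by positivity)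
    have hKm1 : m ≤ K * m := by nlinarith
    have hSm0 : 0 < S * m := by positivity
    have hmRB : m ≤ (S + R) * B := by nlinarith
    have hSRm : (S + R) * m ≤ (S + R) * B := mul_le_mul_of_nonneg_left hmB (by positivity)
    obtain ⟨U, β, g, hU, hβ, hg, hfg⟩ := E1 m ((S + R) * m) (R * m) f hm0.le hmRB hSRm
      (by positivity) (by nlinarith) hf
    -- complement of g
    have t1 : min θ (min η2 η5) ≤ θ := min_le_left _ _
    have t2 : min θ (min η2 η5) ≤ η2 := (min_le_right _ _).trans (min_le_left _ _)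
    have t3 : min θ (min η2 η5) ≤ η5 := (min_le_right _ _).trans (min_le_right _ _)
    generalize min θ (min η2 η5) = ε1 at *
    have hng := E2 (m + ε1) (S * m + ε1) g (by linarith)
      (Dk_mono_EB hg le_rfl (by nlinarith) t2)
    have t4 : min θ η3 ≤ θ := min_le_left _ _
    have t5 : min θ η3 ≤ η3 := min_le_right _ _
    generalize min θ η3 = ε1' at *
    have hS2m : S * m + ε1 + ε1' ≤ S * (m + θ) := by nlinarith
    have hS2 := E3 (m + θ) (fun w => ¬ g w) (by linarith) (by linarith)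
      (Dk_mono_EB hng (by linarith) hS2m t5)
    obtain ⟨h0, hh0, hh0'⟩ := hS2
    have t6 : min (ε / 256) η10 ≤ ε / 256 := min_le_left _ _
    have t7 : min (ε / 256) η10 ≤ η10 := min_le_right _ _
    generalize min (ε / 256) η10 = ε2 at *
    have hw : K * (m + θ) + ε2 ≤ K * m + ε / 128 := by nlinarith
    -- complement of h0
    have hc := E10 (K * m + ε / 128) (K * m + ε / 128) h0 (by linarith)
      (Dk_mono_EB hh0 hw hw t7)
    have t8 : min (ε / 256) η9 ≤ ε / 256 := min_le_left _ _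
    have t9 : min (ε / 256) η9 ≤ η9 := min_le_right _ _
    generalize min (ε / 256) η9 = ε2' at *
    -- regroup
    have hr := E9 (K * m + ε / 128) (K * m + ε / 128 + ε2') (fun w => ¬ h0 w)
      (Dk_mono_EB hc le_rfl le_rfl t9)
    have t10 : min (ε / 256) η4 ≤ ε / 256 := min_le_left _ _
    have t11 : min (ε / 256) η4 ≤ η4 := min_le_right _ _
    generalize min (ε / 256) η4 = ε3 at *
    -- slowdown
    have hs := E4 (K * m + ε / 64) (K * m + ε / 64) _ (by linarith) (by linarith) (by linarith)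
      (Dk_mono_EB hr (by linarith) (by linarith) t11)
    rw [max_self] at hs
    have t12 : min (ε / 32) η5 ≤ ε / 32 := min_le_left _ _
    have t13 : min (ε / 32) η5 ≤ η5 := min_le_right _ _
    generalize min (ε / 32) η5 = ε3' at *
    -- ixw
    have hcε : c * ε ≤ 2 * ε := mul_le_mul_of_nonneg_right hc2 hε.le
    have hix := E5 (K * m + ε / 16) (c * K * m + ε / 16) (R * m) U β _ (by positivity)
      (by linarith) (by positivity) (by linarith) (by linarith) hU
      (hβ.trans (mul_le_mul_of_nonneg_right t3 (Nat.cast_nonneg k)))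
      (Dk_mono_EB hs (by linarith) (by nlinarith) t13)
    have t14 : min (ε / 16) η6 ≤ ε / 16 := min_le_left _ _
    have t15 : min (ε / 16) η6 ≤ η6 := min_le_right _ _
    generalize min (ε / 16) η6 = ε4 at *
    have hmx : max (K * m + ε / 16) (R * m) + ε4 ≤ R * m + ε / 8 := by
      have : max (K * m + ε / 16) (R * m) ≤ R * m + ε / 16 := max_le (by linarith) (by linarith)
      linarith
    -- all
    have hall := E6 (R * m + ε / 8) (c * K * m + ε / 8) _ (by linarith) (by linarith)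
      (by linarith) (Dk_mono_EB hix hmx (by linarith) t15)
    have t16 : min (ε / 4) η7 ≤ ε / 4 := min_le_left _ _
    have t17 : min (ε / 4) η7 ≤ η7 := min_le_right _ _
    generalize min (ε / 4) η7 = ε5 at *
    have hmx2 : max (R * m + ε / 8) (c * K * m + ε / 8) ≤ c * K * m + ε / 8 :=
      max_le (by linarith) le_rfl
    have hmx3 : c * max (R * m + ε / 8) (c * K * m + ε / 8) + ε5 ≤ d * (R * m + ε / 4) := by
      have e1 : c * max (R * m + ε / 8) (c * K * m + ε / 8) ≤ c * (c * K * m + ε / 8) :=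
        mul_le_mul_of_nonneg_left hmx2 hc0.le
      have e2 : d * (R * m + ε / 4) = c * (c * K) * m + d * (ε / 4) := by
        rw [← hdR]; ring
      have e3 : 2 * (ε / 4) ≤ d * (ε / 4) := mul_le_mul_of_nonneg_right hd2 (by positivity)
      nlinarith
    -- EA
    have hea := E7 (R * m + ε / 4) _ (by linarith) (by linarith)
      (by rw [hdd]; exact Dk_mono_EB hall (by linarith) hmx3 t17)
    have t18 : min (ε / 4) η8 ≤ ε / 4 := min_le_left _ _
    have t19 : min (ε / 4) η8 ≤ η8 := min_le_right _ _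
    generalize min (ε / 4) η8 = ε7 at *
    have hca := E8 (R * m + ε / 2) _ (S2_mono_EB hea (by linarith) t19)
    refine S2_congr_EB (S2_mono_EB hca (by linarith) (by linarith)) ?_
    intro x
    rw [hfg x]
    refine exists_congr fun y => ?_
    simp only [fst_pair, snd_pair]
    constructor
    · intro H z'
      have := H (fst z')
      by_contra hcon
      push Not at hcon
      have hh := (hh0' (ixw U β x y (fst z'))).2 ⟨snd z', fun b => hcon b⟩
      exact hh this
    · intro H z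
      by_contra hcon
      obtain ⟨a, ha⟩ := (hh0' (ixw U β x y z)).1 hcon
      obtain ⟨b, hb⟩ := H (pair z a)
      simp only [fst_pair, snd_pair] at hb
      exact hb (ha b)

end Pool.Agent.Helper93.TS
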