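import Pool.Agent.Helper93.TS.StE

/-!
# Project TS, module ECA
-/

namespace Pool.Agent.Helper93.TS

open Filter

/-- the regrouping of words -/
private def reg_Eca (w : Word) : Word :=
  pair (pair (fst w) (fst (fst (snd w)))) (pair (snd (fst (snd w))) (snd (snd w)))

private theorem rep_Eca (h2 : StRepC) : ∃ q : ℕ, ∀ v, Rep v (v + 3) q reg_Eca := by
  obtain ⟨C, hC1, hC⟩ := h2
  -- components
  have fs : ∀ v, RepP v (v + 2) ((C + C + 2) ^ C) (fun w _ => fst (snd w)) := fun v =>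
    hC.comp v (v + 1) (v + 2) C C (fun w _ => fst w) (fun w _ => snd w) (hC.fst v) (hC.snd (v + 1))
  have ss : ∀ v, RepP v (v + 2) ((C + C + 2) ^ C) (fun w _ => snd (snd w)) := fun v =>
    hC.comp v (v + 1) (v + 2) C C (fun w _ => snd w) (fun w _ => snd w) (hC.snd v) (hC.snd (v + 1))
  have ffs : ∀ v, RepP v (v + 3) ((C + (C + C + 2) ^ C + 2) ^ C) (fun w _ => fst (fst (snd w))) :=
    fun v => hC.comp v (v + 1) (v + 3) C ((C + C + 2) ^ C) (fun w _ => fst w)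
      (fun w _ => fst (snd w)) (hC.fst v) (fs (v + 1))
  have sfs : ∀ v, RepP v (v + 3) ((C + (C + C + 2) ^ C + 2) ^ C) (fun w _ => snd (fst (snd w))) :=
    fun v => hC.comp v (v + 1) (v + 3) C ((C + C + 2) ^ C) (fun w _ => snd w)
      (fun w _ => fst (snd w)) (hC.snd v) (fs (v + 1))
  set q0 := (C + C + 2) ^ C with hq0
  set q1 := (C + (C + C + 2) ^ C + 2) ^ C with hq1
  refine ⟨(C + q1 + C) + (q1 + q0 + C) + C + C, fun v => ?_⟩
  have p1 := hC.pair v (v + 1) (v + 3) C q1 (fun w _ => fst w) (fun w _ => fst (fst (snd w)))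
    (hC.fst v) (ffs v)
  have p2 := hC.pair v (v + 3) (v + 2) q1 q0 (fun w _ => snd (fst (snd w)))
    (fun w _ => snd (snd w)) (sfs v) (ss v)
  have p3 := hC.pair (v + 1) (max (v + 1) (v + 3)) (max (v + 3) (v + 2)) (C + q1 + C) (q1 + q0 + C)
    _ _ p1 p2
  exact hC.mono (v + 1 + 1) _ v (v + 3) _ _ _ p3 (by omega) (by omega) le_rfl

/-- Module ECA. -/
theorem hEca (h1 : StEst) (h2 : StRepC) : StEca := by
  intro ε hε
  obtain ⟨q, hq⟩ := rep_Eca h2
  obtain ⟨η, hη, hev⟩ := h1 reg_Eca 3 q hq ε hε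
  refine ⟨η, hη, ?_⟩
  filter_upwards [hev] with k hk m p hp
  obtain ⟨h, hh, hpe⟩ := hp
  refine ⟨fun w => h (reg_Eca w), ?_, ?_⟩
  · obtain ⟨v, t, s, hv, ht, hs, hd⟩ := hk m m h hh
    refine ⟨v, t, s, hv, ht.trans ?_, hs, hd⟩
    have : (0 : ℝ) ≤ k := Nat.cast_nonneg k
    nlinarith
  · intro x
    constructor
    · rintro ⟨y, hy⟩
      obtain ⟨y', hy'⟩ := (hpe (pair x y)).1 hy
      refine ⟨pair y y', fun z => ?_⟩
      simpa [reg_Eca] using hy' z
    · rintro ⟨Y, hY⟩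
      refine ⟨fst Y, (hpe _).2 ⟨snd Y, fun z => ?_⟩⟩
      simpa [reg_Eca] using hY z

end Pool.Agent.Helper93.TS
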