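import Pool.Agent.Helper93.TS.StE

set_option autoImplicit false

namespace Pool.Agent.Helper93.TS

open Filter

theorem hEcpl (h1 : StCompl) (h2 : StEpol) : StEcpl := by
  intro B ε hε
  obtain ⟨C, hC⟩ := h1
  obtain ⟨η, hη, hk⟩ := h2 C (max B 2) ε (by positivity) hε
  refine ⟨η, hη, ?_⟩
  have h3 : ∀ᶠ k : ℕ in atTop, 1 / ε ≤ (k : ℝ) :=
    (tendsto_natCast_atTop_atTop).eventually_ge_atTop (1 / ε)
  filter_upwards [hk, h3] with k hk h3 ρ τ f hτ hf
  obtain ⟨v, t, s, hv, ht, hs, hf⟩ := hf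
  have hk0 : (0 : ℝ) ≤ k := Nat.cast_nonneg k
  refine ⟨v, t + 1, (s + t + 2) ^ C, hv, ?_, ?_, hC v t s f hf⟩
  · have : 1 ≤ ε * k := by
      rwa [div_le_iff₀' hε] at h3
    push_cast
    linarith
  · refine le_trans ?_ (hk s (Nat.cast_nonneg s) hs)
    push_cast
    refine pow_le_pow_left₀ (by positivity) ?_ C
    have h4 : (t : ℝ) ≤ max B 2 * k :=
      ht.trans (mul_le_mul_of_nonneg_right (hτ.trans (le_max_left _ _)) hk0)
    have h5 : (2 : ℝ) ≤ max B 2 := le_max_right _ _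
    linarith

end Pool.Agent.Helper93.TS
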