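import Pool.Agent.Helper93.TS.StE

/-!
# Project TS, module EFIN: the contradiction
-/

namespace Pool.Agent.Helper93.TS

open Pool.Agent.Helper72 Filter

private theorem dseq_pos_Efin {c : ℝ} (hc : 1 ≤ c) (j : ℕ) : 0 < dseq c j := by
  induction j with
  | zero => simp [dseq]
  | succ j ih =>
    rw [dseq]
    have : 0 < dseq c j / c := div_pos ih (by linarith)
    linarith

private theorem Dk_mono_Efin {k : ℕ} {ρ τ η ρ' τ' η' : ℝ} {f : Word → Prop} (hρ : ρ ≤ ρ')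
    (hτ : τ ≤ τ') (hη : η ≤ η') (h : Dk k ρ τ η f) : Dk k ρ' τ' η' f := by
  obtain ⟨v, t, s, h1, h2, h3, h4⟩ := h
  have hk : (0 : ℝ) ≤ k := Nat.cast_nonneg k
  refine ⟨v, t, s, h1.trans (mul_le_mul_of_nonneg_right hρ hk),
    h2.trans (mul_le_mul_of_nonneg_right hτ hk), h3.trans ?_, h4⟩
  exact Real.rpow_le_rpow_of_exponent_le (by norm_num) (mul_le_mul_of_nonneg_right hη hk)

/-- regrouping -/
private def rg_Efin (w : Word) : Word := pair (fst (fst w)) (pair (snd (fst w)) (snd w))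

private theorem rep_rg_Efin (h : StRepC) : ∃ a q : ℕ, ∀ v, Rep v (v + a) q rg_Efin := by
  obtain ⟨C, hC1, hC⟩ := h
  refine ⟨3, (C + C + 2) ^ C + ((C + C + 2) ^ C + C + C) + C + C, fun v => ?_⟩
  have r1 : RepP (v + 1) (v + 3) ((C + C + 2) ^ C) (fun w _ => fst (fst w)) :=
    hC.comp (v + 1) (v + 2) (v + 3) C C (fun w _ => fst w) (fun w _ => fst w)
      (hC.fst (v + 1)) (hC.fst (v + 2))
  have r2 : RepP v (v + 2) ((C + C + 2) ^ C) (fun w _ => snd (fst w)) :=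
    hC.comp v (v + 1) (v + 2) C C (fun w _ => snd w) (fun w _ => fst w)
      (hC.snd v) (hC.fst (v + 1))
  have r3 : RepP v (v + 1) C (fun w _ => snd w) := hC.snd v
  have r4 := hC.pair v _ _ _ _ _ _ r2 r3
  have r5 := hC.pair (v + 1) _ _ _ _ _ _ r1 r4
  exact hC.mono _ _ v (v + 3) _ _ _ r5 (by omega) (by omega) (by omega)

private theorem size_Efin (C12 C11 : ℕ) (X : ℝ) (n v : ℕ) (hX : 10 ≤ X) (h1 : (n : ℝ) ≤ X)
    (h2 : ((v + 2 : ℕ) : ℝ) ≤ X) :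
    (((n ^ C12 + v + 2) ^ C11 : ℕ) : ℝ) ≤ X ^ ((C12 + 2) * C11) := by
  have e4 : ((n ^ C12 + v + 2 : ℕ) : ℝ) ≤ X ^ (C12 + 2) := by
    have e5 : ((n ^ C12 + v + 2 : ℕ) : ℝ) = (n : ℝ) ^ C12 + ((v + 2 : ℕ) : ℝ) := by
      push_cast
      ring
    rw [e5]
    have e6 : (n : ℝ) ^ C12 ≤ X ^ C12 := pow_le_pow_left₀ (Nat.cast_nonneg n) h1 _
    have e8 : 1 ≤ X ^ C12 := one_le_pow₀ (by linarith)
    have e7 : X ^ (C12 + 2) = X ^ C12 * (X * X) := by ring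
    have e10 : 10 * X ≤ X * X := mul_le_mul_of_nonneg_right hX (by linarith)
    have e11 : X ^ C12 * 100 ≤ X ^ C12 * (X * X) :=
      mul_le_mul_of_nonneg_left (by linarith) (by linarith)
    have e12 : 1 * (X * X) ≤ X ^ C12 * (X * X) :=
      mul_le_mul_of_nonneg_right e8 (by linarith)
    rw [e7]
    linarith
  rw [Nat.cast_pow, pow_mul]
  exact pow_le_pow_left₀ (Nat.cast_nonneg _) e4 _

theorem hEfin (h1 : StDiag) (h2 : StEB) (h3 : StEslo) (h4 : StEcpl) (h5 : StEtr) (h6 : StEst)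
    (h7 : StNum1) (h8 : StNum2) (h9 : StTsm) (h10 : StEpol) (h11 : StMono) (h12 : StCompl)
    (h13 : StRepC) : StEfin := by
  intro c0 hc0 hE0
  obtain ⟨hx1, hx2, hx3⟩ := h7
  -- reduce to 17/10 ≤ c
  obtain ⟨c, hc1, hc2, hE⟩ : ∃ c : ℝ, 17 / 10 ≤ c ∧ c < 2 * Real.cos (Real.pi / 7) ∧ Easy c := by
    refine ⟨max c0 (17 / 10), le_max_right _ _, max_lt hc0 hx1, fun δ hδ => ?_⟩
    exact h9 c0 _ δ SAT (le_max_left _ _) (hE0 δ hδ)
  have hp := hx3 c hc1 hc2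
  have hc19 : c < 19 / 10 := hc2.trans hx2
  obtain ⟨j, l, hj, hjl⟩ := h8 c hc1 hc19 hp
  have hd := dseq_pos_Efin (c := c) (by linarith) j
  set r : ℝ := c ^ 2 / dseq c j with hr
  have hr1 : 1 ≤ r := by rw [hr, one_le_div hd]; exact hj
  set R : ℝ := r ^ l with hR
  have hR1 : 1 ≤ R := one_le_pow₀ hr1
  set sl : ℝ := sseq (dseq c j) r l with hsl
  obtain ⟨C11, hC11⟩ := h11
  obtain ⟨C12, hC12⟩ := h12
  obtain ⟨CD, hCD⟩ := h1
  -- the small numbers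
  set δ : ℝ := (sl - c ^ 2 * R) / 20 with hδ
  have hδ0 : 0 < δ := by rw [hδ]; linarith
  have hcc : c ^ 2 ≤ 4 := by nlinarith
  set ρ0 : ℝ := R + 2 * δ with hρ0
  set B : ℝ := c * (c * (ρ0 + δ) + 2 * δ) + 10 * ρ0 + 10 + sl ^ 2 + 10 * δ with hB
  have hρ0p : 1 ≤ ρ0 := by rw [hρ0]; linarith
  have hcpos : 0 < c := by linarith
  have hQ0 : 0 ≤ c * (ρ0 + δ) + 2 * δ := by positivity
  have hPQ : c * (ρ0 + δ) + 2 * δ ≤ c * (c * (ρ0 + δ) + 2 * δ) :=
    le_mul_of_one_le_left hQ0 (by linarith)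
  have hsq : 0 ≤ sl ^ 2 := sq_nonneg sl
  have hB1 : c * (ρ0 + δ) + 2 * δ ≤ B := by linarith
  have hB2 : ρ0 + δ ≤ B := by linarith
  have hB3 : c * (c * (ρ0 + δ) + 2 * δ) + δ ≤ B := by linarith
  have hB0 : 0 ≤ B := by linarith
  have hB10 : 10 ≤ B := by linarith
  have hBbig : 2 * (R + δ) + 2 ≤ B := by
    rw [hρ0] at hB hρ0p
    linarith
  clear_value B ρ0 δ
  -- EB
  -- δ' and the polynomial estimates
  set δ' : ℝ := min (δ / 4) (1 / 8) with hδ'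
  have hδ'0 : 0 < δ' := lt_min (by linarith) (by norm_num)
  have hδ'1 : δ' ≤ δ / 4 := min_le_left _ _
  have hδ'2 : δ' ≤ 1 / 8 := min_le_right _ _
  clear_value δ'
  obtain ⟨ηβ, hηβ, Eβ⟩ := h10 4 B δ' hB0 hδ'0
  obtain ⟨ηs, hηs, Es⟩ := h10 ((C12 + 2) * C11) B ηβ hB0 hηβ
  set εB : ℝ := min δ ηs with hεB
  have hεB0 : 0 < εB := lt_min hδ0 hηs
  have hεδ : εB ≤ δ := min_le_left _ _
  have hεs : εB ≤ ηs := min_le_right _ _
  clear_value εB
  obtain ⟨ηB, hηB, EB⟩ := h2 c (by linarith) (by linarith) hE j l B εB hj hεB0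
  have EB' : ∀ᶠ k : ℕ in atTop, ∀ (m : ℝ) (f : Word → Prop), 1 ≤ m → m ≤ B →
      Dk k m (sl * m) ηB f → S2 k (R * m + εB) εB f := EB
  clear EB
  clear_value R sl
  clear_value r
  obtain ⟨η7, hη7, E7⟩ := h4 B (min δ ηB) (lt_min hδ0 hηB)
  obtain ⟨η6, hη6, E6⟩ := h5 η7 hη7
  obtain ⟨η5, hη5, E5⟩ := h3 c (by linarith) hE B (min δ η6) (lt_min hδ0 hη6)
  obtain ⟨η4, hη4, E4⟩ := h4 B (min δ η5) (lt_min hδ0 hη5)
  obtain ⟨η3, hη3, E3⟩ := h3 c (by linarith) hE B (min δ η4) (lt_min hδ0 hη4)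
  obtain ⟨η2, hη2, E2⟩ := h4 B (min δ η3) (lt_min hδ0 hη3)
  obtain ⟨a, q, hrep⟩ := rep_rg_Efin h13
  obtain ⟨η1, hη1, E1⟩ := h6 rg_Efin a q hrep (min δ η2) (lt_min hδ0 hη2)
  obtain ⟨ηh, hηh, Eh⟩ := h10 CD B η1 hB0 hη1
  obtain ⟨ηc, hηc, Ec⟩ := h10 1 B (δ / 8) hB0 (by linarith)
  have hlarge : ∀ᶠ k : ℕ in atTop, (100 + 10 * CD) / δ + 100 ≤ (k : ℝ) :=
    tendsto_natCast_atTop_atTop.eventually_ge_atTop _
  obtain ⟨k, ⟨⟨⟨⟨⟨⟨⟨⟨⟨⟨⟨⟨Kβ, Ks⟩, KB⟩, K7⟩, K6⟩, K5⟩, K4⟩, K3⟩, K2⟩, K1⟩, Kh⟩, Kc⟩, Kl⟩⟩ :=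
    ((((((((((((Eβ.and Es).and EB').and E7).and E6).and E5).and E4).and E3).and E2).and E1).and
      Eh).and Ec).and hlarge).exists
  have hk0 : (0 : ℝ) ≤ k := Nat.cast_nonneg k
  have hkδ : 100 + 10 * (CD : ℝ) ≤ δ * k := by
    have e1 : (100 + 10 * (CD : ℝ)) / δ ≤ k := by linarith
    rw [div_le_iff₀ hδ0] at e1
    linarith
  have hk100 : (100 : ℝ) ≤ k := by
    have e1 : 0 ≤ (100 + 10 * (CD : ℝ)) / δ := by positivity
    linarith
  -- the parameters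
  obtain ⟨v, hv⟩ : ∃ v : ℕ, v = ⌊(R + δ) * k⌋₊ + 1 := ⟨_, rfl⟩
  have hvle : (v : ℝ) ≤ (R + δ) * k + 1 := by
    rw [hv]; push_cast
    have := Nat.floor_le (show 0 ≤ (R + δ) * k by positivity)
    linarith
  obtain ⟨s, hs⟩ : ∃ s : ℕ, s = ⌊(2 : ℝ) ^ (ηβ * k)⌋₊ := ⟨_, rfl⟩
  have hsle : (s : ℝ) ≤ 2 ^ (ηβ * k) := by rw [hs]; exact Nat.floor_le (by positivity)
  obtain ⟨β, hβ⟩ : ∃ β : ℕ, β = ⌊δ' * k⌋₊ + 1 := ⟨_, rfl⟩
  have hβle : (β : ℝ) ≤ δ' * k + 1 := by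
    rw [hβ]; push_cast
    have := Nat.floor_le (show 0 ≤ δ' * k by positivity)
    linarith
  have hβge : δ' * k ≤ (β : ℝ) := by
    rw [hβ]; push_cast
    exact (Nat.lt_floor_add_one _).le
  have q1 : (v : ℝ) ≤ R * k + δ * k + 1 := by linarith [hvle, add_mul R δ (k : ℝ)]
  have q2 : δ' * k ≤ δ * k / 4 := by
    have := mul_le_mul_of_nonneg_right hδ'1 hk0
    linarith
  have q3 : δ' * k ≤ k / 8 := by
    have := mul_le_mul_of_nonneg_right hδ'2 hk0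
    linarith
  have q4 : (k : ℝ) ≤ R * k := le_mul_of_one_le_left hk0 hR1
  have q5 : 2 * (R * k) + 2 * (δ * k) + 2 * k ≤ B * k := by
    have := mul_le_mul_of_nonneg_right hBbig hk0
    linarith
  have q6 : ρ0 * k = R * k + 2 * (δ * k) := by rw [hρ0]; ring
  have hcond1 : (v + v + s + 2) ^ 4 ≤ 2 ^ β := by
    have e1 := Kβ (s : ℝ) (Nat.cast_nonneg s) hsle
    have e2 : ((v + v + s + 2 : ℕ) : ℝ) ≤ s + B * k + B := by
      push_cast
      linarith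
    have e3 : ((v + v + s + 2 : ℕ) : ℝ) ^ 4 ≤ (s + B * k + B) ^ 4 := by gcongr
    have e4 : (2 : ℝ) ^ (δ' * k) ≤ 2 ^ (β : ℝ) :=
      Real.rpow_le_rpow_of_exponent_le (by norm_num) hβge
    rw [Real.rpow_natCast] at e4
    exact_mod_cast (e3.trans e1).trans e4
  have hcond2 : 2 * β + 2 ≤ k := by
    have e1 : ((2 * β + 2 : ℕ) : ℝ) ≤ k := by
      push_cast
      linarith
    exact_mod_cast e1
  obtain ⟨Δ, h, hh, hΔ, hΔtr, hneg⟩ := hCD v v s β k hcond1 hcond2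
  -- exponents of h
  have hsum : ((v + v + β + k + 2 : ℕ) : ℝ) ≤ 0 + B * k + B := by
    push_cast
    linarith
  have D0 : Dk k ρ0 ρ0 η1 h := by
    refine ⟨_, _, _, ?_, ?_, ?_, hh⟩
    · have m1 : ((max (max k v) (v + β) + CD : ℕ) : ℝ) ≤ ρ0 * k := by
        rcases max_choice (max k v) (v + β) with hm | hm
        · rcases max_choice k v with hm' | hm'
          · rw [hm, hm', q6]
            push_cast
            linarith
          · rw [hm, hm', q6]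
            push_cast
            linarith
        · rw [hm, q6]
          push_cast
          linarith
      exact m1
    · have e1 := Kc 0 le_rfl (by positivity)
      rw [pow_one] at e1
      have e2 : Nat.clog 2 (v + v + β + 2) ≤ ⌈δ / 8 * k⌉₊ := by
        apply Nat.clog_le_of_le_pow
        have e3 : ((v + v + β + 2 : ℕ) : ℝ) ≤ 2 ^ (⌈δ / 8 * k⌉₊ : ℝ) := by
          have e4 : ((v + v + β + 2 : ℕ) : ℝ) ≤ ((v + v + β + k + 2 : ℕ) : ℝ) := by
            exact_mod_cast (by omega : v + v + β + 2 ≤ v + v + β + k + 2)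
          refine (e4.trans (hsum.trans e1)).trans ?_
          exact Real.rpow_le_rpow_of_exponent_le (by norm_num) (Nat.le_ceil _)
        rw [Real.rpow_natCast] at e3
        exact_mod_cast e3
      have e5 : (Nat.clog 2 (v + v + β + 2) : ℝ) ≤ δ / 8 * k + 1 := by
        have e6 : (Nat.clog 2 (v + v + β + 2) : ℝ) ≤ (⌈δ / 8 * k⌉₊ : ℝ) := by exact_mod_cast e2
        exact e6.trans (Nat.ceil_lt_add_one (by positivity)).le
      rw [q6]
      push_cast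
      linarith
    · have e1 := Kh 0 le_rfl (by positivity)
      refine le_trans ?_ e1
      rw [Nat.cast_pow]
      exact pow_le_pow_left₀ (Nat.cast_nonneg _) hsum _
  -- step 1: regroup
  have D1 := K1 ρ0 ρ0 h D0
  -- step 2
  have D2 := K2 _ ρ0 _ (by linarith) (Dk_mono_Efin le_rfl le_rfl (min_le_right δ η2) D1)
  have D2' : Dk k (ρ0 + δ) (ρ0 + δ) η3 (fun w => ¬ h (rg_Efin w)) :=
    Dk_mono_Efin (by linarith [min_le_left δ η2]) (by linarith [min_le_left δ η3])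
      (min_le_right δ η3) D2
  -- step 3
  have D3 := K3 _ _ _ (by linarith) hB2 hB2 D2'
  rw [max_self] at D3
  have D3' : Dk k (ρ0 + δ) (c * (ρ0 + δ) + δ) η4 (fun x => ∃ y, ¬ h (rg_Efin (pair x y))) :=
    Dk_mono_Efin le_rfl (by linarith [min_le_left δ η4]) (min_le_right δ η4) D3
  -- step 4
  have D4 := K4 _ _ _ (by linarith) D3'
  have D4' : Dk k (ρ0 + δ) (c * (ρ0 + δ) + 2 * δ) η5
      (fun x => ¬ ∃ y, ¬ h (rg_Efin (pair x y))) :=
    Dk_mono_Efin le_rfl (by linarith [min_le_left δ η5]) (min_le_right δ η5) D4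
  -- step 5
  have D5 := K5 _ _ _ (by linarith) hB2 hB1 D4'
  have hmax : max (ρ0 + δ) (c * (ρ0 + δ) + 2 * δ) = c * (ρ0 + δ) + 2 * δ := by
    apply max_eq_right
    have := le_mul_of_one_le_left (show 0 ≤ ρ0 + δ by linarith) (show 1 ≤ c by linarith)
    linarith
  rw [hmax] at D5
  have hΔeq : (fun x => ∃ y, ¬ ∃ z, ¬ h (rg_Efin (pair (pair x y) z))) = Δ := by
    funext x
    rw [eq_iff_iff, hΔ x]
    refine exists_congr fun y => ?_
    rw [not_exists]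
    refine forall_congr' fun z => ?_
    rw [not_not]
    simp only [rg_Efin, fst_pair, snd_pair]
  rw [hΔeq] at D5
  -- step 6
  have D6 := K6 _ _ _ (Dk_mono_Efin le_rfl le_rfl (min_le_right δ η6) D5) hΔtr
  -- step 7
  have D7 := K7 _ _ _ (by linarith [min_le_left δ η6]) D6
  have hT : c * (c * (ρ0 + δ) + 2 * δ) + min δ η6 + min δ ηB ≤ sl * 1 := by
    have e1 := min_le_left δ η6
    have e2 := min_le_left δ ηB
    have e3 : sl = c ^ 2 * R + 20 * δ := by rw [hδ]; ring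
    have e4 := mul_le_mul_of_nonneg_right hcc hδ0.le
    have e5 : c * δ ≤ 2 * δ := mul_le_mul_of_nonneg_right (by linarith) hδ0.le
    have e6 : c * (c * (ρ0 + δ) + 2 * δ) = c ^ 2 * R + 3 * (c ^ 2 * δ) + 2 * (c * δ) := by
      rw [hρ0]; ring
    rw [e6]
    linarith
  have D7' : Dk k 1 (sl * 1) ηB (fun w => ¬ Δ w) :=
    Dk_mono_Efin le_rfl hT (min_le_right δ ηB) D7
  obtain ⟨h', ⟨v', t', s', hv', ht', hs', hDc⟩, hS⟩ := KB 1 _ le_rfl (by linarith) D7'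
  rw [mul_one] at hv' ht'
  have hRδ : (R + εB) * k ≤ (R + δ) * k := mul_le_mul_of_nonneg_right (by linarith) hk0
  have hv'' : v' ≤ v := by
    rw [hv]
    exact (Nat.le_floor (hv'.trans hRδ)).trans (Nat.le_succ _)
  have ht'' : t' + 1 ≤ v := by
    rw [hv]
    exact Nat.succ_le_succ (Nat.le_floor (ht'.trans hRδ))
  have G1 := hC12 v' t' s' h' hDc
  have G2 := hC11 v' v (t' + 1) v _ _ G1 hv'' ht''
  -- size
  have hsize : ((s' + t' + 2) ^ C12 + v + 2) ^ C11 ≤ s := by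
    rw [hs]
    apply Nat.le_floor
    have e1 := Ks (s' : ℝ) (Nat.cast_nonneg _) (hs'.trans
      (Real.rpow_le_rpow_of_exponent_le (by norm_num) (mul_le_mul_of_nonneg_right hεs hk0)))
    refine le_trans ?_ e1
    set X : ℝ := s' + B * k + B with hX
    have hs0 : (0 : ℝ) ≤ s' := Nat.cast_nonneg _
    have hX10 : 10 ≤ X := by
      rw [hX]
      linarith
    have e2 : ((s' + t' + 2 : ℕ) : ℝ) ≤ X := by
      push_cast
      rw [hX]
      have := ht'.trans hRδ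
      rw [add_mul] at this
      linarith
    have e3 : ((v + 2 : ℕ) : ℝ) ≤ X := by
      push_cast
      rw [hX]
      linarith
    exact size_Efin C12 C11 X _ _ hX10 e2 e3
  have G3 : Dc v v s (fun w => ¬ h' w) := by
    obtain ⟨ι, hι, M, hM, hM'⟩ := G2
    exact ⟨ι, hι, M, ⟨hM.card_le.trans hsize, fun i => (hM.nx_le i).trans hsize,
      fun j hj => (hM.ad_le j hj).trans hsize⟩, hM'⟩
  refine hneg _ G3 fun x => ?_
  have e1 : ¬ Δ x ↔ ∃ y, ∀ z, h' (pair x (pair y z)) := hS x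
  constructor
  · intro hx y
    by_contra hcon
    push Not at hcon
    exact (e1.2 ⟨y, hcon⟩) hx
  · intro hall
    by_contra hn
    obtain ⟨y, hy⟩ := e1.1 hn
    obtain ⟨z, hz⟩ := hall y
    exact hz (hy z)

end Pool.Agent.Helper93.TS
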