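import Pool.Agent.Helper93.TS.StE

namespace Pool.Agent.Helper93.TS

open Filter

private theorem sub_congr_Eix {U β : ℕ} {I J : Addr} (h : ∀ i < U, I i = J i) (y : Word) :
    sub U β I y = sub U β J y := by
  funext a
  simp only [sub]
  congr 1
  funext i
  simp only [cat]
  split_ifs with hi
  · exact h i hi
  · rfl

private theorem inc_congr_Eix {U : ℕ} {I J : Addr} (h : ∀ i < U, I i = J i) :
    ∀ i < U, inc I i = inc J i := by
  intro i hi
  simp only [inc]
  rw [h i hi]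
  congr 1
  rw [decide_eq_decide]
  constructor
  · intro hh j hj
    rw [← h j (hj.trans hi)]
    exact hh j hj
  · intro hh j hj
    rw [h j (hj.trans hi)]
    exact hh j hj

private def R_Eix (U β : ℕ) (w : Word) (c : ℕ → Bool) : Word :=
  pair (pair (fst (fst w)) (pair (sub U β c (snd (fst w)))
    (pair (sub U β (inc c) (snd (fst w))) (fst (snd w))))) (snd (snd w))

private theorem R_eq_Eix {U β : ℕ} {w : Word} {c : ℕ → Bool}
    (h : ∀ i < U, c i = idx (fst (snd w)) i) : R_Eix U β w c =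
      pair (ixw U β (fst (fst w)) (snd (fst w)) (fst (snd w))) (snd (snd w)) := by
  simp only [R_Eix, ixw]
  rw [sub_congr_Eix h, sub_congr_Eix (inc_congr_Eix h)]

private theorem rep_Eix {C : ℕ} (S : StRep C) (v U β : ℕ) :
    RepP v (max v (U + β) + 3)
      (3 * (C + C + 2) ^ C + (1 + C + (C + C + 2) ^ C + 2) ^ C +
        (8 * U + 11 + C + (C + C + 2) ^ C + 2) ^ C + 8 * C) (R_Eix U β) := by
  set qa := (C + C + 2) ^ C with hqa
  set W := max v (U + β) + 3 with hW
  have hvW : v + 2 ≤ W := by omega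
  have hUW : U + β + 2 ≤ W := by omega
  have hff : ∀ v, RepP v (v + 2) qa (fun w _ => fst (fst w)) := fun v =>
    S.comp v (v + 1) (v + 2) C C _ _ (S.fst v) (S.fst (v + 1))
  have hsf : ∀ v, RepP v (v + 2) qa (fun w _ => snd (fst w)) := fun v =>
    S.comp v (v + 1) (v + 2) C C _ _ (S.snd v) (S.fst (v + 1))
  have hfs : ∀ v, RepP v (v + 2) qa (fun w _ => fst (snd w)) := fun v =>
    S.comp v (v + 1) (v + 2) C C _ _ (S.fst v) (S.snd (v + 1))
  have hss : ∀ v, RepP v (v + 2) qa (fun w _ => snd (snd w)) := fun v =>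
    S.comp v (v + 1) (v + 2) C C _ _ (S.snd v) (S.snd (v + 1))
  have hs1 : RepP v (U + β + 2) ((1 + C + qa + 2) ^ C)
      (fun w c => sub U β c (snd (fst w))) :=
    S.comp v (U + β) (U + β + 2) (1 + C) qa _ _
      (S.sub v U β 1 (fun j => Fm.var j) (fun j _ => le_rfl)) (hsf (U + β))
  have hinc : ∀ c : ℕ → Bool, (fun j => (Fm.incF Fm.var j).eval c) = inc c := by
    intro c
    funext j
    rw [Fm.eval_incF]
    rfl
  have hs2 : RepP v (U + β + 2) ((8 * U + 11 + C + qa + 2) ^ C)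
      (fun w c => sub U β (inc c) (snd (fst w))) := by
    have h0 := S.comp v (U + β) (U + β + 2) (8 * U + 11 + C) qa _ _
      (S.sub v U β (8 * U + 11) (fun j => Fm.incF Fm.var j) (fun j hj => by
        have := Fm.size_incF_le (Fm.var : ℕ → Fm ℕ) j 1 (fun i _ => le_rfl)
        omega)) (hsf (U + β))
    refine S.congr _ _ _ _ _ h0 ?_
    intro w c a _
    simp only [hinc]
  set q1 := (1 + C + qa + 2) ^ C
  set q2 := (8 * U + 11 + C + qa + 2) ^ C
  have p1 : RepP v W (q2 + qa + 2 * C)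
      (fun w c => pair (sub U β (inc c) (snd (fst w))) (fst (snd w))) :=
    S.mono (v + 1) (max (U + β + 2) (v + 2)) _ _ (q2 + qa + C) _ _
      (S.pair v _ _ _ _ _ _ hs2 (hfs v)) (by omega) (by omega) (by omega)
  have p2 : RepP v W (q1 + q2 + qa + 4 * C)
      (fun w c => pair (sub U β c (snd (fst w)))
        (pair (sub U β (inc c) (snd (fst w))) (fst (snd w)))) :=
    S.mono (v + 1) (max (U + β + 2) W) _ _ (q1 + (q2 + qa + 2 * C) + C) _ _
      (S.pair v _ _ _ _ _ _ hs1 p1) (by omega) (by omega) (by omega)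
  have p3 : RepP v W (q1 + q2 + 2 * qa + 6 * C)
      (fun w c => pair (fst (fst w)) (pair (sub U β c (snd (fst w)))
        (pair (sub U β (inc c) (snd (fst w))) (fst (snd w))))) :=
    S.mono (v + 1) (max (v + 2) W) _ _ (qa + (q1 + q2 + qa + 4 * C) + C) _ _
      (S.pair v _ _ _ _ _ _ (hff v) p2) (by omega) (by omega) (by omega)
  exact S.mono (v + 1) (max W (v + 2)) _ _ ((q1 + q2 + 2 * qa + 6 * C) + qa + C) _ _
      (S.pair v _ _ _ _ _ _ p3 (hss v)) (by omega) (by omega) (by omega)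

theorem hEix (h1 : StLD) (h2 : StRepC) (h3 : StMono) (h4 : StEpol) : StEix := by
  obtain ⟨C3, hLD⟩ := h1
  obtain ⟨C, hC, S⟩ := h2
  obtain ⟨C1, hM⟩ := h3
  intro B ε hε
  by_cases hB : 0 ≤ B
  swap
  · refine ⟨1, one_pos, Eventually.of_forall ?_⟩
    intro k ρ τ u U β h hρ hρB
    exact absurd (hρ.trans hρB) hB
  -- constants
  set qa := (C + C + 2) ^ C with hqa
  set q1 := (1 + C + qa + 2) ^ C with hq1
  obtain ⟨b, hb⟩ : ∃ b : ℕ, B ≤ b := exists_nat_ge B
  set b' : ℕ := 16 * b + 3 * qa + q1 + 9 * C + 32 with hb'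
  set m : ℕ := (C1 + C + 4) * C3 with hm
  obtain ⟨η0, hη0, hE⟩ := h4 m b' ε (by positivity) hε
  obtain ⟨η1, hη1, hE1⟩ := h4 1 (2 * B + 2) (ε / 2) (by positivity) (by positivity)
  refine ⟨min η0 (ε / 2), by positivity, ?_⟩
  have hk1 : ∀ᶠ k : ℕ in atTop, 6 / ε ≤ (k : ℝ) :=
    (tendsto_natCast_atTop_atTop (R := ℝ)).eventually_ge_atTop _
  filter_upwards [hE, hE1, hk1] with k hE hE1 hk1 ρ τ u U β h hρ hρB hτ hτB huB hU hβ hD
  have hk0 : (0 : ℝ) ≤ k := Nat.cast_nonneg k
  have hεk : 6 ≤ ε * k := by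
    rw [div_le_iff₀ hε] at hk1
    linarith
  obtain ⟨v, t, s, hv, ht, hs, hDc⟩ := hD
  have hUB : (U : ℝ) ≤ B * k := hU.trans (mul_le_mul_of_nonneg_right huB hk0)
  have hUb : U ≤ b * k := by
    have : (U : ℝ) ≤ (b : ℝ) * k := hUB.trans (mul_le_mul_of_nonneg_right hb hk0)
    exact_mod_cast this
  have htb : t ≤ b * k := by
    have h0 : (t : ℝ) ≤ B * k := ht.trans (mul_le_mul_of_nonneg_right hτB hk0)
    have : (t : ℝ) ≤ (b : ℝ) * k := h0.trans (mul_le_mul_of_nonneg_right hb hk0)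
    exact_mod_cast this
  set lam := Nat.log 2 U + 1 with hlam
  have hlam1 : U < 2 ^ lam := Nat.lt_pow_succ_log_self (by norm_num) U
  have hlam2 : 2 ^ lam ≤ 2 * U + 2 := by
    rcases Nat.eq_zero_or_pos U with hU0 | hU0
    · rw [hlam, hU0]; simp
    · have := Nat.pow_log_le_self 2 hU0.ne'
      rw [hlam, pow_succ]
      omega
  have hlam3 : lam ≤ U + 1 := by
    have := Nat.log_le_self 2 U
    omega
  have hlam4 : (lam : ℝ) ≤ ε / 2 * k := by
    have h0 := hE1 0 le_rfl (by positivity)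
    have h5 : (2 : ℝ) ^ (lam : ℝ) ≤ 2 ^ (ε / 2 * k) := by
      rw [Real.rpow_natCast]
      have h6 : ((2 : ℝ) ^ lam) ≤ 2 * U + 2 := by exact_mod_cast hlam2
      refine h6.trans (le_trans ?_ h0)
      rw [pow_one]
      nlinarith
    exact (Real.rpow_le_rpow_left_iff (by norm_num)).1 h5
  -- time
  have hD1 := hM v v t (t + lam) s h hDc le_rfl (by omega)
  have hrep := rep_Eix S v U β
  set W := max v (U + β) + 3 with hW
  set q2 := (8 * U + 11 + C + qa + 2) ^ C with hq2
  set q := 3 * qa + q1 + q2 + 8 * C with hq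
  have hL : Rep lam W q (fun w => fst (snd w)) := by
    have h0 : RepP lam (lam + 2) qa (fun w _ => fst (snd w)) :=
      S.comp lam (lam + 1) (lam + 2) C C _ _ (S.fst lam) (S.snd (lam + 1))
    exact S.mono _ _ _ _ _ q _ h0 le_rfl (by omega) (by omega)
  have hfin := hLD v (t + lam) ((s + (t + lam) + 2) ^ C1) W lam q h (R_Eix U β)
    (fun w => fst (snd w)) hD1 hrep hL (by omega)
  refine ⟨W, t + lam + 1, ((s + (t + lam) + 2) ^ C1 + q + 2 ^ lam + (t + lam) + 2) ^ C3,
    ?_, ?_, ?_, ?_⟩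
  · -- width
    have e1 : (v : ℝ) + 3 ≤ (max ρ u + ε) * k := by
      have := mul_le_mul_of_nonneg_right (le_max_left ρ u) hk0
      nlinarith
    have e2 : (U : ℝ) + β + 3 ≤ (max ρ u + ε) * k := by
      have h5 := mul_le_mul_of_nonneg_right (le_max_right ρ u) hk0
      have h6 : (β : ℝ) ≤ ε / 2 * k :=
        hβ.trans (mul_le_mul_of_nonneg_right (min_le_right _ _) hk0)
      nlinarith
    have : (W : ℝ) = max (v : ℝ) (U + β) + 3 := by
      rw [hW]; push_cast; rfl
    rw [this, ← max_add_add_right]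
    exact max_le e1 e2
  · push_cast
    nlinarith
  · -- size
    set N : ℕ := s + b' * k + b' with hN
    have hN2 : 2 ≤ N := by omega
    have a1 : (s + (t + lam) + 2) ^ C1 ≤ N ^ C1 := by
      apply Nat.pow_le_pow_left
      have : 2 * (b * k) ≤ b' * k := by
        rw [← mul_assoc]; exact Nat.mul_le_mul_right _ (by omega)
      omega
    have a2 : q2 ≤ N ^ C := by
      rw [hq2]
      apply Nat.pow_le_pow_left
      have : 8 * (b * k) ≤ b' * k := by
        rw [← mul_assoc]; exact Nat.mul_le_mul_right _ (by omega)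
      omega
    have a3 : 3 * qa + q1 + 8 * C + 2 ^ lam + (t + lam) + 2 ≤ N := by
      have : 4 * (b * k) ≤ b' * k := by
        rw [← mul_assoc]; exact Nat.mul_le_mul_right _ (by omega)
      omega
    have a4 : (s + (t + lam) + 2) ^ C1 + q + 2 ^ lam + (t + lam) + 2 ≤ N ^ (C1 + C + 4) := by
      have i1 : N ^ C1 ≤ N ^ (C1 + C + 2) := Nat.pow_le_pow_right (by omega) (by omega)
      have i2 : N ^ C ≤ N ^ (C1 + C + 2) := Nat.pow_le_pow_right (by omega) (by omega)
      have i3 : N ≤ N ^ (C1 + C + 2) := by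
        calc N = N ^ 1 := (pow_one N).symm
          _ ≤ _ := Nat.pow_le_pow_right (by omega) (by omega)
      have i4 : 4 * N ^ (C1 + C + 2) ≤ N ^ (C1 + C + 4) := by
        have : N ^ (C1 + C + 4) = N ^ 2 * N ^ (C1 + C + 2) := by
          rw [← pow_add]; congr 1; omega
        rw [this]
        exact Nat.mul_le_mul_right _ (by nlinarith)
      omega
    have a5 : ((s + (t + lam) + 2) ^ C1 + q + 2 ^ lam + (t + lam) + 2) ^ C3 ≤ N ^ m := by
      rw [hm, pow_mul]
      exact Nat.pow_le_pow_left a4 _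
    have a6 : ((N : ℝ)) ^ m ≤ 2 ^ (ε * k) := by
      have h0 := hE s (Nat.cast_nonneg s) (hs.trans (by
        apply Real.rpow_le_rpow_of_exponent_le (by norm_num)
        exact mul_le_mul_of_nonneg_right (min_le_left _ _) hk0))
      have : (N : ℝ) = s + b' * k + b' := by rw [hN]; push_cast; rfl
      rw [this]
      exact h0
    calc ((((s + (t + lam) + 2) ^ C1 + q + 2 ^ lam + (t + lam) + 2) ^ C3 : ℕ) : ℝ)
        ≤ ((N ^ m : ℕ) : ℝ) := by exact_mod_cast a5
      _ = (N : ℝ) ^ m := by push_cast; rfl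
      _ ≤ _ := a6
  · refine Dc.congr hfin ?_
    intro w
    rw [R_eq_Eix]
    intro i hi
    have : i < 2 ^ lam := hi.trans hlam1
    simp [this, idx]

end Pool.Agent.Helper93.TS
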