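import Pool.Agent.Helper93.TS.StN

set_option autoImplicit false

namespace Pool.Agent.Helper93.TS

open Computability

private theorem encodeNat_two_mul_Enc (n : ℕ) (h : 0 < n) :
    encodeNat (2 * n) = false :: encodeNat n := by
  unfold encodeNat
  have h1 : ((2 * n : ℕ) : Num) = Num.bit0 (n : Num) := by
    rw [← Num.bit0_of_bit0, two_mul, Nat.cast_add]
  rw [h1]
  cases hn : (n : Num) with
  | zero =>
    exfalso
    have : ((n : Num) : ℕ) = ((Num.zero : Num) : ℕ) := by rw [hn]
    rw [Num.to_of_nat] at this
    have h2 : ((Num.zero : Num) : ℕ) = 0 := rfl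
    omega
  | pos p => rfl

private theorem encodeNat_two_mul_add_one_Enc (n : ℕ) :
    encodeNat (2 * n + 1) = true :: encodeNat n := by
  unfold encodeNat
  have h1 : ((2 * n + 1 : ℕ) : Num) = Num.bit1 (n : Num) := by
    rw [← Num.bit1_of_bit1, two_mul, Nat.cast_add, Nat.cast_add, Nat.cast_one]
  rw [h1]
  cases hn : (n : Num) with
  | zero => rfl
  | pos p => rfl

theorem hEnc : StEnc := by
  intro m
  induction m with
  | zero =>
    intro r hr
    obtain rfl : r = 0 := by simpa using hr
    rfl
  | succ m ih =>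
    intro r hr
    have hr2 : r / 2 < 2 ^ m := by
      rw [Nat.div_lt_iff_lt_mul (by norm_num)]
      rwa [← pow_succ]
    have h1 := ih (r / 2) hr2
    rw [List.range_succ_eq_map, List.map_cons, List.map_map, List.cons_append]
    have h2 : ((fun i => r.testBit i) ∘ Nat.succ) = fun i => (r / 2).testBit i := by
      funext i
      exact Nat.testBit_succ r i
    rw [h2, ← h1]
    rcases Nat.mod_two_eq_zero_or_one r with h | h
    · have h3 : 2 ^ (m + 1) + r = 2 * (2 ^ m + r / 2) := by
        rw [pow_succ]; omega
      rw [h3, encodeNat_two_mul_Enc _ (by positivity), Nat.testBit_zero, h]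
      rfl
    · have h3 : 2 ^ (m + 1) + r = 2 * (2 ^ m + r / 2) + 1 := by
        rw [pow_succ]; omega
      rw [h3, encodeNat_two_mul_add_one_Enc, Nat.testBit_zero, h]
      rfl

end Pool.Agent.Helper93.TS
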