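import Pool.Agent.Helper93.TS.StE

set_option autoImplicit false

namespace Pool.Agent.Helper93.TS

open Filter

theorem hEpol : StEpol := by
  intro C B ε hB hε
  refine ⟨ε / (2 * C + 2), by positivity, ?_⟩
  set η : ℝ := ε / (2 * C + 2) with hη
  have hη0 : 0 < η := by positivity
  have hb : (1 : ℝ) < 2 ^ η := Real.one_lt_rpow (by norm_num) hη0
  -- growth
  have h1 : Tendsto (fun k : ℕ => (k : ℝ) ^ 1 / ((2 : ℝ) ^ η) ^ k) atTop (nhds 0) :=
    tendsto_pow_const_div_const_pow_of_one_lt 1 hb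
  have h2 : Tendsto (fun k : ℕ => ((2 : ℝ) ^ η) ^ k) atTop atTop :=
    tendsto_pow_atTop_atTop_of_one_lt hb
  have h3 : ∀ᶠ k : ℕ in atTop, (k : ℝ) ^ 1 / ((2 : ℝ) ^ η) ^ k < 1 / (2 * (B + 1)) :=
    h1.eventually (gt_mem_nhds (by positivity))
  have h4 := h2.eventually_ge_atTop (2 * B + 2)
  filter_upwards [h3, h4] with k hk3 hk4 n hn0 hn
  have e1 : ((2 : ℝ) ^ η) ^ k = 2 ^ (η * k) := by
    rw [Real.rpow_mul (by norm_num), Real.rpow_natCast]
  rw [e1] at hk3 hk4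
  set X : ℝ := 2 ^ (η * k) with hX
  have hX0 : 0 < X := by positivity
  rw [pow_one, div_lt_div_iff₀ hX0 (by positivity), one_mul] at hk3
  have hk0 : (0 : ℝ) ≤ k := Nat.cast_nonneg k
  have h5 : B * k ≤ X / 2 := by nlinarith
  have h6 : B ≤ X / 2 := by linarith
  have h7 : n + B * k + B ≤ 2 * X := by linarith
  have h8 : 2 * X ≤ X ^ 2 := by nlinarith
  have h9 : (n + B * k + B) ^ C ≤ (X ^ 2) ^ C :=
    pow_le_pow_left₀ (by positivity) (h7.trans h8) C
  refine h9.trans ?_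
  rw [← pow_mul, hX, ← Real.rpow_natCast, ← Real.rpow_mul (by norm_num)]
  refine Real.rpow_le_rpow_of_exponent_le (by norm_num) ?_
  have h10 : η * (2 * C) ≤ ε := by
    rw [hη, div_mul_eq_mul_div, div_le_iff₀ (by positivity)]
    nlinarith
  calc η * k * ((2 * C : ℕ) : ℝ) = (η * (2 * C)) * k := by push_cast; ring
    _ ≤ ε * k := mul_le_mul_of_nonneg_right h10 hk0

end Pool.Agent.Helper93.TS
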