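import Pool.Agent.Helper93.TS.StN

/-!
# TS module EQV (satisfiability of the whole formula)
-/

set_option autoImplicit false

namespace Pool.Agent.Helper93.TS

open Pool.Agent.Helper72

lemma num_inj_Eqv : Function.Injective Fld.num := by
  intro a b h
  cases a <;> cases b <;> simp_all [Fld.num, Nat.pair_eq_pair]

lemma ofBits_inj_Eqv {K : ℕ} (q q' : Pos K) (h : Nat.ofBits q = Nat.ofBits q') : q = q' := by
  funext i
  have h1 := Nat.testBit_ofBits_lt q i i.2
  have h2 := Nat.testBit_ofBits_lt q' i i.2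
  rw [h, h2] at h1
  exact h1.symm

lemma nm_inj_Eqv {K α F F' : ℕ} {q q' : Pos K} (h : nm K α F q = nm K α F' q') :
    F = F' ∧ q = q' := by
  unfold nm at h
  have h1 : Nat.ofBits q < 2 ^ K := Nat.ofBits_lt_two_pow q
  have h2 : Nat.ofBits q' < 2 ^ K := Nat.ofBits_lt_two_pow q'
  have h3 : F * 2 ^ K + Nat.ofBits q = F' * 2 ^ K + Nat.ofBits q' := by omega
  have h4 : F = F' := by
    have : (F * 2 ^ K + Nat.ofBits q) / 2 ^ K = (F' * 2 ^ K + Nat.ofBits q') / 2 ^ K := by rw [h3]
    rw [mul_comm F, mul_comm F', Nat.mul_add_div (by positivity), Nat.mul_add_div (by positivity),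
      Nat.div_eq_of_lt h1, Nat.div_eq_of_lt h2] at this
    simpa using this
  refine ⟨h4, ofBits_inj_Eqv q q' ?_⟩
  subst h4
  omega

lemma toB_Eqv (K α : ℕ) (e : Option ℕ → Bool) (g : ℕ → Bool) (B : Fm TV)
    (hg : g (nm K α Fld.cs.num (cpos K true)) = true) :
    (toB K α e B).eval g = B.eval (fun u => g (nm K α u.fld.num (u.pos K e))) := by
  induction B with
  | tt => simpa [toB, cvar, BForm.eval] using hg
  | var u => simp [toB, BForm.eval]
  | nand a b iha ihb => simp [toB, BForm.eval, iha, ihb]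

lemma foldr_Eqv (g : ℕ → Bool) (f : ℕ → BForm) (z : BForm) (l : List ℕ) :
    (l.foldr (fun n r => .conj (f n) r) z).eval g = true ↔
      (∀ n ∈ l, (f n).eval g = true) ∧ z.eval g = true := by
  induction l with
  | nil => simp
  | cons a l ih =>
    rw [List.foldr_cons]
    simp only [BForm.eval, Bool.and_eq_true, ih, List.mem_cons, forall_eq_or_imp]
    tauto

lemma blk_Eqv (K α j : ℕ) (e : Option ℕ → Bool) (g : ℕ → Bool) (B : Fm TV)
    (hg : g (nm K α Fld.cs.num (cpos K true)) = true) :
    (blkB K α j e B).eval g = B.eval (fun u => g (nm K α u.fld.num (u.pos K e))) := by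
  simp [blkB, BForm.eval, toB_Eqv K α e g B hg, cvar, hg]

lemma whole_Eqv (K α j : ℕ) (E : ℕ → Option ℕ → Bool) (g : ℕ → Bool) (B : Fm TV) :
    (whole K α j E B).eval g = true ↔
      (∀ n < 2 ^ K, B.eval (fun u => g (nm K α u.fld.num (u.pos K (E n)))) = true) ∧
        g (nm K α Fld.cs.num (cpos K true)) = true ∧
          g (nm K α Fld.cs.num (cpos K false)) = false := by
  unfold whole
  rw [foldr_Eqv]
  have h1 : (BForm.conj (cvar K α true) (.neg (cvar K α false))).eval g = true ↔
      g (nm K α Fld.cs.num (cpos K true)) = true ∧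
          g (nm K α Fld.cs.num (cpos K false)) = false := by
    simp [BForm.eval, cvar]
  rw [h1]
  constructor
  · rintro ⟨h2, h3, h4⟩
    refine ⟨fun n hn => ?_, h3, h4⟩
    rw [← blk_Eqv K α j (E n) g B h3]
    exact h2 n (List.mem_range.2 hn)
  · rintro ⟨h2, h3, h4⟩
    refine ⟨fun n hn => ?_, h3, h4⟩
    rw [blk_Eqv K α j (E n) g B h3]
    exact h2 n (List.mem_range.1 hn)

lemma eval_congr_Eqv {P : TV → Prop} (B : Fm TV) (hB : B.All P) (f f' : TV → Bool)
    (h : ∀ u, P u → f u = f' u) : B.eval f = B.eval f' := by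
  induction B with
  | tt => rfl
  | var u => exact h u hB
  | nand a b iha ihb =>
    simp only [Fm.eval_nand]
    rw [iha hB.1, ihb hB.2]

theorem hEqv : StEqv := by
  classical
  intro K α j E B hcs hB
  constructor
  · rintro ⟨g, hg⟩
    obtain ⟨h1, h2, h3⟩ := (whole_Eqv K α j E g B).1 hg
    refine ⟨fun F q => g (nm K α F.num q), ?_, h1⟩
    intro b
    cases b
    · exact h3
    · exact h2
  · rintro ⟨val, hval, h1⟩
    set g : ℕ → Bool := fun n => decide (∃ (F : Fld) (q : Pos K), F.num < 2 ^ α ∧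
      n = nm K α F.num q ∧ val F q = true) with hg
    have key : ∀ (F : Fld) (q : Pos K), F.num < 2 ^ α → g (nm K α F.num q) = val F q := by
      intro F q hF
      rw [Bool.eq_iff_iff]
      simp only [hg, decide_eq_true_eq]
      constructor
      · rintro ⟨F', q', -, hn, hv⟩
        obtain ⟨h2, h3⟩ := nm_inj_Eqv hn
        have h4 := num_inj_Eqv h2
        subst h4
        subst h3
        exact hv
      · intro hv
        exact ⟨F, q, hF, rfl, hv⟩
    refine ⟨g, (whole_Eqv K α j E g B).2 ⟨?_, ?_, ?_⟩⟩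
    · intro n hn
      rw [← h1 n hn]
      exact eval_congr_Eqv B hB _ _ (fun u hu => key u.fld (u.pos K (E n)) hu)
    · rw [key _ _ hcs, hval]
    · rw [key _ _ hcs, hval]

end Pool.Agent.Helper93.TS
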