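import Pool.Agent.Helper93.TS.StE

/-! Project TS, module ESLO: the slowdown rule. -/

namespace Pool.Agent.Helper93.TS

open Pool.Agent.Helper72 Filter

/-- the bound for `L` -/
private theorem L_le_Eslo {L k' : ℕ} {q : ℕ} {e : ℝ} {k : ℕ} (h : 2 ^ L ≤ 2 ^ k' * q)
    (hq : (q : ℝ) ≤ (2 : ℝ) ^ (e * k)) : (L : ℝ) ≤ k' + e * k := by
  have h1 : ((2 ^ L : ℕ) : ℝ) ≤ ((2 ^ k' * q : ℕ) : ℝ) := by exact_mod_cast h
  push_cast at h1
  have h2 : (2 : ℝ) ^ (L : ℝ) ≤ (2 : ℝ) ^ ((k' : ℝ) + e * k) := by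
    rw [Real.rpow_natCast, Real.rpow_add (by norm_num), Real.rpow_natCast]
    refine h1.trans ?_
    exact mul_le_mul_of_nonneg_left hq (by positivity)
  exact (Real.rpow_le_rpow_left_iff (by norm_num)).1 h2

private theorem T_le_Eslo {T N L : ℕ} {c : ℝ} (hc : 1 ≤ c) (hN : N ≤ 2 ^ L)
    (hT : (T : ℝ) ≤ (N : ℝ) ^ c) : T ≤ 2 ^ ⌈c * L⌉₊ := by
  have h1 : (N : ℝ) ≤ (2 : ℝ) ^ (L : ℝ) := by
    rw [Real.rpow_natCast]
    exact_mod_cast hN
  have h2 : (T : ℝ) ≤ (2 : ℝ) ^ (c * L) := by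
    refine hT.trans ?_
    have := Real.rpow_le_rpow (Nat.cast_nonneg N) h1 (by linarith : (0 : ℝ) ≤ c)
    rw [← Real.rpow_mul (by norm_num)] at this
    rwa [mul_comm c]
  have h3 : (T : ℝ) ≤ (2 : ℝ) ^ ((⌈c * L⌉₊ : ℕ) : ℝ) :=
    h2.trans (Real.rpow_le_rpow_of_exponent_le (by norm_num) (Nat.le_ceil _))
  rw [Real.rpow_natCast] at h3
  exact_mod_cast h3

private theorem s_le_Eslo {s N L : ℕ} {δ η B : ℝ} {k : ℕ} (hδ : 0 ≤ δ) (hN : N ≤ 2 ^ L)
    (hs : (s : ℝ) ≤ (N : ℝ) ^ δ) (hL : (L : ℝ) ≤ B * k) (hB : δ * B ≤ η) :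
    (s : ℝ) ≤ (2 : ℝ) ^ (η * k) := by
  have h1 : (N : ℝ) ≤ (2 : ℝ) ^ (L : ℝ) := by
    rw [Real.rpow_natCast]
    exact_mod_cast hN
  have h2 := Real.rpow_le_rpow (Nat.cast_nonneg N) h1 hδ
  rw [← Real.rpow_mul (by norm_num)] at h2
  refine hs.trans (h2.trans (Real.rpow_le_rpow_of_exponent_le (by norm_num) ?_))
  have hk : (0 : ℝ) ≤ k := Nat.cast_nonneg k
  calc (L : ℝ) * δ ≤ B * k * δ := mul_le_mul_of_nonneg_right hL hδ
    _ = δ * B * k := by ring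
    _ ≤ η * k := mul_le_mul_of_nonneg_right hB hk

theorem hEslo (h1 : StCore) (h2 : StOI) (h3 : StDR) (h4 : StMono) (h5 : StEpol) : StEslo := by
  intro c hc hE B ε hε
  obtain ⟨C1, hC1⟩ := h4
  obtain ⟨C2, hC2⟩ := h1
  obtain ⟨C3, hC3⟩ := h2
  obtain ⟨C4, hC4⟩ := h3
  -- constants
  set B1 : ℝ := max B 2 with hB1
  have hB12 : 2 ≤ B1 := le_max_right _ _
  have hBB1 : B ≤ B1 := le_max_left _ _
  obtain ⟨η1, hη1, E1⟩ := h5 C4 2 ε (by norm_num) hε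
  set ε' : ℝ := min 1 (min (η1 / 2) (ε / (2 * c))) with hε'
  have hε'0 : 0 < ε' := by
    rw [hε']
    refine lt_min one_pos (lt_min (by linarith) (by positivity))
  have hε'1 : ε' ≤ 1 := min_le_left _ _
  have hε'2 : ε' ≤ η1 / 2 := (min_le_right _ _).trans (min_le_left _ _)
  have hε'3 : ε' ≤ ε / (2 * c) := (min_le_right _ _).trans (min_le_right _ _)
  obtain ⟨η2, hη2, E2⟩ := h5 C2 B1 ε' (by linarith) hε'0
  obtain ⟨η3, hη3, E3⟩ := h5 C1 B1 η2 (by linarith) hη2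
  set B2 : ℝ := c * (B1 + 1) + (B1 + 1) + 3 with hB2
  have hB20 : 0 ≤ B2 := by positivity
  obtain ⟨η4, hη4, E4⟩ := h5 C3 B2 (η1 / 2) hB20 (by linarith)
  set δ : ℝ := η4 / (B1 + 1) with hδ
  have hδ0 : 0 < δ := by positivity
  have hδB : δ * (B1 + 1) ≤ η4 := by
    rw [hδ, div_mul_cancel₀ _ (by positivity)]
  obtain ⟨n0, hn0⟩ := eventually_atTop.1 (hE δ hδ0)
  refine ⟨η3, hη3, ?_⟩
  filter_upwards [E1, E2, E3, E4, eventually_ge_atTop n0,
    eventually_ge_atTop (⌈2 / η1⌉₊ + ⌈4 / ε⌉₊)] with k K1 K2 K3 K4 hkn hkb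
  intro ρ τ f hρ1 hρB hτB hf
  obtain ⟨v, t, s, hv, ht, hs, hD⟩ := hf
  have hk0 : (0 : ℝ) ≤ k := Nat.cast_nonneg k
  have hkη : 2 / η1 ≤ k := by
    refine (Nat.le_ceil _).trans ?_
    exact_mod_cast (Nat.le_add_right _ _).trans hkb
  have hkε : 4 / ε ≤ k := by
    refine (Nat.le_ceil _).trans ?_
    exact_mod_cast (Nat.le_add_left _ _).trans hkb
  rw [div_le_iff₀ hη1] at hkη
  rw [div_le_iff₀ hε] at hkε
  set m : ℝ := max ρ τ with hm
  have hm1 : 1 ≤ m := hρ1.trans (le_max_left _ _)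
  have hmB : m ≤ B1 := (max_le hρB hτB).trans hBB1
  set k' : ℕ := ⌊m * k⌋₊ with hk'
  have hk'm : (k' : ℝ) ≤ m * k := Nat.floor_le (by positivity)
  have hk'B : (k' : ℝ) ≤ B1 * k := hk'm.trans (mul_le_mul_of_nonneg_right hmB hk0)
  have hkk' : k ≤ k' := by
    apply Nat.le_floor
    nlinarith
  have hvk' : v ≤ k' := by
    apply Nat.le_floor
    exact hv.trans (mul_le_mul_of_nonneg_right (le_max_left _ _) hk0)
  have htk' : t ≤ k' := by
    apply Nat.le_floor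
    exact ht.trans (mul_le_mul_of_nonneg_right (le_max_right _ _) hk0)
  have D1 := hC1 v v t k' s f hD le_rfl htk'
  set s1 : ℕ := (s + k' + 2) ^ C1 with hs1
  have hs1' : (s1 : ℝ) ≤ (2 : ℝ) ^ (η2 * k) := by
    have := K3 s (Nat.cast_nonneg s) hs
    refine le_trans ?_ this
    rw [hs1]
    push_cast
    apply pow_le_pow_left₀ (by positivity)
    linarith
  obtain ⟨N, L, W, hNL, hkN, hL, hW, hSAT⟩ := hC2 v k' s1 f D1 (by omega)
  set q : ℕ := (s1 + k' + 2) ^ C2 with hq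
  have hq' : (q : ℝ) ≤ (2 : ℝ) ^ (ε' * k) := by
    have := K2 s1 (Nat.cast_nonneg s1) hs1'
    refine le_trans ?_ this
    rw [hq]
    push_cast
    apply pow_le_pow_left₀ (by positivity)
    linarith
  have hL1 : (L : ℝ) ≤ k' + ε' * k := L_le_Eslo hL hq'
  have hL2 : (L : ℝ) ≤ (B1 + 1) * k := by nlinarith
  have hkN' : n0 ≤ N := by
    have : k < 2 ^ k := Nat.lt_two_pow_self
    have h2 : 2 ^ k ≤ 2 ^ k' := Nat.pow_le_pow_right (by norm_num) hkk'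
    omega
  obtain ⟨M, s2, T, hM, hs2, hT, hAcc⟩ := hn0 N hkN'
  have hT2 := T_le_Eslo hc hNL hT
  set t2 : ℕ := ⌈c * L⌉₊ with ht2
  have ht2' : (t2 : ℝ) ≤ c * L + 1 := (Nat.ceil_lt_add_one (by positivity)).le
  have hs2' := s_le_Eslo hδ0.le hNL hs2 hL2 hδB
  have D2 := hC3 M s2 T t2 N L hM hT2 hNL
  set A : ℕ := (s2 + t2 + L + 2) ^ C3 with hA
  have hcL : c * (L : ℝ) ≤ c * (B1 + 1) * k := by
    have := mul_le_mul_of_nonneg_left hL2 (by linarith : (0 : ℝ) ≤ c)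
    linarith
  have hA' : (A : ℝ) ≤ (2 : ℝ) ^ (η1 / 2 * k) := by
    have := K4 s2 (Nat.cast_nonneg s2) hs2'
    refine le_trans ?_ this
    rw [hA]
    push_cast
    apply pow_le_pow_left₀ (by positivity)
    have e : B2 * (k : ℝ) = c * (B1 + 1) * k + (B1 + 1) * k + 3 * k := by
      rw [hB2]
      ring
    have e2 : 3 ≤ B2 := by
      rw [hB2]
      have : 0 ≤ c * (B1 + 1) + (B1 + 1) := by positivity
      linarith
    rw [e]
    linarith
  have D3 := hC4 L (t2 + 1) A v q _ W D2 hW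
  refine ⟨v, t2 + 1, (A + q + 2) ^ C4, hv, ?_, ?_, ?_⟩
  · push_cast
    have a1 : c * (L : ℝ) ≤ c * k' + c * (ε' * k) := by
      have := mul_le_mul_of_nonneg_left hL1 (by linarith : (0 : ℝ) ≤ c)
      linarith
    have a2 : c * (k' : ℝ) ≤ c * m * k := by
      have := mul_le_mul_of_nonneg_left hk'm (by linarith : (0 : ℝ) ≤ c)
      linarith
    have a3 : c * (ε' * k) ≤ ε / 2 * k := by
      have : c * ε' ≤ ε / 2 := by
        have := mul_le_mul_of_nonneg_left hε'3 (by linarith : (0 : ℝ) ≤ c)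
        refine this.trans (le_of_eq ?_)
        field_simp
      calc c * (ε' * k) = c * ε' * k := by ring
        _ ≤ ε / 2 * k := mul_le_mul_of_nonneg_right this hk0
    have a4 : (c * m + ε) * (k : ℝ) = c * m * k + ε / 2 * k + ε / 2 * k := by ring
    rw [a4]
    linarith
  · have b1 : ((A + q : ℕ) : ℝ) ≤ (2 : ℝ) ^ (η1 * k) := by
      push_cast
      have b2 : (2 : ℝ) ^ (ε' * k) ≤ (2 : ℝ) ^ (η1 / 2 * k) :=
        Real.rpow_le_rpow_of_exponent_le (by norm_num) (mul_le_mul_of_nonneg_right hε'2 hk0)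
      have b3 : (A : ℝ) + q ≤ 2 ^ (1 : ℝ) * (2 : ℝ) ^ (η1 / 2 * k) := by
        rw [Real.rpow_one]
        linarith
      rw [← Real.rpow_add (by norm_num)] at b3
      refine b3.trans (Real.rpow_le_rpow_of_exponent_le (by norm_num) ?_)
      linarith
    have := K1 ((A + q : ℕ) : ℝ) (Nat.cast_nonneg _) b1
    refine le_trans ?_ this
    push_cast
    apply pow_le_pow_left₀ (by positivity)
    linarith
  · refine Dc.congr D3 fun x => ?_
    rw [hSAT x]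
    exact (hAcc _ (by simp)).symm

end Pool.Agent.Helper93.TS
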