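import Pool.Agent.Helper93.TS.StE

/-!
Project TS, module ESP: the speedup rule.
-/

namespace Pool.Agent.Helper93.TS

open Filter

theorem hEsp (h1 : StSP) (h2 : StMono) (h3 : StEpol) : StEsp := by
  obtain ⟨C1, h1⟩ := h1
  obtain ⟨C3, h2⟩ := h2
  intro B ε hε
  have hB0 : 0 ≤ |B| + ε + 10 := by positivity
  obtain ⟨η', hη', hk1⟩ := h3 C1 (|B| + ε + 10) ε hB0 hε
  obtain ⟨ε1, hε1def⟩ : ∃ ε1, ε1 = min η' ε / 4 := ⟨_, rfl⟩
  have hmin : 0 < min η' ε := lt_min hη' hε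
  have hε1 : 0 < ε1 := by rw [hε1def]; positivity
  have hε1a : 4 * ε1 ≤ η' := by
    rw [hε1def]
    have := min_le_left η' ε
    linarith
  have hε1b : 4 * ε1 ≤ ε := by
    rw [hε1def]
    have := min_le_right η' ε
    linarith
  obtain ⟨η, hη, hk2⟩ := h3 C3 (|B| + ε + 10) (ε1 / 2) hB0 (by positivity)
  obtain ⟨η2, hη2, hk3⟩ := h3 1 (|B| + ε + 10) (ε1 / 2) hB0 (by positivity)
  refine ⟨η, hη, ?_⟩
  have hk4 : ∀ᶠ k : ℕ in atTop, 2 / ε1 + 5 / ε + 1 ≤ (k : ℝ) :=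
    (tendsto_natCast_atTop_atTop (R := ℝ)).eventually_ge_atTop _
  filter_upwards [hk1, hk2, hk3, hk4] with k hk1 hk2 hk3 hk4
  intro ρ τ u f hρ0 hρ hτ hu hτu hf
  obtain ⟨v, t, s, hv, ht, hs, hD⟩ := hf
  have hkε1 : 2 ≤ ε1 * k := by
    have h5 : 0 ≤ 5 / ε := by positivity
    have : 2 / ε1 ≤ k := by linarith
    rw [div_le_iff₀ hε1] at this
    linarith
  have hkε : 5 ≤ ε * k := by
    have h5 : 0 ≤ 2 / ε1 := by positivity
    have : 5 / ε ≤ k := by linarith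
    rw [div_le_iff₀ hε] at this
    linarith
  have hk0 : (0 : ℝ) ≤ k := Nat.cast_nonneg k
  have hε1k : 0 ≤ ε1 * k := by positivity
  have huk : 0 ≤ u * k := by positivity
  obtain ⟨β, hβ⟩ : ∃ β : ℕ, β = ⌊ε1 * k⌋₊ := ⟨_, rfl⟩
  obtain ⟨U, hU⟩ : ∃ U : ℕ, U = ⌊u * k⌋₊ := ⟨_, rfl⟩
  have hβ1 : (β : ℝ) ≤ ε1 * k := by rw [hβ]; exact Nat.floor_le hε1k
  have hβ2 : ε1 * k < β + 1 := by rw [hβ]; exact Nat.lt_floor_add_one _
  have hU1 : (U : ℝ) ≤ u * k := by rw [hU]; exact Nat.floor_le huk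
  have hU2 : u * k < U + 1 := by rw [hU]; exact Nat.lt_floor_add_one _
  obtain ⟨t', ht'⟩ : ∃ t', t' = max t (U + β + 2) := ⟨_, rfl⟩
  have hτk : u * k ≤ τ * k := mul_le_mul_of_nonneg_right hτu hk0
  have hBk : τ * k ≤ |B| * k :=
    mul_le_mul_of_nonneg_right (hτ.trans (le_abs_self B)) hk0
  have ht'1 : (t' : ℝ) ≤ τ * k + ε1 * k + 2 := by
    rw [ht', Nat.cast_max, max_le_iff]
    constructor
    · linarith
    · push_cast
      linarith
  have ht'2 : (t' : ℝ) + 2 ≤ (|B| + ε + 10) * k + (|B| + ε + 10) := by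
    have e1 : ε1 * k ≤ ε * k := mul_le_mul_of_nonneg_right (by linarith) hk0
    have e2 : 0 ≤ |B| := abs_nonneg B
    nlinarith
  have hmono := h2 v v t t' s f hD le_rfl (by rw [ht']; exact le_max_left _ _)
  obtain ⟨s', hs'⟩ : ∃ s', s' = (s + t' + 2) ^ C3 := ⟨_, rfl⟩
  rw [← hs'] at hmono
  have hs'1 : (s' : ℝ) ≤ 2 ^ (ε1 / 2 * k) := by
    have e := hk2 s (Nat.cast_nonneg s) hs
    refine le_trans ?_ e
    rw [hs']
    push_cast
    apply pow_le_pow_left₀ (by positivity)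
    linarith
  have hpowβ : (2 : ℝ) ^ (ε1 / 2 * k) ≤ 2 ^ β := by
    rw [← Real.rpow_natCast]
    apply Real.rpow_le_rpow_of_exponent_le (by norm_num)
    linarith
  have hs'2 : s' ≤ 2 ^ β := by
    have : (s' : ℝ) ≤ ((2 ^ β : ℕ) : ℝ) := by
      push_cast
      exact hs'1.trans hpowβ
    exact_mod_cast this
  have hUβ : U ≤ 2 ^ β := by
    have e := hk3 0 le_rfl (by positivity)
    rw [pow_one] at e
    have e3 : 0 ≤ |B| := abs_nonneg B
    have e2 : (U : ℝ) ≤ ((2 ^ β : ℕ) : ℝ) := by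
      push_cast
      refine le_trans ?_ hpowβ
      refine le_trans ?_ e
      nlinarith
    exact_mod_cast e2
  have hUt' : U ≤ t' := by
    rw [ht']
    exact le_trans (by omega) (le_max_right _ _)
  have hlam : β + 2 ≤ t' - U + 1 := by
    have : U + β + 2 ≤ t' := by rw [ht']; exact le_max_right _ _
    omega
  obtain ⟨g, hg, hfg⟩ := h1 v t' s' U β (β + 2) f hmono hUt' hs'2 hUβ le_rfl hlam
  refine ⟨U, β, g, hU1, ?_, ?_, hfg⟩
  · have e1 : ε1 * k ≤ ε * k := mul_le_mul_of_nonneg_right (by linarith) hk0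
    linarith
  · refine ⟨_, _, _, ?_, ?_, ?_, hg⟩
    · push_cast
      have e1 : 4 * ε1 * k ≤ ε * k := mul_le_mul_of_nonneg_right hε1b hk0
      nlinarith
    · push_cast [Nat.cast_sub hUt']
      have e1 : 4 * ε1 * k ≤ ε * k := mul_le_mul_of_nonneg_right hε1b hk0
      nlinarith
    · have hn : (s' : ℝ) + 2 ^ (β + 2) ≤ 2 ^ (η' * k) := by
        have e1 : (2 : ℝ) ^ (ε1 / 2 * k) ≤ 2 ^ (ε1 * k) := by
          apply Real.rpow_le_rpow_of_exponent_le (by norm_num)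
          linarith
        have e2 : (2 : ℝ) ^ β ≤ 2 ^ (ε1 * k) := by
          rw [← Real.rpow_natCast]
          exact Real.rpow_le_rpow_of_exponent_le (by norm_num) hβ1
        have e3 : (2 : ℝ) ^ (β + 2) = 4 * 2 ^ β := by rw [pow_add]; ring
        have e4 : (8 : ℝ) * 2 ^ (ε1 * k) ≤ 2 ^ (η' * k) := by
          have e5 : (8 : ℝ) = 2 ^ (3 : ℝ) := by norm_num
          rw [e5, ← Real.rpow_add (by norm_num)]
          apply Real.rpow_le_rpow_of_exponent_le (by norm_num)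
          have e6 : 4 * ε1 * k ≤ η' * k := mul_le_mul_of_nonneg_right hε1a hk0
          nlinarith
        have e7 : (0 : ℝ) ≤ 2 ^ (ε1 * k) := by positivity
        rw [e3]
        linarith
      have e := hk1 _ (by positivity) hn
      refine le_trans ?_ e
      push_cast
      apply pow_le_pow_left₀ (by positivity)
      linarith

end Pool.Agent.Helper93.TS
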