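import Pool.Agent.Helper93.TS.StE

/-!
# Project TS, module ETR: reduction of the width
-/

namespace Pool.Agent.Helper93.TS

open Pool.Agent.Helper72 Filter

theorem hEtr (h1 : StDR) (h2 : StRepC) (h3 : StEpol) : StEtr := by
  obtain ⟨C, hC⟩ := h1
  obtain ⟨C', _, hR⟩ := h2
  intro ε hε
  have hB : (0 : ℝ) ≤ (C' : ℝ) + 2 := by positivity
  obtain ⟨η, hη, hev⟩ := h3 C ((C' : ℝ) + 2) ε hB hε
  refine ⟨η, hη, ?_⟩
  filter_upwards [hev] with k hk
  intro ρ τ f hf hinv
  obtain ⟨v, t, s, hv, ht, hs, hD⟩ := hf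
  refine ⟨k, t, (s + C' + 2) ^ C, by simp, ht, ?_, ?_⟩
  · have h4 := hk (s : ℝ) (Nat.cast_nonneg s) hs
    refine le_trans ?_ h4
    push_cast
    apply pow_le_pow_left₀ (by positivity)
    have : 0 ≤ ((C' : ℝ) + 2) * k := by positivity
    linarith
  · have h5 := hC v t s k C' f (tr k) hD (hR.tr v k)
    have h6 : (fun w => f (tr k w)) = f := by
      funext x
      exact propext (hinv x).symm
    rw [h6] at h5
    exact h5

end Pool.Agent.Helper93.TS
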