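import Pool.Agent.Helper93.TS.StM

/-!
# Project TS, module FIN: normal form of machines
-/

namespace Pool.Agent.Helper93.TS

private def mv_Fin {ι κ : Type} (e : ι → κ) : V ι → V κ
  | .mem i => .mem (e i)
  | .clk j => .clk j
  | .par j => .par j

private def mo_Fin {ι κ : Type} (e : ι → κ) : Option (V ι) → Fm (Option (V κ))
  | none => .var none
  | some u => .var (some (mv_Fin e u))

private def mm_Fin {ι κ : Type} (e : ι ≃ κ) (M : Mac ι) : Mac κ where
  nx i := (M.nx (e.symm i)).bind (mo_Fin e)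
  ad j := (M.ad j).bind (fun u => .var (mv_Fin e u))
  out := e M.out

private theorem env_Fin {ι κ : Type} (e : ι ≃ κ) (m : ι → Bool) (t : ℕ) (c : ℕ → Bool) (u : V ι) :
    env (fun i => m (e.symm i)) t c (mv_Fin e u) = env m t c u := by
  cases u with
  | mem i => simp [mv_Fin]
  | clk j => rfl
  | par j => rfl

private theorem addr_Fin {ι κ : Type} (e : ι ≃ κ) (M : Mac ι) (v : ℕ) (c : ℕ → Bool) (t : ℕ)
    (m : ι → Bool) : (mm_Fin e M).addr v c t (fun i => m (e.symm i)) = M.addr v c t m := by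
  funext j
  simp only [Mac.addr, mm_Fin, Fm.eval_bind, Fm.eval_var]
  congr 2
  funext u
  exact env_Fin e m t c u

private theorem step_Fin {ι κ : Type} (e : ι ≃ κ) (M : Mac ι) (v : ℕ) (w : Word) (c : ℕ → Bool)
    (t : ℕ) (m : ι → Bool) : (mm_Fin e M).step v w c t (fun i => m (e.symm i)) =
      fun i => M.step v w c t m (e.symm i) := by
  funext i
  simp only [Mac.step]
  rw [addr_Fin]
  simp only [mm_Fin, Fm.eval_bind]
  congr 1
  funext o
  cases o with
  | none => rfl
  | some u =>
    simp only [mo_Fin, Fm.eval_var, oenv_some]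
    exact env_Fin e m t c u

private theorem run_Fin {ι κ : Type} (e : ι ≃ κ) (M : Mac ι) (v : ℕ) (w : Word) (c : ℕ → Bool)
    (t : ℕ) (m : ι → Bool) (n : ℕ) : (mm_Fin e M).run v w c t (fun i => m (e.symm i)) n =
      fun i => M.run v w c t m n (e.symm i) := by
  induction n with
  | zero => rfl
  | succ n ih => rw [Mac.run_succ, ih, step_Fin, Mac.run_succ]

theorem hFin : StFin := by
  intro v t s f hf
  obtain ⟨ι, hι, M, hb, hM⟩ := hf
  have hpos : 0 < Fintype.card ι := Fintype.card_pos_iff.2 ⟨M.out⟩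
  obtain ⟨σ, hσ⟩ : ∃ σ, Fintype.card ι = σ + 1 := ⟨Fintype.card ι - 1, by omega⟩
  set e0 : ι ≃ Fin (σ + 1) := (Fintype.equivFin ι).trans (finCongr hσ) with he0
  set e : ι ≃ Fin (σ + 1) := e0.trans (Equiv.swap (e0 M.out) 0) with he
  have hout : e M.out = 0 := by
    rw [he, Equiv.trans_apply, Equiv.swap_apply_left]
  refine ⟨σ, mm_Fin e M, hout, ⟨?_, ?_, ?_⟩, ?_⟩
  · rw [Fintype.card_fin, ← hσ]; exact hb.card_le
  · intro i
    refine (Fm.size_bind_le _ _ 1 ?_ le_rfl).trans ?_
    · intro o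
      cases o with
      | none => exact le_rfl
      | some u => exact le_rfl
    · rw [mul_one]; exact hb.nx_le _
  · intro j hj
    refine (Fm.size_bind_le _ _ 1 (fun u => le_rfl) le_rfl).trans ?_
    rw [mul_one]; exact hb.ad_le j hj
  · intro w
    rw [hM w]
    have h1 := congrFun (run_Fin e M v w zero 0 zero (2 ^ t)) (e M.out)
    rw [Equiv.symm_apply_apply] at h1
    have h2 : (fun i => (zero : ι → Bool) (e.symm i)) = (zero : Fin (σ + 1) → Bool) := rfl
    rw [h2] at h1
    rw [← h1, hout]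

end Pool.Agent.Helper93.TS
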