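import Pool.Agent.Helper93.TS.StM

/-!
Comparison of a binary number with a constant.
-/

namespace Pool.Agent.Helper93.TS

/-- the formula saying that the number formed by the first `k` bits `f` is less than the number
formed by the first `k` bits of `n` -/
private def ltF_Fml {ι : Type} (n : ℕ) (f : ℕ → Fm ι) : ℕ → Fm ι
  | 0 => Fm.ff
  | k + 1 => if n.testBit k then ((f k).not).or (ltF_Fml n f k) else ((f k).not).and (ltF_Fml n f k)

private theorem size_ltF_Fml {ι : Type} (n : ℕ) (f : ℕ → Fm ι) (m s : ℕ)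
    (hs : ∀ i < m, (f i).size ≤ s) : ∀ k ≤ m, (ltF_Fml n f k).size ≤ 3 + k * (s + 7) := by
  intro k
  induction k with
  | zero => intro _; simp [ltF_Fml]
  | succ k ih =>
    intro hk
    have h1 := ih (by omega)
    have h2 := hs k (by omega)
    have h3 : (k + 1) * (s + 7) = k * (s + 7) + (s + 7) := by ring
    simp only [ltF_Fml]
    split_ifs
    · rw [Fm.size_or, Fm.size_not, h3]; omega
    · rw [Fm.size_and, Fm.size_not, h3]; omega

private theorem mod_succ_Fml (x k : ℕ) :
    x % 2 ^ (k + 1) = x % 2 ^ k + 2 ^ k * (x.testBit k).toNat := by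
  rw [pow_succ, Nat.mod_mul, Nat.testBit_eq_decide_div_mod_eq]
  rcases Nat.mod_two_eq_zero_or_one (x / 2 ^ k) with h | h <;> simp [h]

private theorem eval_ltF_Fml {ι : Type} (n : ℕ) (f : ℕ → Fm ι) (m : ℕ) (e : ι → Bool) (p : ℕ)
    (h : ∀ i < m, (f i).eval e = p.testBit i) :
    ∀ k ≤ m, ((ltF_Fml n f k).eval e = true ↔ p % 2 ^ k < n % 2 ^ k) := by
  intro k
  induction k with
  | zero => intro _; simp [ltF_Fml, Nat.mod_one]
  | succ k ih =>
    intro hk
    have h1 := ih (by omega)
    have h2 := h k (by omega)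
    have hp : p % 2 ^ k < 2 ^ k := Nat.mod_lt _ (by positivity)
    have hn : n % 2 ^ k < 2 ^ k := Nat.mod_lt _ (by positivity)
    rw [mod_succ_Fml, mod_succ_Fml]
    simp only [ltF_Fml]
    cases hb : n.testBit k <;> cases hc : p.testBit k <;> rw [hc] at h2
    · simp [h2, h1]
    · simp only [Bool.false_eq_true, if_false, Fm.eval_and, Fm.eval_not, h2, Bool.not_true,
        Bool.false_and, Bool.toNat_true, Bool.toNat_false, mul_one, mul_zero, add_zero,
        false_iff, not_lt]
      omega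
    · simp only [if_true, Fm.eval_or, Fm.eval_not, h2, Bool.not_false, Bool.true_or,
        Bool.toNat_true, Bool.toNat_false, mul_one, mul_zero, add_zero, true_iff]
      omega
    · simp [h2, h1]

theorem hLt : StLt := by
  refine ⟨5, ?_⟩
  intro m n ι f s hn hs
  refine ⟨ltF_Fml n f m, ?_, ?_⟩
  · refine (size_ltF_Fml n f m s hs m le_rfl).trans ?_
    have hx : 2 ≤ m + s + 2 := by omega
    have h1 : 3 + m * (s + 7) ≤ (m + s + 2) ^ 2 * 8 := by nlinarith
    have h2 : 8 ≤ (m + s + 2) ^ 3 := by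
      calc 8 = 2 ^ 3 := by norm_num
        _ ≤ (m + s + 2) ^ 3 := Nat.pow_le_pow_left hx 3
    calc 3 + m * (s + 7) ≤ (m + s + 2) ^ 2 * 8 := h1
      _ ≤ (m + s + 2) ^ 2 * (m + s + 2) ^ 3 := Nat.mul_le_mul_left _ h2
      _ = (m + s + 2) ^ 5 := by ring
  · intro e p hp h
    rw [eval_ltF_Fml n f m e p h m le_rfl, Nat.mod_eq_of_lt hp, Nat.mod_eq_of_lt hn]

end Pool.Agent.Helper93.TS
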