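import Pool.Agent.Helper93.TS.StM

/-!
# Project TS, module LD: transformations with loaded parameters
-/

namespace Pool.Agent.Helper93.TS

theorem hLD (_h1 : StMono) (h2 : StRR) (h3 : StLR) (_h4 : StRepC) : StLD := by
  obtain ⟨C2, h2⟩ := h2
  obtain ⟨C3, h3⟩ := h3
  refine ⟨(C2 + 2) * C3, ?_⟩
  intro v t s v' lam q f R L hf hR hL hlam
  obtain ⟨ι, hι, M, hb, hfM⟩ := hf
  obtain ⟨M', hb', hout, hrun⟩ := h2 ι M v v' q s R hb hR
  have h5 := h3 ι M' v' t lam q _ L hb' hlam hL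
  refine (h5.congr fun w => ?_).mono_s ?_
  · rw [hfM, hout, hrun]
  · obtain ⟨X, hX⟩ : ∃ X, X = s + q + 2 ^ lam + t + 2 := ⟨_, rfl⟩
    have hX3 : 3 ≤ X := by
      have : 1 ≤ 2 ^ lam := Nat.one_le_two_pow
      omega
    rw [← hX, pow_mul]
    apply Nat.pow_le_pow_left
    have e1 : (s + q + 2) ^ C2 ≤ X ^ C2 := Nat.pow_le_pow_left (by rw [hX]; have := Nat.one_le_two_pow (n := lam); omega) C2
    have e2 : X ^ C2 ≤ X ^ (C2 + 1) := Nat.pow_le_pow_right (by omega) (by omega)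
    have e3 : X ≤ X ^ (C2 + 1) := by
      calc X = X ^ 1 := (pow_one X).symm
        _ ≤ X ^ (C2 + 1) := Nat.pow_le_pow_right (by omega) (by omega)
    have e4 : X ^ (C2 + 2) = X ^ (C2 + 1) * X := pow_succ X (C2 + 1)
    have e5 : X ^ (C2 + 1) * 3 ≤ X ^ (C2 + 1) * X := Nat.mul_le_mul_left _ hX3
    rw [e4]
    omega

end Pool.Agent.Helper93.TS
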