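import Pool.Agent.Helper93.TS.StM

/-!
# Project TS: module LR (loading parameters, then running)
-/

namespace Pool.Agent.Helper93.TS

open Fm

/-- variables of the old machine in the new one -/
private def tau_LR {ι : Type} (t lam : ℕ) : V ι → Fm (V (ι ⊕ Fin (2 ^ lam)))
  | .mem i => var (.mem (Sum.inl i))
  | .clk j => if j < t then var (.clk j) else ff
  | .par j => if h : j < 2 ^ lam then var (.mem (Sum.inr ⟨j, h⟩)) else ff

/-- address bits while loading -/
private def sig_LR {κ : Type} (lam : ℕ) : ℕ ⊕ ℕ → Fm (V κ)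
  | Sum.inl b => if b < lam then var (.clk b) else ff
  | Sum.inr _ => ff

/-- extension to the bit read -/
private def ext_LR {α κ : Type} (f : α → Fm κ) : Option α → Fm (Option κ)
  | none => var none
  | some u => (f u).bind fun x => var (some x)

/-- the new machine -/
private def mac_LR {ι : Type} (M : Mac ι) (t lam : ℕ) (F : ℕ → Fm (ℕ ⊕ ℕ))
    (Q : Fm (Option (ℕ ⊕ ℕ))) : Mac (ι ⊕ Fin (2 ^ lam)) where
  nx := fun x => match x with
    | Sum.inl i => Fm.and (var (some (.clk t))) ((M.nx i).bind (ext_LR (tau_LR t lam)))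
    | Sum.inr j => Fm.ite (Fm.and (Fm.not (var (some (.clk t))))
        (eqc (fun b => var (some (.clk b))) lam j)) (Q.bind (ext_LR (sig_LR lam)))
        (var (some (.mem (Sum.inr j))))
  ad := fun j => Fm.ite (var (.clk t)) ((M.ad j).bind (tau_LR t lam)) ((F j).bind (sig_LR lam))
  out := Sum.inl M.out

private theorem tau_size_LR {ι : Type} (t lam : ℕ) (u : V ι) : (tau_LR t lam u).size ≤ 3 := by
  cases u with
  | mem i => simp [tau_LR]
  | clk j =>
    simp only [tau_LR]
    split_ifs <;> simp
  | par j =>
    simp only [tau_LR]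
    split_ifs <;> simp

private theorem sig_size_LR {κ : Type} (lam : ℕ) (u : ℕ ⊕ ℕ) :
    (sig_LR lam u : Fm (V κ)).size ≤ 3 := by
  cases u with
  | inl j =>
    simp only [sig_LR]
    split_ifs <;> simp
  | inr j => simp [sig_LR]

private theorem ext_size_LR {α κ : Type} (f : α → Fm κ) (hf : ∀ a, (f a).size ≤ 3)
    (u : Option α) : (ext_LR f u).size ≤ 3 := by
  cases u with
  | none => simp [ext_LR]
  | some u =>
    have h := size_bind_le (fun x : κ => var (some x)) (f u) 1 (by simp) le_rfl
    simp only [ext_LR]
    have := hf u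
    omega

private theorem ext_eval_LR {α κ : Type} (f : α → Fm κ) (e : κ → Bool) (r : Bool)
    (A : Fm (Option α)) :
    (A.bind (ext_LR f)).eval (oenv e r) = A.eval (oenv (fun a => (f a).eval e) r) := by
  rw [eval_bind]
  congr 1
  funext u
  cases u with
  | none => simp [ext_LR]
  | some u => simp [ext_LR]

private theorem tau_eval_LR {ι : Type} (t lam : ℕ) (m : ι ⊕ Fin (2 ^ lam) → Bool)
    (m' : ι → Bool) (c : ℕ → Bool) (n : ℕ) (hn : n < 2 ^ t) (h1 : ∀ i, m (Sum.inl i) = m' i)
    (h2 : ∀ j : Fin (2 ^ lam), m (Sum.inr j) = c j) (h3 : ∀ j, 2 ^ lam ≤ j → c j = false)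
    (u : V ι) : (tau_LR t lam u).eval (env m (2 ^ t + n) zero) = env m' n c u := by
  cases u with
  | mem i => simp [tau_LR, h1]
  | clk j =>
    simp only [tau_LR]
    split_ifs with h
    · simp only [eval_var, env_clk]
      rw [Nat.testBit_two_pow_add_gt h]
    · simp only [eval_ff, env_clk]
      symm
      apply Nat.testBit_lt_two_pow
      exact hn.trans_le (Nat.pow_le_pow_right (by norm_num) (Nat.not_lt.1 h))
  | par j =>
    simp only [tau_LR]
    split_ifs with h
    · simp only [eval_var, env_mem, env_par]
      exact h2 ⟨j, h⟩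
    · simp only [eval_ff, env_par]
      exact (h3 j (Nat.not_lt.1 h)).symm

private theorem size_LR {ι : Type} [Fintype ι] (M : Mac ι) (v t lam q s : ℕ)
    (F : ℕ → Fm (ℕ ⊕ ℕ)) (Q : Fm (Option (ℕ ⊕ ℕ))) (hM : M.Bd v s)
    (hF : ∀ j < v, (F j).size ≤ q) (hQ : Q.size ≤ q) :
    (mac_LR M t lam F Q).Bd v ((s + q + 2 ^ lam + t + 2) ^ 5) := by
  have hB : 3 * s + 3 * q + 12 * lam + 30 ≤ (s + q + 2 ^ lam + t + 2) ^ 5 := by
    have h1 : lam < 2 ^ lam := Nat.lt_two_pow_self
    generalize hX : s + q + 2 ^ lam + t + 2 = X
    have hX3 : 3 ≤ X := by omega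
    have h2 : 3 * s + 3 * q + 12 * lam + 30 ≤ 30 * X := by omega
    have h3 : 81 ≤ X ^ 4 := by
      calc 81 = 3 ^ 4 := by norm_num
        _ ≤ X ^ 4 := Nat.pow_le_pow_left hX3 4
    calc 3 * s + 3 * q + 12 * lam + 30 ≤ 30 * X := h2
      _ ≤ X ^ 4 * X := Nat.mul_le_mul_right X (by omega)
      _ = X ^ 5 := by ring
  refine ⟨?_, ?_, ?_⟩
  · rw [Fintype.card_sum, Fintype.card_fin]
    have h1 := hM.card_le
    calc Fintype.card ι + 2 ^ lam ≤ s + q + 2 ^ lam + t + 2 := by omega
      _ = (s + q + 2 ^ lam + t + 2) ^ 1 := (pow_one _).symm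
      _ ≤ _ := Nat.pow_le_pow_right (Nat.succ_pos _) (by norm_num)
  · rintro (i | j)
    · refine le_trans ?_ hB
      have h1 := size_bind_le (ext_LR (tau_LR (ι := ι) t lam)) (M.nx i) 3
        (ext_size_LR _ (tau_size_LR t lam)) (by norm_num)
      have h2 := hM.nx_le i
      show (Fm.and (var (some (.clk t))) ((M.nx i).bind (ext_LR (tau_LR t lam)))).size ≤ _
      rw [size_and, size_var]
      omega
    · refine le_trans ?_ hB
      have h1 := size_bind_le (ext_LR (sig_LR (κ := ι ⊕ Fin (2 ^ lam)) lam)) Q 3
        (ext_size_LR _ (sig_size_LR lam)) (by norm_num)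
      have h2 := size_eqc_le (fun b => (var (some (.clk b)) :
        Fm (Option (V (ι ⊕ Fin (2 ^ lam)))))) lam j 1 (by simp)
      show (Fm.ite (Fm.and (Fm.not (var (some (.clk t))))
        (eqc (fun b => var (some (.clk b))) lam j)) (Q.bind (ext_LR (sig_LR lam)))
        (var (some (.mem (Sum.inr j))))).size ≤ _
      rw [size_ite, size_and, size_not, size_var, size_var]
      omega
  · intro j hj
    refine le_trans ?_ hB
    have h1 := size_bind_le (tau_LR (ι := ι) t lam) (M.ad j) 3 (tau_size_LR t lam) (by norm_num)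
    have h2 := size_bind_le (sig_LR (κ := ι ⊕ Fin (2 ^ lam)) lam) (F j) 3 (sig_size_LR lam)
      (by norm_num)
    have h3 := hM.ad_le j hj
    have h4 := hF j hj
    show (Fm.ite (var (.clk t)) ((M.ad j).bind (tau_LR t lam))
      ((F j).bind (sig_LR lam))).size ≤ _
    rw [size_ite, size_var]
    omega

/-- LR. -/
theorem hLR : StLR := by
  refine ⟨5, ?_⟩
  intro ι _ M v t lam q s L hM hlt hL
  obtain ⟨F, Q, hF, hQ, hFQ⟩ := hL
  refine ⟨ι ⊕ Fin (2 ^ lam), inferInstance, mac_LR M t lam F Q, size_LR M v t lam q s F Q hM hF hQ,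
    ?_⟩
  intro w
  obtain ⟨c, hc⟩ : ∃ c : ℕ → Bool, c = fun j => decide (j < 2 ^ lam) && L w (bin j) := ⟨_, rfl⟩
  have hc1 : ∀ j, j < 2 ^ lam → c j = L w (bin j) := fun j hj => by simp [hc, hj]
  have hc2 : ∀ j, 2 ^ lam ≤ j → c j = false := fun j hj => by
    simp [hc, Nat.not_lt.2 hj]
  show M.run v w (fun j => decide (j < 2 ^ lam) && L w (bin j)) 0 zero (2 ^ t) M.out = true ↔ _
  rw [← hc]
  -- loading
  have hload : ∀ n, n ≤ 2 ^ t → (∀ i, (mac_LR M t lam F Q).run v w zero 0 zero n (Sum.inl i) =
      false) ∧ ∀ j : Fin (2 ^ lam), (j : ℕ) < n →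
      (mac_LR M t lam F Q).run v w zero 0 zero n (Sum.inr j) = c j := by
    intro n
    induction n with
    | zero =>
      intro _
      refine ⟨fun i => rfl, fun j hj => absurd hj (by omega)⟩
    | succ n ih =>
      intro hn
      obtain ⟨ih1, ih2⟩ := ih (by omega)
      have htb : n.testBit t = false := Nat.testBit_lt_two_pow (by omega)
      rw [Mac.run_succ, Nat.zero_add]
      generalize (mac_LR M t lam F Q).run v w zero 0 zero n = m at ih1 ih2 ⊢
      constructor
      · intro i
        show (Fm.and (var (some (.clk t))) ((M.nx i).bind (ext_LR (tau_LR t lam)))).eval _ = false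
        rw [eval_and, eval_var, oenv_some, env_clk, htb, Bool.false_and]
      · intro j hj
        show (Fm.ite (Fm.and (Fm.not (var (some (.clk t))))
          (eqc (fun b => var (some (.clk b))) lam j)) (Q.bind (ext_LR (sig_LR lam)))
          (var (some (.mem (Sum.inr j))))).eval _ = _
        rw [eval_ite, eval_and, eval_not, eval_var, oenv_some, env_clk, htb, Bool.not_false,
          Bool.true_and]
        rcases hq : (eqc (fun b => (var (some (.clk b)) :
          Fm (Option (V (ι ⊕ Fin (2 ^ lam)))))) lam j).eval (oenv (env m n zero)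
            (w ((mac_LR M t lam F Q).addr v zero n m))) with _ | _
        · rw [cond_false, eval_var, oenv_some, env_mem]
          apply ih2
          by_contra hjn
          have hjn' : (j : ℕ) = n := by omega
          have : (eqc (fun b => (var (some (.clk b)) :
            Fm (Option (V (ι ⊕ Fin (2 ^ lam)))))) lam j).eval (oenv (env m n zero)
            (w ((mac_LR M t lam F Q).addr v zero n m))) = true := by
            rw [eval_eqc]
            intro b _
            rw [eval_var, oenv_some, env_clk, hjn']
          rw [hq] at this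
          exact absurd this (by simp)
        · rw [cond_true, ext_eval_LR, hc1 j j.isLt]
          rw [eval_eqc] at hq
          have ha : ∀ b, b < lam → n.testBit b = (j : ℕ).testBit b := by
            intro b hb
            have := hq b hb
            rwa [eval_var, oenv_some, env_clk] at this
          have hsig : (fun a => (sig_LR (κ := ι ⊕ Fin (2 ^ lam)) lam a).eval (env m n zero)) =
              Sum.elim (bin j) zero := by
            funext a
            cases a with
            | inl b =>
              simp only [sig_LR, Sum.elim_inl, bin_apply]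
              split_ifs with hb
              · rw [eval_var, env_clk, ha b hb]
              · rw [eval_ff]
                symm
                apply Nat.testBit_lt_two_pow
                exact j.isLt.trans_le (Nat.pow_le_pow_right (by norm_num) (Nat.not_lt.1 hb))
            | inr b => simp [sig_LR]
          rw [hsig]
          have hadr : (mac_LR M t lam F Q).addr v zero n m =
              fun b => decide (b < v) && (F b).eval (Sum.elim (bin j) zero) := by
            funext b
            show (decide (b < v) && (Fm.ite (var (.clk t)) ((M.ad b).bind (tau_LR t lam))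
              ((F b).bind (sig_LR lam))).eval (env m n zero)) = _
            rw [eval_ite, eval_var, env_clk, htb, cond_false, eval_bind, hsig]
          rw [hadr]
          exact (hFQ w zero (bin j) (supp_bin j.isLt)).symm
  -- running
  have hrun : ∀ n, n ≤ 2 ^ t → (∀ i, (mac_LR M t lam F Q).run v w zero 0 zero (2 ^ t + n)
      (Sum.inl i) = M.run v w c 0 zero n i) ∧ ∀ j : Fin (2 ^ lam),
      (mac_LR M t lam F Q).run v w zero 0 zero (2 ^ t + n) (Sum.inr j) = c j := by
    intro n
    induction n with
    | zero =>
      intro _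
      obtain ⟨h1, h2⟩ := hload (2 ^ t) le_rfl
      refine ⟨fun i => ?_, fun j => ?_⟩
      · rw [Nat.add_zero, h1]
        rfl
      · rw [Nat.add_zero]
        exact h2 j (j.isLt.trans_le (Nat.pow_le_pow_right (by norm_num) hlt))
    | succ n ih =>
      intro hn
      obtain ⟨ih1, ih2⟩ := ih (by omega)
      have htb : (2 ^ t + n).testBit t = true := by
        rw [Nat.testBit_two_pow_add_eq, Nat.testBit_lt_two_pow (by omega), Bool.not_false]
      rw [← Nat.add_assoc, Mac.run_succ, Mac.run_succ, Nat.zero_add, Nat.zero_add]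
      generalize (mac_LR M t lam F Q).run v w zero 0 zero (2 ^ t + n) = m at ih1 ih2 ⊢
      generalize M.run v w c 0 zero n = m' at ih1 ⊢
      have htau : (fun u : V ι => (tau_LR t lam u).eval (env m (2 ^ t + n) zero)) =
          env m' n c := by
        funext u
        exact tau_eval_LR t lam m m' c n (by omega) ih1 ih2 hc2 u
      have hadr : (mac_LR M t lam F Q).addr v zero (2 ^ t + n) m = M.addr v c n m' := by
        funext b
        show (decide (b < v) && (Fm.ite (var (.clk t)) ((M.ad b).bind (tau_LR t lam))
          ((F b).bind (sig_LR lam))).eval (env m (2 ^ t + n) zero)) =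
          (decide (b < v) && (M.ad b).eval (env m' n c))
        rw [eval_ite, eval_var, env_clk, htb, cond_true, eval_bind, htau]
      constructor
      · intro i
        show (Fm.and (var (some (.clk t))) ((M.nx i).bind (ext_LR (tau_LR t lam)))).eval
          (oenv (env m (2 ^ t + n) zero) (w ((mac_LR M t lam F Q).addr v zero (2 ^ t + n) m))) =
          (M.nx i).eval (oenv (env m' n c) (w (M.addr v c n m')))
        rw [eval_and, eval_var, oenv_some, env_clk, htb, Bool.true_and, ext_eval_LR, htau, hadr]
      · intro j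
        show (Fm.ite (Fm.and (Fm.not (var (some (.clk t))))
          (eqc (fun b => var (some (.clk b))) lam j)) (Q.bind (ext_LR (sig_LR lam)))
          (var (some (.mem (Sum.inr j))))).eval _ = _
        rw [eval_ite, eval_and, eval_not, eval_var, oenv_some, env_clk, htb, Bool.not_true,
          Bool.false_and, cond_false, eval_var, oenv_some, env_mem]
        exact ih2 j
  have hfin := (hrun (2 ^ t) le_rfl).1 M.out
  have e : 2 ^ (t + 1) = 2 ^ t + 2 ^ t := by ring
  rw [e]
  show M.run v w c 0 zero (2 ^ t) M.out = true ↔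
    (mac_LR M t lam F Q).run v w zero 0 zero (2 ^ t + 2 ^ t) (Sum.inl M.out) = true
  rw [hfin]

end Pool.Agent.Helper93.TS
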