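import Pool.Agent.Helper93.TS.StM

/-!
# Project TS, module LOOP: exhaustive search over 2^U numbers
-/

namespace Pool.Agent.Helper93.TS

open Fm

section Loop

variable {ι : Type}

private def first_Loop (κ : Type) (t : ℕ) : Fm (V κ) :=
  conjL ((List.range (t + 1)).map fun i => (var (V.clk i)).not)

private def last_Loop (κ : Type) (t : ℕ) : Fm (V κ) :=
  conjL ((List.range (t + 1)).map fun i => var (V.clk i))

private def sg_Loop (ι : Type) (t : ℕ) : V ι → Fm (V (Option ι))
  | .mem i => Fm.and (var (.mem (some i))) (first_Loop _ t).not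
  | .clk j => if j < t then var (.clk j) else ff
  | .par _ => ff

private def A_Loop (M : Mac ι) (v t j : ℕ) : Fm (V (Option ι)) :=
  if j < v then (M.ad j).bind (sg_Loop ι t) else ff

private def lift_Loop {κ : Type} (φ : Fm κ) : Fm (Option κ) := φ.bind fun u => var (some u)

private def E_Loop (M : Mac ι) (v t j : ℕ) : Fm (V (Option ι)) :=
  if j < 2 ^ (v - 1) then eqc (fun i => A_Loop M v t (i + 1)) (v - 1) j else ff

private def rd_Loop (M : Mac ι) (v t U : ℕ) : Fm (Option (V (Option ι))) :=
  Fm.ite (lift_Loop (A_Loop M v t 0))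
    (disjL ((List.range U).map fun j =>
      Fm.and (lift_Loop (E_Loop M v t j)) (var (some (.clk (t + 1 + j))))))
    (var none)

private def sg2_Loop (M : Mac ι) (v t U : ℕ) : Option (V ι) → Fm (Option (V (Option ι)))
  | none => rd_Loop M v t U
  | some u => lift_Loop (sg_Loop ι t u)

private def mac_Loop (M : Mac ι) (v t U : ℕ) : Mac (Option ι) where
  nx := fun x => match x with
    | none => Fm.or (var (some (.mem none)))
        (Fm.and (lift_Loop (last_Loop _ t)) (var (some (.mem (some M.out)))))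
    | some i => Fm.ite (var (some (.clk t))) (var (some (.mem (some i))))
        ((M.nx i).bind (sg2_Loop M v t U))
  ad := fun i => A_Loop M v t (i + 1)
  out := none

private theorem eval_lift_Loop {κ : Type} (φ : Fm κ) (e : κ → Bool) (r : Bool) :
    (lift_Loop φ).eval (oenv e r) = φ.eval e := by
  simp [lift_Loop]

private theorem bit_lo_Loop (t n u j : ℕ) (hu : u < 2 ^ (t + 1)) (hj : j < t + 1) :
    (2 ^ (t + 1) * n + u).testBit j = u.testBit j := by
  rw [Nat.testBit_two_pow_mul_add n hu, if_pos hj]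

private theorem bit_hi_Loop (t n u j : ℕ) (hu : u < 2 ^ (t + 1)) :
    (2 ^ (t + 1) * n + u).testBit (t + 1 + j) = n.testBit j := by
  rw [Nat.testBit_two_pow_mul_add n hu, if_neg (by omega)]
  congr 1
  omega

private theorem eval_first_Loop {κ : Type} (t n u : ℕ) (hu : u < 2 ^ (t + 1)) (m : κ → Bool)
    (c : ℕ → Bool) :
    (first_Loop κ t).eval (env m (2 ^ (t + 1) * n + u) c) = decide (u = 0) := by
  rw [Bool.eq_iff_iff, first_Loop, eval_conjL, decide_eq_true_iff]
  simp only [List.mem_map, List.mem_range, forall_exists_index, and_imp,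
    forall_apply_eq_imp_iff₂, eval_not, eval_var, env_clk, Bool.not_eq_true']
  constructor
  · intro h
    apply Nat.eq_of_testBit_eq
    intro i
    rw [Nat.zero_testBit]
    by_cases hi : i < t + 1
    · rw [← bit_lo_Loop t n u i hu hi]
      exact h i hi
    · exact Nat.testBit_lt_two_pow (hu.trans_le (Nat.pow_le_pow_right (by norm_num) (by omega)))
  · intro h i hi
    rw [bit_lo_Loop t n u i hu hi, h, Nat.zero_testBit]

private theorem eval_last_Loop {κ : Type} (t n u : ℕ) (hu : u < 2 ^ (t + 1)) (m : κ → Bool)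
    (c : ℕ → Bool) :
    (last_Loop κ t).eval (env m (2 ^ (t + 1) * n + u) c) = decide (u + 1 = 2 ^ (t + 1)) := by
  rw [Bool.eq_iff_iff, last_Loop, eval_conjL, decide_eq_true_iff]
  simp only [List.mem_map, List.mem_range, forall_exists_index, and_imp,
    forall_apply_eq_imp_iff₂, eval_var, env_clk]
  have hpos : 0 < 2 ^ (t + 1) := by positivity
  constructor
  · intro h
    have : u = 2 ^ (t + 1) - 1 := by
      apply Nat.eq_of_testBit_eq
      intro i
      rw [Nat.testBit_two_pow_sub_one]
      by_cases hi : i < t + 1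
      · rw [← bit_lo_Loop t n u i hu hi, h i hi]
        simp [hi]
      · rw [Nat.testBit_lt_two_pow
          (hu.trans_le (Nat.pow_le_pow_right (by norm_num) (by omega)))]
        simp [hi]
    omega
  · intro h i hi
    rw [bit_lo_Loop t n u i hu hi]
    have : u = 2 ^ (t + 1) - 1 := by omega
    rw [this, Nat.testBit_two_pow_sub_one]
    simp [hi]

private theorem bit_t_Loop (t u : ℕ) (hu : u < 2 ^ (t + 1)) :
    u.testBit t = decide (2 ^ t ≤ u) := by
  by_cases h : u < 2 ^ t
  · rw [Nat.testBit_lt_two_pow h]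
    simp [Nat.not_le.2 h]
  · have h1 : 2 ^ t ≤ u := Nat.not_lt.1 h
    have h2 : u = 2 ^ t + (u - 2 ^ t) := by omega
    have h3 : u - 2 ^ t < 2 ^ t := by
      have : 2 ^ (t + 1) = 2 ^ t + 2 ^ t := by ring
      omega
    have h4 : u = 2 ^ t * 1 + (u - 2 ^ t) := by omega
    rw [h4, Nat.testBit_two_pow_mul_add 1 h3, if_neg (by omega), Nat.sub_self]
    simp

private def mm_Loop (u : ℕ) (m' : Option ι → Bool) : ι → Bool :=
  fun i => !decide (u = 0) && m' (some i)

private theorem eval_sg_Loop (t n u : ℕ) (hu : u < 2 ^ t) (m' : Option ι → Bool) :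
    (fun x => (sg_Loop ι t x).eval (env m' (2 ^ (t + 1) * n + u) zero)) =
      env (mm_Loop u m') u zero := by
  have hu' : u < 2 ^ (t + 1) := hu.trans_le (Nat.pow_le_pow_right (by norm_num) (by omega))
  funext x
  cases x with
  | mem i =>
    simp only [sg_Loop, eval_and, eval_var, env_mem, eval_not, mm_Loop]
    rw [eval_first_Loop t n u hu' m' zero, Bool.and_comm]
  | clk j =>
    simp only [sg_Loop, env_clk]
    split_ifs with h
    · rw [eval_var, env_clk, bit_lo_Loop t n u j hu' (by omega)]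
    · rw [eval_ff]
      exact (Nat.testBit_lt_two_pow
        (hu.trans_le (Nat.pow_le_pow_right (by norm_num) (by omega)))).symm
  | par j => simp [sg_Loop]

private theorem eval_A_Loop (M : Mac ι) (v t n u j : ℕ) (hu : u < 2 ^ t)
    (m' : Option ι → Bool) :
    (A_Loop M v t j).eval (env m' (2 ^ (t + 1) * n + u) zero) =
      M.addr v zero u (mm_Loop u m') j := by
  simp only [A_Loop, Mac.addr]
  split_ifs with h
  · rw [eval_bind, eval_sg_Loop t n u hu m']
    simp [h]
  · simp [h]

private theorem tail_iff_Loop (v j : ℕ) (a : Addr) (ha : Supp v a) :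
    atail a = bin j ↔ j < 2 ^ (v - 1) ∧ ∀ i < v - 1, a (i + 1) = j.testBit i := by
  constructor
  · intro h
    refine ⟨?_, fun i _ => congrFun h i⟩
    apply Nat.lt_pow_two_of_testBit
    intro i hi
    have h1 : atail a i = j.testBit i := congrFun h i
    rw [← h1]
    exact ha (i + 1) (by omega)
  · rintro ⟨h1, h2⟩
    funext i
    by_cases hi : i < v - 1
    · exact h2 i hi
    · have h3 : atail a i = false := ha (i + 1) (by omega)
      rw [h3, bin_apply]
      exact (Nat.testBit_lt_two_pow
        (h1.trans_le (Nat.pow_le_pow_right (by norm_num) (by omega)))).symm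

private theorem supp_addr_Loop (M : Mac ι) (v : ℕ) (c : ℕ → Bool) (u : ℕ) (m : ι → Bool) :
    Supp v (M.addr v c u m) := by
  intro i hi
  simp [Mac.addr, Nat.not_lt.2 hi]

private theorem eval_E_Loop (M : Mac ι) (v t n u j : ℕ) (hu : u < 2 ^ t)
    (m' : Option ι → Bool) :
    ((E_Loop M v t j).eval (env m' (2 ^ (t + 1) * n + u) zero) = true) ↔
      atail (M.addr v zero u (mm_Loop u m')) = bin j := by
  rw [tail_iff_Loop v j _ (supp_addr_Loop M v zero u _), E_Loop]
  split_ifs with h
  · rw [eval_eqc]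
    simp only [eval_A_Loop M v t n u _ hu m', h, true_and]
  · simp [h]

private theorem eval_rd_Loop (M : Mac ι) (v t U n u : ℕ) (hu : u < 2 ^ t) (hn : n < 2 ^ U)
    (m' : Option ι → Bool) (w : Word) :
    (rd_Loop M v t U).eval (oenv (env m' (2 ^ (t + 1) * n + u) zero)
      (w (atail (M.addr v zero u (mm_Loop u m'))))) =
      pair w (iw n) (M.addr v zero u (mm_Loop u m')) := by
  have hu' : u < 2 ^ (t + 1) := hu.trans_le (Nat.pow_le_pow_right (by norm_num) (by omega))
  rw [rd_Loop, eval_ite, eval_lift_Loop, eval_A_Loop M v t n u 0 hu m', eval_var, oenv_none,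
    pair]
  by_cases h0 : M.addr v zero u (mm_Loop u m') 0 = true
  · rw [if_pos h0, h0, cond_true, Bool.eq_iff_iff, eval_disjL]
    simp only [iw, decide_eq_true_eq, List.mem_map, List.mem_range, exists_exists_and_eq_and, eval_and,
      Bool.and_eq_true, eval_lift_Loop, eval_var, oenv_some, env_clk,
      bit_hi_Loop t n u _ hu', eval_E_Loop M v t n u _ hu m']
    constructor
    · rintro ⟨j, hj, h1, h2⟩
      exact ⟨j, h1, h2⟩
    · rintro ⟨j, h1, h2⟩
      refine ⟨j, ?_, h1, h2⟩
      by_contra hj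
      have := Nat.testBit_lt_two_pow (x := n) (i := j)
        (hn.trans_le (Nat.pow_le_pow_right (by norm_num) (by omega)))
      rw [this] at h2
      exact absurd h2 (by simp)
  · have h0' : M.addr v zero u (mm_Loop u m') 0 = false := by simpa using h0
    rw [if_neg h0, h0', cond_false]

private theorem addr_mac_Loop (M : Mac ι) (v t U n u : ℕ) (hu : u < 2 ^ t)
    (m' : Option ι → Bool) :
    (mac_Loop M v t U).addr v zero (2 ^ (t + 1) * n + u) m' =
      atail (M.addr v zero u (mm_Loop u m')) := by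
  funext i
  have h1 : (mac_Loop M v t U).addr v zero (2 ^ (t + 1) * n + u) m' i =
      (decide (i < v) && (A_Loop M v t (i + 1)).eval (env m' (2 ^ (t + 1) * n + u) zero)) := rfl
  rw [h1, eval_A_Loop M v t n u _ hu m']
  have h2 : atail (M.addr v zero u (mm_Loop u m')) i =
      M.addr v zero u (mm_Loop u m') (i + 1) := rfl
  rw [h2]
  by_cases hi : i < v
  · simp [hi]
  · have := supp_addr_Loop M v zero u (mm_Loop u m') (i + 1) (by omega)
    rw [this]; simp

private theorem step_some_Loop (M : Mac ι) (v t U n u : ℕ) (hn : n < 2 ^ U)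
    (hu : u < 2 ^ (t + 1)) (w : Word) (m' : Option ι → Bool) (i : ι) :
    (mac_Loop M v t U).step v w zero (2 ^ (t + 1) * n + u) m' (some i) =
      if u < 2 ^ t then M.step v (pair w (iw n)) zero u (mm_Loop u m') i else m' (some i) := by
  have h1 : (mac_Loop M v t U).step v w zero (2 ^ (t + 1) * n + u) m' (some i) =
      (Fm.ite (var (some (.clk t))) (var (some (.mem (some i))))
        ((M.nx i).bind (sg2_Loop M v t U))).eval (oenv (env m' (2 ^ (t + 1) * n + u) zero)
          (w ((mac_Loop M v t U).addr v zero (2 ^ (t + 1) * n + u) m'))) := rfl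
  rw [h1, eval_ite, eval_var, eval_var, oenv_some, oenv_some, env_clk, env_mem,
    bit_lo_Loop t n u t hu (by omega), bit_t_Loop t u hu]
  by_cases h : u < 2 ^ t
  · rw [if_pos h, decide_eq_false (Nat.not_le.2 h), cond_false, eval_bind, Mac.step,
      addr_mac_Loop M v t U n u h m']
    congr 1
    funext x
    cases x with
    | none => exact eval_rd_Loop M v t U n u h hn m' w
    | some y =>
      have h2 : (sg2_Loop M v t U (some y)) = lift_Loop (sg_Loop ι t y) := rfl
      rw [h2, eval_lift_Loop, oenv_some]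
      exact congrFun (eval_sg_Loop t n u h m') y
  · rw [if_neg h, decide_eq_true (Nat.not_lt.1 h), cond_true]

private theorem step_none_Loop (M : Mac ι) (v t U n u : ℕ)
    (hu : u < 2 ^ (t + 1)) (w : Word) (m' : Option ι → Bool) :
    (mac_Loop M v t U).step v w zero (2 ^ (t + 1) * n + u) m' none =
      (m' none || (decide (u + 1 = 2 ^ (t + 1)) && m' (some M.out))) := by
  have h1 : (mac_Loop M v t U).step v w zero (2 ^ (t + 1) * n + u) m' none =
      (Fm.or (var (some (.mem none)))
        (Fm.and (lift_Loop (last_Loop _ t)) (var (some (.mem (some M.out)))))).eval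
          (oenv (env m' (2 ^ (t + 1) * n + u) zero)
          (w ((mac_Loop M v t U).addr v zero (2 ^ (t + 1) * n + u) m'))) := rfl
  rw [h1, eval_or, eval_and, eval_lift_Loop, eval_last_Loop t n u hu m' zero, eval_var,
    eval_var, oenv_some, oenv_some, env_mem, env_mem]

private theorem block_Loop (M : Mac ι) (v t U n : ℕ) (hn : n < 2 ^ U) (w : Word)
    (m0 : Option ι → Bool) (u : ℕ) (hu : u ≤ 2 ^ (t + 1)) :
    (1 ≤ u → ∀ i, (mac_Loop M v t U).run v w zero (2 ^ (t + 1) * n) m0 u (some i) =
      M.run v (pair w (iw n)) zero 0 zero (min u (2 ^ t)) i) ∧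
    (mac_Loop M v t U).run v w zero (2 ^ (t + 1) * n) m0 u none =
      (m0 none || (decide (u = 2 ^ (t + 1)) &&
        M.run v (pair w (iw n)) zero 0 zero (2 ^ t) M.out)) := by
  have hpt : 1 ≤ 2 ^ t := Nat.one_le_two_pow
  have hpt2 : 2 ^ (t + 1) = 2 ^ t + 2 ^ t := by ring
  induction u with
  | zero =>
    refine ⟨fun h => absurd h (by omega), ?_⟩
    rw [Mac.run_zero]
    have : ¬ (0 = 2 ^ (t + 1)) := by omega
    simp [this]
  | succ u ih =>
    obtain ⟨ih1, ih2⟩ := ih (by omega)
    have hu' : u < 2 ^ (t + 1) := by omega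
    constructor
    · intro _ i
      rw [Mac.run_succ, step_some_Loop M v t U n u hn hu' w _ i]
      by_cases h : u < 2 ^ t
      · rw [if_pos h, min_eq_left (by omega), Mac.run_succ, Nat.zero_add]
        congr 1
        funext k
        by_cases h0 : u = 0
        · subst h0
          simp [mm_Loop, Mac.run]
        · have h3 := ih1 (by omega) k
          rw [min_eq_left h.le] at h3
          simp only [mm_Loop, h0, decide_false, Bool.not_false, Bool.true_and]
          exact h3
      · rw [if_neg h, min_eq_right (by omega)]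
        have h3 := ih1 (by omega) i
        rwa [min_eq_right (by omega)] at h3
    · rw [Mac.run_succ, step_none_Loop M v t U n u hu' w _, ih2]
      have hne : ¬ (u = 2 ^ (t + 1)) := by omega
      rw [decide_eq_false hne, Bool.false_and, Bool.or_false]
      by_cases h : u + 1 = 2 ^ (t + 1)
      · have h3 := ih1 (by omega) M.out
        rw [min_eq_right (by omega)] at h3
        rw [h3]
      · rw [decide_eq_false h, Bool.false_and, Bool.false_and]

private theorem total_Loop (M : Mac ι) (v t U : ℕ) (w : Word) (n : ℕ) (hn : n ≤ 2 ^ U) :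
    ((mac_Loop M v t U).run v w zero 0 zero (2 ^ (t + 1) * n) none = true) ↔
      ∃ k < n, M.run v (pair w (iw k)) zero 0 zero (2 ^ t) M.out = true := by
  induction n with
  | zero => simp
  | succ n ih =>
    rw [Nat.mul_succ, Mac.run_add, Nat.zero_add,
      (block_Loop M v t U n (by omega) w _ _ le_rfl).2]
    simp only [decide_true, Bool.true_and, Bool.or_eq_true]
    rw [ih (by omega)]
    constructor
    · rintro (⟨k, hk, h⟩ | h)
      · exact ⟨k, by omega, h⟩
      · exact ⟨n, by omega, h⟩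
    · rintro ⟨k, hk, h⟩
      by_cases hkn : k = n
      · subst hkn; exact Or.inr h
      · exact Or.inl ⟨k, by omega, h⟩

/-! sizes -/

private theorem size_first_Loop (κ : Type) (t : ℕ) : (first_Loop κ t).size ≤ (t + 1) * 6 + 1 := by
  have := size_conjL_le ((List.range (t + 1)).map fun i => (var (V.clk i : V κ)).not) 3 (by
    intro a ha
    simp only [List.mem_map, List.mem_range] at ha
    obtain ⟨i, _, rfl⟩ := ha
    simp)
  simpa [first_Loop] using this

private theorem size_last_Loop (κ : Type) (t : ℕ) : (last_Loop κ t).size ≤ (t + 1) * 4 + 1 := by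
  have := size_conjL_le ((List.range (t + 1)).map fun i => (var (V.clk i : V κ))) 1 (by
    intro a ha
    simp only [List.mem_map, List.mem_range] at ha
    obtain ⟨i, _, rfl⟩ := ha
    simp)
  simpa [last_Loop] using this

private theorem size_lift_Loop {κ : Type} (φ : Fm κ) : (lift_Loop φ).size ≤ φ.size := by
  have := size_bind_le (fun u : κ => var (some u)) φ 1 (fun i => by simp) le_rfl
  simpa [lift_Loop] using this

private theorem size_sg_Loop (t : ℕ) (x : V ι) : (sg_Loop ι t x).size ≤ 6 * t + 13 := by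
  cases x with
  | mem i =>
    have := size_first_Loop (Option ι) t
    simp only [sg_Loop, size_and, size_var, size_not]
    omega
  | clk j =>
    simp only [sg_Loop]
    split_ifs <;> simp
  | par j => simp only [sg_Loop, size_ff]; omega

private theorem size_A_Loop (M : Mac ι) (v t j s : ℕ) (hs : 1 ≤ s)
    (h : ∀ j < v, (M.ad j).size ≤ s) : (A_Loop M v t j).size ≤ s * (6 * t + 13) := by
  simp only [A_Loop]
  split_ifs with hj
  · have h1 := size_bind_le (sg_Loop ι t) (M.ad j) (6 * t + 13) (size_sg_Loop t) (by omega)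
    exact h1.trans (Nat.mul_le_mul_right _ (h j hj))
  · rw [size_ff]
    nlinarith

private theorem size_E_Loop (M : Mac ι) (v t j s : ℕ) (hs : 1 ≤ s)
    (h : ∀ j < v, (M.ad j).size ≤ s) :
    (E_Loop M v t j).size ≤ v * (s * (6 * t + 13) + 5) + 3 := by
  simp only [E_Loop]
  split_ifs with hj
  · have h1 := size_eqc_le (fun i => A_Loop M v t (i + 1)) (v - 1) j (s * (6 * t + 13))
      (fun i _ => size_A_Loop M v t (i + 1) s hs h)
    have h2 : (v - 1) * (s * (6 * t + 13) + 5) ≤ v * (s * (6 * t + 13) + 5) :=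
      Nat.mul_le_mul_right _ (by omega)
    omega
  · rw [size_ff]
    omega

private theorem size_rd_Loop (M : Mac ι) (v t U s : ℕ) (hs : 1 ≤ s)
    (h : ∀ j < v, (M.ad j).size ≤ s) :
    (rd_Loop M v t U).size ≤ 2 * (s * (6 * t + 13)) +
      (U * (v * (s * (6 * t + 13) + 5) + 12) + 3) + 6 := by
  have h1 := size_disjL_le ((List.range U).map fun j =>
      Fm.and (lift_Loop (E_Loop M v t j)) (var (some (V.clk (t + 1 + j)))))
    (v * (s * (6 * t + 13) + 5) + 7) (by
      intro a ha
      simp only [List.mem_map, List.mem_range] at ha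
      obtain ⟨j, _, rfl⟩ := ha
      have h2 := size_lift_Loop (E_Loop M v t j)
      have h3 := size_E_Loop M v t j s hs h
      simp only [size_and, size_var]
      omega)
  have h4 := (size_lift_Loop (A_Loop M v t 0)).trans (size_A_Loop M v t 0 s hs h)
  simp only [List.length_map, List.length_range] at h1
  simp only [rd_Loop, size_ite, size_var]
  have h5 : v * (s * (6 * t + 13) + 5) + 7 + 5 = v * (s * (6 * t + 13) + 5) + 12 := by omega
  rw [h5] at h1
  omega

private theorem om1_Loop (A B p4 p8 r : ℕ) (h1 : A ≤ p4) (h2 : B ≤ p8) (h3 : p4 ≤ p8)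
    (h4 : 27 ≤ p8) (hr : r ≤ 2 * A + (B + 3) + 6) : r ≤ 4 * p8 := by omega

private theorem dbl_Loop (X a b : ℕ) (hX : 3 ≤ X) (hab : a + 1 ≤ b) : 2 * X ^ a ≤ X ^ b := by
  calc 2 * X ^ a ≤ X * X ^ a := Nat.mul_le_mul_right _ (by omega)
    _ = X ^ (a + 1) := (pow_succ' X a).symm
    _ ≤ X ^ b := Nat.pow_le_pow_right (by omega) hab

private theorem big_Loop (X a : ℕ) (hX : 3 ≤ X) (ha : 3 ≤ a) : 27 ≤ X ^ a := by
  calc 27 = 3 ^ 3 := by norm_num
    _ ≤ X ^ 3 := Nat.pow_le_pow_left hX 3
    _ ≤ X ^ a := Nat.pow_le_pow_right (by omega) ha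

private theorem num1_Loop (X t : ℕ) (hX : 3 ≤ X) (ht : t + 3 ≤ X) : 6 * t + 13 ≤ X ^ 3 := by
  have h9 : 9 ≤ X * X := Nat.mul_le_mul hX hX
  have h : X ^ 3 = X * X * X := by ring
  rw [h]
  calc 6 * t + 13 ≤ 9 * X := by omega
    _ ≤ X * X * X := Nat.mul_le_mul_right _ h9

private theorem num2_Loop (X t s : ℕ) (hX : 3 ≤ X) (ht : t + 3 ≤ X) (hs : s ≤ X) :
    s * (6 * t + 13) ≤ X ^ 4 :=
  (Nat.mul_le_mul hs (num1_Loop X t hX ht)).trans (pow_succ' X 3).symm.le

private theorem num3_Loop (X v A c a : ℕ) (hX : 3 ≤ X) (ha : 3 ≤ a) (hv : v ≤ X)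
    (hA : A ≤ X ^ a) (hc : c ≤ 27) : v * (A + c) ≤ X ^ (a + 2) := by
  calc v * (A + c) ≤ X * (X ^ a + X ^ a) :=
        Nat.mul_le_mul hv (Nat.add_le_add hA (hc.trans (big_Loop X a hX ha)))
    _ = X * (2 * X ^ a) := by rw [two_mul]
    _ ≤ X * X ^ (a + 1) := Nat.mul_le_mul_left _ (dbl_Loop X a (a + 1) hX le_rfl)
    _ = X ^ (a + 2) := (pow_succ' X (a + 1)).symm

private theorem num4_Loop (X s v t U r : ℕ) (hX : 3 ≤ X) (ht : t + 3 ≤ X) (hs : s ≤ X)
    (hv : v ≤ X) (hU : U ≤ X)
    (hr : r ≤ 2 * (s * (6 * t + 13)) +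
      (U * (v * (s * (6 * t + 13) + 5) + 12) + 3) + 6) : r ≤ X ^ 10 := by
  have h4 := num2_Loop X t s hX ht hs
  have h6 := num3_Loop X v _ 5 4 hX (by norm_num) hv h4 (by norm_num)
  have h8 := num3_Loop X U _ 12 6 hX (by norm_num) hU h6 (by norm_num)
  have h := om1_Loop _ _ (X ^ 4) (X ^ 8) r h4 h8
    (Nat.pow_le_pow_right (by omega) (by norm_num)) (big_Loop X 8 hX (by norm_num)) hr
  calc r ≤ 4 * X ^ 8 := h
    _ = 2 * (2 * X ^ 8) := by ring
    _ ≤ 2 * X ^ 9 := Nat.mul_le_mul_left _ (dbl_Loop X 8 9 hX le_rfl)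
    _ ≤ X ^ 10 := dbl_Loop X 9 10 hX le_rfl

private theorem om2_Loop (n p q : ℕ) (h2 : n ≤ p) (h3 : 2 * p ≤ q) (h4 : 27 ≤ p) :
    1 + n + 1 + 24 ≤ q := by omega

private theorem num5_Loop (X n s a : ℕ) (hX : 3 ≤ X) (hs : s ≤ X) (hn : n ≤ s)
    (ha : a ≤ n * X ^ 10) : a + 26 ≤ X ^ 16 := by
  have h1 : a ≤ X ^ 11 := (ha.trans (Nat.mul_le_mul_right _ (hn.trans hs))).trans
    (pow_succ' X 10).symm.le
  have h2 : 2 * X ^ 11 ≤ X ^ 16 := dbl_Loop X 11 16 hX (by norm_num)
  have h3 := om2_Loop a (X ^ 11) (X ^ 16) h1 h2 (big_Loop X 11 hX (by norm_num))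
  rw [add_comm 1 a, add_assoc, add_assoc] at h3
  exact h3

private theorem num6_Loop (X t a : ℕ) (hX : 3 ≤ X) (ht : t + 3 ≤ X) (ha : a ≤ 6 * t + 13) :
    a + 27 ≤ X ^ 16 := by
  have h1 : a ≤ X ^ 3 := ha.trans (num1_Loop X t hX ht)
  have h2 : 27 ≤ X ^ 3 := big_Loop X 3 hX le_rfl
  calc a + 27 ≤ X ^ 3 + X ^ 3 := Nat.add_le_add h1 h2
    _ = 2 * X ^ 3 := by rw [two_mul]
    _ ≤ X ^ 16 := dbl_Loop X 3 16 hX (by norm_num)

end Loop

theorem hLoop : StLoop := by
  refine ⟨16, fun v t s U f hf => ?_⟩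
  obtain ⟨ι, hι, M, hb, hM⟩ := hf
  have hs : 1 ≤ s := (one_le_size (M.nx M.out)).trans (hb.nx_le M.out)
  have hX3 : 3 ≤ s + v + t + U + 2 := by omega
  have hsX : s ≤ s + v + t + U + 2 := by omega
  have hvX : v ≤ s + v + t + U + 2 := by omega
  have hUX : U ≤ s + v + t + U + 2 := by omega
  have htX : t + 3 ≤ s + v + t + U + 2 := by omega
  generalize s + v + t + U + 2 = X at hX3 hsX hvX hUX htX ⊢
  have hrd : (rd_Loop M v t U).size ≤ X ^ 10 :=
    num4_Loop X s v t U _ hX3 htX hsX hvX hUX (size_rd_Loop M v t U s hs hb.ad_le)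
  have hsg : ∀ x, (sg2_Loop M v t U x).size ≤ X ^ 10 := by
    intro x
    cases x with
    | none => exact hrd
    | some y =>
      exact ((size_lift_Loop _).trans (size_sg_Loop t y)).trans
        ((num1_Loop X t hX3 htX).trans (Nat.pow_le_pow_right (by omega) (by norm_num)))
  refine ⟨Option ι, inferInstance, mac_Loop M v t U, ⟨?_, ?_, ?_⟩, fun w => ?_⟩
  · rw [Fintype.card_option]
    have h1 := hb.card_le
    have h2 := num6_Loop X t 0 hX3 htX (by omega)
    have h3 : s + 1 ≤ X ^ 16 := by
      calc s + 1 ≤ 2 * X ^ 1 := by rw [pow_one]; omega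
        _ ≤ X ^ 16 := dbl_Loop X 1 16 hX3 (by norm_num)
    exact (Nat.succ_le_succ h1).trans h3
  · intro x
    cases x with
    | none =>
      have h1 : ((mac_Loop M v t U).nx none).size =
          (Fm.or (var (some (V.mem none)))
            (Fm.and (lift_Loop (last_Loop (Option ι) t))
              (var (some (V.mem (some M.out)))))).size := rfl
      rw [h1, size_or, size_and, size_var, size_var]
      have h2 := (size_lift_Loop (last_Loop (Option ι) t)).trans (size_last_Loop _ t)
      have h3 := num6_Loop X t (lift_Loop (last_Loop (Option ι) t)).size hX3 htX (by omega)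
      exact le_trans (by omega) h3
    | some i =>
      have h1 : ((mac_Loop M v t U).nx (some i)).size =
          (Fm.ite (var (some (V.clk t))) (var (some (V.mem (some i))))
            ((M.nx i).bind (sg2_Loop M v t U))).size := rfl
      rw [h1, size_ite, size_var, size_var]
      have h2 := size_bind_le (sg2_Loop M v t U) (M.nx i) (X ^ 10) hsg
        (le_trans (by norm_num) (big_Loop X 10 hX3 (by norm_num)))
      have h3 := num5_Loop X (M.nx i).size s _ hX3 hsX (hb.nx_le i) h2
      exact le_trans (by omega) h3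
  · intro j _
    have h1 : ((mac_Loop M v t U).ad j).size = (A_Loop M v t (j + 1)).size := rfl
    rw [h1]
    exact ((size_A_Loop M v t (j + 1) s hs hb.ad_le).trans (num2_Loop X t s hX3 htX hsX)).trans
      (Nat.pow_le_pow_right (by omega) (by norm_num))
  · have h1 : 2 ^ (t + 1 + U) = 2 ^ (t + 1) * 2 ^ U := by rw [pow_add]
    have h2 := total_Loop M v t U w (2 ^ U) le_rfl
    rw [h1]
    rw [show (mac_Loop M v t U).out = none from rfl, h2]
    constructor
    · rintro ⟨n, hn, h⟩
      exact ⟨n, hn, (hM _).1 h⟩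
    · rintro ⟨n, hn, h⟩
      exact ⟨n, hn, (hM _).2 h⟩

end Pool.Agent.Helper93.TS
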