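import Pool.Agent.Helper93.TS.StN

/-!
# Project TS, module Mux
-/

namespace Pool.Agent.Helper93.TS

open Fm

private theorem flen_Mux {α : Type} (b : ℕ) (g : ℕ → List α) (hg : ∀ n, (g n).length = b)
    (M : ℕ) : ((List.range M).flatMap g).length = M * b := by
  induction M with
  | zero => simp
  | succ M ih =>
    rw [List.range_succ, List.flatMap_append, List.length_append, ih]
    simp [hg, Nat.succ_mul]

private theorem flat_Mux {α : Type} (b : ℕ) (g : ℕ → List α) (hg : ∀ n, (g n).length = b)
    (M j : ℕ) (hj : j < M * b) :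
    ((List.range M).flatMap g)[j]? = (g (j / b))[j % b]? := by
  induction M with
  | zero => simp at hj
  | succ M ih =>
    rw [List.range_succ, List.flatMap_append, List.getElem?_append, flen_Mux b g hg]
    split_ifs with h
    · exact ih h
    · have hb : j - M * b < b := by
        rw [Nat.succ_mul] at hj; omega
      have e : j = (j - M * b) + b * M := by
        rw [Nat.mul_comm b M]; omega
      have h1 : j / b = M := by
        rw [e, Nat.add_mul_div_left _ _ (by omega), Nat.div_eq_of_lt hb, Nat.zero_add]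
      have h2 : j % b = j - M * b := by
        conv_lhs => rw [e]
        rw [Nat.add_mul_mod_self_left, Nat.mod_eq_of_lt hb]
      rw [h1, h2]
      simp

/-- the formula of the selected element of a list -/
private def sel_Mux (E0 : ℕ) (D R : ℕ → Fm ℕ) (l : List (Fm (Option ℕ))) : Fm (Option ℕ) :=
  disjL ((List.range l.length).map fun t =>
    and (and ((eqc D E0 (t / 3)).bind fun i => .var (some i))
      ((R (t % 3)).bind fun i => .var (some i)))
      ((l.getD t .tt).bind fun o => match o with
        | none => .var none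
        | some i => (D (E0 + i)).bind fun i => .var (some i)))

private theorem selsize_Mux (E0 z S : ℕ) (D R : ℕ → Fm ℕ) (l : List (Fm (Option ℕ)))
    (hD : ∀ i, (D i).size ≤ S) (hR : ∀ c < 3, (R c).size ≤ S) (hl : ∀ φ ∈ l, φ.size ≤ z) :
    (sel_Mux E0 D R l).size ≤ l.length * ((E0 * (S + 5) + 1 + S + 3 + z * S + 3) + 5) + 3 := by
  have hS : 1 ≤ S := (one_le_size _).trans (hD 0)
  have := size_disjL_le ((List.range l.length).map fun t =>
    and (and ((eqc D E0 (t / 3)).bind fun i => .var (some i))
      ((R (t % 3)).bind fun i => .var (some i)))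
      ((l.getD t .tt).bind fun o => match o with
        | none => .var none
        | some i => (D (E0 + i)).bind fun i => .var (some i)))
    (E0 * (S + 5) + 1 + S + 3 + z * S + 3) (by
      intro φ hφ
      rw [List.mem_map] at hφ
      obtain ⟨t, ht, rfl⟩ := hφ
      rw [List.mem_range] at ht
      have h1 : ((eqc D E0 (t / 3)).bind fun i => (.var (some i) : Fm (Option ℕ))).size ≤
          E0 * (S + 5) + 1 := by
        refine (size_bind_le _ _ 1 (fun i => le_rfl) le_rfl).trans ?_
        rw [Nat.mul_one]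
        exact size_eqc_le _ _ _ _ fun i _ => hD i
      have h2 : ((R (t % 3)).bind fun i => (.var (some i) : Fm (Option ℕ))).size ≤ S := by
        refine (size_bind_le _ _ 1 (fun i => le_rfl) le_rfl).trans ?_
        rw [Nat.mul_one]
        exact hR _ (Nat.mod_lt _ (by norm_num))
      have h3 : ((l.getD t .tt).bind fun o => match o with
          | none => (.var none : Fm (Option ℕ))
          | some i => (D (E0 + i)).bind fun i => .var (some i)).size ≤ z * S := by
        refine (size_bind_le _ _ S ?_ hS).trans ?_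
        · intro o
          cases o with
          | none => simpa using hS
          | some i =>
            refine (size_bind_le _ _ 1 (fun i => le_rfl) le_rfl).trans ?_
            rw [Nat.mul_one]
            exact hD _
        · refine Nat.mul_le_mul_right _ (hl _ ?_)
          rw [List.getD_eq_getElem _ _ ht]
          exact List.getElem_mem ht
      simp only [size_and]
      omega)
  simpa [sel_Mux] using this

private theorem seleval_Mux (E0 n t j κ : ℕ) (D R : ℕ → Fm ℕ) (l : List (Fm (Option ℕ)))
    (x : Word) (a : Addr) (hl : l.length ≤ 3 * 2 ^ E0)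
    (hD : ∀ i, (D i).eval a = (j / 3).testBit i)
    (hR : ∀ c < 3, ((R c).eval a = true ↔ j % 3 = c))
    (hn : n = j / (3 * 2 ^ E0)) (ht : t = j % (3 * 2 ^ E0)) (htl : t < l.length) (b : Bool)
    (hb : b = x (trunc κ (bin n))) :
    (sel_Mux E0 D R l).eval (oenv a b) = (l.getD t .tt).eval (benv κ x n) := by
  have hpos : 0 < 2 ^ E0 := by positivity
  have hn' : n = j / 3 / 2 ^ E0 := by rw [Nat.div_div_eq_div_mul]; exact hn
  have hdig : ∀ i, (D (E0 + i)).eval a = bin n i := by
    intro i
    rw [hD, bin_apply, hn', Nat.testBit_div_two_pow, Nat.add_comm]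
  have hval : ∀ s : ℕ, ((l.getD s .tt).bind fun o => match o with
      | none => (.var none : Fm (Option ℕ))
      | some i => (D (E0 + i)).bind fun i => .var (some i)).eval (oenv a b) =
      (l.getD s .tt).eval (benv κ x n) := by
    intro s
    rw [eval_bind]
    congr 1
    funext o
    cases o with
    | none => simp [benv, hb]
    | some i => simpa [benv] using hdig i
  have ht3 : t / 3 = (j / 3) % 2 ^ E0 := by
    rw [ht]
    have := Nat.mod_mul_right_div_self j 3 (2 ^ E0)
    simpa using this
  have ht4 : t % 3 = j % 3 := by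
    rw [ht, Nat.mod_mul_right_mod]
  rw [Bool.eq_iff_iff, sel_Mux, eval_disjL]
  simp only [List.mem_map, List.mem_range, exists_exists_and_eq_and]
  constructor
  · rintro ⟨s, hs, hs2⟩
    rw [eval_and, eval_and, hval, Bool.and_eq_true, Bool.and_eq_true, eval_bind, eval_bind] at hs2
    obtain ⟨⟨h1, h2⟩, h3⟩ := hs2
    have h1' : (eqc D E0 (s / 3)).eval a = true := by simpa using h1
    have h2' : (R (s % 3)).eval a = true := by simpa using h2
    rw [eval_eqc] at h1'
    rw [hR _ (Nat.mod_lt _ (by norm_num))] at h2'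
    have hs3 : s / 3 < 2 ^ E0 := by omega
    have h4 : s / 3 = (j / 3) % 2 ^ E0 := by
      apply Nat.eq_of_testBit_eq
      intro i
      rw [Nat.testBit_mod_two_pow]
      by_cases hi : i < E0
      · rw [← h1' i hi, hD]; simp [hi]
      · rw [Nat.testBit_lt_two_pow (hs3.trans_le
          (Nat.pow_le_pow_right (by norm_num) (Nat.not_lt.1 hi)))]
        simp [hi]
    have h5 : s = t := by omega
    rw [← h5]; exact h3
  · intro h
    refine ⟨t, htl, ?_⟩
    rw [eval_and, eval_and, hval, Bool.and_eq_true, Bool.and_eq_true, eval_bind, eval_bind]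
    refine ⟨⟨?_, ?_⟩, h⟩
    · have : (eqc D E0 (t / 3)).eval a = true := by
        rw [eval_eqc]
        intro i hi
        rw [hD, ht3, Nat.testBit_mod_two_pow]; simp [hi]
      simpa using this
    · have : (R (t % 3)).eval a = true := by
        rw [hR _ (Nat.mod_lt _ (by norm_num)), ht4]
      simpa using this

theorem hMux (h : StDiv3) : StMux := by
  obtain ⟨C0, hC0⟩ := h
  refine ⟨7 + 2 * C0, ?_⟩
  intro K E0 κ z bl tl hκ hbl htl hbz htz
  obtain ⟨D, R, hD, hR, hDR⟩ := hC0 (K + E0 + 3) ℕ (fun i => .var i) 1 (fun i _ => le_rfl)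
  set S : ℕ := (K + E0 + 3 + 1 + 2) ^ C0 with hS
  set X : ℕ := K + 2 ^ E0 + z + 2 with hX
  have hE : E0 + 1 ≤ 2 ^ E0 := Nat.lt_two_pow_self
  have hX3 : 3 ≤ X := by omega
  have hX2 : K + E0 + 3 + 1 + 2 ≤ X ^ 2 := by
    have : K + E0 + 6 ≤ 2 * X := by omega
    nlinarith
  have hSX : S ≤ X ^ (2 * C0) := by
    rw [hS, pow_mul]
    exact Nat.pow_le_pow_left hX2 _
  have hS1 : 1 ≤ S := Nat.one_le_pow _ _ (by omega)
  -- the formula
  set Q0 : Fm (Option ℕ) := ite ((D (E0 + K)).bind fun i => .var (some i))
    (sel_Mux E0 D R tl) (sel_Mux E0 D R bl) with hQ0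
  have hsel : ∀ l : List (Fm (Option ℕ)), l.length ≤ 3 * 2 ^ E0 → (∀ φ ∈ l, φ.size ≤ z) →
      (sel_Mux E0 D R l).size ≤ 63 * X ^ 2 * S := by
    intro l hl hlz
    refine (selsize_Mux E0 z S D R l hD hR hlz).trans ?_
    have hA : E0 * (S + 5) + 1 + S + 3 + z * S + 3 + 5 ≤ 20 * (X * S) := by
      have h1 : E0 ≤ X := by omega
      have h2 : z ≤ X := by omega
      have h3 : E0 * S ≤ X * S := Nat.mul_le_mul_right _ h1
      have h4 : z * S ≤ X * S := Nat.mul_le_mul_right _ h2
      have h5 : X ≤ X * S := Nat.le_mul_of_pos_right _ hS1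
      have h6 : 3 * S ≤ X * S := Nat.mul_le_mul_right _ hX3
      rw [Nat.mul_add]
      omega
    have hB : l.length ≤ 3 * X := by omega
    have hC : 1 ≤ X ^ 2 * S := Nat.mul_pos (by positivity) hS1
    calc l.length * (E0 * (S + 5) + 1 + S + 3 + z * S + 3 + 5) + 3
        ≤ (3 * X) * (20 * (X * S)) + 3 := by gcongr
      _ = 60 * (X ^ 2 * S) + 3 := by ring
      _ ≤ 63 * X ^ 2 * S := by
        rw [Nat.mul_assoc]; omega
  have hbindS : ((D (E0 + K)).bind fun i => (.var (some i) : Fm (Option ℕ))).size ≤ S := by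
    refine (size_bind_le _ _ 1 (fun i => le_rfl) le_rfl).trans ?_
    rw [Nat.mul_one]
    exact hD _
  have hpow : X ^ (7 + 2 * C0) = X ^ 7 * X ^ (2 * C0) := pow_add _ _ _
  have hQsize : Q0.size ≤ X ^ (7 + 2 * C0) := by
    rw [hQ0, size_ite]
    have h1 := hsel tl htl htz
    have h2 := hsel bl hbl.le hbz
    have hC : S ≤ X ^ 2 * S := Nat.le_mul_of_pos_left _ (by positivity)
    have h243 : 243 ≤ X ^ 5 := by
      calc 243 = 3 ^ 5 := by norm_num
        _ ≤ X ^ 5 := Nat.pow_le_pow_left hX3 _
    calc 2 * ((D (E0 + K)).bind fun i => (.var (some i) : Fm (Option ℕ))).size +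
          (sel_Mux E0 D R tl).size + (sel_Mux E0 D R bl).size + 5
        ≤ 243 * (X ^ 2 * S) := by
          rw [Nat.mul_assoc] at h1 h2
          omega
      _ ≤ X ^ 5 * (X ^ 2 * X ^ (2 * C0)) := by gcongr
      _ = X ^ (7 + 2 * C0) := by ring
  have hFsize : S ≤ X ^ (7 + 2 * C0) := by
    rw [hpow]
    exact hSX.trans (Nat.le_mul_of_pos_left _ (by positivity))
  refine ⟨fun x a => Q0.eval (oenv a (x fun j => decide (j < κ) && (D (E0 + j)).eval a)), ?_, ?_⟩
  · refine ⟨fun j => (D (E0 + j)).bind fun i => .var (Sum.inl i),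
      Q0.bind (fun o => match o with
        | none => .var none
        | some i => .var (some (Sum.inl i))), ?_, ?_, ?_⟩
    · intro j _
      refine (size_bind_le _ _ 1 (fun i => le_rfl) le_rfl).trans ?_
      rw [Nat.mul_one]
      exact (hD _).trans hFsize
    · refine (size_bind_le _ _ 1 (fun o => ?_) le_rfl).trans ?_
      · cases o <;> exact le_rfl
      · rw [Nat.mul_one]
        exact hQsize
    · intro w c a _
      simp only [eval_bind, eval_var, Sum.elim_inl]
      congr 1
      funext o
      cases o with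
      | none => rfl
      | some i => rfl
  · intro x
    apply List.ext_getElem?
    intro j
    have hblen : ∀ n, (bl.map fun φ => φ.eval (benv κ x n)).length = 3 * 2 ^ E0 := by
      intro n; simp [hbl]
    by_cases hj : j < 2 ^ K * (3 * 2 ^ E0) + tl.length
    · rw [List.getElem?_ofFn, dif_pos hj]
      have hjL : j < 2 ^ (K + E0 + 3) := by
        have h1 : 2 ^ (K + E0 + 3) = 8 * (2 ^ K * 2 ^ E0) := by rw [pow_add, pow_add]; ring
        have h2 : 2 ^ E0 ≤ 2 ^ K * 2 ^ E0 := Nat.le_mul_of_pos_left _ (by positivity)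
        have h3 : 2 ^ K * (3 * 2 ^ E0) = 3 * (2 ^ K * 2 ^ E0) := by ring
        rw [h1]
        omega
      obtain ⟨hd, hr⟩ := hDR (bin j) j hjL (fun i _ => rfl)
      have haddr : (fun i => decide (i < κ) && (D (E0 + i)).eval (bin j)) =
          trunc κ (bin (j / (3 * 2 ^ E0))) := by
        funext i
        rw [hd, trunc_apply, bin_apply, ← Nat.div_div_eq_div_mul, Nat.testBit_div_two_pow,
          Nat.add_comm E0 i]
      have hb3 : 0 < 3 * 2 ^ E0 := by positivity
      have hDK : ((D (E0 + K)).bind fun i => (.var (some i) : Fm (Option ℕ))).eval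
          (oenv (bin j) (x (trunc κ (bin (j / (3 * 2 ^ E0)))))) =
          (j / (3 * 2 ^ E0)).testBit K := by
        rw [eval_bind]
        simp only [eval_var, oenv_some]
        rw [hd, ← Nat.div_div_eq_div_mul, Nat.testBit_div_two_pow, Nat.add_comm E0 K]
      simp only
      rw [haddr, hQ0, eval_ite, hDK, List.getElem?_append, flen_Mux _ _ hblen]
      split_ifs with hlt
      · -- block
        rw [flat_Mux _ _ hblen _ _ hlt]
        have hn : j / (3 * 2 ^ E0) < 2 ^ K := (Nat.div_lt_iff_lt_mul hb3).2 hlt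
        rw [Nat.testBit_lt_two_pow hn]
        have htlen : j % (3 * 2 ^ E0) < bl.length := by rw [hbl]; exact Nat.mod_lt _ hb3
        rw [cond_false, seleval_Mux E0 _ _ j κ D R bl x (bin j) hbl.le hd hr rfl rfl htlen _ rfl]
        simp [htlen]
      · -- tail
        have hn : j / (3 * 2 ^ E0) = 2 ^ K ∧ j % (3 * 2 ^ E0) = j - 2 ^ K * (3 * 2 ^ E0) ∨
            tl.length = 3 * 2 ^ E0 ∧ False := by
          left
          have hb : j - 2 ^ K * (3 * 2 ^ E0) < 3 * 2 ^ E0 := by omega
          have e : j = (j - 2 ^ K * (3 * 2 ^ E0)) + (3 * 2 ^ E0) * 2 ^ K := by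
            rw [Nat.mul_comm (3 * 2 ^ E0) (2 ^ K)]; omega
          constructor
          · rw [e, Nat.add_mul_div_left _ _ hb3, Nat.div_eq_of_lt hb, Nat.zero_add]
          · conv_lhs => rw [e]
            rw [Nat.add_mul_mod_self_left, Nat.mod_eq_of_lt hb]
        obtain ⟨hn, hm⟩ | ⟨_, hf⟩ := hn
        · have htlen : j % (3 * 2 ^ E0) < tl.length := by rw [hm]; omega
          have hm' : j - 2 ^ K * (3 * 2 ^ E0) < tl.length := by omega
          rw [show (j / (3 * 2 ^ E0)).testBit K = true by rw [hn]; simp, cond_true,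
            seleval_Mux E0 _ _ j κ D R tl x (bin j) htl hd hr rfl rfl htlen _ rfl, hm, hn]
          simp [hm']
        · exact hf.elim
    · rw [List.getElem?_eq_none, List.getElem?_eq_none]
      · simpa using Nat.not_lt.1 hj
      · rw [List.length_append, flen_Mux _ _ hblen, List.length_map]
        exact Nat.not_lt.1 hj

end Pool.Agent.Helper93.TS
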