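import Pool.Agent.Helper93.TS.StE

/-!
# Project TS, module Num1: the cubic polynomial of `2 cos (π/7)` (helper95)
-/

namespace Pool.Agent.Helper93.TS

theorem hNum1 : StNum1 := by
  set x : ℝ := 2 * Real.cos (Real.pi / 7) with hx
  have hpi : Real.pi < 3.15 := Real.pi_lt_d2
  have hpi0 : 0 < Real.pi := Real.pi_pos
  have h1 : 1 - (Real.pi / 7) ^ 2 / 2 ≤ Real.cos (Real.pi / 7) := Real.one_sub_sq_div_two_le_cos
  have hlow : 17 / 10 < x := by
    rw [hx]
    nlinarith
  have hcub : x ^ 3 - x ^ 2 - 2 * x + 1 = 0 := by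
    have h3 : Real.cos (3 * (Real.pi / 7)) = 4 * Real.cos (Real.pi / 7) ^ 3
        - 3 * Real.cos (Real.pi / 7) := Real.cos_three_mul _
    have h2 : Real.cos (2 * (Real.pi / 7)) = 2 * Real.cos (Real.pi / 7) ^ 2 - 1 :=
      Real.cos_two_mul _
    have h4 : Real.cos (2 * (2 * (Real.pi / 7))) = 2 * Real.cos (2 * (Real.pi / 7)) ^ 2 - 1 :=
      Real.cos_two_mul _
    have h34 : Real.cos (3 * (Real.pi / 7)) = - Real.cos (2 * (2 * (Real.pi / 7))) := by
      rw [← Real.cos_pi_sub]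
      congr 1
      ring
    rw [h4, h2, h3] at h34
    have hq : (x + 2) * (x ^ 3 - x ^ 2 - 2 * x + 1) = 0 := by
      rw [hx]
      linear_combination 2 * h34
    rcases mul_eq_zero.1 hq with h | h
    · linarith
    · exact h
  have hup : x < 19 / 10 := by
    by_contra hcon
    push Not at hcon
    nlinarith [mul_nonneg (sub_nonneg.2 hcon) (sub_nonneg.2 hcon)]
  refine ⟨hlow, hup, ?_⟩
  intro t ht htx
  have hfac : t ^ 3 - t ^ 2 - 2 * t + 1
      = - ((x - t) * (t ^ 2 + t * x + x ^ 2 - t - x - 2)) := by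
    linear_combination hcub
  rw [hfac]
  have ha : 0 < x - t := sub_pos.2 htx
  have hb : 0 < t ^ 2 + t * x + x ^ 2 - t - x - 2 := by nlinarith
  have := mul_pos ha hb
  linarith

end Pool.Agent.Helper93.TS
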