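import Pool.Agent.Helper93.TS.StE

/-!
# Project TS, module NUM2
-/

namespace Pool.Agent.Helper93.TS

open Filter

private lemma dseq_eq_Num2 (c : ℝ) (hc : 1 < c) (j : ℕ) :
    dseq c j = c / (c - 1) + (c⁻¹) ^ j * (2 - c / (c - 1)) := by
  have h1 : c - 1 ≠ 0 := by linarith
  have h0 : c ≠ 0 := by linarith
  induction j with
  | zero => simp [dseq]
  | succ j ih =>
    rw [dseq, ih, pow_succ]
    field_simp
    ring

private lemma sseq_eq_Num2 (d r : ℝ) (hr : r ≠ 1) (l : ℕ) :
    sseq d r l = d + (r ^ (l + 1) - r) / (r - 1) := by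
  have h1 : r - 1 ≠ 0 := sub_ne_zero.2 hr
  induction l with
  | zero => simp [sseq]
  | succ l ih =>
    rw [sseq, ih]
    field_simp
    ring

private lemma tendsto_dseq_Num2 (c : ℝ) (hc : 1 < c) :
    Tendsto (fun j => dseq c j) atTop (nhds (c / (c - 1))) := by
  have h : Tendsto (fun j : ℕ => c / (c - 1) + (c⁻¹) ^ j * (2 - c / (c - 1))) atTop
      (nhds (c / (c - 1) + 0 * (2 - c / (c - 1)))) := by
    apply Tendsto.const_add
    apply Tendsto.mul_const
    exact tendsto_pow_atTop_nhds_zero_of_lt_one (by positivity) (inv_lt_one_of_one_lt₀ hc)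
  simp only [zero_mul, add_zero] at h
  refine h.congr fun j => (dseq_eq_Num2 c hc j).symm

theorem hNum2 : StNum2 := by
  intro c hc1 hc2 hp
  have hc : 1 < c := by linarith
  have hc0 : 0 < c := by linarith
  have hm : 0 < c - 1 := by linarith
  set d0 := c / (c - 1) with hd0
  have hd02 : 2 < d0 := by
    rw [hd0, lt_div_iff₀ hm]; linarith
  have hd0c : d0 < c ^ 2 := by
    rw [hd0, div_lt_iff₀ hm]
    nlinarith
  have hle : ∀ j, dseq c j ≤ d0 := by
    intro j
    rw [dseq_eq_Num2 c hc j]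
    have : 0 ≤ (c⁻¹) ^ j := by positivity
    have h2 : 2 - d0 ≤ 0 := by linarith
    have := mul_nonpos_of_nonneg_of_nonpos this h2
    linarith
  have hpos : ∀ j, 0 < dseq c j := by
    intro j
    induction j with
    | zero => simp [dseq]
    | succ j ih => rw [dseq]; positivity
  -- the limit ratio
  have hr0 : c ^ 2 / d0 = c * (c - 1) := by
    rw [hd0]; field_simp
  have hlim : Tendsto (fun j => c ^ 2 / dseq c j) atTop (nhds (c * (c - 1))) := by
    rw [← hr0]
    exact Tendsto.div tendsto_const_nhds (tendsto_dseq_Num2 c hc) (by linarith)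
  have hlim2 : Tendsto (fun j => c ^ 2 * (c ^ 2 / dseq c j - 1) - c ^ 2 / dseq c j) atTop
      (nhds (c ^ 2 * (c * (c - 1) - 1) - c * (c - 1))) :=
    ((hlim.sub_const 1).const_mul (c ^ 2)).sub hlim
  have hneg : c ^ 2 * (c * (c - 1) - 1) - c * (c - 1) < 0 := by
    have : c ^ 2 * (c * (c - 1) - 1) - c * (c - 1) = c * (c ^ 3 - c ^ 2 - 2 * c + 1) := by ring
    rw [this]
    exact mul_neg_of_pos_of_neg hc0 hp
  obtain ⟨j, hj⟩ := (hlim2.eventually_lt_const hneg).exists
  set d := dseq c j with hd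
  set r := c ^ 2 / d with hr
  have hr1 : 1 < r := by
    rw [hr, lt_div_iff₀ (hpos j)]
    have := hle j
    linarith
  have hrm : 0 < r - 1 := by linarith
  have hq : c ^ 2 < r / (r - 1) := by
    rw [lt_div_iff₀ hrm]; linarith
  have htop : Tendsto (fun l : ℕ => r ^ l * (r / (r - 1) - c ^ 2)) atTop atTop := by
    apply Tendsto.atTop_mul_const (by linarith)
    exact tendsto_pow_atTop_atTop_of_one_lt hr1
  obtain ⟨l, hl⟩ := (htop.eventually_gt_atTop (r / (r - 1) - d)).exists
  refine ⟨j, l, by linarith [hle j], ?_⟩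
  rw [sseq_eq_Num2 d r (ne_of_gt hr1) l]
  have e1 : (r ^ (l + 1) - r) / (r - 1) = r ^ l * (r / (r - 1)) - r / (r - 1) := by
    field_simp
    ring
  rw [e1]
  nlinarith

end Pool.Agent.Helper93.TS
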