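import Pool.Agent.Helper93.TS.StM

/-!
Project TS, module OI: the machines of the official definition are covered.
-/

namespace Pool.Agent.Helper93.TS

open Pool.Agent.Helper72

/-- translation of an official formula -/
private def toFm {κ : Type} (g : ℕ → Fm κ) : BForm → Fm κ
  | .var i => g i
  | .neg φ => (toFm g φ).not
  | .conj φ ψ => (toFm g φ).and (toFm g ψ)
  | .disj φ ψ => (toFm g φ).or (toFm g ψ)

private theorem eval_toFm {κ : Type} (g : ℕ → Fm κ) (e : κ → Bool) (f : ℕ → Bool)
    (h : ∀ i, (g i).eval e = f i) (φ : BForm) : (toFm g φ).eval e = φ.eval f := by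
  induction φ with
  | var i => simpa [toFm, BForm.eval] using h i
  | neg φ ih => simp [toFm, BForm.eval, ih]
  | conj φ ψ ih1 ih2 => simp [toFm, BForm.eval, ih1, ih2]
  | disj φ ψ ih1 ih2 => simp [toFm, BForm.eval, ih1, ih2]

private theorem size_toFm {κ : Type} (g : ℕ → Fm κ) (S : ℕ) (h : ∀ i, (g i).size ≤ S)
    (φ : BForm) : (toFm g φ).size ≤ bsize φ * (S + 5) := by
  induction φ with
  | var i => have := h i; simp only [toFm, bsize]; omega
  | neg φ ih => simp only [toFm, bsize, Fm.size_not]; nlinarith
  | conj φ ψ ih1 ih2 => simp only [toFm, bsize, Fm.size_and]; nlinarith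
  | disj φ ψ ih1 ih2 => simp only [toFm, bsize, Fm.size_or]; nlinarith

private theorem sum_bits (q : ℕ) (n : ℕ) :
    (∑ i ∈ Finset.range n, if q.testBit i = true then 2 ^ i else 0) = q % 2 ^ n := by
  induction n with
  | zero => simp [Nat.mod_one]
  | succ n ih =>
    rw [Finset.sum_range_succ, ih, Nat.mod_pow_succ, ← Nat.toNat_testBit]
    by_cases h : q.testBit n = true
    · simp [h]
    · simp [h]

private theorem testBit_sum (b : ℕ → Bool) (n : ℕ) :
    (∑ i ∈ Finset.range n, if b i = true then 2 ^ i else 0) < 2 ^ n ∧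
    ∀ j, (∑ i ∈ Finset.range n, if b i = true then 2 ^ i else 0 : ℕ).testBit j =
      (decide (j < n) && b j) := by
  have h1 : (∑ i ∈ Finset.range n, if b i = true then 2 ^ i else 0) =
      Nat.ofBits (fun i : Fin n => b i) := by
    rw [← Nat.mod_eq_of_lt (Nat.ofBits_lt_two_pow (fun i : Fin n => b i)), ← sum_bits]
    refine Finset.sum_congr rfl fun i hi => ?_
    rw [Nat.testBit_ofBits_lt _ _ (Finset.mem_range.1 hi)]
  rw [h1]
  refine ⟨Nat.ofBits_lt_two_pow _, fun j => ?_⟩
  by_cases hj : j < n
  · rw [Nat.testBit_ofBits_lt _ _ hj]; simp [hj]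
  · rw [Nat.testBit_ofBits_ge _ _ (Nat.not_lt.1 hj)]; simp [hj]

/-- the cells as variables -/
private def gv {κ : Type} (mem : ℕ) (r : Fm κ) (c : Fin mem → Fm κ) : ℕ → Fm κ
  | 0 => r
  | i + 1 => if h : i < mem then c ⟨i, h⟩ else Fm.ff

private theorem eval_gv {κ : Type} (M : Machine) (r : Fm κ) (c : Fin M.mem → Fm κ)
    (e : κ → Bool) (m : ℕ → Bool) (rb : Bool) (hr : r.eval e = rb)
    (hc : ∀ i : Fin M.mem, (c i).eval e = m i) (i : ℕ) :
    (gv M.mem r c i).eval e = M.env m rb i := by
  cases i with
  | zero => simpa [gv, Machine.env] using hr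
  | succ i =>
    simp only [gv, Machine.env]
    by_cases h : i < M.mem
    · simp [h, hc]
    · simp [h]

private theorem size_gv {κ : Type} (mem : ℕ) (r : Fm κ) (c : Fin mem → Fm κ) (S : ℕ)
    (hr : r.size ≤ S) (hS : 3 ≤ S) (hc : ∀ i, (c i).size ≤ S) (i : ℕ) :
    (gv mem r c i).size ≤ S := by
  cases i with
  | zero => exact hr
  | succ i =>
    simp only [gv]
    split_ifs with h
    · exact hc _
    · simpa using hS

/-- embedding of formulas without the bit read -/
private def emb {κ : Type} (φ : Fm κ) : Fm (Option κ) := φ.bind (fun u => Fm.var (some u))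

private theorem eval_emb {κ : Type} (φ : Fm κ) (e : κ → Bool) (r : Bool) :
    (emb φ).eval (oenv e r) = φ.eval e := by
  rw [emb, Fm.eval_bind]
  rfl

private theorem size_emb {κ : Type} (φ : Fm κ) : (emb φ).size ≤ φ.size := by
  have := Fm.size_bind_le (fun u => (Fm.var (some u) : Fm (Option κ))) φ 1 (fun i => le_rfl) le_rfl
  simpa [emb] using this

private theorem pow9 (X C : ℕ) (hX : 2 ≤ X) : (9 * X) ^ C ≤ X ^ (5 * C) := by
  rw [pow_mul]
  apply Nat.pow_le_pow_left
  have h4 : 2 ^ 4 ≤ X ^ 4 := Nat.pow_le_pow_left hX 4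
  have : X ^ 5 = X ^ 4 * X := pow_succ X 4
  rw [this]
  exact Nat.mul_le_mul_right _ (by omega)

/-- MODULE OI -/
theorem hOI (h : StLt) : StOI := by
  obtain ⟨C, hC⟩ := h
  refine ⟨5 * C + 6, ?_⟩
  intro M s T t N v hM hT hN
  set X : ℕ := s + t + v + 2 with hX
  have hX2 : 2 ≤ X := by omega
  let ι := Option (Fin M.mem)
  -- the bits of the position
  let cm : Fin M.mem → Fm (V ι) := fun i => Fm.var (V.mem (some i))
  let pb : ℕ → Fm (V ι) := fun j =>
    if j < M.adr then toFm (gv M.mem Fm.ff cm) (M.addr j) else Fm.ff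
  have hpb : ∀ j, (pb j).size ≤ 8 * s + 3 := by
    intro j
    simp only [pb]
    split_ifs with hj
    · have h1 := size_toFm (gv M.mem Fm.ff cm) 3
        (size_gv _ _ _ 3 (by simp) le_rfl (fun i => by simp [cm])) (M.addr j)
      have h2 := hM.addr_le j hj
      nlinarith
    · simp
  have hm1 : N < 2 ^ (v + M.adr + 1) := by
    refine hN.trans_lt ?_
    exact Nat.pow_lt_pow_right (by norm_num) (by omega)
  obtain ⟨φN, hφN, hφN'⟩ := hC (v + M.adr + 1) N (V ι) pb (8 * s + 3) hm1 (fun i _ => hpb i)
  have hm2 : T < 2 ^ (t + 1) := hT.trans_lt (Nat.pow_lt_pow_right (by norm_num) (by omega))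
  obtain ⟨φT, hφT, hφT'⟩ := hC (t + 1) T (V ι) (fun j => Fm.var (V.clk j)) 1 hm2
    (fun i _ => by simp)
  set Y : ℕ := X ^ (5 * C) with hY
  have hY1 : 1 ≤ Y := Nat.one_le_pow _ _ (by omega)
  have hN1 : φN.size ≤ Y := by
    refine hφN.trans ((Nat.pow_le_pow_left ?_ C).trans (pow9 X C hX2))
    have := hM.adr_le
    omega
  have hT1 : φT.size ≤ Y := by
    refine hφT.trans ((Nat.pow_le_pow_left ?_ C).trans (pow9 X C hX2))
    omega
  let rd : Fm (Option (V ι)) := Fm.and (Fm.var none) (emb φN)
  have hrd : rd.size ≤ Y + 4 := by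
    have := size_emb φN
    simp only [rd, Fm.size_and, Fm.size_var]
    omega
  let cn : Fin M.mem → Fm (Option (V ι)) := fun i => Fm.var (some (V.mem (some i)))
  let nx : ι → Fm (Option (V ι)) := fun i => match i with
    | none => toFm (gv M.mem Fm.ff cn) M.out
    | some i => Fm.ite (emb φT) (toFm (gv M.mem rd cn) (M.next i))
        (Fm.var (some (V.mem (some i))))
  let A : Mac ι := ⟨nx, pb, none⟩
  refine ⟨ι, inferInstance, A, ?_, ?_⟩
  · -- sizes
    have hXY : X ^ (5 * C + 6) = Y * X ^ 6 := pow_add _ _ _
    have hX6 : 32 * X ≤ X ^ 6 := by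
      have h4 : 2 ^ 5 ≤ X ^ 5 := Nat.pow_le_pow_left hX2 5
      have : X ^ 6 = X ^ 5 * X := pow_succ X 5
      rw [this]
      exact Nat.mul_le_mul_right _ (by omega)
    have hbig : Y * (32 * X) ≤ X ^ (5 * C + 6) := by
      rw [hXY]; exact Nat.mul_le_mul_left _ hX6
    have hsX : s ≤ X := by omega
    have hYX : X ≤ Y * X := Nat.le_mul_of_pos_left _ hY1
    refine ⟨?_, ?_, ?_⟩
    · have : Fintype.card ι = M.mem + 1 := by simp [ι]
      rw [this]
      have := hM.mem_le
      nlinarith
    · intro i
      cases i with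
      | none =>
        show (toFm (gv M.mem Fm.ff cn) M.out).size ≤ _
        have h1 := size_toFm (gv M.mem Fm.ff cn) 3
          (size_gv _ _ _ 3 (by simp) le_rfl (fun i => by simp [cn])) M.out
        have h2 := hM.out_le
        nlinarith
      | some i =>
        show (Fm.ite (emb φT) (toFm (gv M.mem rd cn) (M.next i))
          (Fm.var (some (V.mem (some i))))).size ≤ _
        rw [Fm.size_ite, Fm.size_var]
        have h1 := size_toFm (gv M.mem rd cn) (Y + 4)
          (size_gv _ _ _ (Y + 4) hrd (by omega) (fun i => by simp [cn])) (M.next i)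
        have h2 := hM.next_le i i.2
        have h3 := size_emb φT
        have h4 : bsize (M.next i) * (Y + 4 + 5) ≤ s * (Y + 9) := Nat.mul_le_mul_right _ h2
        have h5 : s * Y ≤ Y * X := by rw [mul_comm]; exact Nat.mul_le_mul_left _ hsX
        have h6 : 2 * Y ≤ Y * X := by rw [mul_comm]; exact Nat.mul_le_mul_left _ hX2
        nlinarith
    · intro j _
      have := hpb j
      show (pb j).size ≤ _
      nlinarith
  · -- correctness
    intro w
    set x : List Bool := List.ofFn fun j : Fin N => w (bin j) with hx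
    -- the bit read
    have hread : ∀ (mm : ι → Bool) (m : ℕ → Bool) (n : ℕ),
        (∀ i : Fin M.mem, mm (some i) = m i) →
        rd.eval (oenv (env mm n zero) (w (A.addr v zero n mm))) =
          x.getD (M.pos m) false := by
      intro mm m n hmm
      have hbits : ∀ j, (pb j).eval (env mm n zero) = (decide (j < M.adr) &&
          (M.addr j).eval (M.env m false)) := by
        intro j
        simp only [pb]
        split_ifs with hj
        · rw [eval_toFm _ _ (M.env m false)
            (eval_gv M Fm.ff cm _ m false (by simp) (fun i => by simp [cm, hmm]))]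
          simp [hj]
        · simp [hj]
      have hpos := testBit_sum (fun i => (M.addr i).eval (M.env m false)) M.adr
      have hp1 : M.pos m < 2 ^ M.adr := hpos.1
      have hp2 : ∀ j, (M.pos m).testBit j = (pb j).eval (env mm n zero) := by
        intro j
        rw [hbits]
        exact hpos.2 j
      have hlt : φN.eval (env mm n zero) = true ↔ M.pos m < N :=
        hφN' _ _ (hp1.trans_le (Nat.pow_le_pow_right (by norm_num) (by omega)))
          (fun i _ => (hp2 i).symm)
      simp only [rd, Fm.eval_and, Fm.eval_var, oenv_none, eval_emb]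
      rw [List.getD_eq_getElem?_getD, hx, List.getElem?_ofFn]
      by_cases hlt' : M.pos m < N
      · have h1 := hlt.2 hlt'
        rw [h1, Bool.and_true, dif_pos hlt']
        simp only [Option.getD_some]
        congr 1
        funext j
        simp only [Mac.addr, A]
        rw [← hp2, bin_apply]
        by_cases hj : j < v
        · simp [hj]
        · have : (M.pos m).testBit j = false := Nat.testBit_lt_two_pow
            (hlt'.trans_le (hN.trans (Nat.pow_le_pow_right (by norm_num) (Nat.not_lt.1 hj))))
          simp [hj, this]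
      · have h1 : φN.eval (env mm n zero) = false := by
          rw [← Bool.not_eq_true]
          exact fun hh => hlt' (hlt.1 hh)
        rw [h1, dif_neg hlt']
        simp
    -- the clock
    have hclk : ∀ (mm : ι → Bool) (n : ℕ), n < 2 ^ (t + 1) →
        (φT.eval (env mm n zero) = true ↔ n < T) := by
      intro mm n hn
      exact hφT' _ _ hn (fun i _ => by simp)
    have hinv : ∀ n, n ≤ 2 ^ (t + 1) → ∀ i : Fin M.mem,
        A.run v w zero 0 zero n (some i) = M.run x (min n T) i := by
      intro n
      induction n with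
      | zero => intro _ i; simp [Machine.run]
      | succ n ih =>
        intro hn i
        have ih' := ih (by omega)
        rw [Mac.run_succ]
        show (Fm.ite (emb φT) (toFm (gv M.mem rd cn) (M.next i))
          (Fm.var (some (V.mem (some i))))).eval _ = _
        rw [Fm.eval_ite, eval_emb, Nat.zero_add]
        by_cases hnT : n < T
        · rw [(hclk _ n (by omega)).2 hnT, cond_true, Nat.min_eq_left (by omega : n + 1 ≤ T)]
          rw [Nat.min_eq_left hnT.le] at ih'
          rw [eval_toFm _ _ (M.env (M.run x n) (x.getD (M.pos (M.run x n)) false))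
            (eval_gv M rd cn _ (M.run x n) _ (hread _ _ n ih') (fun i => by
              simp only [cn, Fm.eval_var, oenv_some, env_mem]; exact ih' i))]
          rfl
        · have h1 : φT.eval (env (A.run v w zero 0 zero n) n zero) = false := by
            rw [← Bool.not_eq_true]
            exact fun hh => hnT ((hclk _ n (by omega)).1 hh)
          rw [h1, cond_false]
          simp only [Fm.eval_var, oenv_some, env_mem]
          rw [ih' i, Nat.min_eq_right (Nat.not_lt.1 hnT), Nat.min_eq_right (by omega : T ≤ n + 1)]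
    have hpow : 2 ^ (t + 1) = (2 ^ (t + 1) - 1) + 1 := by
      have : 1 ≤ 2 ^ (t + 1) := Nat.one_le_two_pow
      omega
    have hT2 : T ≤ 2 ^ (t + 1) - 1 := by omega
    have hfin := hinv (2 ^ (t + 1) - 1) (by omega)
    rw [Nat.min_eq_right hT2] at hfin
    rw [hpow, Mac.run_succ]
    show M.out.eval (M.env (M.run x T) false) = true ↔
      (toFm (gv M.mem Fm.ff cn) M.out).eval _ = true
    rw [eval_toFm _ _ (M.env (M.run x T) false)
      (eval_gv M Fm.ff cn _ (M.run x T) false (by simp) (fun i => by
        simp only [cn, Fm.eval_var, oenv_some, env_mem]; exact hfin i))]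

end Pool.Agent.Helper93.TS
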