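import Pool.Agent.Helper93.TS.StM

/-!
# Project TS, module RR: rerouting of the reading
-/

namespace Pool.Agent.Helper93.TS

/-- parameters become `false` -/
private def p0_RR {ι : Type} : V ι → Fm (V ι)
  | .mem i => .var (.mem i)
  | .clk j => .var (.clk j)
  | .par _ => .ff

private theorem p0_size_RR {ι : Type} (u : V ι) : (p0_RR u).size ≤ 3 := by
  rcases u with i | j | j <;> simp [p0_RR]

private theorem p0_eval_RR {ι : Type} (m : ι → Bool) (t : ℕ) (c : ℕ → Bool) :
    (fun u => (p0_RR u).eval (env m t c)) = env m t zero := by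
  funext u
  rcases u with i | j | j <;> simp [p0_RR]

/-- bits of the address that the old machine would read -/
private def A_RR {ι : Type} (M : Mac ι) (v i : ℕ) : Fm (V ι) :=
  if i < v then (M.ad i).bind p0_RR else .ff

private theorem A_eval_RR {ι : Type} (M : Mac ι) (v i : ℕ) (m : ι → Bool) (t : ℕ)
    (c : ℕ → Bool) : (A_RR M v i).eval (env m t c) = M.addr v zero t m i := by
  unfold A_RR Mac.addr
  split_ifs with h
  · rw [Fm.eval_bind, p0_eval_RR]
    simp [h]
  · simp [h]

private theorem A_size_RR {ι : Type} [Fintype ι] (M : Mac ι) (v s i : ℕ) (hb : M.Bd v s)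
    (hs : 1 ≤ s) : (A_RR M v i).size ≤ s * 3 := by
  unfold A_RR
  split_ifs with h
  · exact (Fm.size_bind_le p0_RR (M.ad i) 3 p0_size_RR (by norm_num)).trans
      (Nat.mul_le_mul_right 3 (hb.ad_le i h))
  · rw [Fm.size_ff]
    omega

private def f_RR {ι : Type} (M : Mac ι) (v : ℕ) : ℕ ⊕ ℕ → Fm (V ι)
  | .inl i => A_RR M v i
  | .inr i => .var (.par i)

private theorem f_eval_RR {ι : Type} (M : Mac ι) (v : ℕ) (m : ι → Bool) (t : ℕ)
    (c : ℕ → Bool) : (fun u => (f_RR M v u).eval (env m t c)) =
      Sum.elim (M.addr v zero t m) c := by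
  funext u
  rcases u with i | i
  · exact A_eval_RR M v i m t c
  · rfl

private def h_RR {ι : Type} (M : Mac ι) (v : ℕ) : Option (ℕ ⊕ ℕ) → Fm (Option (V ι))
  | none => .var none
  | some u => (f_RR M v u).bind fun x => .var (some x)

private theorem h_eval_RR {ι : Type} (M : Mac ι) (v : ℕ) (m : ι → Bool) (t : ℕ)
    (c : ℕ → Bool) (r : Bool) : (fun u => (h_RR M v u).eval (oenv (env m t c) r)) =
      oenv (Sum.elim (M.addr v zero t m) c) r := by
  funext u
  rcases u with _ | u
  · rfl
  · change ((f_RR M v u).bind fun x => .var (some x)).eval (oenv (env m t c) r) = _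
    rw [Fm.eval_bind]
    exact congrFun (f_eval_RR M v m t c) u

private def g_RR {ι : Type} (M : Mac ι) (v : ℕ) (Q : Fm (Option (ℕ ⊕ ℕ))) :
    Option (V ι) → Fm (Option (V ι))
  | none => Q.bind (h_RR M v)
  | some (.mem i) => .var (some (.mem i))
  | some (.clk j) => .var (some (.clk j))
  | some (.par _) => .ff

private theorem g_eval_RR {ι : Type} (M : Mac ι) (v : ℕ) (Q : Fm (Option (ℕ ⊕ ℕ)))
    (m : ι → Bool) (t : ℕ) (c : ℕ → Bool) (r : Bool) :
    (fun u => (g_RR M v Q u).eval (oenv (env m t c) r)) =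
      oenv (env m t zero) (Q.eval (oenv (Sum.elim (M.addr v zero t m) c) r)) := by
  funext u
  rcases u with _ | (i | j | j)
  · change (Q.bind (h_RR M v)).eval (oenv (env m t c) r) = _
    rw [Fm.eval_bind, h_eval_RR]
    rfl
  · rfl
  · rfl
  · rfl

private def M_RR {ι : Type} (M : Mac ι) (v : ℕ) (F : ℕ → Fm (ℕ ⊕ ℕ))
    (Q : Fm (Option (ℕ ⊕ ℕ))) : Mac ι where
  nx i := (M.nx i).bind (g_RR M v Q)
  ad j := (F j).bind (f_RR M v)
  out := M.out

theorem hRR : StRR := by
  refine ⟨3, ?_⟩
  intro ι _ M v v' q s R hb hR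
  obtain ⟨F, Q, hF, hQ, hRe⟩ := hR
  have hs : 1 ≤ s := (Fm.one_le_size _).trans (hb.nx_le M.out)
  have hq : 1 ≤ q := (Fm.one_le_size _).trans hQ
  have hf : ∀ u, (f_RR M v u).size ≤ s * 3 := by
    intro u
    rcases u with i | i
    · exact A_size_RR M v s i hb hs
    · change (Fm.var (V.par i) : Fm (V ι)).size ≤ _
      rw [Fm.size_var]
      omega
  have hh : ∀ u, (h_RR M v u).size ≤ s * 3 := by
    intro u
    rcases u with _ | u
    · change (Fm.var none : Fm (Option (V ι))).size ≤ _
      rw [Fm.size_var]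
      omega
    · change ((f_RR M v u).bind fun x => .var (some x)).size ≤ _
      refine (Fm.size_bind_le (fun x => Fm.var (some x)) (f_RR M v u) 1 (fun x => le_rfl)
        le_rfl).trans ?_
      rw [mul_one]
      exact hf u
  have hg : ∀ u, (g_RR M v Q u).size ≤ q * (s * 3) := by
    intro u
    have h3 : 3 ≤ q * (s * 3) := by nlinarith
    rcases u with _ | (i | j | j)
    · exact (Fm.size_bind_le (h_RR M v) Q (s * 3) hh (by omega)).trans
        (Nat.mul_le_mul_right _ hQ)
    · change (Fm.var (some (V.mem i)) : Fm (Option (V ι))).size ≤ _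
      rw [Fm.size_var]
      omega
    · change (Fm.var (some (V.clk j)) : Fm (Option (V ι))).size ≤ _
      rw [Fm.size_var]
      omega
    · change (Fm.ff : Fm (Option (V ι))).size ≤ _
      rw [Fm.size_ff]
      omega
  have hx : s * (q * (s * 3)) ≤ (s + q + 2) ^ 3 := by
    have : (s + q + 2) ^ 3 = s * (q * (s * 3)) + (s ^ 3 + 6 * s ^ 2 + 3 * s * (q + 2) ^ 2 +
      (q + 2) ^ 3) := by ring
    omega
  have hx2 : q * (s * 3) ≤ (s + q + 2) ^ 3 := by
    refine le_trans ?_ hx
    nlinarith [Nat.zero_le (q * (s * 3))]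
  refine ⟨M_RR M v F Q, ⟨?_, ?_, ?_⟩, rfl, ?_⟩
  · have h1 := hb.card_le
    have h2 : s ≤ q * (s * 3) := by nlinarith
    omega
  · intro i
    change ((M.nx i).bind (g_RR M v Q)).size ≤ _
    refine (Fm.size_bind_le (g_RR M v Q) (M.nx i) _ hg (by nlinarith)).trans ?_
    exact (Nat.mul_le_mul_right _ (hb.nx_le i)).trans hx
  · intro j hj
    change ((F j).bind (f_RR M v)).size ≤ _
    refine (Fm.size_bind_le (f_RR M v) (F j) _ hf (by omega)).trans ?_
    exact (Nat.mul_le_mul_right _ (hF j hj)).trans hx2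
  · intro w c t m n
    induction n with
    | zero => rfl
    | succ n ih =>
      rw [Mac.run_succ, Mac.run_succ, ih]
      obtain ⟨m', hm'⟩ : ∃ m', m' = M.run v (R w c) zero t m n := ⟨_, rfl⟩
      rw [← hm']
      funext i
      have haddr : (M_RR M v F Q).addr v' c (t + n) m' = fun j => decide (j < v') &&
          (F j).eval (Sum.elim (M.addr v zero (t + n) m') c) := by
        funext j
        change (decide (j < v') && ((F j).bind (f_RR M v)).eval (env m' (t + n) c)) = _
        rw [Fm.eval_bind, f_eval_RR]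
      have hsupp : Supp v (M.addr v zero (t + n) m') := by
        intro i hi
        simp [Mac.addr, Nat.not_lt.2 hi]
      change ((M.nx i).bind (g_RR M v Q)).eval (oenv (env m' (t + n) c)
        (w ((M_RR M v F Q).addr v' c (t + n) m'))) = (M.nx i).eval (oenv (env m' (t + n) zero)
          (R w c (M.addr v zero (t + n) m')))
      rw [Fm.eval_bind, g_eval_RR, haddr, hRe w c _ hsupp]

end Pool.Agent.Helper93.TS
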