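import Pool.Agent.Helper93.TS.StM

/-!
Project TS, module REP: closure properties of representable transformations (`hRep : StRepC`).
-/

namespace Pool.Agent.Helper93.TS

open Fm

/-- renaming by formulas of size at most one does not enlarge a formula -/
private theorem size_ren_Rep {ι κ : Type} (f : ι → Fm κ) (a : Fm ι) (h : ∀ i, (f i).size ≤ 1) :
    (a.bind f).size ≤ a.size := by
  have := size_bind_le f a 1 h le_rfl
  omega

private theorem id_Rep (v : ℕ) : RepP v v 13 (fun w _ => w) := by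
  refine ⟨fun j => .var (.inl j), .var none, fun j _ => by simp, by simp, ?_⟩
  intro w c a ha
  simp only [eval_var, oenv_none, Sum.elim_inl]
  congr 1
  funext i
  by_cases hi : i < v
  · simp [hi]
  · simp [hi, ha i (Nat.not_lt.1 hi)]

/-- the shift of the address bits used for `fst` and `snd` -/
private def shF_Rep (b : Bool) : ℕ → Fm (ℕ ⊕ ℕ)
  | 0 => cst b
  | j + 1 => .var (.inl j)

private theorem size_shF_Rep (b : Bool) (j : ℕ) : (shF_Rep b j).size ≤ 13 := by
  cases j with
  | zero =>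
    have := size_cst_le (ι := ℕ ⊕ ℕ) b
    simp only [shF_Rep]; omega
  | succ j => simp [shF_Rep]

private theorem cons_Rep (b : Bool) (v : ℕ) :
    RepP v (v + 1) 13 (fun w _ => fun a => w (acons b a)) := by
  refine ⟨shF_Rep b, .var none, fun j _ => size_shF_Rep b j, by simp, ?_⟩
  intro w c a ha
  simp only [eval_var, oenv_none]
  congr 1
  funext i
  cases i with
  | zero => simp [shF_Rep]
  | succ i =>
    by_cases hi : i < v
    · simp [hi, shF_Rep]
    · simp [hi, ha i (Nat.not_lt.1 hi)]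

/-- the substitution for the tail of the address -/
private def tl_Rep : ℕ ⊕ ℕ → Fm (ℕ ⊕ ℕ)
  | .inl i => .var (.inl (i + 1))
  | .inr i => .var (.inr i)

private def tlQ_Rep : Option (ℕ ⊕ ℕ) → Fm (Option (ℕ ⊕ ℕ))
  | none => .var none
  | some (.inl i) => .var (some (.inl (i + 1)))
  | some (.inr i) => .var (some (.inr i))

private theorem eval_tl_Rep (a c : ℕ → Bool) (φ : Fm (ℕ ⊕ ℕ)) :
    (φ.bind tl_Rep).eval (Sum.elim a c) = φ.eval (Sum.elim (atail a) c) := by
  rw [eval_bind]
  congr 1
  funext u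
  cases u <;> rfl

private theorem eval_tlQ_Rep (a c : ℕ → Bool) (r : Bool) (φ : Fm (Option (ℕ ⊕ ℕ))) :
    (φ.bind tlQ_Rep).eval (oenv (Sum.elim a c) r) =
      φ.eval (oenv (Sum.elim (atail a) c) r) := by
  rw [eval_bind]
  congr 1
  funext u
  rcases u with _ | (u | u) <;> rfl

private theorem size_tl_Rep (φ : Fm (ℕ ⊕ ℕ)) : (φ.bind tl_Rep).size ≤ φ.size :=
  size_ren_Rep _ _ (by intro i; cases i <;> simp [tl_Rep])

private theorem size_tlQ_Rep (φ : Fm (Option (ℕ ⊕ ℕ))) : (φ.bind tlQ_Rep).size ≤ φ.size :=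
  size_ren_Rep _ _ (by intro i; rcases i with _ | (i | i) <;> simp [tlQ_Rep])

private theorem pair_Rep (v v1 v2 q1 q2 : ℕ) (R1 R2 : Word → (ℕ → Bool) → Word)
    (h1 : RepP v v1 q1 R1) (h2 : RepP v v2 q2 R2) :
    RepP (v + 1) (max v1 v2) (q1 + q2 + 13) (fun w c => pair (R1 w c) (R2 w c)) := by
  obtain ⟨F1, Q1, hF1, hQ1, hR1⟩ := h1
  obtain ⟨F2, Q2, hF2, hQ2, hR2⟩ := h2
  refine ⟨fun j => Fm.ite (.var (.inl 0)) (if j < v2 then (F2 j).bind tl_Rep else ff)
    (if j < v1 then (F1 j).bind tl_Rep else ff),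
    Fm.ite (.var (some (.inl 0))) (Q2.bind tlQ_Rep) (Q1.bind tlQ_Rep), ?_, ?_, ?_⟩
  · intro j _
    have e1 : (if j < v1 then (F1 j).bind tl_Rep else ff).size ≤ q1 + 3 := by
      split_ifs with h
      · have := size_tl_Rep (F1 j)
        have := hF1 j h
        omega
      · simp
    have e2 : (if j < v2 then (F2 j).bind tl_Rep else ff).size ≤ q2 + 3 := by
      split_ifs with h
      · have := size_tl_Rep (F2 j)
        have := hF2 j h
        omega
      · simp
    simp only [size_ite, size_var]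
    omega
  · have e1 := size_tlQ_Rep Q1
    have e2 := size_tlQ_Rep Q2
    simp only [size_ite, size_var]
    omega
  · intro w c a ha
    have hs : Supp v (atail a) := fun i hi => ha (i + 1) (by omega)
    simp only [eval_ite, eval_var, oenv_some, Sum.elim_inl, eval_tlQ_Rep]
    cases h0 : a 0 with
    | true =>
      have : pair (R1 w c) (R2 w c) a = R2 w c (atail a) := by simp [pair, h0]
      rw [this, hR2 w c _ hs, cond_true]
      congr 3
      funext j
      simp only [cond_true]
      by_cases hj : j < v2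
      · simp only [hj, decide_true, Bool.true_and, if_true, eval_tl_Rep, lt_max_iff, or_true]
      · simp [hj]
    | false =>
      have : pair (R1 w c) (R2 w c) a = R1 w c (atail a) := by simp [pair, h0]
      rw [this, hR1 w c _ hs, cond_false]
      congr 3
      funext j
      simp only [cond_false]
      by_cases hj : j < v1
      · simp only [hj, decide_true, Bool.true_and, if_true, eval_tl_Rep, lt_max_iff, true_or]
      · simp [hj]

/-- the substitution for `comp` -/
private def cp_Rep (v1 : ℕ) (F1 : ℕ → Fm (ℕ ⊕ ℕ)) : ℕ ⊕ ℕ → Fm (ℕ ⊕ ℕ)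
  | .inl i => if i < v1 then F1 i else ff
  | .inr i => .var (.inr i)

private def cpI_Rep (v1 : ℕ) (F1 : ℕ → Fm (ℕ ⊕ ℕ)) : Option (ℕ ⊕ ℕ) → Fm (Option (ℕ ⊕ ℕ))
  | none => .var none
  | some u => (cp_Rep v1 F1 u).bind fun u => .var (some u)

private def cpQ_Rep (v1 : ℕ) (F1 : ℕ → Fm (ℕ ⊕ ℕ)) (Q2 : Fm (Option (ℕ ⊕ ℕ))) :
    Option (ℕ ⊕ ℕ) → Fm (Option (ℕ ⊕ ℕ))
  | none => Q2.bind (cpI_Rep v1 F1)
  | some u => .var (some u)

private theorem comp_Rep (v v1 v2 q1 q2 : ℕ) (R1 R2 : Word → (ℕ → Bool) → Word)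
    (h1 : RepP v v1 q1 R1) (h2 : RepP v1 v2 q2 R2) :
    RepP v v2 ((q1 + q2 + 2) ^ 13) (fun w c => R1 (R2 w c) c) := by
  obtain ⟨F1, Q1, hF1, hQ1, hR1⟩ := h1
  obtain ⟨F2, Q2, hF2, hQ2, hR2⟩ := h2
  have hq1 : 1 ≤ q1 := (one_le_size Q1).trans hQ1
  have hq2 : 1 ≤ q2 := (one_le_size Q2).trans hQ2
  have s1 : ∀ u, (cp_Rep v1 F1 u).size ≤ q1 + 3 := by
    intro u
    rcases u with i | i
    · simp only [cp_Rep]
      split_ifs with h
      · have := hF1 i h; omega
      · simp
    · simp [cp_Rep]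
  have s2 : ∀ u, (cpI_Rep v1 F1 u).size ≤ q1 + 3 := by
    intro u
    rcases u with _ | u
    · simp [cpI_Rep]
    · exact (size_ren_Rep _ _ (fun i => by simp)).trans (s1 u)
  have s3 : ∀ u, (cpQ_Rep v1 F1 Q2 u).size ≤ q2 * (q1 + 3) := by
    intro u
    rcases u with _ | u
    · have := size_bind_le (cpI_Rep v1 F1) Q2 (q1 + 3) s2 (by omega)
      simp only [cpQ_Rep]
      exact this.trans (Nat.mul_le_mul_right _ hQ2)
    · simp only [cpQ_Rep, size_var]
      exact Nat.mul_pos hq2 (by omega)
  have hn : q1 * (q2 * (q1 + 3)) ≤ (q1 + q2 + 2) ^ 13 := by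
    set n := q1 + q2 + 2 with hn
    have a1 : q1 ≤ n := by omega
    have a2 : q2 ≤ n := by omega
    have a3 : q1 + 3 ≤ n * n := by nlinarith
    calc q1 * (q2 * (q1 + 3)) ≤ n * (n * (n * n)) :=
          Nat.mul_le_mul a1 (Nat.mul_le_mul a2 a3)
      _ = n ^ 4 := by ring
      _ ≤ n ^ 13 := Nat.pow_le_pow_right (by omega) (by norm_num)
  refine ⟨fun j => (F2 j).bind (cp_Rep v1 F1), Q1.bind (cpQ_Rep v1 F1 Q2), ?_, ?_, ?_⟩
  · intro j hj
    have := size_bind_le (cp_Rep v1 F1) (F2 j) (q1 + 3) s1 (by omega)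
    calc ((F2 j).bind (cp_Rep v1 F1)).size ≤ (F2 j).size * (q1 + 3) := this
      _ ≤ q2 * (q1 + 3) := Nat.mul_le_mul_right _ (hF2 j hj)
      _ ≤ q1 * (q2 * (q1 + 3)) := Nat.le_mul_of_pos_left _ hq1
      _ ≤ _ := hn
  · have := size_bind_le (cpQ_Rep v1 F1 Q2) Q1 (q2 * (q1 + 3)) s3 (Nat.mul_pos hq2 (by omega))
    calc (Q1.bind (cpQ_Rep v1 F1 Q2)).size ≤ Q1.size * (q2 * (q1 + 3)) := this
      _ ≤ q1 * (q2 * (q1 + 3)) := Nat.mul_le_mul_right _ hQ1
      _ ≤ _ := hn
  · intro w c a ha
    set b : Addr := fun j => decide (j < v1) && (F1 j).eval (Sum.elim a c) with hb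
    have hsb : Supp v1 b := by
      intro i hi
      simp [hb, Nat.not_lt.2 hi]
    have eB : (fun u => (cp_Rep v1 F1 u).eval (Sum.elim a c)) = Sum.elim b c := by
      funext u
      rcases u with i | i
      · by_cases hi : i < v1
        · simp [cp_Rep, hb, hi]
        · simp [cp_Rep, hb, hi]
      · rfl
    have eI : ∀ r : Bool, (fun u => (cpI_Rep v1 F1 u).eval (oenv (Sum.elim a c) r)) =
        oenv (Sum.elim b c) r := by
      intro r
      funext u
      rcases u with _ | u
      · rfl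
      · simp only [cpI_Rep, eval_bind, eval_var, oenv_some]
        exact congrFun eB u
    change R1 (R2 w c) c a = _
    rw [hR1 (R2 w c) c a ha, eval_bind]
    congr 1
    funext u
    rcases u with _ | u
    · simp only [oenv_none, cpQ_Rep, eval_bind, eI, eB]
      exact hR2 w c b hsb
    · rfl

private theorem sub_Rep (v U β q : ℕ) (P : ℕ → Fm ℕ) (hP : ∀ j < U, (P j).size ≤ q) :
    RepP v (U + β) (q + 13) (fun w c => sub U β (fun j => (P j).eval c) w) := by
  refine ⟨fun j => if j < U then (P j).bind (fun i => .var (.inr i)) else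
    if j - U < β then .var (.inl (j - U)) else ff, .var none, ?_, by simp, ?_⟩
  · intro j _
    dsimp only
    split_ifs with h1 h2
    · have := hP j h1
      have := size_ren_Rep (fun i => (.var (.inr i) : Fm (ℕ ⊕ ℕ))) (P j) (fun i => by simp)
      omega
    · simp
    · simp
  · intro w c a ha
    simp only [eval_var, oenv_none, sub]
    congr 1
    funext j
    by_cases h1 : j < U
    · have : j < U + β := by omega
      simp [cat, h1, this]
    · by_cases h2 : j - U < β
      · have : j < U + β := by omega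
        simp [cat, trunc, h1, h2, this]
      · have : ¬ j < U + β := by omega
        simp [cat, trunc, h1, h2]

private theorem bit_Rep (v q : ℕ) (P : Fm ℕ) (hP : P.size ≤ q) :
    RepP v 0 (q + 13) (fun _ c _ => P.eval c) := by
  refine ⟨fun _ => tt, P.bind (fun i => .var (some (.inr i))), fun j hj => absurd hj (by omega),
    ?_, ?_⟩
  · have := size_ren_Rep (fun i => (.var (some (.inr i)) : Fm (Option (ℕ ⊕ ℕ)))) P
      (fun i => by simp)
    omega
  · intro w c a _
    simp

private theorem tr_Rep (v κ : ℕ) : RepP v κ 13 (fun w _ => tr κ w) := by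
  refine ⟨fun j => .var (.inl j), .var none, fun j _ => by simp, by simp, ?_⟩
  intro w c a _
  rfl

private theorem mono_Rep (v v1 v' v1' q q' : ℕ) (R : Word → (ℕ → Bool) → Word)
    (h : RepP v v1 q R) (hv : v' ≤ v) (hv1 : v1 ≤ v1') (hq : q + 13 ≤ q') :
    RepP v' v1' q' R := by
  obtain ⟨F, Q, hF, hQ, hR⟩ := h
  refine ⟨fun j => if j < v1 then F j else ff, Q, ?_, by omega, ?_⟩
  · intro j _
    dsimp only
    split_ifs with h1
    · have := hF j h1; omega
    · simp only [size_ff]; omega
  · intro w c a ha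
    rw [hR w c a (ha.mono hv)]
    congr 3
    funext j
    by_cases h1 : j < v1
    · have : j < v1' := by omega
      simp [h1, this]
    · simp [h1]

private theorem par_Rep (v v1 q : ℕ) (R : Word → (ℕ → Bool) → Word) (c : ℕ → Bool)
    (h : RepP v v1 q R) : RepP v v1 (q * 13) (fun w _ => R w c) := by
  obtain ⟨F, Q, hF, hQ, hR⟩ := h
  have s1 : ∀ u : ℕ ⊕ ℕ, (Sum.elim (fun i => (.var (.inl i) : Fm (ℕ ⊕ ℕ)))
      (fun i => cst (c i)) u).size ≤ 3 := by
    intro u
    rcases u with i | i
    · simp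
    · exact size_cst_le _
  have s2 : ∀ u : Option (ℕ ⊕ ℕ), (Option.elim u (.var none : Fm (Option (ℕ ⊕ ℕ)))
      (Sum.elim (fun i => .var (some (.inl i))) (fun i => cst (c i)))).size ≤ 3 := by
    intro u
    rcases u with _ | (i | i)
    · simp
    · simp
    · exact size_cst_le _
  refine ⟨fun j => (F j).bind (Sum.elim (fun i => .var (.inl i)) (fun i => cst (c i))),
    Q.bind (fun u => Option.elim u (.var none)
      (Sum.elim (fun i => .var (some (.inl i))) (fun i => cst (c i)))), ?_, ?_, ?_⟩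
  · intro j hj
    have a1 := size_bind_le _ (F j) 3 s1 (by norm_num)
    have a2 := hF j hj
    dsimp only
    omega
  · have a1 := size_bind_le _ Q 3 s2 (by norm_num)
    omega
  · intro w c' a ha
    change R w c a = _
    rw [hR w c a ha, eval_bind]
    have e1 : (fun u : ℕ ⊕ ℕ => (Sum.elim (fun i => (.var (.inl i) : Fm (ℕ ⊕ ℕ)))
        (fun i => cst (c i)) u).eval (Sum.elim a c')) = Sum.elim a c := by
      funext u
      rcases u with i | i
      · rfl
      · simp
    congr 1
    funext u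
    rcases u with _ | (i | i)
    · simp only [oenv_none, Option.elim_none, eval_var, eval_bind, e1]
    · rfl
    · simp

/-- Closure properties of representable transformations. -/
theorem hRep : StRepC := by
  refine ⟨13, by norm_num, ?_⟩
  exact
    { id := id_Rep
      fst := fun v => cons_Rep false v
      snd := fun v => cons_Rep true v
      pair := pair_Rep
      comp := comp_Rep
      sub := sub_Rep
      bit := bit_Rep
      tr := tr_Rep
      mono := mono_Rep
      par := par_Rep
      congr := fun v v1 q R R' h hc => by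
        obtain ⟨F, Q, hF, hQ, hR⟩ := h
        exact ⟨F, Q, hF, hQ, fun w c a ha => (hc w c a ha).symm.trans (hR w c a ha)⟩ }

end Pool.Agent.Helper93.TS
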