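import Pool.Agent.Helper93.TS.StN

/-!
# TS module RTE: a network setting is a permutation
-/

namespace Pool.Agent.Helper93.TS

private lemma clr_flp_Rte {K : ℕ} (b : Fin K) (q : Pos K) : clr b (flp b q) = clr b q := by
  unfold clr flp
  simp

private lemma flp_flp_Rte {K : ℕ} (b : Fin K) (q : Pos K) : flp b (flp b q) = q := by
  unfold flp
  simp

private lemma lay_lay_Rte (K l : ℕ) (σ : Pos K → Bool) (q : Pos K) :
    lay K l σ (lay K l σ q) = q := by
  unfold lay
  by_cases h : dm K l < K
  · simp only [h, dif_pos]
    by_cases h2 : σ (clr ⟨dm K l, h⟩ q) = true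
    · simp [h2, clr_flp_Rte, flp_flp_Rte]
    · simp [h2]
  · simp [h]

theorem hRte : StRte := by
  intro K σ l
  induction l with
  | zero => exact Function.bijective_id
  | succ l ih =>
    have h1 : Function.Bijective (lay K l (σ l)) :=
      Function.Involutive.bijective (fun q => lay_lay_Rte K l (σ l) q)
    have h2 : route K σ (l + 1) = route K σ l ∘ lay K l (σ l) := by
      funext q
      rfl
    rw [h2]
    exact ih.comp h1

end Pool.Agent.Helper93.TS
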