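import Pool.Agent.Helper93.TS.StM

/-!
Module SP: speed up.
-/

namespace Pool.Agent.Helper93.TS

theorem hSP (h1 : StSP1) (h2 : StSP2) : StSP := by
  obtain ⟨C, hC⟩ := h2
  refine ⟨C, ?_⟩
  intro v t s U β lam f hf hU hs hUβ hβ hlam
  obtain ⟨ι, hι, M, hb, hfM⟩ := hf
  have hσ : Fintype.card ι ≤ 2 ^ β := hb.card_le.trans hs
  refine ⟨fun w => gpr M (Fintype.equivFin ι) v t U (fst w) (fst (snd w)) (fst (snd (snd w)))
    (snd (snd (snd w))), hC ι (Fintype.card ι) M (Fintype.equivFin ι) v t s U β lam hb hU hσ hUβ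
    hβ hlam, ?_⟩
  intro x
  rw [hfM x, h1 ι (Fintype.card ι) M (Fintype.equivFin ι) v t U β x hU hσ]
  simp only [ixw, fst_pair, snd_pair]

end Pool.Agent.Helper93.TS
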