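import Pool.Agent.Helper93.TS.StM

/-!
# Project TS, module SP1: cutting a computation into blocks
-/

namespace Pool.Agent.Helper93.TS

/-- the number with given binary digits -/
private theorem ofBits_eq_SP1 {U n : ℕ} (f : ℕ → Bool) (hn : n < 2 ^ U)
    (h : ∀ i < U, f i = n.testBit i) : Nat.ofBits (fun j : Fin U => f j) = n := by
  have e : (fun j : Fin U => f j) = fun j : Fin U => n.testBit j := by
    funext j
    exact h j j.2
  rw [e, Nat.ofBits_testBit, Nat.mod_eq_of_lt hn]

private theorem testBit_SP1 {U : ℕ} (f : ℕ → Bool) {i : ℕ} (hi : i < U) :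
    (Nat.ofBits (fun j : Fin U => f j)).testBit i = f i := by
  rw [Nat.testBit_ofBits_lt _ _ hi]

/-- the successor depends on the lower digits only -/
private theorem inc_congr_SP1 {U : ℕ} {a b : Addr} (h : ∀ i < U, a i = b i) :
    ∀ i < U, inc a i = inc b i := by
  intro i hi
  have e : (∀ j < i, a j = true) ↔ ∀ j < i, b j = true := by
    constructor
    · intro hh j hj
      rw [← h j (hj.trans hi)]
      exact hh j hj
    · intro hh j hj
      rw [h j (hj.trans hi)]
      exact hh j hj
  simp only [inc]
  rw [h i hi, decide_eq_decide.2 e]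

/-- the word holding all the memories -/
private noncomputable def yw_SP1 {ι : Type} {σ : ℕ} (M : Mac ι) (e : ι ≃ Fin σ)
    (v t1 U β : ℕ) (x : Word) : Word := fun a =>
  if h : Nat.ofBits (fun j : Fin β => a (U + j)) < σ then
    M.run v x zero 0 zero (Nat.ofBits (fun j : Fin U => a j) * 2 ^ t1)
      (e.symm ⟨Nat.ofBits (fun j : Fin β => a (U + j)), h⟩) else false

private theorem yw_eq_SP1 {ι : Type} {σ : ℕ} (M : Mac ι) (e : ι ≃ Fin σ)
    (v t1 U β : ℕ) (x : Word) (hσ : σ ≤ 2 ^ β) (I : Addr) (n : ℕ) (hn : n < 2 ^ U)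
    (hI : ∀ i < U, I i = n.testBit i) (i : ι) :
    sub U β I (yw_SP1 M e v t1 U β x) (bin (e i)) =
      M.run v x zero 0 zero (n * 2 ^ t1) i := by
  have hei : (e i : ℕ) < 2 ^ β := lt_of_lt_of_le (e i).2 hσ
  have h1 : Nat.ofBits (fun j : Fin U => cat U I (trunc β (bin (e i))) j) = n := by
    apply ofBits_eq_SP1 _ hn
    intro k hk
    rw [cat_of_lt _ _ hk, hI k hk]
  have h2 : Nat.ofBits (fun j : Fin β => cat U I (trunc β (bin (e i))) (U + j)) =
      (e i : ℕ) := by
    apply ofBits_eq_SP1 (fun j => cat U I (trunc β (bin (e i))) (U + j)) hei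
    intro k hk
    show cat U I (trunc β (bin (e i))) (U + k) = _
    rw [cat_add, trunc_apply, decide_eq_true hk, Bool.true_and, bin_apply]
  show yw_SP1 M e v t1 U β x (cat U I (trunc β (bin (e i)))) = _
  unfold yw_SP1
  have h3 : Nat.ofBits (fun j : Fin β => cat U I (trunc β (bin (e i))) (U + j)) < σ := by
    rw [h2]
    exact (e i).2
  rw [dif_pos h3, h1]
  congr 1
  rw [Equiv.symm_apply_eq]
  exact Fin.ext h2

private theorem idx_iw_SP1 (n : ℕ) : idx (iw n) = bin n := by
  classical
  funext j
  show iw n (bin j) = n.testBit j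
  unfold iw
  by_cases h : n.testBit j = true
  · rw [h]
    exact decide_eq_true ⟨j, rfl, h⟩
  · have h' : n.testBit j = false := by simpa using h
    rw [h']
    apply decide_eq_false
    rintro ⟨k, hk, hk2⟩
    have := bin_inj hk
    subst this
    exact h hk2

theorem hSP1 : StSP1 := by
  intro ι σ M e v t U β x hU hσ
  have ht : 2 ^ U * 2 ^ (t - U) = 2 ^ t := by
    rw [← pow_add]
    congr 1
    omega
  constructor
  · intro hacc
    refine ⟨yw_SP1 M e v (t - U) U β x, fun z => ?_⟩
    have hn : Nat.ofBits (fun j : Fin U => z (bin j)) < 2 ^ U := Nat.ofBits_lt_two_pow _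
    have hI : ∀ i < U, idx z i = (Nat.ofBits (fun j : Fin U => z (bin j))).testBit i := by
      intro i hi
      rw [testBit_SP1 (fun j => z (bin j)) hi]
      rfl
    unfold gpr
    simp only
    generalize hnn : Nat.ofBits (fun j : Fin U => z (bin j)) = n at hn hI
    have hu : (fun i => sub U β (idx z) (yw_SP1 M e v (t - U) U β x) (bin (e i))) =
        M.run v x zero 0 zero (n * 2 ^ (t - U)) := by
      funext i
      exact yw_eq_SP1 M e v (t - U) U β x hσ (idx z) n hn hI i
    have hrun : M.run v x zero (n * 2 ^ (t - U))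
        (fun i => sub U β (idx z) (yw_SP1 M e v (t - U) U β x) (bin (e i))) (2 ^ (t - U)) =
        M.run v x zero 0 zero ((n + 1) * 2 ^ (t - U)) := by
      rw [hu]
      have h1 := M.run_add v x zero 0 zero (n * 2 ^ (t - U)) (2 ^ (t - U))
      rw [Nat.zero_add] at h1
      rw [← h1]
      congr 1
      ring
    constructor
    · intro h0 i
      have h1 := congrFun hu i
      rw [h0, Nat.zero_mul] at h1
      exact h1
    · rw [hrun]
      split_ifs with h1
      · rw [h1, ht]
        exact hacc
      · intro i
        have hn1 : n + 1 < 2 ^ U := by omega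
        have hI' : ∀ k < U, inc (idx z) k = (n + 1).testBit k := by
          intro k hk
          have h2 := inc_congr_SP1 (U := U) (a := idx z) (b := bin n) hI k hk
          rw [h2, inc_bin, bin_apply]
        exact (yw_eq_SP1 M e v (t - U) U β x hσ (inc (idx z)) (n + 1) hn1 hI' i).symm
  · rintro ⟨y, hy⟩
    -- the statement for the index `n`
    have key : ∀ n < 2 ^ U, ∀ i, sub U β (bin n) y (bin (e i)) =
        M.run v x zero 0 zero (n * 2 ^ (t - U)) i := by
      intro n
      induction n with
      | zero =>
        intro h0 i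
        have h1 := hy (iw 0)
        unfold gpr at h1
        simp only at h1
        have h2 : Nat.ofBits (fun j : Fin U => iw 0 (bin j)) = 0 := by
          apply ofBits_eq_SP1 (fun j => iw 0 (bin j)) h0
          intro k _
          exact congrFun (idx_iw_SP1 0) k
        rw [h2] at h1
        have h3 := h1.1 rfl i
        rw [idx_iw_SP1] at h3
        rw [h3, Nat.zero_mul]
        rfl
      | succ n ih =>
        intro hn1 i
        have hn : n < 2 ^ U := by omega
        have h1 := hy (iw n)
        unfold gpr at h1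
        simp only at h1
        have h2 : Nat.ofBits (fun j : Fin U => iw n (bin j)) = n := by
          apply ofBits_eq_SP1 (fun j => iw n (bin j)) hn
          intro k _
          exact congrFun (idx_iw_SP1 n) k
        rw [h2] at h1
        have h3 := h1.2
        rw [if_neg (by omega)] at h3
        have h4 := h3 i
        rw [idx_iw_SP1, inc_bin] at h4
        rw [← h4]
        have h5 : (fun i => sub U β (bin n) y (bin (e i))) =
            M.run v x zero 0 zero (n * 2 ^ (t - U)) := funext (ih hn)
        rw [h5]
        have h6 := M.run_add v x zero 0 zero (n * 2 ^ (t - U)) (2 ^ (t - U))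
        rw [Nat.zero_add] at h6
        rw [← h6]
        congr 1
        ring
    have hpos : 0 < 2 ^ U := by positivity
    obtain ⟨n, hn⟩ : ∃ n, 2 ^ U = n + 1 := ⟨2 ^ U - 1, by omega⟩
    have hn' : n < 2 ^ U := by omega
    have h1 := hy (iw n)
    unfold gpr at h1
    simp only at h1
    have h2 : Nat.ofBits (fun j : Fin U => iw n (bin j)) = n := by
      apply ofBits_eq_SP1 (fun j => iw n (bin j)) hn'
      intro k _
      exact congrFun (idx_iw_SP1 n) k
    rw [h2] at h1
    have h3 := h1.2
    rw [if_pos hn.symm, idx_iw_SP1] at h3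
    have h5 : (fun i => sub U β (bin n) y (bin (e i))) =
        M.run v x zero 0 zero (n * 2 ^ (t - U)) := funext (key n hn')
    rw [h5] at h3
    have h6 := M.run_add v x zero 0 zero (n * 2 ^ (t - U)) (2 ^ (t - U))
    rw [Nat.zero_add] at h6
    rw [← h6] at h3
    have h7 : n * 2 ^ (t - U) + 2 ^ (t - U) = 2 ^ t := by
      rw [← ht, hn]
      ring
    rw [h7] at h3
    exact h3

end Pool.Agent.Helper93.TS
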