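import Pool.Agent.Helper93.TS.StM

/-!
# Project TS, module SP2: the machine for the condition on a block
-/

set_option autoImplicit false

namespace Pool.Agent.Helper93.TS

namespace SP2

variable {ι : Type}

/-- the formula saying that the time is zero -/
def firstF (t1 : ℕ) : Fm (V (Option ι)) := Fm.eqc (fun b => Fm.var (V.clk b)) (t1 + 1) 0

theorem eval_firstF (t1 τ : ℕ) (m : Option ι → Bool) (c : ℕ → Bool) (hτ : τ < 2 ^ (t1 + 1)) :
    (firstF t1 : Fm (V (Option ι))).eval (env m τ c) = decide (τ = 0) := by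
  rw [Bool.eq_iff_iff, firstF, Fm.eval_eqc, decide_eq_true_iff]
  constructor
  · intro h
    refine Nat.eq_of_testBit_eq fun i => ?_
    by_cases hi : i < t1 + 1
    · have := h i hi
      simpa using this
    · rw [Nat.zero_testBit]
      exact Nat.testBit_lt_two_pow (hτ.trans_le
        (Nat.pow_le_pow_right (by norm_num) (Nat.not_lt.1 hi)))
  · intro h i _
    simp [h]

theorem size_firstF (t1 : ℕ) : (firstF t1 : Fm (V (Option ι))).size ≤ 6 * t1 + 7 := by
  have := Fm.size_eqc_le (fun b => (Fm.var (V.clk b) : Fm (V (Option ι)))) (t1 + 1) 0 1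
    (fun i _ => by simp)
  unfold firstF
  omega

/-- the substitution -/
def sb {σ : ℕ} (e : ι ≃ Fin σ) (t1 U : ℕ) : V ι → Fm (V (Option ι))
  | .mem i => Fm.ite (firstF t1) (Fm.var (V.par (4 * (e i : ℕ)))) (Fm.var (V.mem (some i)))
  | .clk j => if j < t1 then Fm.var (V.clk j) else
      if j < t1 + U then Fm.var (V.par (4 * (j - t1) + 2)) else Fm.ff
  | .par _ => Fm.ff

theorem size_sb {σ : ℕ} (e : ι ≃ Fin σ) (t1 U : ℕ) (x : V ι) :
    (sb e t1 U x).size ≤ 12 * t1 + 21 := by
  cases x with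
  | mem i =>
    have := size_firstF (ι := ι) t1
    simp only [sb, Fm.size_ite, Fm.size_var]
    omega
  | clk j =>
    simp only [sb]
    split_ifs <;> simp
  | par j => simp [sb]

/-- the memory of `M` -/
def mm {σ : ℕ} (e : ι ≃ Fin σ) (c : ℕ → Bool) (τ : ℕ) (m : Option ι → Bool) : ι → Bool :=
  fun i => if τ = 0 then c (4 * (e i : ℕ)) else m (some i)

theorem eval_sb {σ : ℕ} (e : ι ≃ Fin σ) (t1 U n τ : ℕ) (m : Option ι → Bool) (c : ℕ → Bool)
    (hτ : τ < 2 ^ t1) (hn : ∀ j < U, n.testBit j = c (4 * j + 2)) (hn' : n < 2 ^ U) (x : V ι) :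
    (sb e t1 U x).eval (env m τ c) = env (mm e c τ m) (n * 2 ^ t1 + τ) zero x := by
  cases x with
  | mem i =>
    simp only [sb, Fm.eval_ite, Fm.eval_var, env_mem, env_par, mm]
    rw [eval_firstF t1 τ m c (hτ.trans_le (Nat.pow_le_pow_right (by norm_num) (by omega)))]
    by_cases h : τ = 0 <;> simp [h]
  | clk j =>
    have h1 : (n * 2 ^ t1 + τ).testBit j = if j < t1 then τ.testBit j else n.testBit (j - t1) := by
      rw [Nat.mul_comm]
      exact Nat.testBit_two_pow_mul_add n hτ j
    simp only [sb, env_clk]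
    rw [h1]
    by_cases h : j < t1
    · simp [h]
    · rw [if_neg h, if_neg h]
      by_cases h2 : j < t1 + U
      · rw [if_pos h2, hn (j - t1) (by omega)]
        simp
      · rw [if_neg h2, Fm.eval_ff]
        symm
        exact Nat.testBit_lt_two_pow (hn'.trans_le
          (Nat.pow_le_pow_right (by norm_num) (by omega)))
  | par j => simp [sb]

/-- the substitution in the formulas for the next memory -/
def sb' {σ : ℕ} (e : ι ≃ Fin σ) (t1 U : ℕ) : Option (V ι) → Fm (Option (V (Option ι)))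
  | none => Fm.var none
  | some u => (sb e t1 U u).bind (fun y => Fm.var (some y))

theorem size_sb' {σ : ℕ} (e : ι ≃ Fin σ) (t1 U : ℕ) (x : Option (V ι)) :
    (sb' e t1 U x).size ≤ 12 * t1 + 21 := by
  cases x with
  | none => simp [sb']
  | some u =>
    have h1 := size_sb e t1 U u
    have h2 := Fm.size_bind_le (fun y => (Fm.var (some y) : Fm (Option (V (Option ι)))))
      (sb e t1 U u) 1 (fun i => by simp) le_rfl
    simp only [sb']
    omega

theorem eval_sb' {σ : ℕ} (e : ι ≃ Fin σ) (t1 U n τ : ℕ) (m : Option ι → Bool) (c : ℕ → Bool)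
    (r : Bool) (hτ : τ < 2 ^ t1) (hn : ∀ j < U, n.testBit j = c (4 * j + 2)) (hn' : n < 2 ^ U)
    (x : Option (V ι)) :
    (sb' e t1 U x).eval (oenv (env m τ c) r) =
      oenv (env (mm e c τ m) (n * 2 ^ t1 + τ) zero) r x := by
  cases x with
  | none => simp [sb']
  | some u =>
    simp only [sb', Fm.eval_bind, Fm.eval_var, oenv_some]
    exact eval_sb e t1 U n τ m c hτ hn hn' u

/-- `n = 0` -/
def zF (U : ℕ) : Fm (V (Option ι)) :=
  Fm.conjL ((List.range U).map fun j => (Fm.var (V.par (4 * j + 2))).not)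

/-- `n + 1 = 2 ^ U` -/
def oF (U : ℕ) : Fm (V (Option ι)) :=
  Fm.conjL ((List.range U).map fun j => Fm.var (V.par (4 * j + 2)))

/-- the block begins with the zero memory -/
def uF (ι : Type) (σ : ℕ) : Fm (V (Option ι)) :=
  Fm.conjL ((List.finRange σ).map fun k : Fin σ => (Fm.var (V.par (4 * (k : ℕ)))).not)

/-- the memory is the one of the next block -/
def eF {σ : ℕ} (e : ι ≃ Fin σ) : Fm (V (Option ι)) :=
  Fm.conjL ((List.finRange σ).map fun k : Fin σ =>
    (Fm.var (V.mem (some (e.symm k)))).iff (Fm.var (V.par (4 * (k : ℕ) + 1))))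

/-- the final formula -/
def GF {σ : ℕ} (M : Mac ι) (e : ι ≃ Fin σ) (U : ℕ) : Fm (V (Option ι)) :=
  ((zF U).not.or (uF ι σ)).and (Fm.ite (oF U) (Fm.var (V.mem (some M.out))) (eF e))

theorem size_GF {σ : ℕ} (M : Mac ι) (e : ι ≃ Fin σ) (U : ℕ) :
    (GF M e U).size ≤ 14 * U + 20 * σ + 30 := by
  have h1 : (zF U : Fm (V (Option ι))).size ≤ U * 6 + 1 := by
    have := Fm.size_conjL_le ((List.range U).map fun j =>
      ((Fm.var (V.par (4 * j + 2)) : Fm (V (Option ι)))).not) 3 (by
        intro a ha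
        simp only [List.mem_map, List.mem_range] at ha
        obtain ⟨i, hi, rfl⟩ := ha
        simp)
    simpa [zF] using this
  have h2 : (oF U : Fm (V (Option ι))).size ≤ U * 4 + 1 := by
    have := Fm.size_conjL_le ((List.range U).map fun j =>
      (Fm.var (V.par (4 * j + 2)) : Fm (V (Option ι)))) 1 (by
        intro a ha
        simp only [List.mem_map, List.mem_range] at ha
        obtain ⟨i, hi, rfl⟩ := ha
        simp)
    simpa [oF] using this
  have h3 : (uF ι σ).size ≤ σ * 6 + 1 := by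
    have := Fm.size_conjL_le ((List.finRange σ).map fun k : Fin σ =>
      ((Fm.var (V.par (4 * (k : ℕ))) : Fm (V (Option ι)))).not) 3 (by
        intro a ha
        simp only [List.mem_map, List.mem_finRange, true_and] at ha
        obtain ⟨i, rfl⟩ := ha
        simp)
    simpa [uF] using this
  have h4 : (eF e).size ≤ σ * 14 + 1 := by
    have := Fm.size_conjL_le ((List.finRange σ).map fun k : Fin σ =>
      (Fm.var (V.mem (some (e.symm k)))).iff (Fm.var (V.par (4 * (k : ℕ) + 1)))) 11 (by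
        intro a ha
        simp only [List.mem_map, List.mem_finRange, true_and] at ha
        obtain ⟨i, rfl⟩ := ha
        simp)
    simpa [eF] using this
  simp only [GF, Fm.size_and, Fm.size_or, Fm.size_not, Fm.size_ite, Fm.size_var]
  omega

/-- the machine -/
def NM {σ : ℕ} (M : Mac ι) (e : ι ≃ Fin σ) (v t1 U : ℕ) : Mac (Option ι) where
  nx
    | none => (GF M e U).bind (fun y => Fm.var (some y))
    | some i => Fm.ite (Fm.var (some (V.clk t1))) (Fm.var (some (V.mem (some i))))
        ((M.nx i).bind (sb' e t1 U))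
  ad
    | 0 => Fm.ff
    | j + 1 => if j < v then (M.ad j).bind (sb e t1 U) else Fm.ff
  out := none

theorem bd_NM [Fintype ι] {σ : ℕ} (M : Mac ι) (e : ι ≃ Fin σ) (v t1 U s v' : ℕ)
    (h : M.Bd v s) : (NM M e v t1 U).Bd v' (s * (12 * t1 + 21) + 14 * U + 20 * s + 40) := by
  have hσ : σ ≤ s := by
    have := h.card_le
    rwa [Fintype.card_congr e, Fintype.card_fin] at this
  refine ⟨?_, ?_, ?_⟩
  · have h1 : Fintype.card (Option ι) = Fintype.card ι + 1 := Fintype.card_option
    have h2 := h.card_le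
    rw [h1]
    have h3 : s ≤ s * (12 * t1 + 21) := Nat.le_mul_of_pos_right s (by omega)
    omega
  · intro i
    cases i with
    | none =>
      have h1 := size_GF M e U
      have h2 := Fm.size_bind_le (fun y => (Fm.var (some y) : Fm (Option (V (Option ι)))))
        (GF M e U) 1 (fun i => by simp) le_rfl
      simp only [NM]
      have h3 : 20 * σ ≤ 20 * s := by omega
      omega
    | some i =>
      have h1 := Fm.size_bind_le (sb' e t1 U) (M.nx i) (12 * t1 + 21) (size_sb' e t1 U) (by omega)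
      have h2 : (M.nx i).size * (12 * t1 + 21) ≤ s * (12 * t1 + 21) :=
        Nat.mul_le_mul_right _ (h.nx_le i)
      simp only [NM, Fm.size_ite, Fm.size_var]
      omega
  · intro j _
    cases j with
    | zero => simp [NM]
    | succ j =>
      simp only [NM]
      split_ifs with hj
      · have h1 := Fm.size_bind_le (sb e t1 U) (M.ad j) (12 * t1 + 21) (size_sb e t1 U) (by omega)
        have h2 : (M.ad j).size * (12 * t1 + 21) ≤ s * (12 * t1 + 21) :=
          Nat.mul_le_mul_right _ (h.ad_le j hj)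
        omega
      · simp

section Run
variable {σ : ℕ} (M : Mac ι) (e : ι ≃ Fin σ) (v v' t1 U n : ℕ) (w : Word) (c : ℕ → Bool)

theorem addr_NM (τ : ℕ) (m : Option ι → Bool) (hv : v + 1 ≤ v') (hτ : τ < 2 ^ t1)
    (hn : ∀ j < U, n.testBit j = c (4 * j + 2)) (hn' : n < 2 ^ U) :
    (NM M e v t1 U).addr v' c τ m =
      acons false (M.addr v zero (n * 2 ^ t1 + τ) (mm e c τ m)) := by
  funext j
  cases j with
  | zero => simp [Mac.addr, NM]
  | succ j =>
    rw [acons_succ]
    simp only [Mac.addr, NM]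
    by_cases hj : j < v
    · rw [if_pos hj, Fm.eval_bind]
      have h1 : (fun i => (sb e t1 U i).eval (env m τ c)) =
          env (mm e c τ m) (n * 2 ^ t1 + τ) zero :=
        funext fun x => eval_sb e t1 U n τ m c hτ hn hn' x
      rw [h1]
      have h2 : j + 1 < v' := by omega
      simp [hj, h2]
    · rw [if_neg hj]
      simp [hj]

theorem step_NM (τ : ℕ) (m : Option ι → Bool) (hv : v + 1 ≤ v') (hτ : τ < 2 ^ t1)
    (hn : ∀ j < U, n.testBit j = c (4 * j + 2)) (hn' : n < 2 ^ U) (i : ι) :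
    (NM M e v t1 U).step v' w c τ m (some i) =
      M.step v (fst w) zero (n * 2 ^ t1 + τ) (mm e c τ m) i := by
  simp only [Mac.step]
  rw [addr_NM M e v v' t1 U n c τ m hv hτ hn hn']
  have h0 : (NM M e v t1 U).nx (some i) = Fm.ite (Fm.var (some (V.clk t1)))
      (Fm.var (some (V.mem (some i)))) ((M.nx i).bind (sb' e t1 U)) := rfl
  rw [h0, Fm.eval_ite, Fm.eval_var, oenv_some, env_clk, Nat.testBit_lt_two_pow hτ, cond_false,
    Fm.eval_bind]
  congr 1
  funext x
  exact eval_sb' e t1 U n τ m c _ hτ hn hn' x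

theorem run_NM (hv : v + 1 ≤ v')
    (hn : ∀ j < U, n.testBit j = c (4 * j + 2)) (hn' : n < 2 ^ U) (τ : ℕ) (hτ : τ ≤ 2 ^ t1) :
    mm e c τ ((NM M e v t1 U).run v' w c 0 zero τ) =
      M.run v (fst w) zero (n * 2 ^ t1) (fun i => c (4 * (e i : ℕ))) τ := by
  induction τ with
  | zero => rfl
  | succ τ ih =>
    have ih' := ih (by omega)
    funext i
    have h1 : mm e c (τ + 1) ((NM M e v t1 U).run v' w c 0 zero (τ + 1)) i =
        (NM M e v t1 U).step v' w c (0 + τ) ((NM M e v t1 U).run v' w c 0 zero τ) (some i) := by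
      simp only [mm]
      rw [if_neg (by omega)]
      rfl
    rw [h1, Nat.zero_add, step_NM M e v v' t1 U n w c τ _ hv (by omega) hn hn' i, ih',
      Mac.run_succ]

theorem keep_NM (τ : ℕ) (m : Option ι → Bool) (h1 : 2 ^ t1 ≤ τ) (h2 : τ < 2 ^ (t1 + 1)) (i : ι) :
    (NM M e v t1 U).step v' w c τ m (some i) = m (some i) := by
  simp only [Mac.step]
  have h0 : (NM M e v t1 U).nx (some i) = Fm.ite (Fm.var (some (V.clk t1)))
      (Fm.var (some (V.mem (some i)))) ((M.nx i).bind (sb' e t1 U)) := rfl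
  have h3 : τ.testBit t1 = true := by
    obtain ⟨k, rfl⟩ : ∃ k, τ = 2 ^ t1 + k := ⟨τ - 2 ^ t1, by omega⟩
    have hk : k < 2 ^ t1 := by
      rw [pow_succ] at h2
      omega
    rw [Nat.testBit_two_pow_add_eq, Nat.testBit_lt_two_pow hk]
    rfl
  rw [h0, Fm.eval_ite, Fm.eval_var, oenv_some, env_clk, h3, cond_true, Fm.eval_var, oenv_some,
    env_mem]

theorem runs_NM (k : ℕ) (hk : k ≤ 2 ^ t1) (i : ι) :
    (NM M e v t1 U).run v' w c 0 zero (2 ^ t1 + k) (some i) =
      (NM M e v t1 U).run v' w c 0 zero (2 ^ t1) (some i) := by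
  induction k with
  | zero => rfl
  | succ k ih =>
    rw [← Nat.add_assoc, Mac.run_succ, Nat.zero_add,
      keep_NM M e v v' t1 U w c (2 ^ t1 + k) _ (by omega) (by rw [pow_succ]; omega) i]
    exact ih (by omega)

theorem out_NM (hv : v + 1 ≤ v')
    (hn : ∀ j < U, n.testBit j = c (4 * j + 2)) (hn' : n < 2 ^ U) :
    (NM M e v t1 U).run v' w c 0 zero (2 ^ (t1 + 1)) none = true ↔
    ((n = 0 → ∀ i, c (4 * (e i : ℕ)) = false) ∧
    (if n + 1 = 2 ^ U then
      M.run v (fst w) zero (n * 2 ^ t1) (fun i => c (4 * (e i : ℕ))) (2 ^ t1) M.out = true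
     else ∀ i, M.run v (fst w) zero (n * 2 ^ t1) (fun i => c (4 * (e i : ℕ))) (2 ^ t1) i =
      c (4 * (e i : ℕ) + 1))) := by
  set mf := M.run v (fst w) zero (n * 2 ^ t1) (fun i => c (4 * (e i : ℕ))) (2 ^ t1) with hmf
  have hp : 0 < 2 ^ t1 := Nat.two_pow_pos t1
  obtain ⟨k, hk⟩ : ∃ k, 2 ^ (t1 + 1) = (2 ^ t1 + k) + 1 := ⟨2 ^ t1 - 1, by rw [pow_succ]; omega⟩
  have hk' : k ≤ 2 ^ t1 := by rw [pow_succ] at hk; omega
  rw [hk, Mac.run_succ, Nat.zero_add]
  set m := (NM M e v t1 U).run v' w c 0 zero (2 ^ t1 + k) with hm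
  have hmem : ∀ i, m (some i) = mf i := by
    intro i
    rw [hm, runs_NM M e v v' t1 U w c k hk' i, hmf,
      ← run_NM M e v v' t1 U n w c hv hn hn' (2 ^ t1) le_rfl]
    simp only [mm]
    rw [if_neg (by omega)]
  have h0 : (NM M e v t1 U).step v' w c (2 ^ t1 + k) m none =
      (GF M e U).eval (env m (2 ^ t1 + k) c) := by
    simp only [Mac.step]
    have h1 : (NM M e v t1 U).nx none = (GF M e U).bind (fun y => Fm.var (some y)) := rfl
    rw [h1, Fm.eval_bind]
    rfl
  rw [h0]
  have hz : (zF U : Fm (V (Option ι))).eval (env m (2 ^ t1 + k) c) = true ↔ n = 0 := by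
    simp only [zF, Fm.eval_conjL, List.mem_map, List.mem_range, forall_exists_index, and_imp,
      forall_apply_eq_imp_iff₂, Fm.eval_not, Fm.eval_var, env_par, Bool.not_eq_true']
    constructor
    · intro h
      refine Nat.eq_of_testBit_eq fun j => ?_
      rw [Nat.zero_testBit]
      by_cases hj : j < U
      · rw [hn j hj, h j hj]
      · exact Nat.testBit_lt_two_pow (hn'.trans_le
          (Nat.pow_le_pow_right (by norm_num) (Nat.not_lt.1 hj)))
    · intro h j hj
      rw [← hn j hj, h, Nat.zero_testBit]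
  have ho : (oF U : Fm (V (Option ι))).eval (env m (2 ^ t1 + k) c) = true ↔ n + 1 = 2 ^ U := by
    simp only [oF, Fm.eval_conjL, List.mem_map, List.mem_range, forall_exists_index, and_imp,
      forall_apply_eq_imp_iff₂, Fm.eval_var, env_par]
    have hpU : 0 < 2 ^ U := Nat.two_pow_pos U
    constructor
    · intro h
      have : n = 2 ^ U - 1 := by
        refine Nat.eq_of_testBit_eq fun j => ?_
        rw [Nat.testBit_two_pow_sub_one]
        by_cases hj : j < U
        · rw [hn j hj, h j hj]; simp [hj]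
        · rw [Nat.testBit_lt_two_pow (hn'.trans_le
            (Nat.pow_le_pow_right (by norm_num) (Nat.not_lt.1 hj)))]
          simp [hj]
      omega
    · intro h j hj
      have : n = 2 ^ U - 1 := by omega
      rw [← hn j hj, this, Nat.testBit_two_pow_sub_one]
      simp [hj]
  have hu : (uF ι σ).eval (env m (2 ^ t1 + k) c) = true ↔ ∀ i, c (4 * (e i : ℕ)) = false := by
    simp only [uF, Fm.eval_conjL, List.mem_map, List.mem_finRange, true_and, forall_exists_index,
      forall_apply_eq_imp_iff, Fm.eval_not, Fm.eval_var, env_par, Bool.not_eq_true']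
    exact ⟨fun h i => h (e i), fun h k => by have := h (e.symm k); simpa using this⟩
  have he : (eF e).eval (env m (2 ^ t1 + k) c) = true ↔
      ∀ i, mf i = c (4 * (e i : ℕ) + 1) := by
    simp only [eF, Fm.eval_conjL, List.mem_map, List.mem_finRange, true_and, forall_exists_index,
      forall_apply_eq_imp_iff, Fm.eval_iff, Fm.eval_var, env_par, env_mem, beq_iff_eq, hmem]
    exact ⟨fun h i => by have := h (e i); simpa using this,
      fun h k => by have := h (e.symm k); simpa using this⟩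
  rw [GF, Fm.eval_and, Bool.and_eq_true, Fm.eval_or, Bool.or_eq_true, Fm.eval_not, Fm.eval_ite,
    Bool.not_eq_true', hu]
  refine and_congr ?_ ?_
  · constructor
    · rintro (h | h) h1
      · rw [hz.2 h1] at h
        exact absurd h (by simp)
      · exact h
    · intro h
      by_cases h1 : n = 0
      · exact Or.inr (h h1)
      · left
        rw [← Bool.not_eq_true, hz]
        exact h1
  · by_cases h1 : n + 1 = 2 ^ U
    · rw [ho.2 h1, cond_true, if_pos h1, Fm.eval_var, env_mem, hmem]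
    · have h2 : (oF U : Fm (V (Option ι))).eval (env m (2 ^ t1 + k) c) = false := by
        rw [← Bool.not_eq_true, ho]
        exact h1
      rw [h2, cond_false, if_neg h1, he]

end Run

/-- the word with the parameters -/
def Lw (w : Word) : Word :=
  pair (pair (fst (snd w)) (snd (snd (snd w)))) (pair (fst (snd (snd w))) (fst (snd (snd w))))

theorem bin4 (i : ℕ) (b0 b1 : Bool) :
    bin (4 * i + 2 * b1.toNat + b0.toNat) = acons b0 (acons b1 (bin i)) := by
  funext j
  cases j with
  | zero =>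
    rw [bin_apply, acons_zero, Nat.testBit_zero]
    cases b0 <;> cases b1 <;> simp [Nat.add_mod, Nat.mul_mod]
  | succ j =>
    rw [bin_apply, acons_succ, Nat.testBit_succ]
    have h1 : (4 * i + 2 * b1.toNat + b0.toNat) / 2 = 2 * i + b1.toNat := by
      cases b0 <;> cases b1 <;> simp <;> omega
    rw [h1]
    cases j with
    | zero =>
      rw [acons_zero, Nat.testBit_zero]
      cases b1 <;> simp [Nat.add_mod]
    | succ j =>
      rw [acons_succ, Nat.testBit_succ]
      have h2 : (2 * i + b1.toNat) / 2 = i := by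
        cases b1 <;> simp <;> omega
      rw [h2, bin_apply]

theorem Lw0 (w : Word) (i : ℕ) : Lw w (bin (4 * i)) = fst (snd w) (bin i) := by
  have := bin4 i false false
  simp only [Bool.toNat_false, mul_zero, add_zero] at this
  rw [this, Lw]
  simp [pair]

theorem Lw1 (w : Word) (i : ℕ) : Lw w (bin (4 * i + 1)) = fst (snd (snd w)) (bin i) := by
  have := bin4 i true false
  simp only [Bool.toNat_false, mul_zero, add_zero, Bool.toNat_true] at this
  rw [this, Lw]
  simp [pair]

theorem Lw2 (w : Word) (i : ℕ) : Lw w (bin (4 * i + 2)) = snd (snd (snd w)) (bin i) := by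
  have := bin4 i false true
  simp only [Bool.toNat_false, mul_one, add_zero, Bool.toNat_true] at this
  rw [this, Lw]
  simp [pair]

theorem rep_Lw {C : ℕ} (h : StRep C) : ∃ q : ℕ, ∀ v lam : ℕ, 2 ≤ lam →
    Rep lam (v + lam + 3) q Lw := by
  refine ⟨((2 * C + 2) ^ C + (((2 * C + 2) ^ C + C + 2) ^ C) + C) +
    ((((2 * C + 2) ^ C + C + 2) ^ C) + (((2 * C + 2) ^ C + C + 2) ^ C) + C) + C + C,
    fun v lam hl => ?_⟩
  obtain ⟨r, rfl⟩ : ∃ r, lam = r + 2 := ⟨lam - 2, by omega⟩
  have e0 : C + C + 2 = 2 * C + 2 := by ring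
  have fs : RepP r (r + 2) ((2 * C + 2) ^ C) (fun w _ => fst (snd w)) := by
    have := h.comp r (r + 1) (r + 2) C C _ _ (h.fst r) (h.snd (r + 1))
    rwa [e0] at this
  have ss : RepP r (r + 2) ((2 * C + 2) ^ C) (fun w _ => snd (snd w)) := by
    have := h.comp r (r + 1) (r + 2) C C _ _ (h.snd r) (h.snd (r + 1))
    rwa [e0] at this
  have fss : RepP r (r + 3) (((2 * C + 2) ^ C + C + 2) ^ C) (fun w _ => fst (snd (snd w))) :=
    h.comp r (r + 2) (r + 3) _ C _ _ fs (h.snd (r + 2))
  have sss : RepP r (r + 3) (((2 * C + 2) ^ C + C + 2) ^ C) (fun w _ => snd (snd (snd w))) :=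
    h.comp r (r + 2) (r + 3) _ C _ _ ss (h.snd (r + 2))
  have p1 := h.pair r (r + 2) (r + 3) _ _ _ _ fs sss
  have p2 := h.pair r (r + 3) (r + 3) _ _ _ _ fss fss
  have p3 := h.pair (r + 1) _ _ _ _ _ _ p1 p2
  exact h.mono _ _ (r + 2) (v + (r + 2) + 3) _ _ _ p3 le_rfl (by
    simp only [max_le_iff]
    omega) le_rfl

theorem size_bd (s t U t1 q lam : ℕ) (h1 : t1 + U = t) :
    (s * (12 * t1 + 21) + 14 * U + 20 * s + 40) + q + 2 ^ lam + (t1 + 1) + 2 ≤
      (s + t + 2 ^ lam + 2) ^ (q + 8) := by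
  have hlam : 1 ≤ 2 ^ lam := Nat.one_le_two_pow
  set X := s + t + 2 ^ lam + 2 with hX
  have hX3 : 3 ≤ X := by omega
  have hs : s ≤ X := by omega
  have ht : t1 ≤ X := by omega
  have hU : U ≤ X := by omega
  have hl : 2 ^ lam ≤ X := by omega
  have a1 : s * (12 * t1 + 21) ≤ X * (12 * X + 21) := Nat.mul_le_mul hs (by omega)
  have a2 : q ≤ X ^ q := by
    have : q < 2 ^ q := Nat.lt_two_pow_self
    have h3 : 2 ^ q ≤ X ^ q := Nat.pow_le_pow_left (by omega) q
    omega
  have a3 : 1 ≤ X ^ q := Nat.one_le_pow _ _ (by omega)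
  have a4 : (s * (12 * t1 + 21) + 14 * U + 20 * s + 40) + q + 2 ^ lam + (t1 + 1) + 2 ≤
      X * (12 * X + 21) + 36 * X + 43 + X ^ q := by omega
  refine a4.trans ?_
  have a5 : X * (12 * X + 21) + 36 * X + 43 + 1 ≤ X ^ 8 := by
    have b1 : X * X * 243 ≤ X ^ 8 := by
      have : 3 ^ 5 ≤ X ^ 5 := Nat.pow_le_pow_left hX3 5
      calc X * X * 243 ≤ X * X * (X ^ 5) := Nat.mul_le_mul_left _ this
        _ = X ^ 7 := by ring
        _ ≤ X ^ 8 := Nat.pow_le_pow_right (by omega) (by norm_num)
    nlinarith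
  calc X * (12 * X + 21) + 36 * X + 43 + X ^ q
      ≤ (X * (12 * X + 21) + 36 * X + 43) * X ^ q + X ^ q :=
        Nat.add_le_add_right (Nat.le_mul_of_pos_right _ a3) _
    _ = (X * (12 * X + 21) + 36 * X + 43 + 1) * X ^ q := by ring
    _ ≤ X ^ 8 * X ^ q := Nat.mul_le_mul_right _ a5
    _ = X ^ (q + 8) := by ring

end SP2

open SP2 in
theorem hSP2 (h1 : StLR) (h2 : StRepC) : StSP2 := by
  obtain ⟨C1, hC1⟩ := h1
  obtain ⟨C2, _, hC2⟩ := h2
  obtain ⟨q, hq⟩ := rep_Lw hC2
  refine ⟨(q + 8) * C1, ?_⟩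
  intro ι _ σ M e v t s U β lam hM hU hσ hUβ hβ hlam
  have hL := hC1 (Option ι) (NM M e v (t - U) U) (v + lam + 3) (t - U + 1) lam q
    (s * (12 * (t - U) + 21) + 14 * U + 20 * s + 40) Lw (bd_NM M e v (t - U) U s (v + lam + 3) hM)
    hlam (hq v lam (by omega))
  have hs := size_bd s t U (t - U) q lam (by omega)
  have hs2 : (s * (12 * (t - U) + 21) + 14 * U + 20 * s + 40 + q + 2 ^ lam + (t - U + 1) + 2) ^ C1 ≤
      (s + t + 2 ^ lam + 2) ^ ((q + 8) * C1) := by
    rw [pow_mul]
    exact Nat.pow_le_pow_left hs C1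
  refine (hL.mono_s hs2).congr fun w => ?_
  set c : ℕ → Bool := fun j => decide (j < 2 ^ lam) && Lw w (bin j) with hc
  set n := Nat.ofBits (fun j : Fin U => snd (snd (snd w)) (bin j)) with hndef
  have h4 : 4 * 2 ^ β ≤ 2 ^ lam := by
    have : 2 ^ (β + 2) ≤ 2 ^ lam := Nat.pow_le_pow_right (by norm_num) hβ
    rw [pow_add] at this
    omega
  have c0 : ∀ i : ι, c (4 * (e i : ℕ)) = fst (snd w) (bin (e i)) := by
    intro i
    have h5 := (e i).isLt
    have h6 : 4 * (e i : ℕ) < 2 ^ lam := by omega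
    rw [hc]
    simp only [h6, decide_true, Bool.true_and]
    exact Lw0 w _
  have c1 : ∀ i : ι, c (4 * (e i : ℕ) + 1) = fst (snd (snd w)) (bin (e i)) := by
    intro i
    have h5 := (e i).isLt
    have h6 : 4 * (e i : ℕ) + 1 < 2 ^ lam := by omega
    rw [hc]
    simp only [h6, decide_true, Bool.true_and]
    exact Lw1 w _
  have c2 : ∀ j < U, n.testBit j = c (4 * j + 2) := by
    intro j hj
    have h6 : 4 * j + 2 < 2 ^ lam := by omega
    rw [hc, hndef, Nat.testBit_ofBits_lt _ _ hj]
    simp only [h6, decide_true, Bool.true_and]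
    exact (Lw2 w _).symm
  have hn' : n < 2 ^ U := Nat.ofBits_lt_two_pow _
  have hout := out_NM M e v (v + lam + 3) (t - U) U n w c (by omega) c2 hn'
  simp only [c0, c1] at hout
  have hout' : (NM M e v (t - U) U).out = none := rfl
  rw [hout', hout]
  rfl

end Pool.Agent.Helper93.TS
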