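import Pool.Agent.Helper93.TS.StN

/-! # Project TS, module Snd: soundness of the check of the look-ups -/

namespace Pool.Agent.Helper93.TS

open Pool.Agent.Helper72

/-- the position with a given number -/
private def P_Snd (K n : ℕ) : Pos K := fun i => n.testBit i

private theorem incP_Snd (K n : ℕ) : incP (P_Snd K n) = P_Snd K (n + 1) := by
  funext i
  have h := congrFun (inc_bin n) (i : ℕ)
  have e : decide (∀ j : Fin K, j < i → P_Snd K n j = true) =
      decide (∀ j < (i : ℕ), bin n j = true) := by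
    refine decide_eq_decide.2 ⟨?_, ?_⟩
    · intro hh j hj
      exact hh ⟨j, hj.trans i.2⟩ hj
    · intro hh j hj
      exact hh j hj
  have h1 : incP (P_Snd K n) i =
      (P_Snd K n i ^^ decide (∀ j : Fin K, j < i → P_Snd K n j = true)) := rfl
  rw [h1, e]
  exact h

private theorem per_Snd (K n : ℕ) : P_Snd K (n + 2 ^ K) = P_Snd K n := by
  funext i
  unfold P_Snd
  have h1 := Nat.testBit_mod_two_pow (n + 2 ^ K) K i
  have h2 := Nat.testBit_mod_two_pow n K i
  rw [Nat.add_mod_right] at h1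
  rw [h1] at h2
  simpa [i.2] using h2

private theorem ex_Snd (K : ℕ) (q : Pos K) : ∃ n < 2 ^ K, P_Snd K n = q := by
  refine ⟨Nat.ofBits q, Nat.ofBits_lt_two_pow q, ?_⟩
  funext i
  unfold P_Snd
  rw [Nat.testBit_ofBits_lt _ _ i.2]

private theorem cyc_Snd (K : ℕ) (S : Pos K → Prop) (h1 : ∃ q, S q)
    (h2 : ∀ q, S q → S (incP q)) (q : Pos K) : S q := by
  obtain ⟨q0, hq0⟩ := h1
  obtain ⟨a, ha, rfl⟩ := ex_Snd K q0
  obtain ⟨b, hb, rfl⟩ := ex_Snd K q
  have h3 : ∀ m, S (P_Snd K (a + m)) := by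
    intro m
    induction m with
    | zero => exact hq0
    | succ m ih =>
      rw [← add_assoc, ← incP_Snd]
      exact h2 _ ih
  have h4 := h3 (b + 2 ^ K - a)
  have h5 : a + (b + 2 ^ K - a) = b + 2 ^ K := by omega
  rw [h5, per_Snd] at h4
  exact h4

theorem hSnd : StSnd := by
  intro K R π hAdj hkey hne q hq
  have key : ∀ p, ∃ p0, (R (π p0)).look = false ∧ (R (π p0)).key = (R (π p)).key ∧
      (R (π p0)).val = (R (π p)).val := by
    refine cyc_Snd K _ ?_ ?_
    · obtain ⟨q0, hq0⟩ := hne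
      refine ⟨π.symm q0, π.symm q0, ?_, rfl, rfl⟩
      rw [Equiv.apply_symm_apply]
      exact hq0
    · intro p hp
      by_cases h : (R (π (incP p))).look = true
      · obtain ⟨p0, h1, h2, h3⟩ := hp
        obtain ⟨h4, h5⟩ := hAdj p h
        exact ⟨p0, h1, h2.trans h4, h3.trans h5⟩
      · exact ⟨incP p, by simpa using h, rfl, rfl⟩
  obtain ⟨p0, h1, h2, h3⟩ := key (π.symm q)
  rw [Equiv.apply_symm_apply] at h2 h3
  have h4 := hkey _ h1
  rw [← h2, h4]
  exact ⟨h1, h3⟩

end Pool.Agent.Helper93.TS
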