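import Pool.Agent.Helper93.TS.StN

/-! # Project TS, module Sol1: a solution of the constraints gives an accepting run -/

namespace Pool.Agent.Helper93.TS

open Pool.Agent.Helper72

/-- the position with a given number -/
private def P_Sol1 (K n : ℕ) : Pos K := fun i => n.testBit i

private theorem incP_Sol1 (K n : ℕ) : incP (P_Sol1 K n) = P_Sol1 K (n + 1) := by
  funext i
  have h := congrFun (inc_bin n) (i : ℕ)
  have e : decide (∀ j : Fin K, j < i → P_Sol1 K n j = true) =
      decide (∀ j < (i : ℕ), bin n j = true) := by
    refine decide_eq_decide.2 ⟨?_, ?_⟩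
    · intro hh j hj
      exact hh ⟨j, hj.trans i.2⟩ hj
    · intro hh j hj
      exact hh j hj
  have h1 : incP (P_Sol1 K n) i =
      (P_Sol1 K n i ^^ decide (∀ j : Fin K, j < i → P_Sol1 K n j = true)) := rfl
  rw [h1, e]
  exact h

private theorem dg_P_Sol1 (K n i : ℕ) (h : i < K) : dg (P_Sol1 K n) i = n.testBit i := by
  unfold dg P_Sol1
  rw [dif_pos h]

/-- digits of `2^(k+1) + t` -/
private theorem dgT_Sol1 (k t i : ℕ) (hi : i < k + 2) :
    dg (P_Sol1 (k + 2) (2 ^ (k + 1) + t)) i =
      if i = k + 1 then !(t.testBit (k + 1)) else t.testBit i := by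
  rw [dg_P_Sol1 _ _ _ hi]
  split_ifs with h
  · subst h
    exact Nat.testBit_two_pow_add_eq _ _
  · exact Nat.testBit_two_pow_add_gt (by omega) _

private theorem bit_lt_Sol1 (t k j : ℕ) (h : t < 2 ^ k) (hj : k ≤ j) : t.testBit j = false :=
  Nat.testBit_lt_two_pow (h.trans_le (Nat.pow_le_pow_right (by norm_num) hj))

private theorem route_Sol1 (k : ℕ) (val : Fld → Pos (k + 2) → Bool)
    (hlayer : ∀ l < 2 * (k + 2), ∀ β < k + 4, ∀ q,
      val (.rc (l + 1) β) q = val (.rc l β) (lay (k + 2) l (val (.sw l)) q)) (β : ℕ)
    (hβ : β < k + 4) : ∀ l ≤ 2 * (k + 2), ∀ q,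
      val (.rc l β) q = val (.rc 0 β) (route (k + 2) (fun l => val (.sw l)) l q) := by
  intro l
  induction l with
  | zero => intro _ q; rfl
  | succ l ih =>
    intro hl q
    rw [hlayer l (by omega) β hβ q, ih (by omega)]
    rfl

theorem hSol1 (h1 : StRte) (h2 : StSnd) : StSol1 := by
  intro σ M v k x val hv hout hS
  let s : ℕ → Pos (k + 2) → Bool := fun l => val (.sw l)
  let π : Equiv.Perm (Pos (k + 2)) := Equiv.ofBijective (route (k + 2) s (2 * (k + 2)))
    (h1 (k + 2) s (2 * (k + 2)))
  let R : Pos (k + 2) → Rc (k + 2) := fun q =>
    ⟨val (.rc 0 0) q, fun j => val (.rc 0 (2 + j)) q, val (.rc 0 1) q⟩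
  have hroute : ∀ β < k + 4, ∀ q, val (.rc (2 * (k + 2)) β) q = val (.rc 0 β) (π q) :=
    fun β hβ q => route_Sol1 k val hS.layer β hβ _ le_rfl q
  have hAdj : Adj (fun q => R (π q)) := by
    intro q hq
    have hq' : val (.rc (2 * (k + 2)) 0) (incP q) = true := by
      rw [hroute 0 (by omega)]
      exact hq
    have h3 := hS.adj q hq'
    refine ⟨?_, ?_⟩
    · funext j
      have h4 := h3 (2 + j) (by omega) (by omega)
      rw [hroute _ (by omega), hroute _ (by omega)] at h4
      exact h4
    · have h4 := h3 1 (by omega) le_rfl
      rw [hroute _ (by omega), hroute _ (by omega)] at h4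
      exact h4
  have hkey : ∀ q, (R q).look = false → (R q).key = q := by
    intro q hq
    have hq' : isL k q = false := by
      rw [← hS.look q]
      exact hq
    funext j
    have h3 := hS.key q j j.2
    rw [hq'] at h3
    have h4 : dg q j = q j := by
      unfold dg
      rw [dif_pos j.2]
    rw [cond_false, h4] at h3
    exact h3
  have hne : ∃ q, (R q).look = false := by
    refine ⟨fun _ => false, ?_⟩
    change val (.rc 0 0) _ = false
    rw [hS.look]
    unfold isL dg
    simp
  have hsnd := h2 (k + 2) R π hAdj hkey hne
  -- the second word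
  let pY : Addr → Pos (k + 2) := fun a i => if (i : ℕ) < k then a i else decide ((i : ℕ) = k)
  refine ⟨fun a => val (.rc 0 1) (pY a), ?_⟩
  set w : Word := pair x (fun a => val (.rc 0 1) (pY a)) with hw
  have main : ∀ t ≤ 2 ^ k, ∀ i : Fin (σ + 1), M.run v w zero 0 zero t i =
      val (.st i) (P_Sol1 (k + 2) (2 ^ (k + 1) + t)) := by
    intro t
    induction t with
    | zero =>
      intro _ i
      rw [Mac.run_zero, zero_apply, hS.init _ _ _ i i.2]
      · intro j hj
        rw [dgT_Sol1 k 0 j (by omega), if_neg (by omega)]
        exact Nat.zero_testBit j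
      · rw [dgT_Sol1 k 0 (k + 1) (by omega), if_pos rfl]
        simp
    | succ t ih =>
      intro ht i
      have ht' : t < 2 ^ k := by omega
      have hrun : M.run v w zero 0 zero t =
          fun i : Fin (σ + 1) => val (.st i) (P_Sol1 (k + 2) (2 ^ (k + 1) + t)) := by
        funext i
        exact ih ht'.le i
      set q := P_Sol1 (k + 2) (2 ^ (k + 1) + t) with hq
      have hdk : dg q k = false := by
        rw [hq, dgT_Sol1 k t k (by omega), if_neg (by omega)]
        exact bit_lt_Sol1 t k k ht' le_rfl
      have hdk1 : dg q (k + 1) = true := by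
        rw [hq, dgT_Sol1 k t (k + 1) (by omega), if_pos rfl,
          bit_lt_Sol1 t k (k + 1) ht' (by omega)]
        rfl
      have hL : isL k q = true := by
        unfold isL
        rw [hdk, hdk1]
        rfl
      have htm : tm k q = t := by
        unfold tm
        have e1 : (fun j : Fin k => dg q j) = fun j : Fin k => t.testBit j := by
          funext j
          rw [hq, dgT_Sol1 k t j (by omega), if_neg (by omega)]
        rw [e1, Nat.ofBits_testBit, Nat.mod_eq_of_lt ht']
      have henv : env (fun i : Fin (σ + 1) => val (.st i) q) t zero = menv k val q := by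
        unfold menv
        rw [htm]
      have hstep := hS.step q hL i
      rw [← add_assoc, ← incP_Sol1, ← hq, hstep, Mac.run_succ, hrun, Nat.zero_add]
      change (M.nx i).eval (oenv (env (fun i : Fin (σ + 1) => val (.st i) q) t zero)
        (w (M.addr v zero t fun i => val (.st i) q))) = _
      rw [henv]
      congr 2
      set A := M.addr v zero t (fun i => val (.st i) q) with hA
      have hAj : ∀ j, A j = (decide (j < v) && (M.ad j).eval (menv k val q)) := by
        intro j
        rw [hA]
        unfold Mac.addr
        rw [henv]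
      have hsup : ∀ j, v ≤ j → A j = false := by
        intro j hj
        rw [hAj, decide_eq_false (by omega)]
        rfl
      -- the record at the key
      have hq2 := hsnd q (by
        change val (.rc 0 0) q = true
        rw [hS.look, hL])
      have hkq : ∀ j : Fin (k + 2), (R q).key j = val (.ad j) q := by
        intro j
        have h3 := hS.key q j j.2
        rw [hL, cond_true] at h3
        exact h3
      set q' := (R q).key with hq'
      have hv1 : val (.rc 0 1) q' = val .rd q := by
        have h3 : (R q').val = (R q).val := hq2.2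
        have h4 : (R q).val = val .rd q := hS.valL q hL
        rw [h4] at h3
        exact h3
      have hd1 : ∀ j < k, dg q' j = A (j + 1) := by
        intro j hj
        unfold dg
        rw [dif_pos (by omega), hkq, hAj]
        exact hS.ad q j hj
      have hd2 : dg q' k = A 0 := by
        unfold dg
        rw [dif_pos (by omega), hkq, hAj]
        exact hS.adk q
      have hd3 : dg q' (k + 1) = false := by
        unfold dg
        rw [dif_pos (by omega), hkq]
        exact hS.adk1 q
      rw [← hv1, hw]
      unfold pair
      by_cases h0 : A 0 = true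
      · rw [if_pos h0]
        change val (.rc 0 1) (pY (atail A)) = val (.rc 0 1) q'
        congr 1
        funext i
        change (if (i : ℕ) < k then atail A i else decide ((i : ℕ) = k)) = q' i
        have hqi : dg q' i = q' i := by
          unfold dg
          rw [dif_pos i.2]
        rw [← hqi]
        by_cases hi : (i : ℕ) < k
        · rw [if_pos hi, hd1 _ hi]
          rfl
        · rw [if_neg hi]
          by_cases hik : (i : ℕ) = k
          · rw [hik, hd2, h0]
            simp
          · have hik1 : (i : ℕ) = k + 1 := by omega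
            rw [hik1, hd3]
            simp
      · rw [if_neg h0]
        have h0' : A 0 = false := by simpa using h0
        rw [hS.valX q' hd3 (by rw [hd2, h0'])]
        congr 1
        funext j
        rw [trunc_apply]
        change A (j + 1) = _
        by_cases hj : j < v - 1
        · rw [decide_eq_true hj, hd1 j (by omega)]
          rfl
        · rw [decide_eq_false hj, hsup (j + 1) (by omega)]
          rfl
  have hfin := main (2 ^ k) le_rfl 0
  rw [hfin]
  refine hS.acc _ ?_ ?_ ?_
  · intro i hi
    rw [dgT_Sol1 k _ i (by omega), if_neg (by omega)]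
    exact Nat.testBit_two_pow_of_ne (by omega)
  · rw [dgT_Sol1 k _ k (by omega), if_neg (by omega)]
    exact Nat.testBit_two_pow_self
  · rw [dgT_Sol1 k _ (k + 1) (by omega), if_pos rfl, Nat.testBit_two_pow_of_ne (by omega)]
    rfl

end Pool.Agent.Helper93.TS
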