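import Pool.Agent.Helper93.TS.Mod

/-!
Basic lemmas for project TS.
-/

namespace Pool.Agent.Helper93.TS

theorem Dc.mono_s {v t s s' : ℕ} {f : Word → Prop} (h : Dc v t s f) (hs : s ≤ s') :
    Dc v t s' f := by
  obtain ⟨ι, hι, M, hb, hf⟩ := h
  exact ⟨ι, hι, M, ⟨hb.card_le.trans hs, fun i => (hb.nx_le i).trans hs,
    fun j hj => (hb.ad_le j hj).trans hs⟩, hf⟩

theorem Dc.congr {v t s : ℕ} {f g : Word → Prop} (h : Dc v t s f) (hfg : ∀ w, g w ↔ f w) :
    Dc v t s g := by
  obtain ⟨ι, hι, M, hb, hf⟩ := h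
  exact ⟨ι, hι, M, hb, fun w => (hfg w).trans (hf w)⟩

theorem Mac.Bd.mono {ι : Type} [Fintype ι] {M : Mac ι} {v s s' : ℕ} (h : M.Bd v s)
    (hs : s ≤ s') : M.Bd v s' :=
  ⟨h.card_le.trans hs, fun i => (h.nx_le i).trans hs, fun j hj => (h.ad_le j hj).trans hs⟩

@[simp] theorem Mac.run_zero {ι : Type} (M : Mac ι) (v : ℕ) (w : Word) (c : ℕ → Bool) (t : ℕ)
    (m : ι → Bool) : M.run v w c t m 0 = m := rfl

theorem Mac.run_succ {ι : Type} (M : Mac ι) (v : ℕ) (w : Word) (c : ℕ → Bool) (t : ℕ)
    (m : ι → Bool) (n : ℕ) :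
    M.run v w c t m (n + 1) = M.step v w c (t + n) (M.run v w c t m n) := rfl

theorem Mac.run_add {ι : Type} (M : Mac ι) (v : ℕ) (w : Word) (c : ℕ → Bool) (t : ℕ)
    (m : ι → Bool) (a b : ℕ) :
    M.run v w c t m (a + b) = M.run v w c (t + a) (M.run v w c t m a) b := by
  induction b with
  | zero => rfl
  | succ b ih => rw [← Nat.add_assoc, Mac.run_succ, ih, Mac.run_succ, Nat.add_assoc]

/-- two words that agree on the addresses with `v` bits give the same runs -/
theorem Mac.run_congr {ι : Type} (M : Mac ι) (v : ℕ) (w w' : Word) (c : ℕ → Bool) (t : ℕ)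
    (m : ι → Bool) (n : ℕ) (h : ∀ a, Supp v a → w a = w' a) :
    M.run v w c t m n = M.run v w' c t m n := by
  induction n with
  | zero => rfl
  | succ n ih =>
    rw [Mac.run_succ, Mac.run_succ, ih]
    funext i
    simp only [Mac.step]
    rw [h]
    intro j hj
    simp [Mac.addr, Nat.not_lt.2 hj]

theorem Dc.supp {v t s : ℕ} {f : Word → Prop} (h : Dc v t s f) {w w' : Word}
    (hw : ∀ a, Supp v a → w a = w' a) : f w ↔ f w' := by
  obtain ⟨ι, hι, M, hb, hf⟩ := h
  rw [hf, hf, M.run_congr v w w' _ _ _ _ hw]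

@[simp] theorem env_mem {ι : Type} (m : ι → Bool) (t : ℕ) (c : ℕ → Bool) (i : ι) :
    env m t c (.mem i) = m i := rfl
@[simp] theorem env_clk {ι : Type} (m : ι → Bool) (t : ℕ) (c : ℕ → Bool) (j : ℕ) :
    env m t c (.clk j) = t.testBit j := rfl
@[simp] theorem env_par {ι : Type} (m : ι → Bool) (t : ℕ) (c : ℕ → Bool) (j : ℕ) :
    env m t c (.par j) = c j := rfl
@[simp] theorem zero_apply {α : Type} (a : α) : zero a = false := rfl

theorem bin_apply (n j : ℕ) : bin n j = n.testBit j := rfl

theorem trunc_apply (v : ℕ) (a : Addr) (i : ℕ) : trunc v a i = (decide (i < v) && a i) := rfl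

theorem cat_of_lt {U i : ℕ} (I a : Addr) (h : i < U) : cat U I a i = I i := by simp [cat, h]

theorem cat_add (U i : ℕ) (I a : Addr) : cat U I a (U + i) = a i := by
  simp [cat]

theorem bin_ofBits {v : ℕ} {a : Addr} (h : Supp v a) :
    bin (Nat.ofBits fun j : Fin v => a j) = a := by
  funext i
  by_cases hi : i < v
  · rw [bin_apply, Nat.testBit_ofBits_lt _ _ hi]
  · rw [bin_apply, Nat.testBit_ofBits_ge _ _ (Nat.not_lt.1 hi), h i (Nat.not_lt.1 hi)]

theorem inc_bin (n : ℕ) : inc (bin n) = bin (n + 1) := by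
  funext i
  induction i generalizing n with
  | zero =>
    simp only [inc, bin_apply, Nat.testBit_zero]
    rcases Nat.mod_two_eq_zero_or_one n with h | h <;> simp [h, Nat.add_mod]
  | succ i ih =>
    have hd : ∀ m : ℕ, bin m (i + 1) = bin (m / 2) i := fun m => Nat.testBit_succ m i
    have key : ∀ b : Bool, decide (∀ j < i + 1, bin n j = true) = b →
        inc (bin n) (i + 1) = (bin (n / 2) i ^^ b) := by
      intro b hb
      rw [← hb, ← hd]
      rfl
    rcases Nat.mod_two_eq_zero_or_one n with h | h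
    · have h0 : bin n 0 = false := by simp [bin_apply, h]
      have h1 : (n + 1) / 2 = n / 2 := by omega
      have h2 : ¬ ∀ j < i + 1, bin n j = true := fun hh => by
        have := hh 0 (by omega); rw [h0] at this; exact absurd this (by simp)
      rw [key false (decide_eq_false h2), hd, h1, Bool.xor_false]
    · have h0 : bin n 0 = true := by simp [bin_apply, h]
      have h1 : (n + 1) / 2 = n / 2 + 1 := by omega
      have h2 : (∀ j < i + 1, bin n j = true) ↔ ∀ j < i, bin (n / 2) j = true := by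
        constructor
        · intro hh j hj
          have := hh (j + 1) (by omega)
          rwa [bin_apply, Nat.testBit_succ] at this
        · intro hh j hj
          cases j with
          | zero => exact h0
          | succ j => rw [bin_apply, Nat.testBit_succ]; exact hh j (by omega)
      rw [key _ (decide_eq_decide.2 h2), hd, h1, ← ih]
      rfl

end Pool.Agent.Helper93.TS
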