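import Pool.Agent.Helper93.TS.StN
import Pool.Agent.Helper93.TS.Base

/-!
# Project TS, module SOL2: an accepting computation gives a solution of the constraints
-/

namespace Pool.Agent.Helper93.TS

/-- the address with the first `K` digits of `q` -/
theorem supp_dg_Sol2 {K : ℕ} (q : Pos K) : Supp K (dg q) := by
  intro i hi
  simp [dg, Nat.not_lt.2 hi]

theorem bin_tm_Sol2 {k : ℕ} (q : Pos (k + 2)) : bin (tm k q) = trunc k (dg q) := by
  have h : Supp k (trunc k (dg q)) := supp_trunc _ _
  rw [← bin_ofBits h]
  congr 1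
  unfold tm
  congr 1
  funext j
  simp [trunc]

theorem dg_incP_Sol2 {K : ℕ} (q : Pos K) (i : ℕ) (hi : i < K) : dg (incP q) i = inc (dg q) i := by
  have h : (∀ j : Fin K, j < ⟨i, hi⟩ → q j = true) ↔ ∀ j < i, dg q j = true := by
    constructor
    · intro h j hj
      have hjK : j < K := hj.trans hi
      have := h ⟨j, hjK⟩ (by simpa using hj)
      simp [dg, hjK, this]
    · intro h j hj
      have := h j.1 (by simpa [Fin.lt_def] using hj)
      simpa [dg, j.2] using this
  simp only [dg, hi, dif_pos, incP, inc]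
  rw [decide_eq_decide.2 h]
  rfl

/-- `inc` of the digits up to `k` -/
theorem inc_tm_Sol2 {k : ℕ} (q : Pos (k + 2)) (i : ℕ) (hi : i < k) :
    dg (incP q) i = (tm k q + 1).testBit i := by
  rw [dg_incP_Sol2 q i (by omega), ← bin_apply, ← inc_bin, bin_tm_Sol2]
  have h : (∀ j < i, dg q j = true) ↔ ∀ j < i, trunc k (dg q) j = true := by
    constructor
    · intro h j hj
      simp [trunc, hj.trans hi, h j hj]
    · intro h j hj
      have := h j hj
      simpa [trunc, hj.trans hi] using this
  have hd : decide (∀ j < i, dg q j = true) = decide (∀ j < i, trunc k (dg q) j = true) :=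
    decide_eq_decide.2 h
  simp only [inc]
  rw [hd]
  simp [trunc, hi]

theorem inc_tm_k_Sol2 {k : ℕ} (q : Pos (k + 2)) (hk : dg q k = false) :
    dg (incP q) k = (tm k q + 1).testBit k := by
  rw [dg_incP_Sol2 q k (by omega), ← bin_apply, ← inc_bin, bin_tm_Sol2]
  have h : (∀ j < k, dg q j = true) ↔ ∀ j < k, trunc k (dg q) j = true := by
    constructor
    · intro h j hj
      simp [trunc, hj, h j hj]
    · intro h j hj
      have := h j hj
      simpa [trunc, hj] using this
  have hd : decide (∀ j < k, dg q j = true) = decide (∀ j < k, trunc k (dg q) j = true) :=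
    decide_eq_decide.2 h
  simp only [inc]
  rw [hd, hk]
  simp [trunc]

theorem inc_k1_Sol2 {k : ℕ} (q : Pos (k + 2)) (hk : dg q k = false) :
    dg (incP q) (k + 1) = dg q (k + 1) := by
  rw [dg_incP_Sol2 q (k + 1) (by omega)]
  have h : ¬ ∀ j < k + 1, dg q j = true := fun h => by
    have := h k (by omega)
    rw [hk] at this
    exact absurd this (by simp)
  have hd : decide (∀ j < k + 1, dg q j = true) = false := decide_eq_false h
  simp only [inc]
  rw [hd, Bool.xor_false]

theorem tm_lt_Sol2 {k : ℕ} (q : Pos (k + 2)) : tm k q < 2 ^ k := Nat.ofBits_lt_two_pow _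

/-- the memory at the time after that of `q` -/
theorem mem_incP_Sol2 {k : ℕ} {A : Type} (m : ℕ → A) (q : Pos (k + 2)) (hk : dg q k = false) :
    (if dg (incP q) k = true then m (2 ^ k) else m (tm k (incP q))) = m (tm k q + 1) := by
  have hlt := tm_lt_Sol2 q
  rcases Nat.lt_or_ge (tm k q + 1) (2 ^ k) with h | h
  · have h1 : dg (incP q) k = false := by
      rw [inc_tm_k_Sol2 q hk]
      exact Nat.testBit_lt_two_pow h
    rw [if_neg (by simp [h1])]
    congr 1
    apply Nat.eq_of_testBit_eq
    intro i
    have h2 : (tm k (incP q)).testBit i = trunc k (dg (incP q)) i := congrFun (bin_tm_Sol2 (incP q)) i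
    rw [h2]
    rcases Nat.lt_or_ge i k with hi | hi
    · simp only [trunc, hi, decide_true, Bool.true_and]
      exact inc_tm_Sol2 q i hi
    · have : (tm k q + 1).testBit i = false :=
        Nat.testBit_lt_two_pow (h.trans_le (Nat.pow_le_pow_right (by norm_num) hi))
      rw [this]
      simp [trunc, Nat.not_lt.2 hi]
  · have h0 : tm k q + 1 = 2 ^ k := by omega
    have h1 : dg (incP q) k = true := by
      rw [inc_tm_k_Sol2 q hk, h0]
      simp
    rw [if_pos h1, h0]

/-- an accepting computation gives a solution of the constraints -/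
theorem hSol2 (h1 : StBen) (h2 : StCpl) : StSol2 := by
  intro σ M v k x y hv hout hacc
  obtain ⟨m, hm⟩ : ∃ m : ℕ → Fin (σ + 1) → Bool, m = M.run v (pair x y) zero 0 zero := ⟨_, rfl⟩
  have hm0 : m 0 = zero := by rw [hm]; rfl
  have hms : ∀ t, m (t + 1) = M.step v (pair x y) zero t (m t) := by
    intro t
    rw [hm]
    change M.step v (pair x y) zero (0 + t) _ = _
    rw [Nat.zero_add]
  rw [← hm] at hacc
  -- the fields
  obtain ⟨stv, hstv⟩ : ∃ stv : ℕ → Pos (k + 2) → Bool, stv = fun i q =>
      if h : i < σ + 1 then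
        (if dg q (k + 1) = true then
          (if dg q k = true then m (2 ^ k) else m (tm k q)) ⟨i, h⟩ else false) else false := ⟨_, rfl⟩
  obtain ⟨me, hme⟩ : ∃ me : Pos (k + 2) → V (Fin (σ + 1)) → Bool,
      me = fun q => env (fun i : Fin (σ + 1) => stv i q) (tm k q) zero := ⟨_, rfl⟩
  obtain ⟨adv, hadv⟩ : ∃ adv : ℕ → Pos (k + 2) → Bool, adv = fun j q =>
      if j < k then (decide (j + 1 < v) && (M.ad (j + 1)).eval (me q)) else
        if j = k then (decide (0 < v) && (M.ad 0).eval (me q)) else false := ⟨_, rfl⟩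
  obtain ⟨rdv, hrdv⟩ : ∃ rdv : Pos (k + 2) → Bool, rdv = fun q =>
      pair x y (M.addr v zero (tm k q) (fun i : Fin (σ + 1) => stv i q)) := ⟨_, rfl⟩
  obtain ⟨v1, hv1⟩ : ∃ v1 : Pos (k + 2) → Bool, v1 = fun q =>
      if isL k q = true then rdv q else
        if dg q (k + 1) = true then false else
          if dg q k = true then y (trunc (v - 1) (dg q)) else x (trunc (v - 1) (dg q)) := ⟨_, rfl⟩
  obtain ⟨rc0, hrc0⟩ : ∃ rc0 : ℕ → Pos (k + 2) → Bool, rc0 = fun β q =>
      if β = 0 then isL k q else if β = 1 then v1 q else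
        bif isL k q then adv (β - 2) q else dg q (β - 2) := ⟨_, rfl⟩
  obtain ⟨R, hR⟩ : ∃ R : Pos (k + 2) → Rc (k + 2), R = fun q =>
      ⟨isL k q, fun j => rc0 (2 + j) q, v1 q⟩ := ⟨_, rfl⟩
  have hRl : ∀ q, (R q).look = isL k q := fun q => by rw [hR]
  have hRk : ∀ q (j : Fin (k + 2)), (R q).key j = rc0 (2 + j) q := fun q j => by rw [hR]
  have hRv : ∀ q, (R q).val = v1 q := fun q => by rw [hR]
  have hkey : ∀ q (j : ℕ), rc0 (2 + j) q = bif isL k q then adv j q else dg q j := by
    intro q j
    rw [hrc0]
    simp only [Nat.add_sub_cancel_left]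
    rw [if_neg (by omega), if_neg (by omega)]
  -- the memory at a look-up position
  have hst : ∀ q, isL k q = true → (fun i : Fin (σ + 1) => stv i q) = m (tm k q) := by
    intro q hq
    have hq' : dg q (k + 1) = true ∧ dg q k = false := by simpa [isL] using hq
    funext i
    rw [hstv]
    simp [hq'.1, hq'.2, i.2]
  -- conditions of CPL
  have hc1 : ∀ q, (R q).look = false → (R q).key = q := by
    intro q hq
    rw [hRl] at hq
    funext j
    rw [hRk, hkey, hq]
    simp [dg, j.2]
  have hc2 : ∀ q, (R q).look = true →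
      (R (R q).key).look = false ∧ (R (R q).key).val = (R q).val := by
    intro q hq
    rw [hRl] at hq
    obtain ⟨p, hp⟩ : ∃ p, p = (R q).key := ⟨_, rfl⟩
    rw [← hp]
    have hpd : ∀ j < k + 2, dg p j = adv j q := by
      intro j hj
      rw [hp]
      simp only [dg, hj, dif_pos]
      rw [hRk, hkey, hq]
      rfl
    have hp1 : dg p (k + 1) = false := by
      rw [hpd (k + 1) (by omega), hadv]
      simp
    have hpl : isL k p = false := by simp [isL, hp1]
    refine ⟨by rw [hRl]; exact hpl, ?_⟩
    rw [hRv, hRv]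
    obtain ⟨a, ha⟩ : ∃ a, a = M.addr v zero (tm k q) (fun i : Fin (σ + 1) => stv i q) := ⟨_, rfl⟩
    have haj : ∀ j, a j = (decide (j < v) && (M.ad j).eval (me q)) := by
      intro j
      rw [ha, hme]
      rfl
    have hpk : dg p k = a 0 := by
      rw [hpd k (by omega), hadv, haj]
      simp
    have hta : trunc (v - 1) (dg p) = atail a := by
      funext j
      simp only [trunc, atail]
      rw [haj]
      rcases Nat.lt_or_ge j (v - 1) with hj | hj
      · have hjk : j < k := by omega
        rw [hpd j (by omega), hadv]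
        simp only [hjk, if_true, hj, decide_true, Bool.true_and]
      · have : ¬ (j + 1 < v) := by omega
        simp [Nat.not_lt.2 hj, this]
    have hq1 : v1 q = pair x y a := by
      rw [hv1]
      simp only [hq, if_true]
      rw [hrdv, ha]
    rw [hq1, hv1]
    simp only [hpl, hp1, hta, hpk, pair]
    simp
  obtain ⟨π, hπ⟩ := h2 (k + 2) R hc1 hc2
  obtain ⟨S, hS⟩ := h1 (k + 2) π
  refine ⟨fun F q => match F with
    | .rc l β => rc0 β (route (k + 2) S l q)
    | .sw l => S l q
    | .st i => stv i q
    | .rd => rdv q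
    | .ad j => adv j q
    | .cs => false, ?_⟩
  constructor
  · intro l hl β hβ q
    rfl
  · intro q
    change rc0 0 q = _
    rw [hrc0]
    simp
  · intro q j hj
    exact hkey q j
  · intro q hq
    change rc0 1 q = rdv q
    rw [hrc0]
    simp only [one_ne_zero, if_false, if_true]
    rw [hv1]
    simp only [hq, if_true]
  · intro q hq1 hq2
    change rc0 1 q = _
    rw [hrc0]
    simp only [one_ne_zero, if_false, if_true]
    rw [hv1]
    simp [isL, hq1, hq2]
  · intro q j hj
    change adv j q = (decide (j + 1 < v) && (M.ad (j + 1)).eval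
      (env (fun i : Fin (σ + 1) => stv i q) (tm k q) zero))
    rw [hadv, hme]
    simp only [hj, if_true]
  · intro q
    change adv k q = (decide (0 < v) && (M.ad 0).eval
      (env (fun i : Fin (σ + 1) => stv i q) (tm k q) zero))
    rw [hadv, hme]
    simp only [lt_irrefl, if_false, if_true]
  · intro q
    change adv (k + 1) q = false
    rw [hadv]
    simp
  · intro q hq i
    change stv i (incP q) = (M.nx i).eval (oenv
      (env (fun i : Fin (σ + 1) => stv i q) (tm k q) zero) (rdv q))
    have hq' : dg q (k + 1) = true ∧ dg q k = false := by simpa [isL] using hq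
    have hA : stv i (incP q) = m (tm k q + 1) i := by
      rw [hstv]
      simp only [i.2, dif_pos]
      rw [if_pos (by rw [inc_k1_Sol2 q hq'.2]; exact hq'.1), mem_incP_Sol2 m q hq'.2]
    rw [hA, hms, hrdv]
    simp only [hst q hq]
    rfl
  · intro q hq β hβ hβ1
    change rc0 β (route (k + 2) S (2 * (k + 2)) q) = rc0 β (route (k + 2) S (2 * (k + 2)) (incP q))
    change rc0 0 (route (k + 2) S (2 * (k + 2)) (incP q)) = true at hq
    rw [hS] at hq ⊢
    rw [hS]
    have hq2 : (R (π (incP q))).look = true := by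
      rw [hRl]
      rw [hrc0] at hq
      simpa using hq
    obtain ⟨hk1, hk2⟩ := hπ q hq2
    rcases Nat.lt_or_ge 1 β with h | h
    · obtain ⟨j, rfl⟩ : ∃ j, β = 2 + j := ⟨β - 2, by omega⟩
      have hj : j < k + 2 := by omega
      have := congrFun hk1 ⟨j, hj⟩
      rw [hRk, hRk] at this
      exact this
    · have hβ' : β = 1 := by omega
      subst hβ'
      rw [hRv, hRv] at hk2
      rw [hrc0]
      simpa using hk2
  · intro q hq1 hq2 i hi
    change stv i q = false
    have h0 : tm k q = 0 := by
      apply Nat.eq_of_testBit_eq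
      intro i
      have h2 : (tm k q).testBit i = trunc k (dg q) i := congrFun (bin_tm_Sol2 q) i
      rw [h2]
      rcases Nat.lt_or_ge i k with hi | hi
      · simp [trunc, hq1 i (by omega)]
      · simp [trunc, Nat.not_lt.2 hi]
    rw [hstv]
    simp only [hi, dif_pos]
    rw [if_pos hq2, if_neg (by simp [hq1 k (by omega)]), h0, hm0]
    rfl
  · intro q hq1 hq2 hq3
    change stv 0 q = true
    rw [hstv]
    simp only [Nat.succ_pos, dif_pos]
    rw [if_pos hq3, if_pos hq2]
    exact hacc

end Pool.Agent.Helper93.TS
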