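import Pool.Agent.Helper93.TS.StM

/-!
# Project TS, module Tab: formulas in finitely many bits at fixed addresses
-/

namespace Pool.Agent.Helper93.TS

/-- the formula saying that the address is `bin j` -/
private def E_Tab (lam j : ℕ) : Fm (ℕ ⊕ ℕ) := .eqc (fun b => .var (.inl b)) lam j

private def E'_Tab (lam j : ℕ) : Fm (Option (ℕ ⊕ ℕ)) := .eqc (fun b => .var (some (.inl b))) lam j

private theorem eq_Tab {lam j j0 : ℕ} (h : j < 2 ^ lam) (h0 : j0 < 2 ^ lam) :
    (∀ i < lam, bin j0 i = j.testBit i) ↔ j0 = j := by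
  constructor
  · intro hh
    refine Nat.eq_of_testBit_eq fun i => ?_
    by_cases hi : i < lam
    · exact hh i hi
    · rw [Nat.testBit_lt_two_pow (h.trans_le (Nat.pow_le_pow_right (by norm_num) (not_lt.1 hi))),
        Nat.testBit_lt_two_pow (h0.trans_le (Nat.pow_le_pow_right (by norm_num) (not_lt.1 hi)))]
  · rintro rfl i _
    rfl

private theorem E_eval_Tab {lam j j0 : ℕ} (h : j < 2 ^ lam) (h0 : j0 < 2 ^ lam) (c : ℕ → Bool) :
    (E_Tab lam j).eval (Sum.elim (bin j0) c) = true ↔ j0 = j := by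
  rw [← eq_Tab h h0]
  unfold E_Tab
  rw [Fm.eval_eqc]
  rfl

private theorem E'_eval_Tab {lam j j0 : ℕ} (h : j < 2 ^ lam) (h0 : j0 < 2 ^ lam) (c : ℕ → Bool)
    (r : Bool) : (E'_Tab lam j).eval (oenv (Sum.elim (bin j0) c) r) = true ↔ j0 = j := by
  rw [← eq_Tab h h0]
  unfold E'_Tab
  rw [Fm.eval_eqc]
  rfl

private noncomputable def L_Tab (m : ℕ) (A : ℕ → Addr) : Word → Word := by
  classical exact fun w a => decide (∃ j < m, a = bin j ∧ w (A j) = true)

private theorem L_true_Tab {m : ℕ} (A : ℕ → Addr) (w : Word) (a : Addr) :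
    L_Tab m A w a = true ↔ ∃ j < m, a = bin j ∧ w (A j) = true := by
  classical exact decide_eq_true_iff

private theorem L_bin_Tab (m : ℕ) (A : ℕ → Addr) (w : Word) (j : ℕ) :
    L_Tab m A w (bin j) = (decide (j < m) && w (A j)) := by
  rw [Bool.eq_iff_iff, L_true_Tab, Bool.and_eq_true, decide_eq_true_iff]
  constructor
  · rintro ⟨i, hi, hb, hw⟩
    obtain rfl := bin_inj hb
    exact ⟨hi, hw⟩
  · rintro ⟨hj, hw⟩
    exact ⟨j, hj, rfl, hw⟩

private def F_Tab (lam m : ℕ) (A : ℕ → Addr) (i : ℕ) : Fm (ℕ ⊕ ℕ) :=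
  .disjL (((List.range m).filter fun j => A j i).map (E_Tab lam))

private def Q_Tab (lam m : ℕ) : Fm (Option (ℕ ⊕ ℕ)) :=
  .and (.var none) (.disjL ((List.range m).map (E'_Tab lam)))

private theorem F_eval_Tab {lam m j0 : ℕ} (A : ℕ → Addr) (i : ℕ) (c : ℕ → Bool)
    (hm : m ≤ 2 ^ lam) (h0 : j0 < m) :
    (F_Tab lam m A i).eval (Sum.elim (bin j0) c) = A j0 i := by
  rw [Bool.eq_iff_iff]
  unfold F_Tab
  rw [Fm.eval_disjL]
  constructor
  · rintro ⟨a, ha, h⟩
    obtain ⟨j, hj, rfl⟩ := List.mem_map.1 ha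
    obtain ⟨h1, h2⟩ := List.mem_filter.1 hj
    have h1' := List.mem_range.1 h1
    obtain rfl := (E_eval_Tab (h1'.trans_le hm) (h0.trans_le hm) c).1 h
    exact h2
  · intro h
    exact ⟨_, List.mem_map.2 ⟨j0, List.mem_filter.2 ⟨List.mem_range.2 h0, h⟩, rfl⟩,
      (E_eval_Tab (h0.trans_le hm) (h0.trans_le hm) c).2 rfl⟩

private theorem Q_eval_Tab {lam m j0 : ℕ} (c : ℕ → Bool) (r : Bool)
    (hm : m ≤ 2 ^ lam) (h0 : j0 < 2 ^ lam) :
    (Q_Tab lam m).eval (oenv (Sum.elim (bin j0) c) r) = (decide (j0 < m) && r) := by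
  unfold Q_Tab
  rw [Fm.eval_and, Fm.eval_var, oenv_none, Bool.and_comm]
  congr 1
  rw [Bool.eq_iff_iff, Fm.eval_disjL, decide_eq_true_iff]
  constructor
  · rintro ⟨a, ha, h⟩
    obtain ⟨j, hj, rfl⟩ := List.mem_map.1 ha
    have h1' := List.mem_range.1 hj
    obtain rfl := (E'_eval_Tab (h1'.trans_le hm) h0 c r).1 h
    exact h1'
  · intro h
    exact ⟨_, List.mem_map.2 ⟨j0, List.mem_range.2 h, rfl⟩,
      (E'_eval_Tab (h.trans_le hm) h0 c r).2 rfl⟩

private theorem F_size_Tab {lam m : ℕ} (A : ℕ → Addr) (i : ℕ) (hm : m ≤ 2 ^ lam) :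
    (F_Tab lam m A i).size ≤ 2 ^ lam * (6 * 2 ^ lam + 6) + 3 := by
  have h1 := Fm.size_disjL_le (((List.range m).filter fun j => A j i).map (E_Tab lam))
    (lam * (1 + 5) + 1) (by
      intro a ha
      obtain ⟨j, _, rfl⟩ := List.mem_map.1 ha
      exact Fm.size_eqc_le _ lam j 1 (fun _ _ => le_rfl))
  rw [List.length_map] at h1
  have h2 : ((List.range m).filter fun j => A j i).length ≤ m := by
    have := List.length_filter_le (fun j => A j i) (List.range m)
    rwa [List.length_range] at this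
  have h3 : lam < 2 ^ lam := Nat.lt_two_pow_self
  have h4 : ((List.range m).filter fun j => A j i).length * (lam * (1 + 5) + 1 + 5) ≤
      2 ^ lam * (6 * 2 ^ lam + 6) := Nat.mul_le_mul (h2.trans hm) (by omega)
  exact h1.trans (by omega)

private theorem Q_size_Tab {lam m : ℕ} (hm : m ≤ 2 ^ lam) :
    (Q_Tab lam m).size ≤ 2 ^ lam * (6 * 2 ^ lam + 6) + 7 := by
  have h1 := Fm.size_disjL_le ((List.range m).map (E'_Tab lam))
    (lam * (1 + 5) + 1) (by
      intro a ha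
      obtain ⟨j, _, rfl⟩ := List.mem_map.1 ha
      exact Fm.size_eqc_le _ lam j 1 (fun _ _ => le_rfl))
  rw [List.length_map, List.length_range] at h1
  have h3 : lam < 2 ^ lam := Nat.lt_two_pow_self
  have h4 : m * (lam * (1 + 5) + 1 + 5) ≤
      2 ^ lam * (6 * 2 ^ lam + 6) := Nat.mul_le_mul hm (by omega)
  unfold Q_Tab
  rw [Fm.size_and, Fm.size_var]
  omega

private theorem rep_Tab {v lam m : ℕ} {A : ℕ → Addr} (hm : m ≤ 2 ^ lam)
    (hA : ∀ j < m, Supp v (A j)) :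
    Rep lam v (2 ^ lam * (6 * 2 ^ lam + 6) + 7) (L_Tab m A) := by
  refine ⟨F_Tab lam m A, Q_Tab lam m, fun j _ => (F_size_Tab A j hm).trans (by omega),
    Q_size_Tab hm, ?_⟩
  intro w c a ha
  obtain ⟨j0, hj0, rfl⟩ : ∃ j0 < 2 ^ lam, a = bin j0 :=
    ⟨_, Nat.ofBits_lt_two_pow _, (bin_ofBits ha).symm⟩
  beta_reduce
  rw [L_bin_Tab, Q_eval_Tab c _ hm hj0]
  by_cases h : j0 < m
  · congr 2
    funext i
    rw [F_eval_Tab A i c hm h]
    by_cases hi : i < v
    · rw [decide_eq_true hi, Bool.true_and]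
    · rw [hA j0 h i (not_lt.1 hi), Bool.and_false]
  · rw [decide_eq_false h, Bool.false_and, Bool.false_and]

private def M_Tab (φ : Fm ℕ) : Mac Unit where
  nx _ := φ.bind fun j => .var (some (.par j))
  ad _ := .ff
  out := ()

private theorem run_Tab (φ : Fm ℕ) (v : ℕ) (w : Word) (c : ℕ → Bool) (n : ℕ) :
    (M_Tab φ).run v w c 0 zero (n + 1) () = φ.eval c := by
  rw [Mac.run_succ]
  change (φ.bind fun j => (.var (some (.par j)) : Fm (Option (V Unit)))).eval _ = _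
  rw [Fm.eval_bind]
  rfl

theorem hTab (h : StLR) : StTab := by
  obtain ⟨C, h⟩ := h
  refine ⟨6 * C, ?_⟩
  intro v lam m A φ hm hA
  have hb : (M_Tab φ).Bd v (φ.size + 3) := by
    refine ⟨?_, ?_, ?_⟩
    · rw [Fintype.card_unit]
      omega
    · intro i
      have := Fm.size_bind_le (fun j : ℕ => (.var (some (.par j)) : Fm (Option (V Unit)))) φ 1
        (fun _ => le_rfl) le_rfl
      change (φ.bind fun j => (.var (some (.par j)) : Fm (Option (V Unit)))).size ≤ _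
      omega
    · intro j _
      change (Fm.ff : Fm (V Unit)).size ≤ _
      rw [Fm.size_ff]
      omega
  have h1 := h Unit (M_Tab φ) v lam lam _ _ (L_Tab m A) hb le_rfl (rep_Tab hm hA)
  refine (h1.congr fun w => ?_).mono_s ?_
  · have hc : (fun j => decide (j < 2 ^ lam) && L_Tab m A w (bin j)) =
        fun j => decide (j < m) && w (A j) := by
      funext j
      rw [L_bin_Tab]
      by_cases hj : j < m
      · rw [decide_eq_true (hj.trans_le hm), Bool.true_and]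
      · rw [decide_eq_false hj, Bool.false_and, Bool.and_false]
    rw [hc]
    obtain ⟨n, hn⟩ : ∃ n, 2 ^ lam = n + 1 :=
      Nat.exists_eq_add_of_le' (Nat.one_le_two_pow (n := lam))
    rw [hn]
    change _ ↔ (M_Tab φ).run v w _ 0 zero (n + 1) () = true
    rw [run_Tab]
  · rw [pow_mul]
    apply Nat.pow_le_pow_left
    have h3 : lam < 2 ^ lam := Nat.lt_two_pow_self
    have h4 := Fm.one_le_size φ
    obtain ⟨y, hy⟩ : ∃ y, 2 ^ lam = y + 1 :=
      Nat.exists_eq_add_of_le' (Nat.one_le_two_pow (n := lam))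
    rw [hy] at h3 ⊢
    obtain ⟨X, hX⟩ : ∃ X, X = φ.size + (y + 1) + 2 := ⟨_, rfl⟩
    have e1 : 4 ≤ X := by omega
    have e2 : X ^ 6 = X ^ 2 * X ^ 4 := by ring
    have e3 : 16 ≤ X ^ 4 := by nlinarith [Nat.pow_le_pow_left e1 4]
    have e4 : φ.size + 3 + ((y + 1) * (6 * (y + 1) + 6) + 7) + (y + 1) + lam + 2 ≤ X ^ 2 * 16 := by
      rw [hX]
      nlinarith
    rw [← hX, e2]
    exact e4.trans (Nat.mul_le_mul_left _ e3)

end Pool.Agent.Helper93.TS
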