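import Pool.Agent.Helper93.TS.StN

/-!
# Project TS, module TPA: the template of the network constraints
-/

namespace Pool.Agent.Helper93.TS

/-- Boolean functions expressed by formulas with symbolic variables -/
private def Ex_Tpa (K κ b A m : ℕ) (f : Word → (Fld → Pos K → Bool) → ℕ → Bool) : Prop :=
  ∃ B : Fm TV, B.size ≤ m ∧
    B.All (fun u => u.fld.num < 2 ^ A ∧ ∀ i < K, (u.bit i).size ≤ b) ∧
    ∀ (x : Word) (val : Fld → Pos K → Bool), (∀ b, val .cs (cpos K b) = b) → ∀ n < 2 ^ K,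
      B.eval (fun u => val u.fld (u.pos K (benv κ x n))) = f x val n

section

variable {K κ b A : ℕ}

private theorem Ex_mono_Tpa {m m' : ℕ} {f : Word → (Fld → Pos K → Bool) → ℕ → Bool}
    (h : Ex_Tpa K κ b A m f) (hm : m ≤ m') : Ex_Tpa K κ b A m' f := by
  obtain ⟨B, h1, h2, h3⟩ := h
  exact ⟨B, h1.trans hm, h2, h3⟩

private theorem Ex_congr_Tpa {m : ℕ} {f g : Word → (Fld → Pos K → Bool) → ℕ → Bool}
    (h : Ex_Tpa K κ b A m f) (hfg : ∀ x val, ∀ n < 2 ^ K, f x val n = g x val n) :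
    Ex_Tpa K κ b A m g := by
  obtain ⟨B, h1, h2, h3⟩ := h
  exact ⟨B, h1, h2, fun x val hc n hn => (h3 x val hc n hn).trans (hfg x val n hn)⟩

private theorem Ex_not_Tpa {m : ℕ} {f : Word → (Fld → Pos K → Bool) → ℕ → Bool}
    (h : Ex_Tpa K κ b A m f) : Ex_Tpa K κ b A (m + 2) (fun x val n => !f x val n) := by
  obtain ⟨B, h1, h2, h3⟩ := h
  refine ⟨B.not, ?_, ⟨h2, trivial⟩, fun x val hc n hn => ?_⟩
  · rw [Fm.size_not]; omega
  · rw [Fm.eval_not, h3 x val hc n hn]

private theorem Ex_and_Tpa {m m' : ℕ} {f g : Word → (Fld → Pos K → Bool) → ℕ → Bool}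
    (h : Ex_Tpa K κ b A m f) (h' : Ex_Tpa K κ b A m' g) :
    Ex_Tpa K κ b A (m + m' + 3) (fun x val n => f x val n && g x val n) := by
  obtain ⟨B, h1, h2, h3⟩ := h
  obtain ⟨B', h1', h2', h3'⟩ := h'
  refine ⟨B.and B', ?_, ⟨⟨h2, h2'⟩, trivial⟩, fun x val hc n hn => ?_⟩
  · rw [Fm.size_and]; omega
  · rw [Fm.eval_and, h3 x val hc n hn, h3' x val hc n hn]

private theorem Ex_or_Tpa {m m' : ℕ} {f g : Word → (Fld → Pos K → Bool) → ℕ → Bool}
    (h : Ex_Tpa K κ b A m f) (h' : Ex_Tpa K κ b A m' g) :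
    Ex_Tpa K κ b A (m + m' + 5) (fun x val n => f x val n || g x val n) := by
  obtain ⟨B, h1, h2, h3⟩ := h
  obtain ⟨B', h1', h2', h3'⟩ := h'
  refine ⟨B.or B', ?_, ⟨⟨h2, trivial⟩, ⟨h2', trivial⟩⟩, fun x val hc n hn => ?_⟩
  · rw [Fm.size_or]; omega
  · rw [Fm.eval_or, h3 x val hc n hn, h3' x val hc n hn]

private theorem Ex_ite_Tpa {m m' m'' : ℕ} {f g h : Word → (Fld → Pos K → Bool) → ℕ → Bool}
    (hf : Ex_Tpa K κ b A m f) (hg : Ex_Tpa K κ b A m' g) (hh : Ex_Tpa K κ b A m'' h) :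
    Ex_Tpa K κ b A (2 * m + m' + m'' + 5)
      (fun x val n => bif f x val n then g x val n else h x val n) := by
  obtain ⟨B, h1, h2, h3⟩ := hf
  obtain ⟨B', h1', h2', h3'⟩ := hg
  obtain ⟨B'', h1'', h2'', h3''⟩ := hh
  refine ⟨Fm.ite B B' B'', ?_, ⟨⟨h2, h2'⟩, ⟨⟨h2, trivial⟩, h2''⟩⟩, fun x val hc n hn => ?_⟩
  · rw [Fm.size_ite]; omega
  · rw [Fm.eval_ite, h3 x val hc n hn, h3' x val hc n hn, h3'' x val hc n hn]

private theorem Ex_iff_Tpa {m m' : ℕ} {f g : Word → (Fld → Pos K → Bool) → ℕ → Bool}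
    (h : Ex_Tpa K κ b A m f) (h' : Ex_Tpa K κ b A m' g) :
    Ex_Tpa K κ b A (2 * m + 2 * m' + 7) (fun x val n => f x val n == g x val n) := by
  obtain ⟨B, h1, h2, h3⟩ := h
  obtain ⟨B', h1', h2', h3'⟩ := h'
  refine ⟨B.iff B', ?_, ⟨⟨h2, h2'⟩, ⟨⟨h2, trivial⟩, ⟨h2', trivial⟩⟩⟩, fun x val hc n hn => ?_⟩
  · rw [Fm.size_iff]; omega
  · rw [Fm.eval_iff, h3 x val hc n hn, h3' x val hc n hn]

private theorem All_conjL_Tpa {ι : Type} (P : ι → Prop) (l : List (Fm ι))
    (h : ∀ a ∈ l, a.All P) : (Fm.conjL l).All P := by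
  induction l with
  | nil => exact trivial
  | cons a l ih =>
    exact ⟨⟨h a (by simp), ih fun c hc => h c (by simp [hc])⟩, trivial⟩

private theorem Ex_all_Tpa {m : ℕ} (N : ℕ) (f : ℕ → Word → (Fld → Pos K → Bool) → ℕ → Bool)
    (h : ∀ i < N, Ex_Tpa K κ b A m (f i)) :
    Ex_Tpa K κ b A (N * (m + 3) + 1)
      (fun x val n => decide (∀ i < N, f i x val n = true)) := by
  have h' : ∀ i, ∃ B : Fm TV, i < N → B.size ≤ m ∧
    B.All (fun u => u.fld.num < 2 ^ A ∧ ∀ i < K, (u.bit i).size ≤ b) ∧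
    ∀ (x : Word) (val : Fld → Pos K → Bool), (∀ b, val .cs (cpos K b) = b) → ∀ n < 2 ^ K,
      B.eval (fun u => val u.fld (u.pos K (benv κ x n))) = f i x val n := by
    intro i
    by_cases hi : i < N
    · obtain ⟨B, hB⟩ := h i hi
      exact ⟨B, fun _ => hB⟩
    · exact ⟨.tt, fun h => absurd h hi⟩
  choose B hB using h'
  refine ⟨Fm.conjL ((List.range N).map B), ?_, ?_, ?_⟩
  · have h1 := Fm.size_conjL_le ((List.range N).map B) m (by
      intro a ha
      obtain ⟨i, hi, rfl⟩ := List.mem_map.1 ha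
      exact (hB i (List.mem_range.1 hi)).1)
    simpa using h1
  · refine All_conjL_Tpa _ _ ?_
    intro a ha
    obtain ⟨i, hi, rfl⟩ := List.mem_map.1 ha
    exact (hB i (List.mem_range.1 hi)).2.1
  · intro x val hc n hn
    rw [Bool.eq_iff_iff, Fm.eval_conjL, decide_eq_true_eq]
    constructor
    · intro h1 i hi
      rw [← (hB i hi).2.2 x val hc n hn]
      exact h1 _ (List.mem_map.2 ⟨i, List.mem_range.2 hi, rfl⟩)
    · intro h1 a ha
      obtain ⟨i, hi, rfl⟩ := List.mem_map.1 ha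
      rw [(hB i (List.mem_range.1 hi)).2.2 x val hc n hn]
      exact h1 i (List.mem_range.1 hi)

/-- a variable at a symbolic position -/
private theorem Ex_var_Tpa (F : Fld) (hF : F.num < 2 ^ A) (bit : ℕ → Fm (Option ℕ))
    (hb : ∀ i < K, (bit i).size ≤ b) (p : Word → ℕ → Pos K)
    (hp : ∀ x, ∀ n < 2 ^ K, ∀ i : Fin K, (bit i).eval (benv κ x n) = p x n i) :
    Ex_Tpa K κ b A 1 (fun x val n => val F (p x n)) := by
  refine ⟨.var ⟨F, bit⟩, le_refl _, ⟨hF, hb⟩, fun x val _ n hn => ?_⟩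
  rw [Fm.eval_var]
  congr 1
  funext i
  exact hp x n hn i

private theorem Ex_at_Tpa (F : Fld) (hF : F.num < 2 ^ A) (hb : 1 ≤ b) :
    Ex_Tpa K κ b A 1 (fun _ val n => val F (fun i => n.testBit i)) :=
  Ex_var_Tpa F hF (fun i => .var (some i)) (fun _ _ => hb) (fun _ n i => n.testBit i)
    (fun _ _ _ _ => rfl)

private theorem Ex_cst_Tpa (ψ : Fm (Option ℕ)) (hψ : ψ.size ≤ b) (hb : 3 ≤ b)
    (hA : Fld.cs.num < 2 ^ A) :
    Ex_Tpa K κ b A 1 (fun x _ n => ψ.eval (benv κ x n)) := by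
  refine ⟨.var ⟨.cs, fun i => if i = 0 then ψ else .ff⟩, le_refl _, ⟨hA, ?_⟩,
    fun x val hc n _ => ?_⟩
  · intro i _
    by_cases hi : i = 0
    · simp only [hi, if_true]; exact hψ
    · simp only [hi, if_false, Fm.size_ff]; exact hb
  · rw [Fm.eval_var]
    have h1 : (TV.pos K (benv κ x n) ⟨.cs, fun i => if i = 0 then ψ else .ff⟩) =
        cpos K (ψ.eval (benv κ x n)) := by
      funext i
      unfold TV.pos cpos
      by_cases hi : i.val = 0
      · simp [hi]
      · simp [hi]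
    rw [h1]
    exact hc _

private theorem Ex_dig_Tpa (j : ℕ) (hb : 3 ≤ b) (hA : Fld.cs.num < 2 ^ A) :
    Ex_Tpa K κ b A 1 (fun _ _ n => n.testBit j) :=
  Ex_cst_Tpa (.var (some j)) (by rw [Fm.size_var]; omega) hb hA

private theorem Ex_clr_Tpa (F : Fld) (hF : F.num < 2 ^ A) (hb : 3 ≤ b) (c : Fin K) :
    Ex_Tpa K κ b A 1 (fun _ val n => val F (clr c (fun i => n.testBit i))) := by
  refine Ex_var_Tpa F hF (fun i => if i = c.val then .ff else .var (some i)) ?_
    (fun _ n => clr c (fun i => n.testBit i)) ?_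
  · intro i _
    by_cases hi : i = c.val
    · simp only [hi, if_true, Fm.size_ff]; exact hb
    · simp only [hi, if_false, Fm.size_var]; omega
  · intro x n _ i
    unfold clr
    by_cases hi : i = c
    · subst hi
      simp
    · have h1 : ¬ i.val = c.val := fun h => hi (Fin.ext h)
      rw [Function.update_of_ne hi]
      simp only [h1, if_false, Fm.eval_var]
      rfl

private theorem Ex_flp_Tpa (F : Fld) (hF : F.num < 2 ^ A) (hb : 3 ≤ b) (c : Fin K) :
    Ex_Tpa K κ b A 1 (fun _ val n => val F (flp c (fun i => n.testBit i))) := by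
  refine Ex_var_Tpa F hF (fun i => if i = c.val then .not (.var (some i)) else .var (some i)) ?_
    (fun _ n => flp c (fun i => n.testBit i)) ?_
  · intro i _
    by_cases hi : i = c.val
    · simp only [hi, if_true, Fm.size_not, Fm.size_var]; exact hb
    · simp only [hi, if_false, Fm.size_var]; omega
  · intro x n _ i
    unfold flp
    by_cases hi : i = c
    · subst hi
      simp only [if_true, Fm.eval_not, Fm.eval_var, Function.update_self]
      rfl
    · have h1 : ¬ i.val = c.val := fun h => hi (Fin.ext h)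
      rw [Function.update_of_ne hi]
      simp only [h1, if_false, Fm.eval_var]
      rfl

private theorem Ex_inc_Tpa (F : Fld) (hF : F.num < 2 ^ A) (hb : 8 * K + 11 ≤ b) :
    Ex_Tpa K κ b A 1 (fun _ val n => val F (incP (fun i => n.testBit i))) := by
  refine Ex_var_Tpa F hF (fun i => Fm.incF (fun j => .var (some j)) i) ?_
    (fun _ n => incP (fun i => n.testBit i)) ?_
  · intro i hi
    have h1 := Fm.size_incF_le (fun j : ℕ => (.var (some j) : Fm (Option ℕ))) i 1
      (fun _ _ => le_refl _)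
    refine h1.trans ?_
    omega
  · intro x n _ i
    rw [Fm.eval_incF]
    unfold incP
    simp only [Fm.eval_var]
    have h1 : (∀ j < i.val, benv κ x n (some j) = true) ↔
        (∀ j : Fin K, j < i → n.testBit j.val = true) := by
      constructor
      · intro h j hj
        exact h j.val hj
      · intro h j hj
        exact h ⟨j, hj.trans i.2⟩ hj
    rw [decide_eq_decide.2 h1]
    rfl

end

/-! ### the bounds -/

private theorem pair_lt_Tpa (a b N : ℕ) (ha : a < N) (hb : b < N) : Nat.pair a b < N ^ 2 := by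
  refine (Nat.pair_lt_max_add_one_sq a b).trans_le ?_
  exact Nat.pow_le_pow_left (by omega) 2

private theorem pow8_Tpa (N : ℕ) (hN : 3 ≤ N) : (2 * N + 1) ^ 4 ≤ N ^ 8 := by
  have h1 : 2 * N + 1 ≤ N ^ 2 := by nlinarith
  calc (2 * N + 1) ^ 4 ≤ (N ^ 2) ^ 4 := Nat.pow_le_pow_left h1 4
    _ = N ^ 8 := by rw [← pow_mul]

private theorem pow2_Tpa (N : ℕ) (hN : 3 ≤ N) : (2 * N + 1) ^ 2 ≤ N ^ 8 := by
  refine le_trans ?_ (pow8_Tpa N hN)
  exact Nat.pow_le_pow_right (by omega) (by norm_num)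

private theorem rc_lt_Tpa (N l β : ℕ) (hN : 3 ≤ N) (hl : l ≤ 2 * N) (hβ : β ≤ 2 * N) :
    (Fld.rc l β).num < N ^ 8 := by
  have h1 : Nat.pair l β < (2 * N + 1) ^ 2 := pair_lt_Tpa l β (2 * N + 1) (by omega) (by omega)
  have h2 : Nat.pair 0 (Nat.pair l β) < ((2 * N + 1) ^ 2) ^ 2 :=
    pair_lt_Tpa _ _ _ (by positivity) h1
  have h3 : ((2 * N + 1) ^ 2) ^ 2 ≤ N ^ 8 := by
    rw [← pow_mul]
    exact pow8_Tpa N hN
  exact h2.trans_le h3

private theorem sw_lt_Tpa (N l : ℕ) (hN : 3 ≤ N) (hl : l ≤ 2 * N) : (Fld.sw l).num < N ^ 8 :=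
  (pair_lt_Tpa 1 l (2 * N + 1) (by omega) (by omega)).trans_le (pow2_Tpa N hN)

private theorem st_lt_Tpa (N l : ℕ) (hN : 3 ≤ N) (hl : l ≤ 2 * N) : (Fld.st l).num < N ^ 8 :=
  (pair_lt_Tpa 2 l (2 * N + 1) (by omega) (by omega)).trans_le (pow2_Tpa N hN)

private theorem ad_lt_Tpa (N l : ℕ) (hN : 3 ≤ N) (hl : l ≤ 2 * N) : (Fld.ad l).num < N ^ 8 :=
  (pair_lt_Tpa 4 l (2 * N + 1) (by omega) (by omega)).trans_le (pow2_Tpa N hN)

private theorem rd_lt_Tpa (N : ℕ) (hN : 3 ≤ N) : Fld.rd.num < N ^ 8 :=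
  (pair_lt_Tpa 3 0 (2 * N + 1) (by omega) (by omega)).trans_le (pow2_Tpa N hN)

private theorem cs_lt_Tpa (N : ℕ) (hN : 3 ≤ N) : Fld.cs.num < N ^ 8 :=
  (pair_lt_Tpa 5 0 (2 * N + 1) (by omega) (by omega)).trans_le (pow2_Tpa N hN)

private theorem pow_clog_Tpa (N : ℕ) : N ^ 8 ≤ 2 ^ (12 * Nat.clog 2 N) := by
  have h1 : N ≤ 2 ^ Nat.clog 2 N := Nat.le_pow_clog (by norm_num) N
  calc N ^ 8 ≤ (2 ^ Nat.clog 2 N) ^ 8 := Nat.pow_le_pow_left h1 8
    _ = 2 ^ (Nat.clog 2 N * 8) := by rw [← pow_mul]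
    _ ≤ 2 ^ (12 * Nat.clog 2 N) := Nat.pow_le_pow_right (by norm_num) (by omega)

private theorem dm_lt_Tpa {K l : ℕ} (h : l < 2 * K) : dm K l < K := by
  unfold dm
  omega

private theorem dg_Tpa {K : ℕ} (n i : ℕ) (hi : i < K) :
    dg (fun i : Fin K => n.testBit i) i = n.testBit i := by
  unfold dg
  rw [dif_pos hi]

theorem hTpa : StTpa := by
  refine ⟨12, fun σ v k s hs hv => ?_⟩
  have hN : 3 ≤ s + k + 2 := by omega
  generalize hNN : s + k + 2 = N at hN ⊢
  have hcl := pow_clog_Tpa N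
  -- the bound of the bits
  have hb3 : 3 ≤ 8 * (k + 2) + 11 := by omega
  have hb1 : 1 ≤ 8 * (k + 2) + 11 := by omega
  have hbN : 8 * (k + 2) + 11 ≤ N ^ 12 := by
    have h1 : 8 * (k + 2) + 11 ≤ 12 * N := by omega
    have h2 : 12 * N ≤ N ^ 12 := by
      have h3 : 3 ^ 11 ≤ N ^ 11 := Nat.pow_le_pow_left hN 11
      calc 12 * N ≤ N ^ 11 * N := Nat.mul_le_mul_right _ (by norm_num at h3; omega)
        _ = N ^ 12 := by ring
    exact h1.trans h2
  set b := 8 * (k + 2) + 11 with hb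
  set A := 12 * Nat.clog 2 N with hA
  have hcs : Fld.cs.num < 2 ^ A := (cs_lt_Tpa N hN).trans_le hcl
  have hrd : Fld.rd.num < 2 ^ A := (rd_lt_Tpa N hN).trans_le hcl
  have hrc : ∀ l β, l ≤ 2 * N → β ≤ 2 * N → (Fld.rc l β).num < 2 ^ A :=
    fun l β h1 h2 => (rc_lt_Tpa N l β hN h1 h2).trans_le hcl
  have hsw : ∀ l, l ≤ 2 * N → (Fld.sw l).num < 2 ^ A :=
    fun l h1 => (sw_lt_Tpa N l hN h1).trans_le hcl
  have hst : ∀ l, l ≤ 2 * N → (Fld.st l).num < 2 ^ A :=
    fun l h1 => (st_lt_Tpa N l hN h1).trans_le hcl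
  have had : ∀ l, l ≤ 2 * N → (Fld.ad l).num < 2 ^ A :=
    fun l h1 => (ad_lt_Tpa N l hN h1).trans_le hcl
  -- layer
  have E1 : Ex_Tpa (k + 2) (v - 1) b A ((2 * (k + 2)) * (((k + 4) * (27 + 3) + 1) + 3) + 1)
      (fun _ val n => decide (∀ l < 2 * (k + 2), decide (∀ β < k + 4,
        (val (.rc (l + 1) β) (fun i => n.testBit i) ==
          val (.rc l β) (lay (k + 2) l (val (.sw l)) (fun i => n.testBit i))) = true) = true)) := by
    refine Ex_all_Tpa _ (fun l _ val n => decide (∀ β < k + 4,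
        (val (.rc (l + 1) β) (fun i => n.testBit i) ==
          val (.rc l β) (lay (k + 2) l (val (.sw l)) (fun i => n.testBit i))) = true)) ?_
    intro l hl
    refine Ex_all_Tpa _ (fun β _ val n =>
        (val (.rc (l + 1) β) (fun i => n.testBit i) ==
          val (.rc l β) (lay (k + 2) l (val (.sw l)) (fun i => n.testBit i)))) ?_
    intro β hβ
    have hdm := dm_lt_Tpa hl
    have h1 := Ex_iff_Tpa (κ := v - 1)
      (Ex_at_Tpa (K := k + 2) (b := b) (A := A) (.rc (l + 1) β) (hrc _ _ (by omega) (by omega)) hb1)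
      (Ex_ite_Tpa (Ex_clr_Tpa (.sw l) (hsw _ (by omega)) hb3 ⟨dm (k + 2) l, hdm⟩)
        (Ex_flp_Tpa (.rc l β) (hrc _ _ (by omega) (by omega)) hb3 ⟨dm (k + 2) l, hdm⟩)
        (Ex_at_Tpa (.rc l β) (hrc _ _ (by omega) (by omega)) hb1))
    refine Ex_mono_Tpa (Ex_congr_Tpa h1 ?_) (by omega)
    intro x val n hn
    unfold lay
    rw [dif_pos hdm]
    cases val (.sw l) (clr ⟨dm (k + 2) l, hdm⟩ fun i => n.testBit i) <;> simp
  -- isL
  have EL : Ex_Tpa (k + 2) (v - 1) b A 1 (fun _ _ n => isL k (fun i => n.testBit i)) := by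
    refine Ex_congr_Tpa (Ex_cst_Tpa (κ := v - 1) (.and (.var (some (k + 1))) (.not (.var (some k))))
      (by simp; omega) hb3 hcs) ?_
    intro x val n hn
    unfold isL
    rw [dg_Tpa n (k + 1) (by omega), dg_Tpa n k (by omega), Fm.eval_and, Fm.eval_not, Fm.eval_var,
      Fm.eval_var]
    rfl
  have Edg : ∀ j < k + 2, Ex_Tpa (k + 2) (v - 1) b A 1
      (fun _ _ n => dg (K := k + 2) (fun i => n.testBit i) j) := by
    intro j hj
    refine Ex_congr_Tpa (Ex_dig_Tpa j hb3 hcs) ?_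
    intro x val n hn
    rw [dg_Tpa n j hj]
  -- look
  have E2 : Ex_Tpa (k + 2) (v - 1) b A 11 (fun _ val n =>
      (val (.rc 0 0) (fun i => n.testBit i) == isL k (fun i => n.testBit i))) :=
    Ex_iff_Tpa (Ex_at_Tpa (.rc 0 0) (hrc _ _ (by omega) (by omega)) hb1) EL
  -- key
  have E3 : Ex_Tpa (k + 2) (v - 1) b A ((k + 2) * (27 + 3) + 1) (fun _ val n =>
      decide (∀ j < k + 2, (val (.rc 0 (2 + j)) (fun i => n.testBit i) ==
        bif isL k (fun i => n.testBit i) then val (.ad j) (fun i => n.testBit i)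
          else dg (K := k + 2) (fun i => n.testBit i) j) = true)) := by
    refine Ex_all_Tpa _ (fun j _ val n => (val (.rc 0 (2 + j)) (fun i => n.testBit i) ==
        bif isL k (fun i => n.testBit i) then val (.ad j) (fun i => n.testBit i)
          else dg (K := k + 2) (fun i => n.testBit i) j)) ?_
    intro j hj
    exact Ex_mono_Tpa (Ex_iff_Tpa (Ex_at_Tpa (.rc 0 (2 + j)) (hrc _ _ (by omega) (by omega)) hb1)
      (Ex_ite_Tpa EL (Ex_at_Tpa (.ad j) (had _ (by omega)) hb1) (Edg j hj))) (by omega)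
  -- valL
  have E4 : Ex_Tpa (k + 2) (v - 1) b A 19 (fun _ val n =>
      (!isL k (fun i => n.testBit i)) ||
        (val (.rc 0 1) (fun i => n.testBit i) == val .rd (fun i => n.testBit i))) :=
    Ex_mono_Tpa (Ex_or_Tpa (Ex_not_Tpa EL)
      (Ex_iff_Tpa (Ex_at_Tpa (.rc 0 1) (hrc _ _ (by omega) (by omega)) hb1)
      (Ex_at_Tpa .rd hrd hb1))) (by omega)
  -- valX
  have E5 : Ex_Tpa (k + 2) (v - 1) b A 23 (fun x val n =>
      dg (K := k + 2) (fun i => n.testBit i) (k + 1) ||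
        (dg (K := k + 2) (fun i => n.testBit i) k ||
        (val (.rc 0 1) (fun i => n.testBit i) ==
          x (trunc (v - 1) (dg (K := k + 2) (fun i => n.testBit i)))))) := by
    have hx : Ex_Tpa (k + 2) (v - 1) b A 1 (fun x _ n =>
          x (trunc (v - 1) (dg (K := k + 2) (fun i => n.testBit i)))) := by
      refine Ex_congr_Tpa (Ex_cst_Tpa (.var none) (by rw [Fm.size_var]; omega) hb3 hcs) ?_
      intro x val n hn
      rw [Fm.eval_var]
      change x (trunc (v - 1) (bin n)) = _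
      congr 1
      funext i
      unfold trunc
      by_cases hi : i < v - 1
      · rw [dg_Tpa n i (by omega)]
        rfl
      · simp [hi]
    exact Ex_mono_Tpa (Ex_or_Tpa (Edg (k + 1) (by omega)) (Ex_or_Tpa (Edg k (by omega))
      (Ex_iff_Tpa (Ex_at_Tpa (.rc 0 1) (hrc _ _ (by omega) (by omega)) hb1) hx))) (by omega)
  -- adj
  have E6 : Ex_Tpa (k + 2) (v - 1) b A (22 * k + 100) (fun _ val n =>
      (!val (.rc (2 * (k + 2)) 0) (incP (fun i => n.testBit i))) ||
        decide (∀ β < k + 4, (decide (β = 0) || (val (.rc (2 * (k + 2)) β) (fun i => n.testBit i) ==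
          val (.rc (2 * (k + 2)) β) (incP (fun i => n.testBit i)))) = true)) := by
    have hall : Ex_Tpa (k + 2) (v - 1) b A ((k + 4) * (19 + 3) + 1) (fun _ val n =>
        decide (∀ β < k + 4, (decide (β = 0) || (val (.rc (2 * (k + 2)) β) (fun i => n.testBit i) ==
          val (.rc (2 * (k + 2)) β) (incP (fun i => n.testBit i)))) = true)) := by
      refine Ex_all_Tpa _ (fun β _ val n =>
        (decide (β = 0) || (val (.rc (2 * (k + 2)) β) (fun i => n.testBit i) ==
            val (.rc (2 * (k + 2)) β) (incP (fun i => n.testBit i))))) ?_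
      intro β hβ
      have h0 : Ex_Tpa (k + 2) (v - 1) b A 1 (fun _ _ _ => decide (β = 0)) := by
        refine Ex_congr_Tpa (Ex_cst_Tpa (.cst (decide (β = 0)))
          ((Fm.size_cst_le _).trans hb3) hb3 hcs) ?_
        intro x val n hn
        rw [Fm.eval_cst]
      exact Ex_mono_Tpa (Ex_or_Tpa h0 (Ex_iff_Tpa (Ex_at_Tpa (.rc (2 * (k + 2)) β)
        (hrc _ _ (by omega) (by omega)) hb1) (Ex_inc_Tpa (.rc (2 * (k + 2)) β)
        (hrc _ _ (by omega) (by omega)) le_rfl))) (by omega)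
    exact Ex_mono_Tpa (Ex_or_Tpa (Ex_not_Tpa (Ex_inc_Tpa (.rc (2 * (k + 2)) 0)
      (hrc _ _ (by omega) (by omega)) le_rfl)) hall) (by omega)
  -- zero digits
  have EZ : ∀ m ≤ k + 1, Ex_Tpa (k + 2) (v - 1) b A (m * (3 + 3) + 1)
      (fun _ _ n => decide (∀ i < m, (!dg (K := k + 2) (fun i => n.testBit i) i) = true)) := by
    intro m hm
    refine Ex_all_Tpa _ (fun i _ _ n => !dg (K := k + 2) (fun i => n.testBit i) i) ?_
    intro i hi
    exact Ex_not_Tpa (Edg i (by omega))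
  -- init
  have E7 : Ex_Tpa (k + 2) (v - 1) b A (6 * k + 6 * σ + 100) (fun _ val n =>
      (!decide (∀ i < k + 1, (!dg (K := k + 2) (fun i => n.testBit i) i) = true)) ||
        ((!dg (K := k + 2) (fun i => n.testBit i) (k + 1)) ||
          decide (∀ i < σ + 1, (!val (.st i) (fun i => n.testBit i)) = true))) := by
    have hall : Ex_Tpa (k + 2) (v - 1) b A ((σ + 1) * (3 + 3) + 1) (fun _ val n =>
        decide (∀ i < σ + 1, (!val (.st i) (fun i => n.testBit i)) = true)) := by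
      refine Ex_all_Tpa _ (fun i _ val n => !val (.st i) (fun i => n.testBit i)) ?_
      intro i hi
      exact Ex_not_Tpa (Ex_at_Tpa (.st i) (hst _ (by omega)) hb1)
    exact Ex_mono_Tpa (Ex_or_Tpa (Ex_not_Tpa (EZ (k + 1) le_rfl))
      (Ex_or_Tpa (Ex_not_Tpa (Edg (k + 1) (by omega))) hall)) (by omega)
  -- acc
  have E8 : Ex_Tpa (k + 2) (v - 1) b A (6 * k + 100) (fun _ val n =>
      (!decide (∀ i < k, (!dg (K := k + 2) (fun i => n.testBit i) i) = true)) ||
        ((!dg (K := k + 2) (fun i => n.testBit i) k) ||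
        ((!dg (K := k + 2) (fun i => n.testBit i) (k + 1)) ||
          val (.st 0) (fun i => n.testBit i)))) := by
    exact Ex_mono_Tpa (Ex_or_Tpa (Ex_not_Tpa (EZ k (by omega)))
      (Ex_or_Tpa (Ex_not_Tpa (Edg k (by omega)))
      (Ex_or_Tpa (Ex_not_Tpa (Edg (k + 1) (by omega)))
      (Ex_at_Tpa (.st 0) (hst _ (by omega)) hb1)))) (by omega)
  obtain ⟨B, h1, h2, h3⟩ := Ex_and_Tpa E1 (Ex_and_Tpa E2 (Ex_and_Tpa E3 (Ex_and_Tpa E4
    (Ex_and_Tpa E5 (Ex_and_Tpa E6 (Ex_and_Tpa E7 E8))))))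
  refine ⟨B, h1.trans ?_, ?_, ?_⟩
  · -- the size
    have hk : k + 2 ≤ N := by omega
    have hσ : σ + 1 ≤ N := by omega
    have hk2 : k ≤ N := by omega
    have hkk : (k + 2) * (k + 4) ≤ N * (2 * N) := Nat.mul_le_mul hk (by omega)
    have h4 : 3 ^ 10 ≤ N ^ 10 := Nat.pow_le_pow_left hN 10
    have h5 : 59049 * (N * N) ≤ N ^ 12 := by
      calc 59049 * (N * N) ≤ N ^ 10 * (N * N) := Nat.mul_le_mul_right _ (by norm_num at h4; omega)
        _ = N ^ 12 := by ring
    refine le_trans ?_ h5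
    nlinarith
  · -- the variables
    have key : ∀ (B : Fm TV), B.All (fun u => u.fld.num < 2 ^ A ∧ ∀ i < k + 2, (u.bit i).size ≤ b) →
        B.All (fun u => u.fld.num < 2 ^ A ∧ ∀ i < k + 2, (u.bit i).size ≤ N ^ 12) := by
      intro B
      induction B with
      | tt => exact fun _ => trivial
      | var u => exact fun h => ⟨h.1, fun i hi => (h.2 i hi).trans hbN⟩
      | nand a c ha hc => exact fun h => ⟨ha h.1, hc h.2⟩
    exact key B h2
  · intro x val hc n hn
    rw [h3 x val hc n hn]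
    simp only [Bool.and_eq_true, Bool.or_eq_true, decide_eq_true_eq, beq_iff_eq, Bool.not_eq_true',
      decide_eq_false_iff_not]
    constructor
    · rintro ⟨g1, g2, g3, g4, g5, g6, g7, g8⟩
      refine ⟨g1, g2, g3, ?_, ?_, ?_, ?_, ?_⟩
      · intro h
        rcases g4 with h' | h'
        · rw [h] at h'; exact absurd h' (by simp)
        · exact h'
      · intro h h'
        rcases g5 with g | g | g
        · rw [h] at g; exact absurd g (by simp)
        · rw [h'] at g; exact absurd g (by simp)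
        · exact g
      · intro h β hβ hβ1
        rcases g6 with g | g
        · rw [h] at g; exact absurd g (by simp)
        · rcases g β hβ with g | g
          · omega
          · exact g
      · intro h h' i hi
        rcases g7 with g | g | g
        · exact absurd h g
        · rw [h'] at g; exact absurd g (by simp)
        · exact g i hi
      · intro h h' h''
        rcases g8 with g | g | g | g
        · exact absurd h g
        · rw [h'] at g; exact absurd g (by simp)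
        · rw [h''] at g; exact absurd g (by simp)
        · exact g
    · intro g
      refine ⟨g.layer, g.look, g.key, ?_, ?_, ?_, ?_, ?_⟩
      · cases h : isL k (fun i : Fin (k + 2) => n.testBit i)
        · exact Or.inl rfl
        · exact Or.inr (g.valL h)
      · cases h : dg (K := k + 2) (fun i => n.testBit i) (k + 1)
        · cases h' : dg (K := k + 2) (fun i => n.testBit i) k
          · exact Or.inr (Or.inr (g.valX h h'))
          · exact Or.inr (Or.inl rfl)
        · exact Or.inl rfl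
      · cases h : val (.rc (2 * (k + 2)) 0) (incP (fun i : Fin (k + 2) => n.testBit i))
        · exact Or.inl rfl
        · refine Or.inr fun β hβ => ?_
          by_cases hβ0 : β = 0
          · exact Or.inl hβ0
          · exact Or.inr (g.adj h β hβ (by omega))
      · by_cases h : ∀ i < k + 1, dg (K := k + 2) (fun i => n.testBit i) i = false
        · cases h' : dg (K := k + 2) (fun i => n.testBit i) (k + 1)
          · exact Or.inr (Or.inl rfl)
          · exact Or.inr (Or.inr (g.init h h'))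
        · exact Or.inl h
      · by_cases h : ∀ i < k, dg (K := k + 2) (fun i => n.testBit i) i = false
        · cases h' : dg (K := k + 2) (fun i => n.testBit i) k
          · exact Or.inr (Or.inl rfl)
          · cases h'' : dg (K := k + 2) (fun i => n.testBit i) (k + 1)
            · exact Or.inr (Or.inr (Or.inl rfl))
            · exact Or.inr (Or.inr (Or.inr (g.acc h h' h'')))
        · exact Or.inl h

end Pool.Agent.Helper93.TS
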