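import Pool.Agent.Helper93.TS.StN
import Pool.Agent.Helper93.TS.Base

/-! Project TS, module Tpb: the template for the machine constraints. -/

set_option autoImplicit false

namespace Pool.Agent.Helper93.TS

section Tpb

private theorem all_bind_Tpb {ι κ : Type} {P : κ → Prop} (f : ι → Fm κ)
    (h : ∀ i, (f i).All P) : ∀ a : Fm ι, (a.bind f).All P
  | .tt => trivial
  | .var i => h i
  | .nand a b => ⟨all_bind_Tpb f h a, all_bind_Tpb f h b⟩

private theorem all_ff_Tpb {κ : Type} {P : κ → Prop} : (Fm.ff : Fm κ).All P := ⟨trivial, trivial⟩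

private theorem all_not_Tpb {κ : Type} {P : κ → Prop} {a : Fm κ} (h : a.All P) :
    a.not.All P := ⟨h, trivial⟩

private theorem all_and_Tpb {κ : Type} {P : κ → Prop} {a b : Fm κ} (h : a.All P) (h' : b.All P) :
    (a.and b).All P := ⟨⟨h, h'⟩, trivial⟩

private theorem all_or_Tpb {κ : Type} {P : κ → Prop} {a b : Fm κ} (h : a.All P) (h' : b.All P) :
    (a.or b).All P := ⟨all_not_Tpb h, all_not_Tpb h'⟩

private theorem all_iff_Tpb {κ : Type} {P : κ → Prop} {a b : Fm κ} (h : a.All P) (h' : b.All P) :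
    (a.iff b).All P := ⟨⟨h, h'⟩, ⟨all_not_Tpb h, all_not_Tpb h'⟩⟩

private theorem all_conjL_Tpb {κ : Type} {P : κ → Prop} : ∀ l : List (Fm κ),
    (∀ a ∈ l, a.All P) → (Fm.conjL l).All P
  | [], _ => trivial
  | a :: l, h => all_and_Tpb (h a (by simp)) (all_conjL_Tpb l fun b hb => h b (by simp [hb]))

/-- field at the position itself -/
private def vq_Tpb (F : Fld) : TV := ⟨F, fun i => .var (some i)⟩

/-- field at the successor -/
private def vi_Tpb (F : Fld) : TV := ⟨F, fun i => Fm.incF (fun j => .var (some j)) i⟩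

/-- the digit `j` of the position as a constant -/
private def vc_Tpb (j : ℕ) : TV := ⟨.cs, fun i => if i = 0 then .var (some j) else .ff⟩

/-- substitution for the variables of the machine -/
private def g_Tpb {σ : ℕ} (k : ℕ) : V (Fin (σ + 1)) → Fm TV
  | .mem i => .var (vq_Tpb (.st i))
  | .clk j => if j < k then .var (vc_Tpb j) else .ff
  | .par _ => .ff

private def g'_Tpb {σ : ℕ} (k : ℕ) : Option (V (Fin (σ + 1))) → Fm TV
  | none => .var (vq_Tpb .rd)
  | some u => g_Tpb k u

private def adF_Tpb {σ : ℕ} (M : Mac (Fin (σ + 1))) (v k j : ℕ) : Fm TV :=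
  (Fm.var (vq_Tpb (.ad j))).iff (if j + 1 < v then (M.ad (j + 1)).bind (g_Tpb k) else .ff)

private def akF_Tpb {σ : ℕ} (M : Mac (Fin (σ + 1))) (v k : ℕ) : Fm TV :=
  (Fm.var (vq_Tpb (.ad k))).iff (if 0 < v then (M.ad 0).bind (g_Tpb k) else .ff)

private def L_Tpb (k : ℕ) : Fm TV :=
  (Fm.var (vc_Tpb (k + 1))).and (Fm.var (vc_Tpb k)).not

private def stF_Tpb {σ : ℕ} (M : Mac (Fin (σ + 1))) (k : ℕ) (i : Fin (σ + 1)) : Fm TV :=
  (L_Tpb k).not.or ((Fm.var (vi_Tpb (.st i))).iff ((M.nx i).bind (g'_Tpb k)))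

private def B_Tpb {σ : ℕ} (M : Mac (Fin (σ + 1))) (v k : ℕ) : Fm TV :=
  Fm.conjL (((List.range k).map (adF_Tpb M v k)) ++ ([akF_Tpb M v k,
    (Fm.var (vq_Tpb (.ad (k + 1)))).not] ++ (List.finRange (σ + 1)).map (stF_Tpb M k)))

/-! ### evaluation -/

private theorem posq_Tpb (K κ : ℕ) (x : Word) (n : ℕ) (F : Fld) :
    (vq_Tpb F).pos K (benv κ x n) = fun i : Fin K => n.testBit i := rfl

private theorem posi_Tpb (K κ : ℕ) (x : Word) (n : ℕ) (F : Fld) :
    (vi_Tpb F).pos K (benv κ x n) = incP fun i : Fin K => n.testBit i := by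
  funext i
  change (Fm.incF (fun j => Fm.var (some j)) (i : ℕ)).eval (benv κ x n) = _
  rw [Fm.eval_incF]
  have h1 : (∀ j < (i : ℕ), (Fm.var (some j) : Fm (Option ℕ)).eval (benv κ x n) = true) ↔
      ∀ j : Fin K, j < i → (fun i : Fin K => n.testBit i) j = true := by
    constructor
    · intro h j hj
      exact h j hj
    · intro h j hj
      exact h ⟨j, hj.trans i.2⟩ hj
  unfold incP
  congr 1
  exact decide_eq_decide.2 h1

private theorem posc_Tpb (K κ : ℕ) (x : Word) (n j : ℕ) :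
    (vc_Tpb j).pos K (benv κ x n) = cpos K (n.testBit j) := by
  funext i
  change (if (i : ℕ) = 0 then (Fm.var (some j) : Fm (Option ℕ)) else .ff).eval (benv κ x n) = _
  unfold cpos
  by_cases h : (i : ℕ) = 0
  · rw [if_pos h]
    simp [h, benv, bin]
  · rw [if_neg h]
    simp [h]

private theorem dg_Tpb (K n j : ℕ) (hj : j < K) :
    dg (fun i : Fin K => n.testBit i) j = n.testBit j := by
  unfold dg
  rw [dif_pos hj]

variable {σ : ℕ} (M : Mac (Fin (σ + 1))) (v k : ℕ) (κ : ℕ) (x : Word)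
  (val : Fld → Pos (k + 2) → Bool) (hval : ∀ b, val .cs (cpos (k + 2) b) = b) (n : ℕ)

/-- the environment -/
private def Ev_Tpb : TV → Bool := fun u => val u.fld (u.pos (k + 2) (benv κ x n))

include hval in
private theorem ec_Tpb (j : ℕ) : Ev_Tpb k κ x val n (vc_Tpb j) = n.testBit j := by
  unfold Ev_Tpb
  rw [posc_Tpb]
  exact hval _

include hval in
private theorem eg_Tpb (u : V (Fin (σ + 1))) : (g_Tpb k u).eval (Ev_Tpb k κ x val n) =
    menv k val (fun i => n.testBit i) u := by
  cases u with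
  | mem i => rfl
  | par j => rfl
  | clk j =>
    change (if j < k then Fm.var (vc_Tpb j) else .ff).eval (Ev_Tpb k κ x val n) =
      (tm k fun i => n.testBit i).testBit j
    unfold tm
    by_cases h : j < k
    · rw [if_pos h, Fm.eval_var, ec_Tpb k κ x val hval, Nat.testBit_ofBits_lt _ _ h]
      exact (dg_Tpb (k + 2) n j (by omega)).symm
    · rw [if_neg h, Nat.testBit_ofBits_ge _ _ (Nat.not_lt.1 h)]
      rfl

include hval in
private theorem eb_Tpb (a : Fm (V (Fin (σ + 1)))) :
    (a.bind (g_Tpb k)).eval (Ev_Tpb k κ x val n) = a.eval (menv k val fun i => n.testBit i) := by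
  rw [Fm.eval_bind]
  congr 1
  funext u
  exact eg_Tpb k κ x val hval n u

include hval in
private theorem eb'_Tpb (a : Fm (Option (V (Fin (σ + 1))))) :
    (a.bind (g'_Tpb k)).eval (Ev_Tpb k κ x val n) =
      a.eval (oenv (menv k val fun i => n.testBit i) (val .rd fun i => n.testBit i)) := by
  rw [Fm.eval_bind]
  congr 1
  funext u
  cases u with
  | none => rfl
  | some u => exact eg_Tpb k κ x val hval n u

include hval in
private theorem eL_Tpb : (L_Tpb k).eval (Ev_Tpb k κ x val n) = isL k fun i => n.testBit i := by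
  unfold L_Tpb isL
  rw [Fm.eval_and, Fm.eval_not, Fm.eval_var, Fm.eval_var, ec_Tpb k κ x val hval,
    ec_Tpb k κ x val hval, dg_Tpb (k + 2) n _ (by omega), dg_Tpb (k + 2) n _ (by omega)]

include hval in
private theorem ead_Tpb (j : ℕ) : (adF_Tpb M v k j).eval (Ev_Tpb k κ x val n) = true ↔
    val (.ad j) (fun i => n.testBit i) =
      (decide (j + 1 < v) && (M.ad (j + 1)).eval (menv k val fun i => n.testBit i)) := by
  unfold adF_Tpb
  rw [Fm.eval_iff, beq_iff_eq, Fm.eval_var]
  have h1 : Ev_Tpb k κ x val n (vq_Tpb (.ad j)) = val (.ad j) (fun i => n.testBit i) := rfl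
  rw [h1]
  by_cases h : j + 1 < v
  · rw [if_pos h, eb_Tpb k κ x val hval]
    simp [h]
  · rw [if_neg h]
    simp [h]

include hval in
private theorem eak_Tpb : (akF_Tpb M v k).eval (Ev_Tpb k κ x val n) = true ↔
    val (.ad k) (fun i => n.testBit i) =
      (decide (0 < v) && (M.ad 0).eval (menv k val fun i => n.testBit i)) := by
  unfold akF_Tpb
  rw [Fm.eval_iff, beq_iff_eq, Fm.eval_var]
  have h1 : Ev_Tpb k κ x val n (vq_Tpb (.ad k)) = val (.ad k) (fun i => n.testBit i) := rfl
  rw [h1]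
  by_cases h : 0 < v
  · rw [if_pos h, eb_Tpb k κ x val hval]
    simp [h]
  · rw [if_neg h]
    simp [h]

include hval in
private theorem est_Tpb (i : Fin (σ + 1)) : (stF_Tpb M k i).eval (Ev_Tpb k κ x val n) = true ↔
    ((isL k fun i => n.testBit i) = true → val (.st i) (incP fun i => n.testBit i) =
      (M.nx i).eval (oenv (menv k val fun i => n.testBit i) (val .rd fun i => n.testBit i))) := by
  unfold stF_Tpb
  rw [Fm.eval_or, Fm.eval_not, Fm.eval_iff, Fm.eval_var, eL_Tpb k κ x val hval,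
    eb'_Tpb k κ x val hval]
  have h1 : Ev_Tpb k κ x val n (vi_Tpb (.st i)) = val (.st i) (incP fun i => n.testBit i) := by
    unfold Ev_Tpb
    rw [posi_Tpb]
    rfl
  rw [h1]
  cases (isL k fun i : Fin (k + 2) => n.testBit i) <;> simp

include hval in
private theorem eB_Tpb : (B_Tpb M v k).eval (Ev_Tpb k κ x val n) = true ↔
    SolB M v k val fun i => n.testBit i := by
  unfold B_Tpb
  rw [Fm.eval_conjL]
  constructor
  · intro h
    refine ⟨?_, ?_, ?_, ?_⟩
    · intro j hj
      refine (ead_Tpb M v k κ x val hval n j).1 (h _ ?_)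
      rw [List.mem_append]
      exact Or.inl (List.mem_map.2 ⟨j, List.mem_range.2 hj, rfl⟩)
    · refine (eak_Tpb M v k κ x val hval n).1 (h _ ?_)
      simp
    · have h2 := h ((Fm.var (vq_Tpb (.ad (k + 1)))).not) (by simp)
      rw [Fm.eval_not, Fm.eval_var] at h2
      have h1 : Ev_Tpb k κ x val n (vq_Tpb (.ad (k + 1))) =
        val (.ad (k + 1)) (fun i => n.testBit i) := rfl
      rw [h1] at h2
      simpa using h2
    · intro hL i
      refine (est_Tpb M k κ x val hval n i).1 (h _ ?_) hL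
      rw [List.mem_append, List.mem_append]
      exact Or.inr (Or.inr (List.mem_map.2 ⟨i, List.mem_finRange i, rfl⟩))
  · intro h a ha
    rw [List.mem_append, List.mem_append] at ha
    rcases ha with ha | ha | ha
    · obtain ⟨j, hj, rfl⟩ := List.mem_map.1 ha
      exact (ead_Tpb M v k κ x val hval n j).2 (h.ad j (List.mem_range.1 hj))
    · rcases List.mem_cons.1 ha with rfl | ha
      · exact (eak_Tpb M v k κ x val hval n).2 h.adk
      · rw [List.mem_singleton] at ha
        subst ha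
        rw [Fm.eval_not, Fm.eval_var]
        have h1 : Ev_Tpb k κ x val n (vq_Tpb (.ad (k + 1))) =
          val (.ad (k + 1)) (fun i => n.testBit i) := rfl
        rw [h1, h.adk1]
        rfl
    · obtain ⟨i, _, rfl⟩ := List.mem_map.1 ha
      exact (est_Tpb M k κ x val hval n i).2 fun hL => h.step hL i

/-! ### sizes -/

private theorem sg_Tpb {σ : ℕ} (k : ℕ) (u : V (Fin (σ + 1))) : (g_Tpb k u).size ≤ 3 := by
  cases u with
  | mem i => simp [g_Tpb]
  | par j => simp [g_Tpb]
  | clk j =>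
    change (if j < k then Fm.var (vc_Tpb j) else .ff).size ≤ 3
    split_ifs <;> simp

private theorem sg'_Tpb {σ : ℕ} (k : ℕ) (u : Option (V (Fin (σ + 1)))) :
    (g'_Tpb k u).size ≤ 3 := by
  cases u with
  | none => simp [g'_Tpb]
  | some u => exact sg_Tpb k u

private theorem size_Tpb {σ : ℕ} (M : Mac (Fin (σ + 1))) (v k s : ℕ) (hM : M.Bd v s)
    (hs : 1 ≤ s) : (B_Tpb M v k).size ≤ (k + 2 + (σ + 1)) * (6 * s + 26) + 1 := by
  have h := Fm.size_conjL_le (((List.range k).map (adF_Tpb M v k)) ++ ([akF_Tpb M v k,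
    (Fm.var (vq_Tpb (.ad (k + 1)))).not] ++ (List.finRange (σ + 1)).map (stF_Tpb M k)))
    (6 * s + 23) (by
      intro a ha
      rw [List.mem_append, List.mem_append] at ha
      rcases ha with ha | ha | ha
      · obtain ⟨j, hj, rfl⟩ := List.mem_map.1 ha
        unfold adF_Tpb
        rw [Fm.size_iff, Fm.size_var]
        split_ifs with hv
        · have h1 := Fm.size_bind_le (g_Tpb k) (M.ad (j + 1)) 3 (sg_Tpb k) (by norm_num)
          have h2 := hM.ad_le (j + 1) hv
          omega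
        · rw [Fm.size_ff]
          omega
      · rcases List.mem_cons.1 ha with rfl | ha
        · unfold akF_Tpb
          rw [Fm.size_iff, Fm.size_var]
          split_ifs with hv
          · have h1 := Fm.size_bind_le (g_Tpb k) (M.ad 0) 3 (sg_Tpb k) (by norm_num)
            have h2 := hM.ad_le 0 hv
            omega
          · rw [Fm.size_ff]
            omega
        · rw [List.mem_singleton] at ha
          subst ha
          rw [Fm.size_not, Fm.size_var]
          omega
      · obtain ⟨i, _, rfl⟩ := List.mem_map.1 ha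
        unfold stF_Tpb L_Tpb
        rw [Fm.size_or, Fm.size_not, Fm.size_and, Fm.size_not, Fm.size_var, Fm.size_var,
          Fm.size_iff, Fm.size_var]
        have h1 := Fm.size_bind_le (g'_Tpb k) (M.nx i) 3 (sg'_Tpb k) (by norm_num)
        have h2 := hM.nx_le i
        omega)
  have hl : (((List.range k).map (adF_Tpb M v k)) ++ ([akF_Tpb M v k,
    (Fm.var (vq_Tpb (.ad (k + 1)))).not] ++ (List.finRange (σ + 1)).map (stF_Tpb M k))).length =
      k + 2 + (σ + 1) := by
    simp
    omega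
  rw [hl] at h
  exact h

/-- the condition on the variables -/
private def PP_Tpb (K S A : ℕ) : TV → Prop := fun u => u.fld.num < 2 ^ A ∧
  ∀ i < K, (u.bit i).size ≤ S

private theorem pair_Tpb (a b T : ℕ) (ha : a ≤ 5) (hb : b ≤ T) (hT : 3 ≤ T) :
    Nat.pair a b < T ^ 4 := by
  have h1 := Nat.pair_lt_max_add_one_sq a b
  have h2 : max a b + 1 ≤ 2 * T := by
    rcases le_total a b with h | h
    · rw [max_eq_right h]; omega
    · rw [max_eq_left h]; omega
  have h3 : (max a b + 1) ^ 2 ≤ (2 * T) ^ 2 := Nat.pow_le_pow_left h2 2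
  have h4 : (2 * T) ^ 2 ≤ T ^ 4 := by
    have h5 : 9 ≤ T ^ 2 := by
      calc 9 = 3 ^ 2 := by norm_num
        _ ≤ T ^ 2 := Nat.pow_le_pow_left hT 2
    have h6 : T ^ 4 = T ^ 2 * T ^ 2 := by ring
    have h7 : (2 * T) ^ 2 = 4 * T ^ 2 := by ring
    rw [h6, h7]
    exact Nat.mul_le_mul_right _ (by omega)
  exact (h1.trans_le h3).trans_le h4

private theorem all_Tpb {σ : ℕ} (M : Mac (Fin (σ + 1))) (v k T S A : ℕ) (hσ : σ + k + 3 ≤ T)
    (hA : T ^ 4 ≤ 2 ^ A) (hS : T ^ 4 ≤ S) : (B_Tpb M v k).All (PP_Tpb (k + 2) S A) := by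
  have hT : 3 ≤ T := by omega
  have hT4 : 8 * T + 11 ≤ T ^ 4 := by nlinarith [Nat.pow_le_pow_left hT 3, sq_nonneg (T : ℤ)]
  have hq : ∀ F : Fld, F.num < 2 ^ A → PP_Tpb (k + 2) S A (vq_Tpb F) := by
    intro F hF
    refine ⟨hF, fun i hi => ?_⟩
    change 1 ≤ S
    omega
  have hi : ∀ F : Fld, F.num < 2 ^ A → PP_Tpb (k + 2) S A (vi_Tpb F) := by
    intro F hF
    refine ⟨hF, fun i hi => ?_⟩
    have h1 := Fm.size_incF_le (fun j => (Fm.var (some j) : Fm (Option ℕ))) i 1
      (fun j _ => by simp)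
    change (Fm.incF (fun j => (Fm.var (some j) : Fm (Option ℕ))) i).size ≤ S
    omega
  have hc : ∀ j, PP_Tpb (k + 2) S A (vc_Tpb j) := by
    intro j
    refine ⟨(pair_Tpb 5 0 T (by norm_num) (by omega) hT).trans_le hA, fun i hi => ?_⟩
    change (if i = 0 then (Fm.var (some j) : Fm (Option ℕ)) else .ff).size ≤ S
    split_ifs
    · rw [Fm.size_var]; omega
    · rw [Fm.size_ff]; omega
  have had : ∀ j ≤ k + 1, PP_Tpb (k + 2) S A (vq_Tpb (.ad j)) := fun j hj =>
    hq _ ((pair_Tpb 4 j T (by norm_num) (by omega) hT).trans_le hA)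
  have hg : ∀ u : V (Fin (σ + 1)), (g_Tpb k u).All (PP_Tpb (k + 2) S A) := by
    intro u
    cases u with
    | mem i => exact hq _ ((pair_Tpb 2 i T (by norm_num) (by omega) hT).trans_le hA)
    | par j => exact all_ff_Tpb
    | clk j =>
      change (if j < k then Fm.var (vc_Tpb j) else .ff).All (PP_Tpb (k + 2) S A)
      split_ifs
      · exact hc j
      · exact all_ff_Tpb
  have hg' : ∀ u : Option (V (Fin (σ + 1))), (g'_Tpb k u).All (PP_Tpb (k + 2) S A) := by
    intro u
    cases u with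
    | none => exact hq _ ((pair_Tpb 3 0 T (by norm_num) (by omega) hT).trans_le hA)
    | some u => exact hg u
  unfold B_Tpb
  apply all_conjL_Tpb
  intro a ha
  rw [List.mem_append, List.mem_append] at ha
  rcases ha with ha | ha | ha
  · obtain ⟨j, hj, rfl⟩ := List.mem_map.1 ha
    have hj' := List.mem_range.1 hj
    refine all_iff_Tpb (had j (by omega)) ?_
    split_ifs
    · exact all_bind_Tpb _ hg _
    · exact all_ff_Tpb
  · rcases List.mem_cons.1 ha with rfl | ha
    · refine all_iff_Tpb (had k (by omega)) ?_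
      split_ifs
      · exact all_bind_Tpb _ hg _
      · exact all_ff_Tpb
    · rw [List.mem_singleton] at ha
      subst ha
      exact all_not_Tpb (had (k + 1) le_rfl)
  · obtain ⟨i, _, rfl⟩ := List.mem_map.1 ha
    refine all_or_Tpb (all_not_Tpb (all_and_Tpb (hc _) (all_not_Tpb (hc _)))) ?_
    exact all_iff_Tpb (hi _ ((pair_Tpb 2 i T (by norm_num) (by omega) hT).trans_le hA))
      (all_bind_Tpb _ hg' _)

end Tpb

theorem hTpb : StTpb := by
  refine ⟨5, fun σ M v k s hM hv => ?_⟩
  have hs : σ + 1 ≤ s := by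
    have := hM.card_le
    simpa using this
  set T := s + k + 2 with hT
  have hT3 : 3 ≤ T := by omega
  have hclog : T ≤ 2 ^ Nat.clog 2 T := Nat.le_pow_clog (by norm_num) T
  have hA : T ^ 4 ≤ 2 ^ (5 * Nat.clog 2 T) := by
    calc T ^ 4 ≤ T ^ 5 := Nat.pow_le_pow_right (by omega) (by norm_num)
      _ ≤ (2 ^ Nat.clog 2 T) ^ 5 := Nat.pow_le_pow_left hclog 5
      _ = 2 ^ (5 * Nat.clog 2 T) := by rw [← pow_mul, mul_comm]
  have hS : T ^ 4 ≤ T ^ 5 := Nat.pow_le_pow_right (by omega) (by norm_num)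
  refine ⟨B_Tpb M v k, ?_, all_Tpb M v k T _ _ (by omega) hA hS, ?_⟩
  · have h1 := size_Tpb M v k s hM (by omega)
    have h2 : k + 2 + (σ + 1) ≤ T := by omega
    have h3 : (k + 2 + (σ + 1)) * (6 * s + 26) ≤ T * (6 * T + 26) :=
      Nat.mul_le_mul h2 (by omega)
    have h4 : T * (6 * T + 26) + 1 ≤ T ^ 5 := by
      have h5 : 27 ≤ T ^ 3 := by
        calc 27 = 3 ^ 3 := by norm_num
          _ ≤ T ^ 3 := Nat.pow_le_pow_left hT3 3
      have h6 : T ^ 5 = T ^ 3 * (T * T) := by ring
      rw [h6]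
      have h7 : 27 * (T * T) ≤ T ^ 3 * (T * T) := Nat.mul_le_mul_right _ h5
      nlinarith
    omega
  · intro x val hval n _
    exact eB_Tpb M v k (v - 1) x val hval n

end Pool.Agent.Helper93.TS
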