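import Pool.Agent.Helper93.TS.StN

/-!
# TS, module TPL: the template
-/

set_option autoImplicit false

namespace Pool.Agent.Helper93.TS

open Pool.Agent.Helper72

private theorem all_mono_Tpl {ι : Type} {P Q : ι → Prop} (h : ∀ i, P i → Q i) (a : Fm ι)
    (ha : a.All P) : a.All Q := by
  induction a with
  | tt => trivial
  | var i => exact h i ha
  | nand a b iha ihb => exact ⟨iha ha.1, ihb ha.2⟩

private theorem pos_Tpl {K : ℕ} (q : Pos K) : ∃ n < 2 ^ K, q = fun i => n.testBit i := by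
  refine ⟨Nat.ofBits q, Nat.ofBits_lt_two_pow q, ?_⟩
  funext i
  rw [Nat.testBit_ofBits_lt q i.1 i.2]

theorem hTpl (h1 : StTpa) (h2 : StTpb) : StTpl := by
  obtain ⟨C1, h1⟩ := h1
  obtain ⟨C2, h2⟩ := h2
  refine ⟨C1 + C2 + 2, fun σ M v k s hM hv => ?_⟩
  have hs : σ + 1 ≤ s := by
    have := hM.card_le
    rwa [Fintype.card_fin] at this
  obtain ⟨B1, hb1, ha1, he1⟩ := h1 σ v k s hs hv
  obtain ⟨B2, hb2, ha2, he2⟩ := h2 σ M v k s hM hv
  have hx : 3 ≤ s + k + 2 := by omega
  generalize hX : s + k + 2 = X at *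
  have hX1 : X ^ C1 ≤ X ^ (C1 + C2) := Nat.pow_le_pow_right (by omega) (by omega)
  have hX2 : X ^ C2 ≤ X ^ (C1 + C2) := Nat.pow_le_pow_right (by omega) (by omega)
  have hX0 : 1 ≤ X ^ (C1 + C2) := Nat.one_le_pow _ _ (by omega)
  have hX3 : X ^ (C1 + C2 + 2) = X ^ (C1 + C2) * X ^ 2 := pow_add _ _ _
  have hX4 : 9 ≤ X ^ 2 := by nlinarith
  have hX5 : X ^ (C1 + C2) * 9 ≤ X ^ (C1 + C2 + 2) := by
    rw [hX3]
    exact Nat.mul_le_mul_left _ hX4
  refine ⟨B1.and B2, ?_, ?_, ?_⟩
  · rw [Fm.size_and]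
    omega
  · have m1 : ∀ u : TV, (u.fld.num < 2 ^ (C1 * Nat.clog 2 X) ∧ ∀ i < k + 2, (u.bit i).size ≤ X ^ C1) →
        (u.fld.num < 2 ^ ((C1 + C2 + 2) * Nat.clog 2 X) ∧
          ∀ i < k + 2, (u.bit i).size ≤ X ^ (C1 + C2 + 2)) := fun u hu =>
      ⟨hu.1.trans_le (Nat.pow_le_pow_right (by norm_num) (Nat.mul_le_mul_right _ (by omega))),
        fun i hi => (hu.2 i hi).trans (by omega)⟩
    have m2 : ∀ u : TV, (u.fld.num < 2 ^ (C2 * Nat.clog 2 X) ∧ ∀ i < k + 2, (u.bit i).size ≤ X ^ C2) →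
        (u.fld.num < 2 ^ ((C1 + C2 + 2) * Nat.clog 2 X) ∧
          ∀ i < k + 2, (u.bit i).size ≤ X ^ (C1 + C2 + 2)) := fun u hu =>
      ⟨hu.1.trans_le (Nat.pow_le_pow_right (by norm_num) (Nat.mul_le_mul_right _ (by omega))),
        fun i hi => (hu.2 i hi).trans (by omega)⟩
    exact ⟨⟨all_mono_Tpl m1 B1 ha1, all_mono_Tpl m2 B2 ha2⟩, trivial⟩
  · intro x val hcs
    have key : ∀ n < 2 ^ (k + 2), ((B1.and B2).eval (fun u =>
        val u.fld (u.pos (k + 2) (benv (v - 1) x n))) = true ↔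
        SolA σ v k x val (fun i => n.testBit i) ∧ SolB M v k val (fun i => n.testBit i)) := by
      intro n hn
      rw [Fm.eval_and, Bool.and_eq_true, he1 x val hcs n hn, he2 x val hcs n hn]
    constructor
    · intro h
      have hA : ∀ q, SolA σ v k x val q ∧ SolB M v k val q := by
        intro q
        obtain ⟨n, hn, rfl⟩ := pos_Tpl q
        exact (key n hn).1 (h n hn)
      exact {
        layer := fun l hl β hβ q => (hA q).1.layer l hl β hβ
        look := fun q => (hA q).1.look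
        key := fun q j hj => (hA q).1.key j hj
        valL := fun q hq => (hA q).1.valL hq
        valX := fun q h3 h4 => (hA q).1.valX h3 h4
        ad := fun q j hj => (hA q).2.ad j hj
        adk := fun q => (hA q).2.adk
        adk1 := fun q => (hA q).2.adk1
        step := fun q hq i => (hA q).2.step hq i
        adj := fun q hq β hβ h3 => (hA q).1.adj hq β hβ h3
        init := fun q h3 h4 i hi => (hA q).1.init h3 h4 i hi
        acc := fun q h3 h4 h5 => (hA q).1.acc h3 h4 h5 }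
    · intro h n hn
      rw [key n hn]
      exact ⟨{
        layer := fun l hl β hβ => h.layer l hl β hβ _
        look := h.look _
        key := fun j hj => h.key _ j hj
        valL := h.valL _
        valX := h.valX _
        adj := h.adj _
        init := h.init _
        acc := h.acc _ }, {
        ad := fun j hj => h.ad _ j hj
        adk := h.adk _
        adk1 := h.adk1 _
        step := h.step _ }⟩

end Pool.Agent.Helper93.TS
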