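import Pool.Agent.Helper93.TS.StE

/-!
# Project TS, module TSM: more time
-/

namespace Pool.Agent.Helper93.TS

open Pool.Agent.Helper72 Filter

theorem hTsm : StTsm := by
  intro c c' δ S hc hS
  unfold TimeSpace at hS ⊢
  filter_upwards [hS, eventually_ge_atTop 1] with n hn hn1
  obtain ⟨M, s, T, hM, hs, hT, hx⟩ := hn
  refine ⟨M, s, T, hM, hs, hT.trans ?_, hx⟩
  exact Real.rpow_le_rpow_of_exponent_le (by exact_mod_cast hn1) hc

end Pool.Agent.Helper93.TS
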