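import Pool.Agent.Helper93.TS.StN

/-!
# Project TS, module WHL: the code of the whole formula, bit by bit
-/

set_option autoImplicit false

namespace Pool.Agent.Helper93.TS

open Pool.Agent.Helper72

private theorem len_cbV_Whl (K α F : ℕ) (bit : ℕ → Fm (Option ℕ)) :
    (cbV K α F bit).length = 3 * (K + α + 2) := by
  have h1 : ∀ (m : ℕ) (g : ℕ → Fm (Option ℕ)),
      ((List.range m).flatMap fun i => [Fm.ff, Fm.tt, g i]).length = 3 * m := by
    intro m g
    induction m with
    | zero => rfl
    | succ m ih =>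
      rw [List.range_succ, List.flatMap_append, List.length_append, ih]
      simp
      ring
  unfold cbV
  simp only [List.length_append]
  rw [h1, h1]
  simp
  ring

private theorem len_cb_Whl (K α : ℕ) (B : Fm TV) :
    ∃ m, (cb K α B).length = 3 * m ∧ m ≤ B.size * (K + α + 2) := by
  induction B with
  | tt => exact ⟨K + α + 2, by rw [cb, len_cbV_Whl], by simp⟩
  | var u => exact ⟨K + α + 2, by rw [cb, len_cbV_Whl], by simp⟩
  | nand a b iha ihb =>
    obtain ⟨m, hm, hm'⟩ := iha
    obtain ⟨l, hl, hl'⟩ := ihb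
    refine ⟨2 + m + l, ?_, ?_⟩
    · rw [cb, List.length_append, List.length_append, hm, hl]
      simp
      ring
    · rw [Fm.size_nand]
      nlinarith

private theorem cst_cases_Whl (b : Bool) : (Fm.cst b : Fm (Option ℕ)) = .tt ∨
    (Fm.cst b : Fm (Option ℕ)) = .ff := by
  cases b
  · right; simp [Fm.cst]
  · left; simp [Fm.cst]

private theorem mem_cbV_Whl (K α F : ℕ) (bit : ℕ → Fm (Option ℕ))
    (h : ∀ i, bit i = .tt ∨ bit i = .ff) (φ : Fm (Option ℕ)) (hφ : φ ∈ cbV K α F bit) :
    φ = .tt ∨ φ = .ff := by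
  unfold cbV at hφ
  simp only [List.mem_append, List.mem_cons, List.mem_flatMap, List.mem_range,
    List.not_mem_nil, or_false] at hφ
  rcases hφ with ((hφ | hφ) | hφ) | hφ
  · rcases hφ with hφ | hφ | hφ
    · exact Or.inr hφ
    · exact Or.inr hφ
    · exact Or.inl hφ
  · obtain ⟨i, _, hφ | hφ | hφ⟩ := hφ
    · exact Or.inr hφ
    · exact Or.inl hφ
    · rw [hφ]; exact h i
  · obtain ⟨i, _, hφ | hφ | hφ⟩ := hφ
    · exact Or.inr hφ
    · exact Or.inl hφ
    · rw [hφ]; exact cst_cases_Whl _
  · rcases hφ with hφ | hφ | hφ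
    · exact Or.inr hφ
    · exact Or.inl hφ
    · exact Or.inl hφ

private theorem negs_code_Whl (j : ℕ) (φ : BForm) :
    (negs j φ).code = (List.replicate j [true, false, false]).flatten ++ φ.code := by
  induction j with
  | zero => simp [negs]
  | succ j ih =>
    have h : negs (j + 1) φ = .neg (negs j φ) := by
      unfold negs
      exact Function.iterate_succ_apply' _ _ _
    rw [h, BForm.code, ih, List.replicate_succ, List.flatten_cons, List.append_assoc]

private theorem foldr_code_Whl (f : ℕ → BForm) (g : ℕ → List Bool) (base : BForm)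
    (h : ∀ n r, (BForm.conj (f n) r).code = g n ++ r.code) (l : List ℕ) :
    (l.foldr (fun n r => .conj (f n) r) base).code = l.flatMap g ++ base.code := by
  induction l with
  | nil => simp
  | cons a l ih =>
    rw [List.foldr_cons, h, ih, List.flatMap_cons, List.append_assoc]

theorem hWhl (h : StCb) : StWhl := by
  intro K α B hcs hB
  set X := K + α + 2 with hX
  obtain ⟨m, hm, hm'⟩ := len_cb_Whl K α B
  set cT : List (Fm (Option ℕ)) := cb K α .tt with hcT
  set cF : List (Fm (Option ℕ)) := cbV K α Fld.cs.num (fun _ => .ff) with hcF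
  have lT : cT.length = 3 * X := by rw [hcT, cb, len_cbV_Whl]
  have lF : cF.length = 3 * X := by rw [hcF, len_cbV_Whl]
  set b1 := 3 + m + 2 * X with hb1
  set E0 := Nat.clog 2 b1 with hE0
  have hle : b1 ≤ 2 ^ E0 := Nat.le_pow_clog (by norm_num) _
  have hlt : 2 ^ E0 < 2 * b1 := by
    have h1 : 1 < b1 := by omega
    have h2 : 2 ^ (E0 - 1) < b1 := by
      have := Nat.pow_pred_clog_lt_self (b := 2) (by norm_num) h1
      simpa [hE0, Nat.pred_eq_sub_one] using this
    have h3 : 0 < E0 := Nat.clog_pos (by norm_num) (by omega)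
    have h4 : 2 ^ E0 = 2 * 2 ^ (E0 - 1) := by
      rw [← pow_succ', Nat.sub_add_cancel h3]
    omega
  set j := 2 ^ E0 - b1 with hj
  set bl : List (Fm (Option ℕ)) := [.tt, .ff, .tt] ++ ([.tt, .ff, .tt] ++ (cb K α B ++
    ([.tt, .tt, .ff] ++ (cT ++ ((List.replicate j [Fm.tt, Fm.ff, Fm.ff]).flatten ++ cT))))) with hbl
  set tl : List (Fm (Option ℕ)) := [.tt, .ff, .tt] ++ (cT ++ ([.tt, .ff, .ff] ++ cF)) with htl
  have hTm : ∀ φ ∈ cT, φ = .tt ∨ φ = .ff := by
    intro φ hφ
    rw [hcT, cb] at hφ
    exact mem_cbV_Whl _ _ _ _ (fun i => cst_cases_Whl _) φ hφ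
  have hFm : ∀ φ ∈ cF, φ = .tt ∨ φ = .ff := by
    intro φ hφ
    rw [hcF] at hφ
    exact mem_cbV_Whl _ _ _ _ (fun i => Or.inr rfl) φ hφ
  have hrep : ((List.replicate j [Fm.tt, Fm.ff, (Fm.ff : Fm (Option ℕ))]).flatten).length = 3 * j := by
    simp [List.length_flatten]
    ring
  have hsz : ∀ φ : Fm (Option ℕ), (φ = .tt ∨ φ = .ff) → φ.size ≤ 3 := by
    rintro φ (rfl | rfl)
    · simp
    · simp
  have hcodeT : ∀ e : Option ℕ → Bool, (cvar K α true).code = cT.map fun φ => φ.eval e := by
    intro e
    have := h K α e .tt hcs (by simp [Fm.All])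
    rw [toB] at this
    exact this
  have hcodeF : ∀ e : Option ℕ → Bool, (cvar K α false).code = cF.map fun φ => φ.eval e := by
    intro e
    have := h K α e (.var ⟨.cs, fun _ => .ff⟩) hcs (by simpa [Fm.All] using hcs)
    have hp : TV.pos K e ⟨.cs, fun _ => .ff⟩ = cpos K false := by
      funext i
      simp [cpos, TV.pos]
    rw [toB, cb, hp] at this
    rw [hcF, cvar]
    exact this
  have hcodeB : ∀ (e : Option ℕ → Bool) (r : BForm), (BForm.conj (blkB K α j e B) r).code =
      (bl.map fun φ => φ.eval e) ++ r.code := by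
    intro e r
    have hB' := h K α e B hcs hB
    have hr : (List.replicate j [true, false, false]).flatten =
        ((List.replicate j [Fm.tt, Fm.ff, (Fm.ff : Fm (Option ℕ))]).flatten).map
          fun φ => φ.eval e := by
      rw [List.map_flatten, List.map_replicate]
      simp
    rw [blkB, BForm.code, BForm.code, BForm.code, negs_code_Whl, hB', hcodeT e, hr, hbl]
    simp only [List.map_append, List.append_assoc, List.map_cons, List.map_nil, Fm.eval_tt,
      Fm.eval_ff]
  refine ⟨j, E0, bl, tl, ?_, ?_, ?_, ?_, ?_, ?_⟩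
  · rw [hbl]
    simp only [List.length_append, hm, lT, hrep]
    simp only [List.length_cons, List.length_nil]
    omega
  · rw [htl]
    simp only [List.length_append, lT, lF]
    simp only [List.length_cons, List.length_nil]
    omega
  · have h1 : 1 ≤ B.size := Fm.one_le_size B
    have h2 : 2 ≤ X := by omega
    have h3 : X ≤ B.size * X := Nat.le_mul_of_pos_left _ h1
    have h4 : 200 * B.size * X = 200 * (B.size * X) := by ring
    rw [← hX] at hm'
    show 2 ^ E0 ≤ 200 * B.size * X
    rw [h4]
    omega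
  · intro φ hφ
    rw [hbl] at hφ
    simp only [List.mem_append, List.mem_cons, List.not_mem_nil, or_false] at hφ
    rcases hφ with hφ | hφ | hφ | hφ | hφ | hφ | hφ
    · left
      rcases hφ with hφ | hφ | hφ <;> rw [hφ] <;> simp
    · left
      rcases hφ with hφ | hφ | hφ <;> rw [hφ] <;> simp
    · exact Or.inr hφ
    · left
      rcases hφ with hφ | hφ | hφ <;> rw [hφ] <;> simp
    · exact Or.inl (hsz _ (hTm _ hφ))
    · left
      rw [List.mem_flatten] at hφ
      obtain ⟨l, hl, hφ⟩ := hφ
      rw [List.eq_of_mem_replicate hl] at hφ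
      simp only [List.mem_cons, List.not_mem_nil, or_false] at hφ
      rcases hφ with hφ | hφ | hφ <;> rw [hφ] <;> simp
    · exact Or.inl (hsz _ (hTm _ hφ))
  · intro φ hφ
    rw [htl] at hφ
    simp only [List.mem_append, List.mem_cons, List.not_mem_nil, or_false] at hφ
    rcases hφ with (hφ | hφ | hφ) | hφ | (hφ | hφ | hφ) | hφ
    · exact Or.inl hφ
    · exact Or.inr hφ
    · exact Or.inl hφ
    · exact hTm _ hφ
    · exact Or.inl hφ
    · exact Or.inr hφ
    · exact Or.inr hφ
    · exact hFm _ hφ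
  · intro E
    rw [whole, foldr_code_Whl _ (fun n => bl.map fun φ => φ.eval (E n)) _
      (fun n r => hcodeB (E n) r)]
    congr 1
    rw [BForm.code, BForm.code, hcodeT (E 0), hcodeF (E 0), htl]
    simp only [List.map_append, List.map_cons, List.map_nil, Fm.eval_tt, Fm.eval_ff]

end Pool.Agent.Helper93.TS
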