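import Pool.Agent.Helper93.TS.M_Mono
import Pool.Agent.Helper93.TS.M_Compl
import Pool.Agent.Helper93.TS.M_RR
import Pool.Agent.Helper93.TS.M_LR
import Pool.Agent.Helper93.TS.M_LD
import Pool.Agent.Helper93.TS.M_DR
import Pool.Agent.Helper93.TS.M_Tab
import Pool.Agent.Helper93.TS.M_Loop
import Pool.Agent.Helper93.TS.M_SP1
import Pool.Agent.Helper93.TS.M_SP2
import Pool.Agent.Helper93.TS.M_SP
import Pool.Agent.Helper93.TS.M_OI
import Pool.Agent.Helper93.TS.M_Fml
import Pool.Agent.Helper93.TS.M_Div3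
import Pool.Agent.Helper93.TS.M_Fin
import Pool.Agent.Helper93.TS.M_Rep
import Pool.Agent.Helper93.TS.M_Ben1
import Pool.Agent.Helper93.TS.M_Ben
import Pool.Agent.Helper93.TS.M_Rte
import Pool.Agent.Helper93.TS.M_Snd
import Pool.Agent.Helper93.TS.M_Cpl
import Pool.Agent.Helper93.TS.M_Sol1
import Pool.Agent.Helper93.TS.M_Sol2
import Pool.Agent.Helper93.TS.M_Tpa
import Pool.Agent.Helper93.TS.M_Tpb
import Pool.Agent.Helper93.TS.M_Tpl
import Pool.Agent.Helper93.TS.M_Enc
import Pool.Agent.Helper93.TS.M_Cb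
import Pool.Agent.Helper93.TS.M_Eqv
import Pool.Agent.Helper93.TS.M_Whl
import Pool.Agent.Helper93.TS.M_Mux
import Pool.Agent.Helper93.TS.M_Core
import Pool.Agent.Helper93.TS.M_Dw
import Pool.Agent.Helper93.TS.M_Alc
import Pool.Agent.Helper93.TS.M_Dn
import Pool.Agent.Helper93.TS.M_Desc
import Pool.Agent.Helper93.TS.M_Chk
import Pool.Agent.Helper93.TS.M_Chw
import Pool.Agent.Helper93.TS.M_Diag
import Pool.Agent.Helper93.TS.M_Epol
import Pool.Agent.Helper93.TS.M_Ecpl
import Pool.Agent.Helper93.TS.M_Est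
import Pool.Agent.Helper93.TS.M_Etr
import Pool.Agent.Helper93.TS.M_Eslo
import Pool.Agent.Helper93.TS.M_Esp
import Pool.Agent.Helper93.TS.M_Eix
import Pool.Agent.Helper93.TS.M_Eca
import Pool.Agent.Helper93.TS.M_EA
import Pool.Agent.Helper93.TS.M_EB
import Pool.Agent.Helper93.TS.M_Num1
import Pool.Agent.Helper93.TS.M_Num2
import Pool.Agent.Helper93.TS.M_Tsm
import Pool.Agent.Helper93.TS.M_Efin

/-!
Assembly of project TS.
-/

namespace Pool.Agent.Helper93.TS

theorem aLD : StLD := hLD hMono hRR hLR hRep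
theorem aDR : StDR := hDR hRR
theorem aTab : StTab := hTab hLR
theorem aSP : StSP := hSP hSP1 (hSP2 hLR hRep)
theorem aCore : StCore := hCore hFin (hSol1 hRte hSnd) (hSol2 (hBen hBen1) hCpl)
  (hTpl hTpa hTpb) hEqv (hWhl (hCb hEnc)) (hMux hDiv3) hRep
theorem aChw : StChw := hChw hMono (hChk aTab aLD hRep hMono) aDR hRep
theorem aDiag : StDiag := hDiag (hDesc hDw (hDn hAlc)) aChw hLoop hFin hMono
theorem aEcpl : StEcpl := hEcpl hCompl hEpol
theorem aEst : StEst := hEst aDR hEpol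
theorem aEtr : StEtr := hEtr aDR hRep hEpol
theorem aEslo : StEslo := hEslo aCore (hOI hLt) aDR hMono hEpol
theorem aEsp : StEsp := hEsp aSP hMono hEpol
theorem aEix : StEix := hEix aLD hRep hMono hEpol
theorem aEca : StEca := hEca aEst hRep
theorem aEA : StEA := hEA aEsp aEix aEslo aEcpl aEca aEst hRep
theorem aEB : StEB := hEB aEA aEsp aEix aEslo aEcpl aEca aEst hRep

/-- SAT is not decided in time `n^c`, `c < 2 cos (π/7)`, and memory `n^o(1)` -/
theorem efin : StEfin := hEfin aDiag aEB aEslo aEcpl aEtr aEst hNum1 hNum2 hTsm hEpol hMono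
  hCompl hRep

end Pool.Agent.Helper93.TS
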