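import Mathlib

/-!
# Project TS: `9/5 < 2 cos (π/7)`
-/

namespace Pool.Agent.Helper93.TS

theorem nine_fifths_lt : (9 / 5 : ℝ) < 2 * Real.cos (Real.pi / 7) := by
  set x : ℝ := 2 * Real.cos (Real.pi / 7) with hx
  have hpi : Real.pi < 3.15 := Real.pi_lt_d2
  have hpi0 : 0 < Real.pi := Real.pi_pos
  have h1 : 1 - (Real.pi / 7) ^ 2 / 2 ≤ Real.cos (Real.pi / 7) := Real.one_sub_sq_div_two_le_cos
  have hlow : 17 / 10 < x := by
    rw [hx]
    nlinarith
  have hcub : x ^ 3 - x ^ 2 - 2 * x + 1 = 0 := by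
    have h3 : Real.cos (3 * (Real.pi / 7)) = 4 * Real.cos (Real.pi / 7) ^ 3
        - 3 * Real.cos (Real.pi / 7) := Real.cos_three_mul _
    have h2 : Real.cos (2 * (Real.pi / 7)) = 2 * Real.cos (Real.pi / 7) ^ 2 - 1 :=
      Real.cos_two_mul _
    have h4 : Real.cos (2 * (2 * (Real.pi / 7))) = 2 * Real.cos (2 * (Real.pi / 7)) ^ 2 - 1 :=
      Real.cos_two_mul _
    have h34 : Real.cos (3 * (Real.pi / 7)) = - Real.cos (2 * (2 * (Real.pi / 7))) := by
      rw [← Real.cos_pi_sub]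
      congr 1
      ring
    rw [h4, h2, h3] at h34
    have hq : (x + 2) * (x ^ 3 - x ^ 2 - 2 * x + 1) = 0 := by
      rw [hx]
      linear_combination 2 * h34
    rcases mul_eq_zero.1 hq with h | h
    · linarith
    · exact h
  by_contra hcon
  push Not at hcon
  have hfac : (9 / 5 : ℝ) ^ 3 - (9 / 5) ^ 2 - 2 * (9 / 5) + 1
      = (9 / 5 - x) * ((9 / 5) ^ 2 + 9 / 5 * x + x ^ 2 - 9 / 5 - x - 2) := by
    linear_combination hcub
  have ha : 0 ≤ 9 / 5 - x := sub_nonneg.2 hcon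
  have hb : 0 ≤ (9 / 5) ^ 2 + 9 / 5 * x + x ^ 2 - 9 / 5 - x - 2 := by nlinarith
  have := mul_nonneg ha hb
  norm_num at hfac
  linarith

end Pool.Agent.Helper93.TS
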