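import Mathlib

/-!
NAND formulas: evaluation, size, substitution, derived connectives.
-/

namespace Pool.Agent.Helper93.TS

/-- formulas over NAND, the constant `true` and variables of type `ι` -/
inductive Fm (ι : Type) where
  | tt : Fm ι
  | var : ι → Fm ι
  | nand : Fm ι → Fm ι → Fm ι

namespace Fm

variable {ι κ : Type}

/-- truth value -/
def eval (e : ι → Bool) : Fm ι → Bool
  | tt => true
  | var i => e i
  | nand a b => !(a.eval e && b.eval e)

/-- number of symbols -/
def size : Fm ι → ℕ
  | tt => 1
  | var _ => 1
  | nand a b => a.size + b.size + 1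

/-- substitution -/
def bind (f : ι → Fm κ) : Fm ι → Fm κ
  | tt => tt
  | var i => f i
  | nand a b => nand (a.bind f) (b.bind f)

/-- the constant `false` -/
def ff : Fm ι := nand tt tt
/-- negation -/
def not (a : Fm ι) : Fm ι := nand a tt
/-- conjunction -/
def and (a b : Fm ι) : Fm ι := (nand a b).not
/-- disjunction -/
def or (a b : Fm ι) : Fm ι := nand a.not b.not
/-- if `c` then `a` else `b` -/
def ite (c a b : Fm ι) : Fm ι := nand (nand c a) (nand c.not b)
/-- exclusive or -/
def xor (a b : Fm ι) : Fm ι := ite a b.not b
/-- equivalence -/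
def iff (a b : Fm ι) : Fm ι := ite a b b.not
/-- a Boolean constant -/
def cst (b : Bool) : Fm ι := if b then tt else ff
/-- conjunction of a list -/
def conjL (l : List (Fm ι)) : Fm ι := l.foldr and tt
/-- disjunction of a list -/
def disjL (l : List (Fm ι)) : Fm ι := l.foldr or ff

@[simp] theorem eval_tt (e : ι → Bool) : (tt : Fm ι).eval e = true := rfl
@[simp] theorem eval_var (e : ι → Bool) (i : ι) : (var i).eval e = e i := rfl
@[simp] theorem eval_nand (e : ι → Bool) (a b : Fm ι) :
    (nand a b).eval e = !(a.eval e && b.eval e) := rfl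
@[simp] theorem eval_ff (e : ι → Bool) : (ff : Fm ι).eval e = false := rfl
@[simp] theorem eval_not (e : ι → Bool) (a : Fm ι) : a.not.eval e = !(a.eval e) := by
  simp [not]
@[simp] theorem eval_and (e : ι → Bool) (a b : Fm ι) :
    (a.and b).eval e = (a.eval e && b.eval e) := by simp [and]
@[simp] theorem eval_or (e : ι → Bool) (a b : Fm ι) :
    (a.or b).eval e = (a.eval e || b.eval e) := by
  simp [or]
@[simp] theorem eval_ite (e : ι → Bool) (c a b : Fm ι) :
    (ite c a b).eval e = bif c.eval e then a.eval e else b.eval e := by
  simp only [ite, eval_nand, eval_not]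
  cases c.eval e <;> simp
@[simp] theorem eval_xor (e : ι → Bool) (a b : Fm ι) :
    (a.xor b).eval e = (a.eval e ^^ b.eval e) := by
  simp only [xor, eval_ite, eval_not]
  cases a.eval e <;> simp
@[simp] theorem eval_iff (e : ι → Bool) (a b : Fm ι) :
    (a.iff b).eval e = (a.eval e == b.eval e) := by
  simp only [iff, eval_ite, eval_not]
  cases a.eval e <;> simp
@[simp] theorem eval_cst (e : ι → Bool) (b : Bool) : (cst b : Fm ι).eval e = b := by
  cases b <;> simp [cst]
@[simp] theorem eval_conjL (e : ι → Bool) (l : List (Fm ι)) :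
    (conjL l).eval e = true ↔ ∀ a ∈ l, a.eval e = true := by
  induction l with
  | nil => simp [conjL]
  | cons a l ih =>
    have : conjL (a :: l) = and a (conjL l) := rfl
    simp [this, ih]
@[simp] theorem eval_disjL (e : ι → Bool) (l : List (Fm ι)) :
    (disjL l).eval e = true ↔ ∃ a ∈ l, a.eval e = true := by
  induction l with
  | nil => simp [disjL]
  | cons a l ih =>
    have : disjL (a :: l) = or a (disjL l) := rfl
    simp [this, ih]
@[simp] theorem eval_bind (e : κ → Bool) (f : ι → Fm κ) (a : Fm ι) :
    (a.bind f).eval e = a.eval (fun i => (f i).eval e) := by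
  induction a with
  | tt => rfl
  | var i => rfl
  | nand a b iha ihb => simp [bind, iha, ihb]

@[simp] theorem size_tt : (tt : Fm ι).size = 1 := rfl
@[simp] theorem size_var (i : ι) : (var i).size = 1 := rfl
@[simp] theorem size_nand (a b : Fm ι) : (nand a b).size = a.size + b.size + 1 := rfl
@[simp] theorem size_ff : (ff : Fm ι).size = 3 := rfl
@[simp] theorem size_not (a : Fm ι) : a.not.size = a.size + 2 := rfl
@[simp] theorem size_and (a b : Fm ι) : (a.and b).size = a.size + b.size + 3 := rfl
@[simp] theorem size_or (a b : Fm ι) : (a.or b).size = a.size + b.size + 5 := by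
  simp only [or, size_nand, size_not]; omega
@[simp] theorem size_ite (c a b : Fm ι) : (ite c a b).size = 2 * c.size + a.size + b.size + 5 := by
  simp only [ite, size_nand, size_not]; omega
@[simp] theorem size_xor (a b : Fm ι) : (a.xor b).size = 2 * a.size + 2 * b.size + 7 := by
  simp only [xor, size_ite, size_not]; omega
@[simp] theorem size_iff (a b : Fm ι) : (a.iff b).size = 2 * a.size + 2 * b.size + 7 := by
  simp only [iff, size_ite, size_not]; omega
theorem size_cst_le (b : Bool) : (cst b : Fm ι).size ≤ 3 := by
  cases b <;> simp [cst]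
theorem one_le_size (a : Fm ι) : 1 ≤ a.size := by
  cases a <;> simp
theorem size_conjL_le (l : List (Fm ι)) (s : ℕ) (h : ∀ a ∈ l, a.size ≤ s) :
    (conjL l).size ≤ l.length * (s + 3) + 1 := by
  induction l with
  | nil => simp [conjL]
  | cons a l ih =>
    have e : conjL (a :: l) = and a (conjL l) := rfl
    have h1 := h a (by simp)
    have h2 := ih (fun b hb => h b (by simp [hb]))
    simp only [e, size_and, List.length_cons]
    nlinarith
theorem size_disjL_le (l : List (Fm ι)) (s : ℕ) (h : ∀ a ∈ l, a.size ≤ s) :
    (disjL l).size ≤ l.length * (s + 5) + 3 := by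
  induction l with
  | nil => simp [disjL]
  | cons a l ih =>
    have e : disjL (a :: l) = or a (disjL l) := rfl
    have h1 := h a (by simp)
    have h2 := ih (fun b hb => h b (by simp [hb]))
    simp only [e, size_or, List.length_cons]
    nlinarith
theorem size_bind_le (f : ι → Fm κ) (a : Fm ι) (s : ℕ) (h : ∀ i, (f i).size ≤ s) (hs : 1 ≤ s) :
    (a.bind f).size ≤ a.size * s := by
  induction a with
  | tt => simpa [bind] using hs
  | var i => simpa [bind] using h i
  | nand a b iha ihb =>
    simp only [bind, size_nand]
    nlinarith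
theorem bind_bind {τ : Type} (f : ι → Fm κ) (g : κ → Fm τ) (a : Fm ι) :
    (a.bind f).bind g = a.bind (fun i => (f i).bind g) := by
  induction a with
  | tt => rfl
  | var i => rfl
  | nand a b iha ihb => simp [bind, iha, ihb]

/-- the formula saying that the first `m` of the bits `f` are the binary digits of `n` -/
def eqc (f : ℕ → Fm ι) (m n : ℕ) : Fm ι :=
  conjL ((List.range m).map fun i => if n.testBit i then f i else (f i).not)

theorem eval_eqc (e : ι → Bool) (f : ℕ → Fm ι) (m n : ℕ) :
    (eqc f m n).eval e = true ↔ ∀ i < m, (f i).eval e = n.testBit i := by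
  simp only [eqc, eval_conjL, List.mem_map, List.mem_range, forall_exists_index, and_imp,
    forall_apply_eq_imp_iff₂]
  refine forall₂_congr fun i _ => ?_
  by_cases h : n.testBit i = true
  · simp [h]
  · simp [h]

theorem size_eqc_le (f : ℕ → Fm ι) (m n s : ℕ) (h : ∀ i < m, (f i).size ≤ s) :
    (eqc f m n).size ≤ m * (s + 5) + 1 := by
  have := size_conjL_le ((List.range m).map fun i => if n.testBit i then f i else (f i).not)
    (s + 2) (by
      intro a ha
      simp only [List.mem_map, List.mem_range] at ha
      obtain ⟨i, hi, rfl⟩ := ha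
      have := h i hi
      split_ifs <;> simp <;> omega)
  simpa [eqc] using this

/-- bit `i` of the successor of the binary number with the bits `f` -/
def incF (f : ℕ → Fm ι) (i : ℕ) : Fm ι := (f i).xor (conjL ((List.range i).map f))

theorem eval_incF (e : ι → Bool) (f : ℕ → Fm ι) (i : ℕ) :
    (incF f i).eval e = ((f i).eval e ^^ decide (∀ j < i, (f j).eval e = true)) := by
  have h : (conjL ((List.range i).map f)).eval e = decide (∀ j < i, (f j).eval e = true) := by
    rw [Bool.eq_iff_iff, eval_conjL]
    simp
  simp only [incF, eval_xor, h]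

theorem size_incF_le (f : ℕ → Fm ι) (i s : ℕ) (h : ∀ j ≤ i, (f j).size ≤ s) :
    (incF f i).size ≤ 2 * s + 2 * (i * (s + 3) + 1) + 7 := by
  have h1 := size_conjL_le ((List.range i).map f) s (by
    intro a ha
    simp only [List.mem_map, List.mem_range] at ha
    obtain ⟨j, hj, rfl⟩ := ha
    exact h j hj.le)
  have h2 := h i le_rfl
  simp only [List.length_map, List.length_range] at h1
  simp only [incF, size_xor]
  omega

end Fm

end Pool.Agent.Helper93.TS
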