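import Pool.Agent.Helper93.TS.StN

/-!
Project TS, module CB: the code of a block.
-/

namespace Pool.Agent.Helper93.TS

open Pool.Agent.Helper72

private theorem code_var_Cb (n : ℕ) : (BForm.var n).code =
    [false, false, true] ++ (Computability.encodeNat n).flatMap (fun b => [false, true, b]) := rfl

private theorem testBit_lo_Cb (K F i : ℕ) (r : ℕ) (hr : r < 2 ^ K) (hi : i < K) :
    (F * 2 ^ K + r).testBit i = r.testBit i := by
  rw [mul_comm, Nat.testBit_two_pow_mul_add _ hr, if_pos hi]

private theorem testBit_hi_Cb (K F i : ℕ) (r : ℕ) (hr : r < 2 ^ K) :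
    (F * 2 ^ K + r).testBit (K + i) = F.testBit i := by
  rw [mul_comm, Nat.testBit_two_pow_mul_add _ hr, if_neg (by omega)]
  congr 1
  omega

private theorem code_nm_Cb (h : StEnc) (K α F : ℕ) (q : Pos K) (hF : F < 2 ^ α)
    (bit : ℕ → Fm (Option ℕ)) (e : Option ℕ → Bool) (hq : ∀ i : Fin K, q i = (bit i).eval e) :
    (BForm.var (nm K α F q)).code = (cbV K α F bit).map fun φ => φ.eval e := by
  have hr : Nat.ofBits q < 2 ^ K := Nat.ofBits_lt_two_pow q
  have hlt : F * 2 ^ K + Nat.ofBits q < 2 ^ (K + α) := by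
    rw [pow_add]
    calc F * 2 ^ K + Nat.ofBits q < F * 2 ^ K + 2 ^ K := by omega
      _ = (F + 1) * 2 ^ K := by ring
      _ ≤ 2 ^ α * 2 ^ K := Nat.mul_le_mul_right _ hF
      _ = 2 ^ K * 2 ^ α := mul_comm _ _
  rw [code_var_Cb, nm, h _ _ hlt, List.range_add, cbV]
  simp only [List.map_append, List.flatMap_append, List.map_map, List.map_flatMap,
    List.flatMap_map, List.append_assoc]
  congr 1
  congr 1
  · rw [List.flatMap_def, List.flatMap_def]
    congr 1
    apply List.map_congr_left
    intro i hi
    rw [List.mem_range] at hi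
    have h1 : (F * 2 ^ K + Nat.ofBits q).testBit i = (bit i).eval e := by
      rw [testBit_lo_Cb K F i _ hr hi, Nat.testBit_ofBits_lt _ _ hi, hq ⟨i, hi⟩]
    simp [h1]
  congr 1
  · rw [List.flatMap_def, List.flatMap_def]
    congr 1
    apply List.map_congr_left
    intro i hi
    have h1 : (F * 2 ^ K + Nat.ofBits q).testBit (K + i) = F.testBit i :=
      testBit_hi_Cb K F i _ hr
    simp [h1]

theorem hCb (h : StEnc) : StCb := by
  intro K α e B hcs hB
  have hc : (cvar K α true).code =
      (cbV K α Fld.cs.num fun i => .cst (decide (i = 0))).map fun φ => φ.eval e :=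
    code_nm_Cb h K α _ _ hcs _ e (fun i => by simp [cpos])
  induction B with
  | tt => exact hc
  | var u => exact code_nm_Cb h K α _ _ hB _ e (fun i => rfl)
  | nand a b iha ihb =>
    have h1 := iha hB.1
    have h2 := ihb hB.2
    simp only [toB, cb, BForm.code, h1, h2, List.map_append]
    simp
end Pool.Agent.Helper93.TS
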