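import Pool.Agent.Helper93.TS.StM

/-!
# TS: module DIV3 (division by three by small formulas)
-/

namespace Pool.Agent.Helper93.TS

open Fm

/-- balanced sum modulo three of one-hot digits -/
private def sumDiv3 {ι : Type} : ℕ → (ℕ → ZMod 3 → Fm ι) → ZMod 3 → Fm ι
  | 0, g, c => g 0 c
  | k + 1, g, c =>
    Fm.or (Fm.or (Fm.and (sumDiv3 k g 0) (sumDiv3 k (fun j => g (2 ^ k + j)) c))
      (Fm.and (sumDiv3 k g 1) (sumDiv3 k (fun j => g (2 ^ k + j)) (c - 1))))
      (Fm.and (sumDiv3 k g 2) (sumDiv3 k (fun j => g (2 ^ k + j)) (c - 2)))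

private theorem add_Div3 : ∀ x y c : ZMod 3,
    (((decide (x = 0) && decide (y = c)) || (decide (x = 1) && decide (y = c - 1))) ||
      (decide (x = 2) && decide (y = c - 2))) = decide (x + y = c) := by
  decide

private theorem eval_sumDiv3 {ι : Type} (e : ι → Bool) : ∀ (k : ℕ) (g : ℕ → ZMod 3 → Fm ι)
    (d : ℕ → ZMod 3), (∀ j c, (g j c).eval e = decide (d j = c)) →
    ∀ c, (sumDiv3 k g c).eval e = decide (∑ j ∈ Finset.range (2 ^ k), d j = c)
  | 0, g, d, h, c => by
      simp only [sumDiv3, h]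
      simp
  | k + 1, g, d, h, c => by
      have h1 := eval_sumDiv3 e k g d h
      have h2 := eval_sumDiv3 e k (fun j => g (2 ^ k + j)) (fun j => d (2 ^ k + j))
        (fun j c => h (2 ^ k + j) c)
      simp only [sumDiv3, eval_or, eval_and, h1, h2]
      rw [add_Div3]
      have h3 : ∑ j ∈ Finset.range (2 ^ (k + 1)), d j =
          ∑ j ∈ Finset.range (2 ^ k), d j + ∑ j ∈ Finset.range (2 ^ k), d (2 ^ k + j) := by
        rw [show 2 ^ (k + 1) = 2 ^ k + 2 ^ k by ring, Finset.sum_range_add]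
      rw [h3]

private theorem size_sumDiv3 {ι : Type} (s : ℕ) (hs : 1 ≤ s) : ∀ (k : ℕ)
    (g : ℕ → ZMod 3 → Fm ι), (∀ j c, (g j c).size ≤ s) → ∀ c, (sumDiv3 k g c).size ≤ 25 ^ k * s
  | 0, g, h, c => by
      simpa [sumDiv3] using h 0 c
  | k + 1, g, h, c => by
      have h1 := size_sumDiv3 s hs k g h
      have h2 := size_sumDiv3 s hs k (fun j => g (2 ^ k + j)) (fun j c => h (2 ^ k + j) c)
      have a0 := h1 0
      have a1 := h1 1
      have a2 := h1 2
      have b0 := h2 c
      have b1 := h2 (c - 1)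
      have b2 := h2 (c - 2)
      simp only [sumDiv3, size_or, size_and]
      have h3 : 1 ≤ 25 ^ k * s := Nat.mul_pos (by positivity) hs
      have h4 : 25 ^ (k + 1) * s = 25 * (25 ^ k * s) := by ring
      rw [h4]
      omega

private theorem sum_bits_Div3 : ∀ (K b : ℕ), b < 2 ^ K →
    ∑ j ∈ Finset.range K, (if b.testBit j then (2 : ZMod 3) ^ j else 0) = (b : ZMod 3)
  | 0, b, h => by
      have : b = 0 := by simpa using h
      subst this
      simp
  | K + 1, b, h => by
      have hb : b / 2 < 2 ^ K := by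
        rw [Nat.div_lt_iff_lt_mul (by norm_num)]
        rw [pow_succ] at h
        exact h
      have ih := sum_bits_Div3 K (b / 2) hb
      rw [Finset.sum_range_succ']
      have h1 : ∑ j ∈ Finset.range K, (if b.testBit (j + 1) then (2 : ZMod 3) ^ (j + 1) else 0) =
          2 * ∑ j ∈ Finset.range K, (if (b / 2).testBit j then (2 : ZMod 3) ^ j else 0) := by
        rw [Finset.mul_sum]
        refine Finset.sum_congr rfl fun j _ => ?_
        rw [Nat.testBit_succ]
        split_ifs
        · ring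
        · ring
      rw [h1, ih]
      have h2 : b = 2 * (b / 2) + b % 2 := (Nat.div_add_mod b 2).symm
      have h3 : (if b.testBit 0 then (2 : ZMod 3) ^ 0 else 0) = ((b % 2 : ℕ) : ZMod 3) := by
        rw [Nat.testBit_zero]
        rcases Nat.mod_two_eq_zero_or_one b with h4 | h4
        · simp [h4]
        · simp [h4]
      rw [h3]
      conv_rhs => rw [h2]
      push_cast
      ring

/-- the digit of weight `2 ^ j` of the number `a / 2 ^ i` -/
private def digDiv3 {ι : Type} (m : ℕ) (f : ℕ → Fm ι) (i j : ℕ) (c : ZMod 3) : Fm ι :=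
  if i + j < m then
    if c = 0 then (f (i + j)).not else if c = 2 ^ j then f (i + j) else ff
  else if c = 0 then tt else ff

private theorem eval_digDiv3 {ι : Type} (e : ι → Bool) (m : ℕ) (f : ℕ → Fm ι) (a i j : ℕ)
    (ha : a < 2 ^ m) (hf : ∀ i < m, (f i).eval e = a.testBit i) (c : ZMod 3) :
    (digDiv3 m f i j c).eval e =
      decide ((if (a / 2 ^ i).testBit j then (2 : ZMod 3) ^ j else 0) = c) := by
  have hne : ∀ j : ℕ, (2 : ZMod 3) ^ j ≠ 0 := fun j => pow_ne_zero j (by decide)
  rw [Nat.testBit_div_two_pow, Nat.add_comm j i]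
  unfold digDiv3
  by_cases h1 : i + j < m
  · rw [if_pos h1]
    have h2 := hf _ h1
    by_cases h3 : c = 0
    · subst h3
      rw [if_pos rfl, eval_not, h2]
      cases h4 : a.testBit (i + j)
      · simp
      · simp [hne j]
    · rw [if_neg h3]
      by_cases h5 : c = 2 ^ j
      · rw [if_pos h5, h2]
        cases h4 : a.testBit (i + j)
        · simp [Ne.symm h3]
        · simp [h5]
      · rw [if_neg h5, eval_ff]
        cases h4 : a.testBit (i + j)
        · simp [Ne.symm h3]
        · simp [Ne.symm h5]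
  · rw [if_neg h1]
    have h2 : a.testBit (i + j) = false :=
      Nat.testBit_lt_two_pow (lt_of_lt_of_le ha (Nat.pow_le_pow_right (by norm_num) (by omega)))
    by_cases h3 : c = 0
    · subst h3
      simp [h2]
    · rw [if_neg h3, eval_ff, h2]
      simp [Ne.symm h3]

private theorem size_digDiv3 {ι : Type} (m : ℕ) (f : ℕ → Fm ι) (s : ℕ)
    (hf : ∀ i < m, (f i).size ≤ s) (i j : ℕ) (c : ZMod 3) :
    (digDiv3 m f i j c).size ≤ s + 3 := by
  unfold digDiv3
  split_ifs with h1 h2 h3 h4
  · have := hf _ h1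
    simp; omega
  · have := hf _ h1
    omega
  · simp
  · simp
  · simp

theorem hDiv3 : StDiv3 := by
  refine ⟨14, fun m ι f s hf => ?_⟩
  set k := Nat.log 2 m + 1 with hk
  have hmk : m < 2 ^ k := Nat.lt_pow_succ_log_self (by norm_num) m
  have hk2 : 2 ^ k ≤ 2 * (m + 1) := by
    rcases Nat.eq_zero_or_pos m with h | h
    · subst h; simp [hk]
    · have := Nat.pow_log_le_self 2 (x := m) (by omega)
      rw [hk, pow_succ]
      omega
  set G : ℕ → ZMod 3 → Fm ι := fun i c => sumDiv3 k (digDiv3 m f i) c with hG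
  have hGs : ∀ i c, (G i c).size ≤ (m + s + 2) ^ 12 := by
    intro i c
    have h1 := size_sumDiv3 (s + 3) (by omega) k (digDiv3 m f i)
      (fun j c => size_digDiv3 m f s hf i j c) c
    have h2 : 25 ^ k ≤ (m + s + 2) ^ 10 := by
      calc 25 ^ k ≤ 32 ^ k := Nat.pow_le_pow_left (by norm_num) k
        _ = (2 ^ k) ^ 5 := by rw [← pow_mul, mul_comm k 5, pow_mul]; norm_num
        _ ≤ ((m + s + 2) ^ 2) ^ 5 := by
            refine Nat.pow_le_pow_left (hk2.trans ?_) 5
            nlinarith
        _ = (m + s + 2) ^ 10 := by ring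
    have h3 : s + 3 ≤ (m + s + 2) ^ 2 := by nlinarith
    calc (G i c).size ≤ 25 ^ k * (s + 3) := h1
      _ ≤ (m + s + 2) ^ 10 * (m + s + 2) ^ 2 := Nat.mul_le_mul h2 h3
      _ = (m + s + 2) ^ 12 := by ring
  have hGe : ∀ (e : ι → Bool) (a : ℕ), a < 2 ^ m → (∀ i < m, (f i).eval e = a.testBit i) →
      ∀ i c, (G i c).eval e = decide (((a / 2 ^ i : ℕ) : ZMod 3) = c) := by
    intro e a ha hfe i c
    have h1 := eval_sumDiv3 e k (digDiv3 m f i)
      (fun j => if (a / 2 ^ i).testBit j then (2 : ZMod 3) ^ j else 0)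
      (fun j c => eval_digDiv3 e m f a i j ha hfe c) c
    rw [sum_bits_Div3 (2 ^ k) (a / 2 ^ i) (lt_of_le_of_lt (Nat.div_le_self _ _)
      (lt_trans ha (Nat.pow_lt_pow_right (by norm_num) hmk)))] at h1
    exact h1
  have hX : 2 ≤ m + s + 2 := by omega
  refine ⟨fun i => if i < m then Fm.or (G (i + 1) 2) (Fm.and (G (i + 1) 1) (f i)) else ff,
    fun c => G 0 (c : ZMod 3), ?_, ?_, ?_⟩
  · intro i
    show (if i < m then Fm.or (G (i + 1) 2) (Fm.and (G (i + 1) 1) (f i)) else ff).size ≤ _
    have hbig : 2 * (m + s + 2) ^ 12 + s + 8 ≤ (m + s + 2) ^ 14 := by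
      obtain ⟨X, hXd⟩ : ∃ X, X = m + s + 2 := ⟨_, rfl⟩
      rw [← hXd] at hX ⊢
      have h1 : s + 2 ≤ X := by omega
      have h2 : 1 ≤ X ^ 8 := Nat.one_le_pow _ _ (by omega)
      have h3 : 4 ≤ X ^ 2 := by nlinarith
      have h4 : X ^ 14 = X ^ 12 * X ^ 2 := by ring
      have h5 : X ^ 12 * 4 ≤ X ^ 12 * X ^ 2 := Nat.mul_le_mul_left _ h3
      have h6 : s + 8 ≤ X ^ 12 := by
        have h7 : X ^ 12 = X * (X ^ 3 * X ^ 8) := by ring
        have h8 : 8 ≤ X ^ 3 := by
          calc 8 = 2 ^ 3 := by norm_num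
            _ ≤ X ^ 3 := Nat.pow_le_pow_left hX 3
        have h9 : 8 * 1 ≤ X ^ 3 * X ^ 8 := Nat.mul_le_mul h8 h2
        have h10 : X * 8 ≤ X * (X ^ 3 * X ^ 8) := Nat.mul_le_mul_left _ (by omega)
        rw [h7]
        omega
      rw [h4]
      omega
    split_ifs with h
    · have h1 := hGs (i + 1) 2
      have h2 := hGs (i + 1) 1
      have h3 := hf i h
      simp only [size_or, size_and]
      omega
    · have : 3 ≤ (m + s + 2) ^ 14 := by
        have h4 : 0 < (m + s + 2) ^ 12 := by positivity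
        omega
      simpa using this
  · intro c _
    exact (hGs 0 _).trans (Nat.pow_le_pow_right (by omega) (by norm_num))
  · intro e a ha hfe
    constructor
    · intro i
      show (if i < m then Fm.or (G (i + 1) 2) (Fm.and (G (i + 1) 1) (f i)) else ff).eval e = _
      split_ifs with h
      · rw [eval_or, eval_and, hGe e a ha hfe, hGe e a ha hfe, hfe i h]
        have h1 : ∀ c : ℕ, c < 3 → (decide (((a / 2 ^ (i + 1) : ℕ) : ZMod 3) = (c : ℕ)) =
            decide (a / 2 ^ (i + 1) % 3 = c)) := by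
          intro c hc
          rw [decide_eq_decide, ZMod.natCast_eq_natCast_iff', Nat.mod_eq_of_lt hc]
        have h2 := h1 2 (by norm_num)
        have h3 := h1 1 (by norm_num)
        push_cast at h2 h3
        rw [h2, h3]
        have h4 : a / 2 ^ i = 2 * (a / 2 ^ (i + 1)) + a / 2 ^ i % 2 := by
          rw [pow_succ, ← Nat.div_div_eq_div_mul]
          exact (Nat.div_add_mod _ 2).symm
        have h5 : a / 3 / 2 ^ i = (a / 2 ^ i) / 3 := by
          rw [Nat.div_div_eq_div_mul, mul_comm, ← Nat.div_div_eq_div_mul]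
        rw [Nat.testBit_eq_decide_div_mod_eq, Nat.testBit_eq_decide_div_mod_eq, h5]
        generalize a / 2 ^ (i + 1) = b at h4 ⊢
        generalize a / 2 ^ i = x at h4 ⊢
        rw [Bool.eq_iff_iff]
        simp only [Bool.or_eq_true, Bool.and_eq_true, decide_eq_true_eq]
        omega
      · rw [eval_ff]
        exact (Nat.testBit_lt_two_pow (lt_of_le_of_lt (Nat.div_le_self _ _)
          (lt_of_lt_of_le ha (Nat.pow_le_pow_right (by norm_num) (by omega))))).symm
    · intro c hc
      show (G 0 (c : ZMod 3)).eval e = true ↔ _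
      rw [hGe e a ha hfe, decide_eq_true_eq, pow_zero, Nat.div_one,
        ZMod.natCast_eq_natCast_iff', Nat.mod_eq_of_lt hc]

end Pool.Agent.Helper93.TS
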