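import Pool.Agent.Helper93.TS.StE

/-!
# Project TS, module EST: static transformations
-/

set_option autoImplicit false

namespace Pool.Agent.Helper93.TS

open Pool.Agent.Helper72 Filter

theorem hEst (h1 : StDR) (h2 : StEpol) : StEst := by
  obtain ⟨C, hC⟩ := h1
  intro R a q hR ε hε
  obtain ⟨η, hη, hev⟩ := h2 C ((q : ℝ) + 2) ε (by positivity) hε
  refine ⟨η, hη, ?_⟩
  filter_upwards [hev, eventually_ge_atTop ⌈(a : ℝ) / ε⌉₊] with k hk hka
  intro ρ τ f hf
  obtain ⟨v, t, s, hv, ht, hs, hD⟩ := hf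
  have hka' : (a : ℝ) ≤ ε * k := by
    have h3 : (a : ℝ) / ε ≤ k := (Nat.le_ceil _).trans (by exact_mod_cast hka)
    rw [div_le_iff₀ hε] at h3
    linarith
  refine ⟨v + a, t, (s + q + 2) ^ C, ?_, ht, ?_, hC v t s (v + a) q f R hD (hR v)⟩
  · push_cast
    rw [add_mul]
    linarith
  · push_cast
    have h3 : ((s : ℝ) + q + 2) ^ C ≤ ((s : ℝ) + ((q : ℝ) + 2) * k + ((q : ℝ) + 2)) ^ C := by
      refine pow_le_pow_left₀ (by positivity) ?_ C
      have h4 : (0 : ℝ) ≤ ((q : ℝ) + 2) * k := by positivity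
      linarith
    exact h3.trans (hk (s : ℝ) (by positivity) hs)

end Pool.Agent.Helper93.TS
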