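import Pool.Agent.Helper93.TS.StM

/-!
# Project TS, module Mono: machines may be given more width and time
-/

namespace Pool.Agent.Helper93.TS

/-- clock bits from `t` on are replaced by `false` -/
private def s1_Mono {ι : Type} (t : ℕ) : Option (V ι) → Fm (Option (V ι))
  | none => .var none
  | some (.mem i) => .var (some (.mem i))
  | some (.clk j) => if j < t then .var (some (.clk j)) else .ff
  | some (.par j) => .var (some (.par j))

private def s0_Mono {ι : Type} (t : ℕ) : V ι → Fm (V ι)
  | .mem i => .var (.mem i)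
  | .clk j => if j < t then .var (.clk j) else .ff
  | .par j => .var (.par j)

private theorem s1_size_Mono {ι : Type} (t : ℕ) (o : Option (V ι)) : (s1_Mono t o).size ≤ 3 := by
  rcases o with _ | (i | j | j)
  · simp [s1_Mono]
  · simp [s1_Mono]
  · simp only [s1_Mono]
    split_ifs <;> simp
  · simp [s1_Mono]

private theorem s0_size_Mono {ι : Type} (t : ℕ) (o : V ι) : (s0_Mono t o).size ≤ 3 := by
  rcases o with i | j | j
  · simp [s0_Mono]
  · simp only [s0_Mono]
    split_ifs <;> simp
  · simp [s0_Mono]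

private theorem s1_eval_Mono {ι : Type} (t n T : ℕ) (m : ι → Bool) (r : Bool) (hn : n < 2 ^ t)
    (hT : ∀ j < t, T.testBit j = n.testBit j) :
    (fun o => (s1_Mono t o).eval (oenv (env m T zero) r)) = oenv (env m n zero) r := by
  funext o
  rcases o with _ | (i | j | j)
  · rfl
  · rfl
  · simp only [s1_Mono]
    split_ifs with h
    · simp [hT j h]
    · have : n.testBit j = false :=
        Nat.testBit_lt_two_pow (hn.trans_le (Nat.pow_le_pow_right (by norm_num) (not_lt.1 h)))
      simp [this]
  · rfl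

private theorem s0_eval_Mono {ι : Type} (t n T : ℕ) (m : ι → Bool) (hn : n < 2 ^ t)
    (hT : ∀ j < t, T.testBit j = n.testBit j) :
    (fun o => (s0_Mono t o).eval (env m T zero)) = env m n zero := by
  funext o
  rcases o with i | j | j
  · rfl
  · simp only [s0_Mono]
    split_ifs with h
    · simp [hT j h]
    · have : n.testBit j = false :=
        Nat.testBit_lt_two_pow (hn.trans_le (Nat.pow_le_pow_right (by norm_num) (not_lt.1 h)))
      simp [this]
  · rfl

/-- the last `2 ^ t` steps of `2 ^ t'` -/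
private def g_Mono {ι : Type} (t t' : ℕ) : Fm (Option (V ι)) :=
  Fm.conjL ((List.range (t' - t)).map fun j => .var (some (.clk (t + j))))

private def M_Mono {ι : Type} (M : Mac ι) (v t t' : ℕ) : Mac ι where
  nx i := (g_Mono t t').and ((M.nx i).bind (s1_Mono t))
  ad j := if j < v then (M.ad j).bind (s0_Mono t) else .ff
  out := M.out

private theorem g_true_Mono {ι : Type} (t t' T : ℕ) (m : ι → Bool) (r : Bool) :
    (g_Mono t t').eval (oenv (env m T zero) r) = true ↔
      ∀ j < t' - t, T.testBit (t + j) = true := by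
  unfold g_Mono
  rw [Fm.eval_conjL]
  constructor
  · intro h j hj
    exact h _ (List.mem_map.2 ⟨j, List.mem_range.2 hj, rfl⟩)
  · intro h a ha
    obtain ⟨j, hj, rfl⟩ := List.mem_map.1 ha
    exact h j (List.mem_range.1 hj)

/-- digits of a time in the last `2 ^ t` steps -/
private theorem dig_Mono (t k n : ℕ) (hn : n < 2 ^ t) : (∀ j < t,
    (2 ^ t * (2 ^ k - 1) + n).testBit j = n.testBit j) ∧
    ∀ j < k, (2 ^ t * (2 ^ k - 1) + n).testBit (t + j) = true := by
  constructor
  · intro j hj
    rw [Nat.testBit_two_pow_mul_add _ hn, if_pos hj]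
  · intro j hj
    rw [Nat.testBit_two_pow_mul_add _ hn, if_neg (by omega), Nat.testBit_two_pow_sub_one]
    exact decide_eq_true (by omega)

/-- digits of an earlier time -/
private theorem early_Mono (t k n : ℕ) (hn : n < 2 ^ t * (2 ^ k - 1)) :
    ¬ ∀ j < k, n.testBit (t + j) = true := by
  intro h
  have h1 : n / 2 ^ t < 2 ^ k - 1 := Nat.div_lt_of_lt_mul hn
  have h2 : (n / 2 ^ t) % 2 ^ k = 2 ^ k - 1 := by
    refine Nat.eq_of_testBit_eq fun j => ?_
    rw [Nat.testBit_mod_two_pow, Nat.testBit_two_pow_sub_one, Nat.testBit_div_two_pow]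
    by_cases hj : j < k
    · have := h j hj
      rw [add_comm] at this
      simp [hj, this]
    · simp [hj]
  have h3 := Nat.mod_le (n / 2 ^ t) (2 ^ k)
  omega

private theorem runA_Mono {ι : Type} (M : Mac ι) (v v' t t' : ℕ) (w : Word) (n : ℕ)
    (hn : n ≤ 2 ^ t * (2 ^ (t' - t) - 1)) : (M_Mono M v t t').run v' w zero 0 zero n = zero := by
  induction n with
  | zero => rfl
  | succ n ih =>
    rw [Mac.run_succ, ih (by omega)]
    funext i
    change ((g_Mono t t').and ((M.nx i).bind (s1_Mono t))).eval _ = false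
    rw [Fm.eval_and]
    have h : (g_Mono t t').eval (oenv (env (zero : ι → Bool) (0 + n) zero)
        (w ((M_Mono M v t t').addr v' zero (0 + n) zero))) = false := by
      rw [← Bool.not_eq_true, g_true_Mono, Nat.zero_add]
      exact early_Mono t (t' - t) n (by omega)
    rw [h, Bool.false_and]

private theorem runB_Mono {ι : Type} (M : Mac ι) (v v' t t' : ℕ) (hv : v ≤ v') (w : Word) (n : ℕ)
    (hn : n ≤ 2 ^ t) : (M_Mono M v t t').run v' w zero (2 ^ t * (2 ^ (t' - t) - 1)) zero n =
      M.run v w zero 0 zero n := by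
  induction n with
  | zero => rfl
  | succ n ih =>
    rw [Mac.run_succ, Mac.run_succ, ih (by omega), Nat.zero_add]
    obtain ⟨d1, d2⟩ := dig_Mono t (t' - t) n (by omega)
    obtain ⟨m, hm⟩ : ∃ m, m = M.run v w zero 0 zero n := ⟨_, rfl⟩
    rw [← hm]
    have haddr : (M_Mono M v t t').addr v' zero (2 ^ t * (2 ^ (t' - t) - 1) + n) m =
        M.addr v zero n m := by
      funext j
      simp only [Mac.addr]
      by_cases hj : j < v
      · have h1 : (M_Mono M v t t').ad j = (M.ad j).bind (s0_Mono t) := if_pos hj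
        rw [h1, Fm.eval_bind, s0_eval_Mono t n _ m (by omega) d1, decide_eq_true hj,
          decide_eq_true (hj.trans_le hv)]
      · have h1 : (M_Mono M v t t').ad j = .ff := if_neg hj
        rw [h1, Fm.eval_ff, decide_eq_false hj, Bool.and_false, Bool.false_and]
    funext i
    change ((g_Mono t t').and ((M.nx i).bind (s1_Mono t))).eval (oenv (env m _ zero)
      (w ((M_Mono M v t t').addr v' zero _ m))) = (M.nx i).eval (oenv (env m n zero)
      (w (M.addr v zero n m)))
    rw [Fm.eval_and, (g_true_Mono t t' _ m _).2 d2, Bool.true_and, Fm.eval_bind,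
      s1_eval_Mono t n _ m _ (by omega) d1, haddr]

theorem hMono : StMono := by
  refine ⟨3, ?_⟩
  intro v v' t t' s f hf hv ht
  obtain ⟨ι, hι, M, hb, hfM⟩ := hf
  refine ⟨ι, hι, M_Mono M v t t', ⟨?_, ?_, ?_⟩, ?_⟩
  · have := hb.card_le
    nlinarith [Nat.zero_le (s + t'), Nat.zero_le ((s + t') ^ 2), Nat.zero_le ((s + t') ^ 3),
      this]
  · intro i
    change ((g_Mono t t').and ((M.nx i).bind (s1_Mono t))).size ≤ _
    rw [Fm.size_and]
    have h1 := Fm.size_bind_le (s1_Mono t) (M.nx i) 3 (s1_size_Mono t) (by norm_num)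
    have h2 := hb.nx_le i
    have h3 : (g_Mono (ι := ι) t t').size ≤ (t' - t) * (1 + 3) + 1 := by
      have := Fm.size_conjL_le ((List.range (t' - t)).map fun j =>
        (.var (some (.clk (t + j))) : Fm (Option (V ι)))) 1 (by
          intro a ha
          obtain ⟨j, _, rfl⟩ := List.mem_map.1 ha
          exact le_rfl)
      rwa [List.length_map, List.length_range] at this
    have h4 : 4 * t' + 3 * s + 4 ≤ (s + t' + 2) ^ 3 := by
      nlinarith [Nat.zero_le (s + t'), Nat.zero_le ((s + t') ^ 2), Nat.zero_le ((s + t') ^ 3)]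
    have h5 : (t' - t) * (1 + 3) ≤ 4 * t' := by omega
    omega
  · intro j _
    have h4 : 3 * s + 4 ≤ (s + t' + 2) ^ 3 := by
      nlinarith [Nat.zero_le (s + t'), Nat.zero_le ((s + t') ^ 2), Nat.zero_le ((s + t') ^ 3)]
    by_cases hj : j < v
    · have h1 : (M_Mono M v t t').ad j = (M.ad j).bind (s0_Mono t) := if_pos hj
      rw [h1]
      have h2 := Fm.size_bind_le (s0_Mono t) (M.ad j) 3 (s0_size_Mono t) (by norm_num)
      have h3 := hb.ad_le j hj
      omega
    · have h1 : (M_Mono M v t t').ad j = .ff := if_neg hj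
      rw [h1, Fm.size_ff]
      omega
  · intro w
    rw [hfM]
    have h1 : 2 ^ t' = 2 ^ t * (2 ^ (t' - t) - 1) + 2 ^ t := by
      have h2 : 2 ^ t' = 2 ^ t * 2 ^ (t' - t) := by
        rw [← pow_add]
        congr 1
        omega
      have h3 : 1 ≤ 2 ^ (t' - t) := Nat.one_le_two_pow
      rw [h2]
      obtain ⟨x, hx⟩ := Nat.exists_eq_add_of_le' h3
      rw [hx, Nat.add_sub_cancel]
      ring
    rw [h1, Mac.run_add, Nat.zero_add, runA_Mono M v v' t t' w _ le_rfl,
      runB_Mono M v v' t t' hv w _ le_rfl]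
    rfl

end Pool.Agent.Helper93.TS
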