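import Pool.Agent.Helper93.TS.Fm

/-!
Words with binary addresses, clocked machines with parameters, the classes `Dc`, representable
transformations of words.
-/

namespace Pool.Agent.Helper93.TS

/-- addresses: infinite sequences of bits, almost all `false` in practice -/
abbrev Addr := ℕ → Bool

/-- words: the input of a machine, indexed by addresses -/
abbrev Word := Addr → Bool

/-- the binary digits of `n` -/
def bin (n : ℕ) : Addr := fun j => n.testBit j

/-- put a bit in front of an address -/
def acons (b : Bool) (a : Addr) : Addr
  | 0 => b
  | i + 1 => a i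

/-- remove the first bit of an address -/
def atail (a : Addr) : Addr := fun i => a (i + 1)

/-- the pair of two words -/
def pair (x y : Word) : Word := fun a => if a 0 = true then y (atail a) else x (atail a)

/-- first component -/
def fst (w : Word) : Word := fun a => w (acons false a)

/-- second component -/
def snd (w : Word) : Word := fun a => w (acons true a)

/-- the first `U` bits of `I`, then `a` -/
def cat (U : ℕ) (I a : Addr) : Addr := fun i => if i < U then I i else a (i - U)

/-- the first `v` bits -/
def trunc (v : ℕ) (a : Addr) : Addr := fun i => decide (i < v) && a i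

/-- successor of a binary number -/
def inc (a : Addr) : Addr := fun i => a i ^^ decide (∀ j < i, a j = true)

/-- the bits of the index held by the word `I`: bit `j` is at address `bin j` -/
def idx (I : Word) : Addr := fun j => I (bin j)

/-- the `I`-th block of `y`: index of `U` bits, `β` bits of addresses within the block -/
def sub (U β : ℕ) (I : Addr) (y : Word) : Word := fun a => y (cat U I (trunc β a))

/-- the word whose `β`-bit addresses are used only -/
def tr (κ : ℕ) (x : Word) : Word := fun a => x (trunc κ a)

/-- the address `a` has no bits from `v` on -/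
def Supp (v : ℕ) (a : Addr) : Prop := ∀ i, v ≤ i → a i = false

@[simp] theorem acons_zero (b : Bool) (a : Addr) : acons b a 0 = b := rfl
@[simp] theorem acons_succ (b : Bool) (a : Addr) (i : ℕ) : acons b a (i + 1) = a i := rfl
@[simp] theorem atail_acons (b : Bool) (a : Addr) : atail (acons b a) = a := rfl
theorem acons_atail (a : Addr) : acons (a 0) (atail a) = a := by
  funext i; cases i <;> rfl
@[simp] theorem fst_pair (x y : Word) : fst (pair x y) = x := by
  funext a; simp [fst, pair]
@[simp] theorem snd_pair (x y : Word) : snd (pair x y) = y := by
  funext a; simp [snd, pair]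
@[simp] theorem pair_fst_snd (w : Word) : pair (fst w) (snd w) = w := by
  funext a
  simp only [pair, fst, snd]
  by_cases h : a 0 = true
  · rw [if_pos h, ← h, acons_atail]
  · have h' : a 0 = false := by simpa using h
    rw [if_neg h, ← h', acons_atail]
theorem supp_trunc (v : ℕ) (a : Addr) : Supp v (trunc v a) := by
  intro i hi; simp [trunc, Nat.not_lt.2 hi]
theorem trunc_of_supp {v : ℕ} {a : Addr} (h : Supp v a) : trunc v a = a := by
  funext i
  by_cases hi : i < v
  · simp [trunc, hi]
  · simp [trunc, hi, h i (Nat.not_lt.1 hi)]
theorem Supp.mono {v v' : ℕ} {a : Addr} (h : Supp v a) (hv : v ≤ v') : Supp v' a :=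
  fun i hi => h i (hv.trans hi)
theorem supp_bin {n v : ℕ} (h : n < 2 ^ v) : Supp v (bin n) := by
  intro i hi
  exact Nat.testBit_lt_two_pow (h.trans_le (Nat.pow_le_pow_right (by norm_num) hi))
theorem bin_inj {m n : ℕ} (h : bin m = bin n) : m = n :=
  Nat.eq_of_testBit_eq fun i => congrFun h i

/-- variables of the formulas of a machine with memory cells `ι`: memory cells, binary digits of
the time, parameters -/
inductive V (ι : Type) where
  | mem : ι → V ι
  | clk : ℕ → V ι
  | par : ℕ → V ι

/-- values of the variables, memory `m`, time `t`, parameters `c` -/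
def env {ι : Type} (m : ι → Bool) (t : ℕ) (c : ℕ → Bool) : V ι → Bool
  | .mem i => m i
  | .clk j => t.testBit j
  | .par j => c j

/-- the same with the bit `r` just read -/
def oenv {ι : Type} (e : ι → Bool) (r : Bool) : Option ι → Bool
  | none => r
  | some u => e u

@[simp] theorem oenv_none {ι : Type} (e : ι → Bool) (r : Bool) : oenv e r none = r := rfl
@[simp] theorem oenv_some {ι : Type} (e : ι → Bool) (r : Bool) (u : ι) :
    oenv e r (some u) = e u := rfl

/-- machines with memory cells `ι`: the variable `none` of `nx i` is the bit read -/
structure Mac (ι : Type) where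
  /-- next value of a cell -/
  nx : ι → Fm (Option (V ι))
  /-- bits of the address to be read -/
  ad : ℕ → Fm (V ι)
  /-- the output cell -/
  out : ι

namespace Mac

variable {ι : Type}

/-- the address read by a machine of width `v` -/
def addr (M : Mac ι) (v : ℕ) (c : ℕ → Bool) (t : ℕ) (m : ι → Bool) : Addr :=
  fun j => decide (j < v) && (M.ad j).eval (env m t c)

/-- one step at time `t` on the word `w` with parameters `c` -/
def step (M : Mac ι) (v : ℕ) (w : Word) (c : ℕ → Bool) (t : ℕ) (m : ι → Bool) : ι → Bool :=
  fun i => (M.nx i).eval (oenv (env m t c) (w (M.addr v c t m)))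

/-- the memory after `n` steps, started at time `t` with memory `m` -/
def run (M : Mac ι) (v : ℕ) (w : Word) (c : ℕ → Bool) (t : ℕ) (m : ι → Bool) : ℕ → ι → Bool
  | 0 => m
  | n + 1 => M.step v w c (t + n) (run M v w c t m n)

/-- bounds for the number of cells and the sizes of the formulas -/
structure Bd [Fintype ι] (M : Mac ι) (v s : ℕ) : Prop where
  card_le : Fintype.card ι ≤ s
  nx_le : ∀ i, (M.nx i).size ≤ s
  ad_le : ∀ j < v, (M.ad j).size ≤ s

end Mac

/-- all cells and parameters are `false` -/
def zero {α : Type} : α → Bool := fun _ => false

/-- `f` is computed by a machine of width `v` and size `s` in exactly `2 ^ t` steps -/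
def Dc (v t s : ℕ) (f : Word → Prop) : Prop :=
  ∃ (ι : Type) (_ : Fintype ι) (M : Mac ι), M.Bd v s ∧
    ∀ w, f w ↔ M.run v w zero 0 zero (2 ^ t) M.out = true

/-- The transformation `R` of words depending on parameters is represented by formulas of size at
most `q`: for an address `a` with bits below `v`, the bit of `R w c` at `a` is a small formula in
the bits of `a`, the parameters `c` and the bit of `w` at an address whose bits (below `v'`) are
small formulas in the bits of `a` and `c`. -/
def RepP (v v' q : ℕ) (R : Word → (ℕ → Bool) → Word) : Prop :=
  ∃ (F : ℕ → Fm (ℕ ⊕ ℕ)) (Q : Fm (Option (ℕ ⊕ ℕ))), (∀ j < v', (F j).size ≤ q) ∧ Q.size ≤ q ∧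
    ∀ w c a, Supp v a → R w c a = Q.eval (oenv (Sum.elim a c)
      (w fun j => decide (j < v') && (F j).eval (Sum.elim a c)))

/-- the same without parameters -/
def Rep (v v' q : ℕ) (R : Word → Word) : Prop := RepP v v' q fun w _ => R w

end Pool.Agent.Helper93.TS
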