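import Mathlib
import Pool.Agent.Helper72.Defs

/-!
Official definitions for the time-space lower bound: machines with a small memory and random
access to the input, and the languages decided by them in time `n ^ c` with `n ^ δ` memory bits.
-/

namespace Pool.Agent.Helper93.TS

open Pool.Agent.Helper72 Filter

/-- the number of occurrences of variables and connectives in a formula -/
def bsize : BForm → ℕ
  | .var _ => 1
  | .neg φ => bsize φ + 1
  | .conj φ ψ => bsize φ + bsize ψ + 1
  | .disj φ ψ => bsize φ + bsize ψ + 1

/-- A machine with `mem` bits of memory and random access to its input. In every step it reads the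
input bit at the position whose `i`-th binary digit is the value of the formula `addr i`
(`i < adr`), and then memory bit `i` gets the value of the formula `next i`, for all `i`
simultaneously. The formula `out` tells whether the machine accepts. In all these formulas the
variable `x_(i+1)` stands for memory bit `i` and the variable `x_0` stands for the input bit that
has just been read. -/
structure Machine where
  /-- number of memory bits -/
  mem : ℕ
  /-- number of binary digits of the positions -/
  adr : ℕ
  /-- new values of the memory bits -/
  next : ℕ → BForm
  /-- binary digits of the position to be read -/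
  addr : ℕ → BForm
  /-- acceptance -/
  out : BForm

namespace Machine

/-- the values of the variables when the memory is `m` and the bit read is `r` -/
def env (M : Machine) (m : ℕ → Bool) (r : Bool) : ℕ → Bool
  | 0 => r
  | i + 1 => decide (i < M.mem) && m i

/-- the position that is read when the memory is `m` -/
def pos (M : Machine) (m : ℕ → Bool) : ℕ :=
  ∑ i ∈ Finset.range M.adr, if (M.addr i).eval (M.env m false) = true then 2 ^ i else 0

/-- one step on input `x`; positions outside the input hold `false` -/
def step (M : Machine) (x : List Bool) (m : ℕ → Bool) : ℕ → Bool :=
  fun i => (M.next i).eval (M.env m (x.getD (M.pos m) false))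

/-- the memory after `T` steps; it is empty in the beginning -/
def run (M : Machine) (x : List Bool) : ℕ → ℕ → Bool
  | 0 => fun _ => false
  | T + 1 => M.step x (M.run x T)

/-- the machine accepts `x` after `T` steps -/
def Accepts (M : Machine) (x : List Bool) (T : ℕ) : Prop :=
  M.out.eval (M.env (M.run x T) false) = true

/-- memory and formulas have size at most `s` -/
structure Small (M : Machine) (s : ℕ) : Prop where
  mem_le : M.mem ≤ s
  adr_le : M.adr ≤ s
  next_le : ∀ i < M.mem, bsize (M.next i) ≤ s
  addr_le : ∀ i < M.adr, bsize (M.addr i) ≤ s
  out_le : bsize M.out ≤ s

end Machine

/-- The language `S` is decided in time `n ^ c` with memory `n ^ δ`: for all large `n` there is a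
machine with at most `n ^ δ` memory bits, address bits and symbols in each of its formulas that
decides the words of length `n` of `S` in at most `n ^ c` steps. The machine may depend on `n`
arbitrarily. -/
def TimeSpace (c δ : ℝ) (S : Set (List Bool)) : Prop :=
  ∀ᶠ n : ℕ in atTop, ∃ (M : Machine) (s T : ℕ), M.Small s ∧ (s : ℝ) ≤ (n : ℝ) ^ δ ∧
    (T : ℝ) ≤ (n : ℝ) ^ c ∧ ∀ x : List Bool, x.length = n → (M.Accepts x T ↔ x ∈ S)

end Pool.Agent.Helper93.TS
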