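import Pool.Agent.Helper93.TS.StM

/-!
# Project TS, diagonalization (part D)

Descriptions of machines by words, a checker of computation tableaus with small memory, and a
predicate `Δ` of the form `∃ y ∀ z` that differs from every predicate of the form `∀ y ∃ z` with
a machine of given width, time and size.
-/

namespace Pool.Agent.Helper93.TS

/-- the bit of `R` at the address with the bits `A (bin j)`, `j < β` -/
def look (β : ℕ) (A R : Word) : Bool := R (trunc β (idx A))

/-- The bits used by the check of wire `g` at time `t`. The number `t + 2^τ g` is given by the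
parameters `c` (its digits); `I` is a word whose bit at `bin j` is digit `j` of this number.
Description `x`: the record of wire `g` is the block `g` of `x`, with the pointers `A`, `B` (words,
`β` bits at the addresses `bin j`) and two bits for the kind. Tableau `W`: the bit at
`cat (τ+1) t g` is the value of wire `g` at time `t`. -/
structure Bits where
  k0 : Bool
  k1 : Bool
  /-- values of wires `A`, `B` at time `t`, of wire `g` at times `t` and `t+1` -/
  va : Bool
  vb : Bool
  vg : Bool
  vn : Bool
  /-- input bit at the address held by the wires `0, ..., v-1` at time `t` -/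
  vr : Bool
  /-- digit number `A` of the time -/
  ct : Bool
  /-- all digits of the pointer `A` are zero -/
  az : Bool
  /-- `t = 0` -/
  tz : Bool

/-- the bits for given words; `inp` is the input of the machine described by `x` -/
noncomputable def bits (v β τ : ℕ) (x inp W I : Word) : Bits :=
  let c : Addr := idx I
  let t : Addr := trunc τ c
  let g : Addr := fun j => c (τ + j)
  let Rec := sub β (β + 2) g x
  let Row := sub (τ + 1) β t W
  let RowN := sub (τ + 1) β (inc t) W
  let A := fst (fst Rec)
  let B := fst (snd Rec)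
  { k0 := snd (fst Rec) zero
    k1 := snd (snd Rec) zero
    va := look β A Row
    vb := look β B Row
    vg := Row (trunc β g)
    vn := RowN (trunc β g)
    vr := look v Row inp
    ct := look β A I
    az := decide (∀ j < β, A (bin j) = false)
    tz := decide (∀ j < τ, c j = false) }

/-- The condition on a wire. Kind `00`: NAND gate with inputs `A`, `B`. Kind `10` (`k0` true,
`k1` false): memory cell, its next value is the value of `A`, it starts with `false`. Kind `01`:
digit number `A` of the time. Kind `11`: the bit read if `A = 0`, the constant `true` otherwise. -/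
def Bits.ok (b : Bits) : Bool :=
  bif b.k0 then
    (bif b.k1 then b.vg == (bif b.az then b.vr else true)
      else (b.vn == b.va) && (!b.tz || !b.vg))
  else
    (bif b.k1 then b.vg == b.ct else b.vg == !(b.va && b.vb))

/-- the value of wire `v` at time `2^τ` in the tableau `W` -/
def fin (v β τ : ℕ) (W : Word) : Bool := W (cat (τ + 1) (bin (2 ^ τ)) (trunc β (bin v)))

/-- a list of wires: `r g = (k0, k1, A, B)` -/
abbrev Recs := ℕ → Bool × Bool × ℕ × ℕ

/-- The condition on wire `g` at time `t` for a tableau `T` (`T t g` is the value of wire `g` at time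
`t`) -/
def cond (v τ : ℕ) (r : Recs) (inp : Word) (T : ℕ → ℕ → Bool) (t g : ℕ) : Prop :=
  match r g with
  | (false, false, A, B) => T t g = !(T t A && T t B)
  | (true, false, A, _) => T (t + 1) g = T t A ∧ (t = 0 → T t g = false)
  | (false, true, A, _) => T t g = (t + 2 ^ τ * g).testBit A
  | (true, true, A, _) => T t g = if A = 0 then inp (fun j => decide (j < v) && T t j) else true

/-- the value of wire `g` at time `t` in the tableau word `W` -/
def wv (β τ : ℕ) (W : Word) (t g : ℕ) : Bool := W (cat (τ + 1) (bin t) (trunc β (bin g)))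

/-- MODULE DW (about 150 lines). The word describing a list of wires.

PROOF. `x0 a`: `g = Nat.ofBits (fun j : Fin β => a j)`, `a' i = a (β + i)` for `i < β + 2`:
`a' = acons b0 (acons b1 a'')`: `(false, false)`: digit of `(r g).2.2.1` at the number formed by
the `β` bits of `a''`; `(true, false)`: the same for `(r g).2.2.2`; `(false, true)`: `(r g).1`;
`(true, true)`: `(r g).2.1`. For `n = t + 2^τ g`: `idx (iw n) = bin n` (`bin_inj`), so `trunc τ c
= bin t`, `trunc β (fun j => c (τ + j)) = bin g`, `inc (bin t) = bin (t + 1)` (for all bits), and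
`look β A Row = wv W t A` for a word `A` with `A (bin j) = A.testBit j`, as `A < 2^β`. -/
def StDw : Prop := ∀ (v β τ : ℕ) (r : Recs), 4 ≤ β → v ≤ 2 ^ β →
  (∀ g, (r g).2.2.1 < 2 ^ β ∧ (r g).2.2.2 < 2 ^ β) → ∃ x0 : Word,
    (∀ a, x0 a = x0 (trunc (2 * β + 2) a)) ∧ ∀ (inp W : Word) (t g : ℕ), t < 2 ^ τ → g < 2 ^ β →
      ((bits v β τ x0 inp W (iw (t + 2 ^ τ * g))).ok = true ↔
        cond v τ r inp (wv β τ W) t g)

/-- MODULE ALC (about 120 lines). NAND gates for a formula.

PROOF. By recursion on `φ`: `var s`: no gates, pointer `src s`; `tt`: no gates, pointer `cw`;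
`nand a b`: the gates for `a` from `n0` on, those for `b` after them, and one more gate for the two
pointers. The values are then determined by induction. The gates are given as a list `l` of pairs
of pointers, gate number `i` is wire `n0 + i`. -/
def StAlc : Prop := ∀ (S : Type) (src : S → ℕ) (cw n0 G : ℕ) (φ : Fm S), (∀ s, src s < G) →
  cw < G → n0 + φ.size ≤ G → ∃ (l : List (ℕ × ℕ)) (p : ℕ), l.length ≤ φ.size ∧ p < G ∧
    (∀ q ∈ l, q.1 < G ∧ q.2 < G) ∧ (∀ e : S → Bool, ∃ val : ℕ → Bool,
      ∀ T : ℕ → Bool, T cw = true → (∀ s, T (src s) = e s) →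
        ((∀ i (h : i < l.length), T (n0 + i) = !(T (l[i].1) && T (l[i].2))) ↔
          (∀ i < l.length, T (n0 + i) = val i)) ∧
        ((∀ i < l.length, T (n0 + i) = val i) → T p = φ.eval e))

/-- MODULE DN (about 350 lines, from ALC). The wires of a machine.

PROOF. Wires: `0, ..., v-1` are the bits of the address (NAND gates), `v + i` is memory cell `i`
(`i ≤ σ`; so wire `v` is the output cell `0`), then the constant wire (kind `11`, pointer
`A = 1 ≠ 0`), the read wire (kind `11`, `A = 0`), `τ` clock wires (kind `01`, `A = j`), and then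
the gates of the formulas `Fm.not (M.ad j)`, `j < v`, and `M.nx i`, one after the other (ALC); in
`M.ad j`, `M.nx i` first replace `par` and `clk j`, `j ≥ τ`, by `ff` (sizes at most
`3 s + 2`). Address wire `j` is the gate (pointer of `Fm.not (M.ad j)`, constant wire), so it has
the value of `M.ad j`; memory wire `v + i` has as `A` the pointer of `M.nx i` (the source `none` is
the read wire). All other numbers below `2^β` are constant wires. The number of wires is at most
`v + (σ+1) + 2 + τ + (v + σ + 1) (3 s + 2) ≤ (v + τ + s + 2)^4 ≤ 2^β` (`σ + 1 ≤ s`). (=>) In a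
tableau with all conditions the memory wires at time `t ≤ 2^τ` are the memory of `M`, by induction
on `t`: clock wires (`(t + 2^τ g).testBit j = t.testBit j` for `j < τ`) and constant are right, so
are the gates for the address formulas, the address wires, hence the bit read, the gates for
`nx i`. (<=) `T` holds the values computed from the actual run. For the proof it is convenient to
index the gates by (number of the formula, position in its list) with a fixed room of `3 s + 3`
numbers for every formula. -/
def StDn : Prop := ∀ (v τ s β σ : ℕ) (M : Mac (Fin (σ + 1))), M.out = 0 → M.Bd v s →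
  (v + τ + s + 2) ^ 4 ≤ 2 ^ β → ∃ r : Recs,
    (∀ g, (r g).2.2.1 < 2 ^ β ∧ (r g).2.2.2 < 2 ^ β) ∧
    ∀ inp, (∃ T : ℕ → ℕ → Bool, (∀ t < 2 ^ τ, ∀ g < 2 ^ β, cond v τ r inp T t g) ∧
      T (2 ^ τ) v = true) ↔ M.run v inp zero 0 zero (2 ^ τ) 0 = true

/-- MODULE DESC (about 80 lines, from DW, DN). Descriptions of machines.

PROOF. `T t g = wv β τ W t g`; conversely, given `T`, there is a word `W` with
`wv β τ W t g = T t g` for `t ≤ 2^τ`, `g < 2^β`: `W a = T (ofBits of the first τ+1 bits)
(ofBits of the next β bits)`. Numbers `n < 2^(τ+β)` are `t + 2^τ g`. `fin v β τ W =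
wv β τ W (2^τ) v`. From `16 ≤ (..)^4 ≤ 2^β` one gets `4 ≤ β`. -/
def StDesc : Prop := ∀ (v τ s β σ : ℕ) (M : Mac (Fin (σ + 1))), M.out = 0 → M.Bd v s →
  (v + τ + s + 2) ^ 4 ≤ 2 ^ β → ∃ x0 : Word, (∀ a, x0 a = x0 (trunc (2 * β + 2) a)) ∧
    ∀ inp, (∃ W, (∀ n < 2 ^ (τ + β), (bits v β τ x0 inp W (iw n)).ok = true) ∧
      fin v β τ W = true) ↔ M.run v inp zero 0 zero (2 ^ τ) 0 = true

/-- MODULE CHK (about 250 lines, from TAB, LD, REP, MONO). The check is in `Dc`.

PROOF. Input `w = pair (pair x' (pair y (pair z W))) I`, `x = tr κ x'`,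
`inp = pair x (pair y z)`. Let `2^lam ≥ v + τ + 2 β + 14`, `lam ≤ clog 2 (v+τ+β+2) + 8`. Stage 1
(LD with `L w = snd w = I`, i.e. parameters `c j = I (bin j)`, `j < τ + β`):
`R w c = pair w (pair (sub β (β+2) g x) (pair Row (pair RowN' Vg)))` with
`Row = sub (τ+1) β t W` and the words `sub (τ+1+β) 0 (cat (τ+1) t g) W`,
`sub (τ+1+β) 0 (cat (τ+1) (inc t) g) W` (whose bits at `zero` are `vg`, `vn`); digits of the
indices: `t j = c j` (`j < τ`), `g j = c (τ+j)`, `inc t` by `incF`. Stage 2 (LD,
`L = pair A B`, parameters `c (2j) = A (bin j)`, `c (2j+1) = B (bin j)`, `j < β`): append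
`sub β 0 (A) Row`, `sub β 0 (B) Row`, `sub β 0 (A) I` (bits at `zero`: `va`, `vb`, `ct`).
Stage 3 (LD, `L = Row`, parameters `Row (bin j)`, `j < v`): append `sub v 0 c inp` (bit at `zero`:
`vr`). Stage 4 (TAB): the predicate is a formula of size polynomial in `β + τ` of the bits at fixed
addresses: `k0, k1, va, vb, vg, vn, vr, ct`, the bits `A (bin j)`, `I (bin j)` for `az`, `tz`, and
the bit `fin v β τ W`. The composition of the stages (last stage first) by LD and MONO (to have
`lam ≤ t`). -/
def StChk : Prop := ∃ C : ℕ, ∀ v τ β κ : ℕ,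
  Dc (v + τ + β + κ + C) (Nat.clog 2 (v + τ + β + 2) + C) ((v + τ + β + κ + 2) ^ C) (fun w =>
    let x := tr κ (fst (fst w))
    let y := fst (snd (fst w))
    let z := fst (snd (snd (fst w)))
    let W := snd (snd (snd (fst w)))
    ¬ ((bits v β τ x (pair x (pair y z)) W (snd w)).ok = true ∧ fin v β τ W = true))

/-- MODULE CHW (about 60 lines). The width of `StChk` can be reduced (the machine reads `x` at
addresses with `κ` bits, `W` at addresses with `τ + 1 + β` bits, `inp` at addresses with `v` bits).

PROOF. The predicate does not change if `fst (fst w)` is replaced by `tr κ` of it, `W` by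
`tr (τ + 1 + β) W`, `y`, `z` by `tr v y`, `tr v z`, and `I` by `tr (clog 2 (τ+β+1) + 1) I` or
`tr (τ+β) I` (`bin j`, `j < τ + β ≤ 2^(τ+β)`), and the transformation of `w` doing this is in `Rep`
with width `max (max κ v) (τ + β) + 10` (REP: `pair`, `comp`, `tr`); apply DR. -/
def StChw : Prop := ∃ C : ℕ, ∀ v τ β κ : ℕ,
  Dc (max (max κ v) (τ + β) + C) (Nat.clog 2 (v + τ + β + 2) + C)
    ((v + τ + β + κ + 2) ^ C) (fun w =>
    let x := tr κ (fst (fst w))
    let y := fst (snd (fst w))
    let z := fst (snd (snd (fst w)))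
    let W := snd (snd (snd (fst w)))
    ¬ ((bits v β τ x (pair x (pair y z)) W (snd w)).ok = true ∧ fin v β τ W = true))

/-- MODULE DIAG (about 80 lines, from DESC, CHW, LOOP, FIN). Diagonalization.

PROOF. Let `h w = ∃ n < 2^(τ+β), P (pair w (iw n))` with the predicate `P` of CHW; `h` is in `Dc`
by LOOP. `Δ x := ∃ y, ∀ z', h (pair x (pair y z'))`. Writing `z' = pair z W`, for
`x = tr κ x` the right side says: there is `y` such that for all `z`, `W`: some condition fails or
`fin` is false. If `x0` describes the machine of `g` (FIN, DESC; `x0 = tr κ x0` because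
`2 β + 2 ≤ κ`) then `(∀ W, h ..) ↔ ¬ g (pair x0 (pair y z))`, so
`Δ x0 ↔ ∃ y, ∀ z, ¬ g (..)`, the negation of `∀ y, ∃ z, g (..)`. -/
def StDiag : Prop := ∃ C : ℕ, ∀ v τ s β κ : ℕ, (v + τ + s + 2) ^ 4 ≤ 2 ^ β → 2 * β + 2 ≤ κ →
  ∃ Δ h : Word → Prop,
    Dc (max (max κ v) (τ + β) + C) (τ + β + Nat.clog 2 (v + τ + β + 2) + C)
      ((v + τ + β + κ + 2) ^ C) h ∧
    (∀ x, Δ x ↔ ∃ y, ∀ z, h (pair x (pair y z))) ∧ (∀ x, Δ x ↔ Δ (tr κ x)) ∧
    ∀ g, Dc v τ s g → ¬ ∀ x, (Δ x ↔ ∀ y, ∃ z, g (pair x (pair y z)))

end Pool.Agent.Helper93.TS
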