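import Pool.Agent.Helper93.TS.StM

/-!
# Project TS, the routing network and the formula (part N)

Goal of this part is `StCore`: for `f` in `Dc v k s` the statement `∃ y, f (pair x y)` is
equivalent to the satisfiability of a formula of length `2^k * poly(s, k)` whose code is a
representable transformation of `x`.
-/

namespace Pool.Agent.Helper93.TS

open Pool.Agent.Helper72

/-- positions in the network, also block numbers (binary digits) -/
abbrev Pos (K : ℕ) := Fin K → Bool

/-- set digit `b` to `false` -/
def clr {K : ℕ} (b : Fin K) (q : Pos K) : Pos K := Function.update q b false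

/-- change digit `b` -/
def flp {K : ℕ} (b : Fin K) (q : Pos K) : Pos K := Function.update q b (!q b)

/-- successor modulo `2^K` -/
def incP {K : ℕ} (q : Pos K) : Pos K := fun i => q i ^^ decide (∀ j : Fin K, j < i → q j = true)

/-- the dimension switched in layer `l` of the network: `0, 1, ..., K-1, K-1, ..., 1, 0` -/
def dm (K l : ℕ) : ℕ := min l (2 * K - 1 - l)

/-- layer `l` of the network with the switches `σ` -/
def lay (K l : ℕ) (σ : Pos K → Bool) (q : Pos K) : Pos K :=
  if h : dm K l < K then (if σ (clr ⟨dm K l, h⟩ q) = true then flp ⟨dm K l, h⟩ q else q) else q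

/-- the position at the input of the network that is connected with position `q` of level `l` -/
def route (K : ℕ) (σ : ℕ → Pos K → Bool) : ℕ → Pos K → Pos K
  | 0, q => q
  | l + 1, q => route K σ l (lay K l (σ l) q)

/-- MODULE BEN1 (about 120 lines). The splitting step of the Beneš network.

PROOF. By Hall's theorem (`Finset.all_card_le_biUnion_card_iff_exists_injective`) there is a choice
`b : α → Bool` such that `a ↦ (π (a, b a)).1` is injective: for `A : Finset α` the `2 |A|` pairs
`π (a, c)`, `a ∈ A`, are different and every first component belongs to at most two of them. By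
finiteness it is bijective, and then `a ↦ (π (a, !b a)).1` is injective, too (the fibre of every
point under `(π ·).1` has exactly two elements, one of them is used by the first map). Put
`σ a = b a`: `(a, b a)` goes to half `false` and `(a, !b a)` to half `true`; `p c` maps `a` to the
first component of `π (a, c xor b a)`; `τ` corrects the second component: for `π (a, c xor b a) =
(a', c')` put `τ a' = c' xor c` (well defined: for `c = false` and `c = true` the two points with
first component `a'` are reached, so that the value is the same). -/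
def StBen1 : Prop := ∀ (α : Type) [Fintype α] [DecidableEq α] (π : Equiv.Perm (α × Bool)),
  ∃ (σ τ : α → Bool) (p : Bool → Equiv.Perm α), ∀ a c,
    π (a, c ^^ σ a) = (p c a, c ^^ τ (p c a))

/-- MODULE BEN (about 150 lines, from BEN1). Every permutation of the positions is realized.

PROOF. Induction on `K`, `Pos (K+1) ≃ Pos K × Bool`, `q ↦ (Fin.tail q, q 0)`. By BEN1 (for `π`)
`π` is: switch digit 0 by `σ`, the two permutations `p false`, `p true` on the halves, switch digit
0 by `τ`. The network for `K + 1` has the dimensions `0, 1, ..., K, K, ..., 1, 0`: layers `0` and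
`2K+1` switch digit `0`, the layers `1, ..., 2K` are the network for `K` on the other digits, with
switches depending on digit `0` as well. Note that `route` applies the LAST layer first
(`route (2K+2) q = route .. (lay (2K+1) q)`), and a layer is its own inverse. The switch of a layer
with dimension `b` may only depend on `clr b q`. -/
def StBen : Prop := ∀ (K : ℕ) (π : Equiv.Perm (Pos K)), ∃ σ : ℕ → Pos K → Bool,
  ∀ q, route K σ (2 * K) q = π q

/-- MODULE RTE (about 30 lines). A network setting is a permutation.

PROOF. `lay K l σ` is an involution, because `clr b (flp b q) = clr b q`. -/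
def StRte : Prop := ∀ (K : ℕ) (σ : ℕ → Pos K → Bool) (l : ℕ), Function.Bijective (route K σ l)

/-- records: `look` distinguishes the table (false) and the look-ups (true) -/
structure Rc (K : ℕ) where
  look : Bool
  key : Pos K
  val : Bool

/-- every look-up record is preceded (cyclically) by a record with the same key and value -/
def Adj {K : ℕ} (R : Pos K → Rc K) : Prop := ∀ q, (R (incP q)).look = true →
  (R q).key = (R (incP q)).key ∧ (R q).val = (R (incP q)).val

/-- MODULE SND (about 80 lines). Soundness of the check of the look-ups.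

PROOF. `incP` is the cyclic successor on `2^K` positions. Let `q` be a look-up record, let
`p = π⁻¹ q`. Going back from `p` (predecessors) as long as the records are look-ups, one keeps the
key and the value; since some record is no look-up one arrives at a position whose record is no
look-up, and it has the same key and value as `q`; its key is its own index. In Lean: prove by
induction on `n` that if `incP^[n] p0 = p` and `p0` is no look-up and all `incP^[i] p0`,
`0 < i ≤ n`, are look-ups then the key and value agree; existence of such `p0`, `n` by taking the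
least `n` such that `incP^[n] p0 = p` for a non-look-up `p0`; for this one needs
`∀ p p', ∃ n, incP^[n] p = p'`, from the correspondence with `Fin (2^K)` or `Nat.ofBits`
(`incP` of the digits of `n` are the digits of `n + 1`). -/
def StSnd : Prop := ∀ (K : ℕ) (R : Pos K → Rc K) (π : Equiv.Perm (Pos K)),
  Adj (fun q => R (π q)) → (∀ q, (R q).look = false → (R q).key = q) →
  (∃ q, (R q).look = false) → ∀ q, (R q).look = true →
    (R (R q).key).look = false ∧ (R (R q).key).val = (R q).val

/-- MODULE CPL (about 150 lines). Completeness of the check of the look-ups.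

PROOF. Sort the positions by the code `c q = (num (R q).key * 2 + look) * 2^K + num q`
(`num` = `Nat.ofBits`), an injective function to `ℕ`. Let the rank of `q` be the number of `q'` with
`c q' < c q`, a bijection of `Pos K` and `{0, ..., 2^K-1}`; `π` maps the position with number `r` to
the `q` of rank `r`. Let `q = π (incP p)` be a look-up. Its table record `t = (R q).key` has
`R t` no look-up, key `t`, so `c t < c q`; hence the rank of `q` is positive, `incP p` is not
zero, `π p` is the predecessor of `q`, `c t ≤ c (π p) < c q`, so that `π p` has the same key as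
`q`. It is the table record with this key or a look-up with this key, in both cases it has the same
value by the assumption. -/
def StCpl : Prop := ∀ (K : ℕ) (R : Pos K → Rc K), (∀ q, (R q).look = false → (R q).key = q) →
  (∀ q, (R q).look = true → (R (R q).key).look = false ∧ (R (R q).key).val = (R q).val) →
  ∃ π : Equiv.Perm (Pos K), Adj fun q => R (π q)

/-! ### the constraints -/

/-- fields: the variables at a position are records on level `l` (`β = 0`: look-up, `1`: value,
`2 + j`: digit `j` of the key), switches, memory cells, bit read, digits of the key to be looked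
up, constants -/
inductive Fld where
  | rc (l β : ℕ)
  | sw (l : ℕ)
  | st (i : ℕ)
  | rd
  | ad (j : ℕ)
  | cs

/-- the number of a field -/
def Fld.num : Fld → ℕ
  | rc l β => Nat.pair 0 (Nat.pair l β)
  | sw l => Nat.pair 1 l
  | st i => Nat.pair 2 i
  | rd => Nat.pair 3 0
  | ad j => Nat.pair 4 j
  | cs => Nat.pair 5 0

/-- digit `i` of a position, `false` beyond -/
def dg {K : ℕ} (q : Pos K) (i : ℕ) : Bool := if h : i < K then q ⟨i, h⟩ else false

/-- the positions of the look-ups, i.e. of the times: digit `k+1` is one and digit `k` is zero -/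
def isL (k : ℕ) (q : Pos (k + 2)) : Bool := dg q (k + 1) && !dg q k

/-- the number formed by the digits below `k` -/
def tm (k : ℕ) (q : Pos (k + 2)) : ℕ := Nat.ofBits fun j : Fin k => dg q j

/-- values of the variables of the machine at position `q` -/
def menv {σ : ℕ} (k : ℕ) (val : Fld → Pos (k + 2) → Bool) (q : Pos (k + 2)) :
    V (Fin (σ + 1)) → Bool :=
  env (fun i => val (.st i) q) (tm k q) zero

/-- The constraints. Position `q` with digits `q (k+1) = 0`, `q k = 0`: table record of the bit of
`x` at the address formed by the lower digits; `q (k+1) = 0`, `q k = 1`: the same for `y`;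
`q (k+1) = 1`, `q k = 0`: time `tm k q`, look-up record of the bit read at this time;
`q (k+1) = 1`, `q k = 1`: dummy table record. The key of a look-up has the digit `k` for the tag of
the address (`x` or `y`) and the lower digits for the rest of the address. -/
structure Sol {σ : ℕ} (M : Mac (Fin (σ + 1))) (v k : ℕ) (x : Word)
    (val : Fld → Pos (k + 2) → Bool) : Prop where
  layer : ∀ l < 2 * (k + 2), ∀ β < k + 4, ∀ q,
    val (.rc (l + 1) β) q = val (.rc l β) (lay (k + 2) l (val (.sw l)) q)
  look : ∀ q, val (.rc 0 0) q = isL k q
  key : ∀ q, ∀ j < k + 2,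
    val (.rc 0 (2 + j)) q = bif isL k q then val (.ad j) q else dg q j
  valL : ∀ q, isL k q = true → val (.rc 0 1) q = val .rd q
  valX : ∀ q, dg q (k + 1) = false → dg q k = false →
    val (.rc 0 1) q = x (trunc (v - 1) (dg q))
  ad : ∀ q, ∀ j < k,
    val (.ad j) q = (decide (j + 1 < v) && (M.ad (j + 1)).eval (menv k val q))
  adk : ∀ q, val (.ad k) q = (decide (0 < v) && (M.ad 0).eval (menv k val q))
  adk1 : ∀ q, val (.ad (k + 1)) q = false
  step : ∀ q, isL k q = true → ∀ i : Fin (σ + 1),
    val (.st i) (incP q) = (M.nx i).eval (oenv (menv k val q) (val .rd q))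
  adj : ∀ q, val (.rc (2 * (k + 2)) 0) (incP q) = true → ∀ β < k + 4, 1 ≤ β →
    val (.rc (2 * (k + 2)) β) q = val (.rc (2 * (k + 2)) β) (incP q)
  init : ∀ q, (∀ i < k + 1, dg q i = false) → dg q (k + 1) = true → ∀ i < σ + 1,
    val (.st i) q = false
  acc : ∀ q, (∀ i < k, dg q i = false) → dg q k = true → dg q (k + 1) = true →
    val (.st 0) q = true

/-- MODULE SOL1 (about 200 lines, from RTE, SND). A solution gives an accepting computation.

PROOF. `val (.rc l β) q = val (.rc 0 β) (route (k+2) (fun l => val (.sw l)) l q)` by induction on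
`l` from `layer`. Records `R q = ⟨val (rc 0 0) q, fun j => val (rc 0 (2+j)) q, val (rc 0 1) q⟩`.
By `adj` they satisfy `Adj` after the permutation `route` (RTE), and by `look`, `key` non-look-ups
have their own position as key. SND: the value of every look-up is the value of the table record at
its key. Put `y a = val (rc 0 1) q` for `q` with lower digits `a`, `q k = true`,
`q (k+1) = false`. Then by induction on the time `t ≤ 2^k`: the memory of the machine (width `v`,
input `pair x y`) at time `t` is `val (st i)` at the position with number `2^(k+1) + t` (for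
`t = 2^k` this is the position with digits `k` and `k+1` equal to one, where `acc` applies; for
`t = 0`, `k = 0` note that `incP` of number `n` is number `n + 1`). The key looked up at time `t`
has digit `k+1` zero, digit `k` = bit 0 of the address `M.addr`, digit `j < k` = bit `j + 1` of the
address (as `v ≤ k + 1` all its bits occur), so the value is the bit of `pair x y` at this
address (`valX`, definition of `y`, `valL`). -/
def StSol1 : Prop := ∀ (σ : ℕ) (M : Mac (Fin (σ + 1))) (v k : ℕ) (x : Word)
  (val : Fld → Pos (k + 2) → Bool), v ≤ k + 1 → M.out = 0 → Sol M v k x val →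
  ∃ y, M.run v (pair x y) zero 0 zero (2 ^ k) 0 = true

/-- MODULE SOL2 (about 200 lines, from BEN, CPL). An accepting computation gives a solution.

PROOF. Let `m t` be the memory at time `t`. Define `st i` at a position `q` with
`dg q (k+1) = true` as the memory at time `tm k q` if `dg q k = false` and at time `2^k` if
`dg q k = true` (only the position with lower digits zero matters), `false` for
`dg q (k+1) = false`; `ad j` by the equations `ad`, `adk`, `adk1`; `rd` at `q` as the bit of
`pair x y` at the address `M.addr v zero (tm k q) (m (tm k q))`; `rc 0 β` by the equations with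
`val (rc 0 1) q = y (dg q below k)` for `dg q k = true`, `dg q (k+1) = false` and `false` for both
digits one. The records satisfy the assumption of CPL; CPL gives a permutation and BEN the
switches `sw`; `rc l β` is defined by `route`. -/
def StSol2 : Prop := ∀ (σ : ℕ) (M : Mac (Fin (σ + 1))) (v k : ℕ) (x y : Word), v ≤ k + 1 →
  M.out = 0 → M.run v (pair x y) zero 0 zero (2 ^ k) 0 = true →
  ∃ val : Fld → Pos (k + 2) → Bool, Sol M v k x val

/-! ### the template -/

/-- symbolic variables of the template of a block: a field and the digits of a position, given as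
formulas in the digits of the block number (`some i`) and in the bit of `x` (`none`) -/
structure TV where
  fld : Fld
  bit : ℕ → Fm (Option ℕ)

/-- the position meant by a symbolic variable -/
def TV.pos (K : ℕ) (e : Option ℕ → Bool) (u : TV) : Pos K := fun i => (u.bit i).eval e

/-- all variables of a formula have property `P` -/
def Fm.All {ι : Type} (P : ι → Prop) : Fm ι → Prop
  | .tt => True
  | .var i => P i
  | .nand a b => a.All P ∧ b.All P

/-- the position of the constant `b` in the field `cs` -/
def cpos (K : ℕ) (b : Bool) : Pos K := fun i => decide (i.val = 0) && b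

/-- the environment of block `n`: its digits and the bit of `x` at the address formed by the first
`κ` of them -/
def benv (κ : ℕ) (x : Word) (n : ℕ) : Option ℕ → Bool := oenv (bin n) (x (trunc κ (bin n)))

/-- Formulas with symbolic variables for properties of `x`, `val` and a position: `P x val q` is
expressed, for the position `q` with the number `n`, by a formula `B` of size at most `S` that does
not depend on `n`, with fields below `2^A`. -/
def Tp (K κ S A : ℕ) (P : Word → (Fld → Pos K → Bool) → Pos K → Prop) : Prop :=
  ∃ B : Fm TV, B.size ≤ S ∧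
    B.All (fun u => u.fld.num < 2 ^ A ∧ ∀ i < K, (u.bit i).size ≤ S) ∧
    ∀ (x : Word) (val : Fld → Pos K → Bool), (∀ b, val .cs (cpos K b) = b) → ∀ n < 2 ^ K,
      (B.eval (fun u => val u.fld (u.pos K (benv κ x n))) = true ↔
        P x val fun i => n.testBit i)

/-- the constraints of the network at position `q` -/
structure SolA (σ v k : ℕ) (x : Word) (val : Fld → Pos (k + 2) → Bool) (q : Pos (k + 2)) :
    Prop where
  layer : ∀ l < 2 * (k + 2), ∀ β < k + 4,
    val (.rc (l + 1) β) q = val (.rc l β) (lay (k + 2) l (val (.sw l)) q)
  look : val (.rc 0 0) q = isL k q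
  key : ∀ j < k + 2, val (.rc 0 (2 + j)) q = bif isL k q then val (.ad j) q else dg q j
  valL : isL k q = true → val (.rc 0 1) q = val .rd q
  valX : dg q (k + 1) = false → dg q k = false →
    val (.rc 0 1) q = x (trunc (v - 1) (dg q))
  adj : val (.rc (2 * (k + 2)) 0) (incP q) = true → ∀ β < k + 4, 1 ≤ β →
    val (.rc (2 * (k + 2)) β) q = val (.rc (2 * (k + 2)) β) (incP q)
  init : (∀ i < k + 1, dg q i = false) → dg q (k + 1) = true → ∀ i < σ + 1,
    val (.st i) q = false
  acc : (∀ i < k, dg q i = false) → dg q k = true → dg q (k + 1) = true →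
    val (.st 0) q = true

/-- the constraints of the machine at position `q` -/
structure SolB {σ : ℕ} (M : Mac (Fin (σ + 1))) (v k : ℕ) (val : Fld → Pos (k + 2) → Bool)
    (q : Pos (k + 2)) : Prop where
  ad : ∀ j < k, val (.ad j) q = (decide (j + 1 < v) && (M.ad (j + 1)).eval (menv k val q))
  adk : val (.ad k) q = (decide (0 < v) && (M.ad 0).eval (menv k val q))
  adk1 : val (.ad (k + 1)) q = false
  step : isL k q = true → ∀ i : Fin (σ + 1),
    val (.st i) (incP q) = (M.nx i).eval (oenv (menv k val q) (val .rd q))

/-- MODULE TPA (about 250 lines). The constraints of the network are expressed by a template.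

PROOF. Symbolic variables: field `F` at `q` itself: `bit i = var (some i)`; at `flp b q`: `bit b =
not (var (some b))`; at `clr b q`: `bit b = ff`; at `incP q`: `bit i = incF (var ∘ some) i`; the
constant with the value of a formula `ψ` in the digits and the bit of `x`: field `cs`,
`bit 0 = ψ`, `bit i = ff` for `i > 0` (by assumption its value is the value of `ψ`). In this way
every equation at `q` becomes a formula (`iff`, `ite`, `or (not ..) ..`); for `layer` (`b = dm (k+2)
l < k + 2`) use `ite (sw l at clr b q) (rc l β at flp b q) (rc l β at q)`. The template is the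
`conjL` of all of them (`l < 2(k+2)`, `β < k+4`, `i ≤ σ`, ...). The bit of `x` in `valX` is the
constant with `ψ = var none`: for `q i = n.testBit i` we have `dg q = trunc (k+2) (bin n)` and
`trunc (v-1) (dg q) = trunc (v-1) (bin n)`, because `v - 1 ≤ k`. The numbers of the fields are
polynomially bounded: `Nat.pair a b < (max a b + 1)^2`. It is convenient to prove first that the
class `Tp` is closed under conjunctions and finite conjunctions. -/
def StTpa : Prop := ∃ C : ℕ, ∀ (σ v k s : ℕ), σ + 1 ≤ s → v ≤ k + 1 →
  Tp (k + 2) (v - 1) ((s + k + 2) ^ C) (C * Nat.clog 2 (s + k + 2)) (fun x val q =>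
    SolA σ v k x val q)

/-- MODULE TPB (about 150 lines). The constraints of the machine are expressed by a template.

PROOF. See TPA. Substitute in `nx i`, `ad j`: `mem i` by the variable `st i` at `q`, `clk j` by the
constant with digit `j` of `q` if `j < k` and `ff` otherwise (`tm k q` has these digits:
`Nat.testBit_ofBits_lt`, `Nat.testBit_ofBits_ge`), `par j` by `ff`, `none` by the variable `rd` at
`q`. -/
def StTpb : Prop := ∃ C : ℕ, ∀ (σ : ℕ) (M : Mac (Fin (σ + 1))) (v k s : ℕ), M.Bd v s →
  v ≤ k + 1 → Tp (k + 2) (v - 1) ((s + k + 2) ^ C) (C * Nat.clog 2 (s + k + 2)) (fun _ val q =>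
    SolB M v k val q)

/-- MODULE TPL (about 60 lines, from TPA, TPB). The template.

PROOF. Conjunction of the two templates (`Fm.and`); `C` is larger than both constants;
`Sol M v k x val` is the conjunction over all positions of `SolA`, `SolB`; every `q : Pos (k+2)` is
`fun i => n.testBit i` for some `n < 2^(k+2)` (`Nat.ofBits`). -/
def StTpl : Prop := ∃ C : ℕ, ∀ (σ : ℕ) (M : Mac (Fin (σ + 1))) (v k s : ℕ), M.Bd v s →
  v ≤ k + 1 → ∃ B : Fm TV, B.size ≤ (s + k + 2) ^ C ∧
    B.All (fun u => u.fld.num < 2 ^ (C * Nat.clog 2 (s + k + 2)) ∧
      ∀ i < k + 2, (u.bit i).size ≤ (s + k + 2) ^ C) ∧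
    ∀ (x : Word) (val : Fld → Pos (k + 2) → Bool), (∀ b, val .cs (cpos (k + 2) b) = b) →
      ((∀ n < 2 ^ (k + 2), B.eval (fun u =>
        val u.fld (u.pos (k + 2) (benv (v - 1) x n))) = true) ↔ Sol M v k x val)

/-! ### the code -/

/-- number of the variable: field `F`, position `q` -/
def nm (K α F : ℕ) (q : Pos K) : ℕ := 2 ^ (K + α) + (F * 2 ^ K + Nat.ofBits q)

/-- the constant `b` as a variable -/
def cvar (K α : ℕ) (b : Bool) : BForm := .var (nm K α Fld.cs.num (cpos K b))

/-- the formula of a block as a `BForm` -/
def toB (K α : ℕ) (e : Option ℕ → Bool) : Fm TV → BForm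
  | .tt => cvar K α true
  | .var u => .var (nm K α u.fld.num (u.pos K e))
  | .nand a b => .neg (.conj (toB K α e a) (toB K α e b))

/-- the code of a variable, as formulas in the digits of the block number -/
def cbV (K α F : ℕ) (bit : ℕ → Fm (Option ℕ)) : List (Fm (Option ℕ)) :=
  [.ff, .ff, .tt] ++ ((List.range K).flatMap fun i => [.ff, .tt, bit i]) ++
    ((List.range α).flatMap fun i => [.ff, .tt, .cst (F.testBit i)]) ++ [.ff, .tt, .tt]

/-- the code of a block -/
def cb (K α : ℕ) : Fm TV → List (Fm (Option ℕ))
  | .tt => cbV K α Fld.cs.num fun i => .cst (decide (i = 0))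
  | .var u => cbV K α u.fld.num u.bit
  | .nand a b => [.tt, .ff, .ff, .tt, .ff, .tt] ++ (cb K α a ++ cb K α b)

/-- MODULE ENC (about 60 lines). The binary code of `2^m + r`.

PROOF. Induction on `m`; `Computability.encodeNat`, `encodePosNum`. -/
def StEnc : Prop := ∀ m r : ℕ, r < 2 ^ m → Computability.encodeNat (2 ^ m + r) =
  ((List.range m).map fun i => r.testBit i) ++ [true]

/-- MODULE CB (about 80 lines, from ENC). The code of a block.

PROOF. Induction on `B`; digits of `F * 2^K + Nat.ofBits q`, `F < 2^α`. -/
def StCb : Prop := ∀ (K α : ℕ) (e : Option ℕ → Bool) (B : Fm TV), Fld.cs.num < 2 ^ α →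
  B.All (fun u => u.fld.num < 2 ^ α) → (toB K α e B).code = (cb K α B).map fun φ => φ.eval e

/-- `j`-fold negation -/
def negs (j : ℕ) (φ : BForm) : BForm := BForm.neg^[j] φ

/-- a block, padded -/
def blkB (K α j : ℕ) (e : Option ℕ → Bool) (B : Fm TV) : BForm :=
  .conj (toB K α e B) (.disj (cvar K α true) (negs j (cvar K α true)))

/-- the whole formula -/
def whole (K α j : ℕ) (E : ℕ → Option ℕ → Bool) (B : Fm TV) : BForm :=
  (List.range (2 ^ K)).foldr (fun n r => .conj (blkB K α j (E n) B) r)
    (.conj (cvar K α true) (.neg (cvar K α false)))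

/-- MODULE EQV (about 120 lines). Satisfiability of the whole formula.

PROOF. `(toB K α e B).eval g = B.eval (fun u => g (nm K α u.fld.num (u.pos K e)))` if
`g` is true at the variable `cvar K α true`, by induction. (=>) `val F q = g (nm K α F.num q)`.
(<=) define `g n = true` iff there are `F` with `F.num < 2^α` and `q` with `n = nm K α F.num q` and
`val F q = true`; `nm` is injective there and `Fld.num` is injective. -/
def StEqv : Prop := ∀ (K α j : ℕ) (E : ℕ → Option ℕ → Bool) (B : Fm TV), Fld.cs.num < 2 ^ α →
  B.All (fun u => u.fld.num < 2 ^ α) →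
  ((∃ g, (whole K α j E B).eval g = true) ↔ ∃ val : Fld → Pos K → Bool,
    (∀ b, val .cs (cpos K b) = b) ∧
      ∀ n < 2 ^ K, B.eval (fun u => val u.fld (u.pos K (E n))) = true)

/-- MODULE WHL (about 200 lines, from CB). The code of the whole formula, bit by bit.

PROOF. Let `ω = 3 (K + α + 2)` be the length of the code of a variable; the code of `blkB` with the
symbol `conj` in front has length `b0 + 3 j`, with `b0 = 3 + 3 + |cb B| + 3 + 2 ω`, divisible by 3.
Choose `E0` with `3 * 2^E0 ≥ b0`, `2^E0 ≤ b0` and then `j` with `b0 + 3 j = 3 * 2^E0`. Let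
`bl = [tt,ff,tt] ++ ([tt,ff,tt] ++ cb B ++ ([tt,tt,ff] ++ cbV .. ++ ([tt,ff,ff] j times) ++
cbV ..))` and `tl` (formulas without variables) be the lists for a block and for the tail. The code
of the whole formula is the concatenation over `n < 2^K` of `bl.map (eval (E n))` followed by
`tl.map eval`. -/
def StWhl : Prop := ∀ (K α : ℕ) (B : Fm TV), Fld.cs.num < 2 ^ α →
  B.All (fun u => u.fld.num < 2 ^ α) → ∃ (j E0 : ℕ) (bl tl : List (Fm (Option ℕ))),
    bl.length = 3 * 2 ^ E0 ∧ tl.length ≤ 3 * 2 ^ E0 ∧
    2 ^ E0 ≤ 200 * B.size * (K + α + 2) ∧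
    (∀ φ ∈ bl, φ.size ≤ 3 ∨ φ ∈ cb K α B) ∧ (∀ φ ∈ tl, φ = .tt ∨ φ = .ff) ∧
    ∀ E : ℕ → Option ℕ → Bool, (whole K α j E B).code =
      ((List.range (2 ^ K)).flatMap fun n => bl.map fun φ => φ.eval (E n)) ++
        tl.map fun φ => φ.eval (E 0)

/-- MODULE MUX (about 200 lines, from DIV3). The code is a representable transformation.

PROOF. Width `L = K + E0 + 3`. For `a = bin j`, `j < 2^L`, DIV3 gives formulas `D i` for the digits
of `u = j / 3` and `R c` for `j % 3 = c`. Put `o = u % 2^E0`, `n = u / 2^E0`, so
`j = (3 * 2^E0) n + 3 o + c`. The address of `x` is `F i = D (E0 + i)`, `i < κ`. Let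
`Q = ite (D (E0 + K)) T B'` with `B' = disjL` over `o < 2^E0`, `c < 3` of
`and (and (eqc D E0 o) (R c)) (bl[3 o + c])` with `some i` replaced by `D (E0 + i)` and `none` by
`var none` in `bl[3 o + c]`, and the same for `T` with `tl`. If `j < N = 3 * 2^(E0+K) + |tl|`
then the value of the representation at `bin j` is the `j`-th element of the list. For general
addresses `a` with `L` bits use `a = bin (Nat.ofBits ..)`; `W x a` is DEFINED by the
representation. -/
def StMux : Prop := ∃ C : ℕ, ∀ (K E0 κ z : ℕ) (bl tl : List (Fm (Option ℕ))), κ ≤ K →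
  bl.length = 3 * 2 ^ E0 → tl.length ≤ 3 * 2 ^ E0 → (∀ φ ∈ bl, φ.size ≤ z) →
  (∀ φ ∈ tl, φ.size ≤ z) → ∃ W : Word → Word,
    Rep (K + E0 + 3) κ ((K + 2 ^ E0 + z + 2) ^ C) W ∧
    ∀ x, ((List.range (2 ^ K)).flatMap fun n => bl.map fun φ => φ.eval (benv κ x n)) ++
        (tl.map fun φ => φ.eval (benv κ x (2 ^ K))) =
      List.ofFn fun j : Fin (2 ^ K * (3 * 2 ^ E0) + tl.length) => W x (bin j)

/-- MODULE CORE (about 100 lines, from FIN, SOL1, SOL2, TPL, EQV, WHL, MUX). Reduction to SAT.

PROOF. Put everything together: `α = C * clog 2 (s + k + 2) + 5` (so that `Fld.cs.num < 2^α`),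
`K = k + 2`, `κ = v - 1`, `z = (s + k + 2)^C + 3`; formulas in `cb K α B` are constants or digits
`u.bit i` of variables of `B`. The elements of `tl` are constants, so the environment at which they
are evaluated does not matter. -/
def StCore : Prop := ∃ C : ℕ, ∀ (v k s : ℕ) (f : Word → Prop), Dc v k s f → v ≤ k + 1 →
  ∃ (N L : ℕ) (W : Word → Word), N ≤ 2 ^ L ∧ 2 ^ k ≤ N ∧ 2 ^ L ≤ 2 ^ k * (s + k + 2) ^ C ∧
    Rep L v ((s + k + 2) ^ C) W ∧
    ∀ x, (∃ y, f (pair x y)) ↔ (List.ofFn fun j : Fin N => W x (bin j)) ∈ SAT

end Pool.Agent.Helper93.TS
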