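import Pool.Agent.Helper93.TS.StM
import Pool.Agent.Helper93.TS.StN
import Pool.Agent.Helper93.TS.StD

/-!
# Project TS, exponents (part E)

Alternation trading (Williams): if SAT is decided in time `n^c` and memory `n^o(1)` by machines of
the class `Dc`, then `c ≥ 2 cos (π/7)`. Everything is measured on the scale `2^k`, `k → ∞`.
-/

namespace Pool.Agent.Helper93.TS

open Pool.Agent.Helper72 Filter

/-- width `ρ k`, time `2^(τ k)`, size `2^(η k)` -/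
def Dk (k : ℕ) (ρ τ η : ℝ) (f : Word → Prop) : Prop :=
  ∃ v t s : ℕ, (v : ℝ) ≤ ρ * k ∧ (t : ℝ) ≤ τ * k ∧ (s : ℝ) ≤ 2 ^ (η * k) ∧ Dc v t s f

/-- `∃ y, ∀ z` over the class with width and time exponent `m` and size exponent `ε` -/
def S2 (k : ℕ) (m ε : ℝ) (f : Word → Prop) : Prop :=
  ∃ h, Dk k m m ε h ∧ ∀ x, f x ↔ ∃ y, ∀ z, h (pair x (pair y z))

/-- SAT is decided in time `n^c` and memory `n^o(1)` -/
def Easy (c : ℝ) : Prop := ∀ δ : ℝ, 0 < δ → TimeSpace c δ SAT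

/-- MODULE ECPL (about 60 lines, from COMPL). Complement.

PROOF. `s ≤ 2^(η k)` gives `(s + t + 2)^C ≤ 2^(ε k)` for large `k` if `C η < ε` (as
`t ≤ B k`, `s + t + 2 ≤ 2^(η k) + B k + 2 ≤ 2^(2 η k)` for large `k`; take `η = ε / (4 (C+1))`).
Such estimates are needed in all modules of this part: the general form is module EPOL. -/
def StEcpl : Prop := ∀ B ε : ℝ, 0 < ε → ∃ η : ℝ, 0 < η ∧ ∀ᶠ k : ℕ in atTop, ∀ (ρ τ : ℝ)
  (f : Word → Prop), τ ≤ B → Dk k ρ τ η f → Dk k ρ (τ + ε) ε (fun w => ¬ f w)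

/-- MODULE EPOL (about 60 lines). The estimate for polynomials.

PROOF. `n + B k + B ≤ 2^(2 η k)` for large `k`, so the left side is at most `2^(2 C η k)`;
`η = ε / (2 C + 2)`. -/
def StEpol : Prop := ∀ (C : ℕ) (B ε : ℝ), 0 ≤ B → 0 < ε → ∃ η : ℝ, 0 < η ∧ ∀ᶠ k : ℕ in atTop,
  ∀ n : ℝ, 0 ≤ n → n ≤ 2 ^ (η * k) → (n + B * k + B) ^ C ≤ (2 : ℝ) ^ (ε * k)

/-- MODULE EST (about 60 lines, from DR, EPOL). Static transformations.

PROOF. `f` has width `v ≤ ρ k`, so `f ∘ R` has width `v + a ≤ (ρ + ε) k` for large `k`. -/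
def StEst : Prop := ∀ (R : Word → Word) (a q : ℕ), (∀ v, Rep v (v + a) q R) →
  ∀ ε : ℝ, 0 < ε → ∃ η : ℝ, 0 < η ∧ ∀ᶠ k : ℕ in atTop, ∀ (ρ τ : ℝ) (f : Word → Prop),
    Dk k ρ τ η f → Dk k (ρ + ε) τ ε (fun w => f (R w))

/-- MODULE ETR (about 40 lines, from DR, REP, EPOL). Reduction of the width.

PROOF. DR with `R = tr k` (`StRep.tr`, `Rep v k C (tr k)`). -/
def StEtr : Prop := ∀ ε : ℝ, 0 < ε → ∃ η : ℝ, 0 < η ∧ ∀ᶠ k : ℕ in atTop, ∀ (ρ τ : ℝ)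
  (f : Word → Prop), Dk k ρ τ η f → (∀ x, f x ↔ f (tr k x)) → Dk k 1 τ ε f

/-- MODULE ESLO (about 200 lines, from CORE, OI, DR, MONO, EPOL). The slowdown rule.

PROOF. Let `f` be in `Dc v t s`, `k' = ⌊max ρ τ * k⌋ ≥ v, t`. MONO (time `k'`), CORE (`v ≤ k'+1`):
`N, L, W`, with `2^k' ≤ N ≤ 2^L ≤ 2^k' (s'+k'+2)^C`. As `ρ ≥ 1`, `N ≥ 2^(k-1)` is large and there is
a machine `M` with `M.Small s1`, `s1 ≤ N^δ`, `T ≤ N^c` that decides SAT on words of length `N`. OI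
(`v := L`, `t := clog 2 T`), then DR with `W` (`Rep L v q W`) gives width `v ≤ ρ k`, time exponent
`clog 2 T + 1 ≤ c L + 2 ≤ c (max ρ τ) k + c C log2 (s' + k' + 2) + 2`, size polynomial in
`s, k, N^δ`, `N^δ ≤ 2^(δ L)`. Choose `δ` and `η` small. -/
def StEslo : Prop := ∀ c : ℝ, 1 ≤ c → Easy c → ∀ B ε : ℝ, 0 < ε → ∃ η : ℝ, 0 < η ∧
  ∀ᶠ k : ℕ in atTop, ∀ (ρ τ : ℝ) (f : Word → Prop), 1 ≤ ρ → ρ ≤ B → τ ≤ B → Dk k ρ τ η f →
    Dk k ρ (c * max ρ τ + ε) ε (fun x => ∃ y, f (pair x y))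

/-- MODULE ESP (about 120 lines, from SP, MONO, EPOL). The speedup rule.

PROOF. `U = ⌊u k⌋`, `β = ⌈η k⌉ + ...` with `s ≤ 2^β`, `U ≤ 2^β`, `lam = β + 2`; MONO raises the time
to `t' = max t (U + β + 2)`, so `lam ≤ t' - U + 1` and `t' - U + 2 ≤ (τ - u + ε) k` for large
`k`. -/
def StEsp : Prop := ∀ B ε : ℝ, 0 < ε → ∃ η : ℝ, 0 < η ∧ ∀ᶠ k : ℕ in atTop,
  ∀ (ρ τ u : ℝ) (f : Word → Prop), 0 ≤ ρ → ρ ≤ B → τ ≤ B → 0 ≤ u → u ≤ τ → Dk k ρ τ η f →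
    ∃ (U β : ℕ) (g : Word → Prop), (U : ℝ) ≤ u * k ∧ (β : ℝ) ≤ ε * k ∧
      Dk k (ρ + ε) (τ - u + ε) ε g ∧ ∀ x, f x ↔ ∃ y, ∀ z, g (ixw U β x y z)

/-- MODULE EIX (about 150 lines, from LD, REP, MONO, EPOL). Composition with `ixw`.

PROOF. Input `w = pair (pair x y) (pair z r)`. LD with `L w = z` (parameters `c j = z (bin j)`,
`j < 2^lam`, `U ≤ 2^lam`, `lam` about `log k`) and
`R w c = pair (pair x (pair (sub U β c y) (pair (sub U β (inc c) y) z))) r`; `sub U β I y` only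
depends on the bits of `I` below `U`. Widths: `y` is read at addresses with `U + β` bits, the
others at addresses of the width of `h`. `Rep`: module REP, `inc` by `Fm.incF`. -/
def StEix : Prop := ∀ B ε : ℝ, 0 < ε → ∃ η : ℝ, 0 < η ∧ ∀ᶠ k : ℕ in atTop,
  ∀ (ρ τ u : ℝ) (U β : ℕ) (h : Word → Prop), 0 ≤ ρ → ρ ≤ B → 0 ≤ τ → τ ≤ B → u ≤ B →
    (U : ℝ) ≤ u * k → (β : ℝ) ≤ η * k → Dk k ρ τ η h →
    Dk k (max ρ u + ε) (τ + ε) ε (fun w =>
      h (pair (ixw U β (fst (fst w)) (snd (fst w)) (fst (snd w))) (snd (snd w))))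

/-- MODULE ECA (about 60 lines, from EST, REP). A leading `∃` is absorbed.

PROOF. `p w ↔ ∃ y', ∀ z, h (pair w (pair y' z))`, so
`(∃ y, p (pair x y)) ↔ ∃ Y, ∀ z, h (pair (pair x (fst Y)) (pair (snd Y) z))`, and
`h (R w)` with `R w = pair (pair (fst w) (fst (fst (snd w)))) (pair (snd (fst (snd w)))
(snd (snd w)))` is in the class by EST (`R` is a static transformation by REP). -/
def StEca : Prop := ∀ ε : ℝ, 0 < ε → ∃ η : ℝ, 0 < η ∧ ∀ᶠ k : ℕ in atTop, ∀ (m : ℝ)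
  (p : Word → Prop), S2 k m η p → S2 k (m + ε) ε (fun x => ∃ y, p (pair x y))

/-- the exponents of lemma A -/
noncomputable def dseq (c : ℝ) : ℕ → ℝ
  | 0 => 2
  | j + 1 => 1 + dseq c j / c

/-- the exponents of lemma B -/
noncomputable def sseq (d r : ℝ) : ℕ → ℝ
  | 0 => d
  | l + 1 => sseq d r l + r ^ (l + 1)

/-- MODULE EA (about 150 lines, from ESP, EIX, ESLO, ECPL, ECA). Lemma A: computations in time
`2^(d m k)` are in `∃ ∀` with exponent `m`.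

PROOF. Induction on `j`. In both cases first apply ESP with `ρ = m`, `τ = dseq c j * m`, `u = m`:
`f x ↔ ∃ y, ∀ z, g (ixw U β x y z)`, and EIX (for `h W = g (fst W)`, or with
`r` ignored): `g' (pair (pair x y) z) = g (ixw U β x y z)` has exponents `m + ε'` and
`(dseq c j - 1) m + ε'`. `j = 0`: `(dseq c 0 - 1) m = m`, so this is the claim (regroup
`pair (pair x y) z` to `pair x (pair y z)` by EST). `j + 1`: `(dseq c (j+1) - 1) m = dseq c j * m / c`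
(`≥ m` because `dseq c j ≥ 2 ≥ c`). Let `P w = ∀ z, g' (pair w z)`: by ECPL, ESLO, ECPL its exponents
are `m + ε''` and `c * (dseq c j * m / c) + ε'' = dseq c j * m + ε''`. By induction (with
`m' = m + ε''`) `P` is in `S2`, and `f x ↔ ∃ y, P (pair x y)`: ECA. Choose the `ε`s backwards. -/
def StEA : Prop := ∀ c : ℝ, 1 ≤ c → c ≤ 2 → Easy c → ∀ (j : ℕ) (B ε : ℝ), 0 < ε →
  ∃ η : ℝ, 0 < η ∧ ∀ᶠ k : ℕ in atTop, ∀ (m : ℝ) (f : Word → Prop), 1 ≤ m → m ≤ B →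
    Dk k m (dseq c j * m) η f → S2 k (m + ε) ε f

/-- MODULE EB (about 200 lines, from EA, ESP, EIX, ESLO, ECPL, ECA, EST). Lemma B.

PROOF. `d = dseq c j ≥ c` (as `dseq c j ≥ 2`), `r = c^2 / d`, so `1 ≤ r ≤ c`. Induction on `l`.
`l = 0` is EA. `l + 1`: let `f` have exponents `m`, `sseq d r (l+1) * m`. ESP with
`u = r^(l+1) m`: `f x ↔ ∃ y, ∀ z, g (ixw U β x y z)`, `g` has exponents `m + ε1`,
`sseq d r l * m + ε1`. The induction hypothesis for `¬ g` with `m' = m + ε1'` (`m' ≥ m + ε1`,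
`sseq * m' ≥ sseq * m + ε1`; note `sseq d r l ≥ 1`) gives
`g w' ↔ ∀ a, ∃ b, h (pair w' (pair a b))`, `h` with exponents `r^l m + ε2`. ESLO (after
regrouping by EST): `H1 (pair w' a) = ∃ b, h (..)` has width `r^l m + ε3`, time
`c r^l m + ε3`. EIX: `H2 (pair (pair x y) (pair z a)) = H1 (pair (ixw U β x y z) a)` has width
`r^(l+1) m + ε4` (`r ≥ 1`), time `c r^l m + ε4`. `P w = ∀ z', H2 (pair w z')` (`z' = pair z a`) by
ECPL, ESLO, ECPL: width `r^(l+1) m + ε4`, time `c * max (r^(l+1) m) (c r^l m) + ε5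
= c^2 r^l m + ε5 = d * (r^(l+1) m) + ε5` because `r ≤ c` and `d r = c^2`. EA with
`m'' = r^(l+1) m + ε6`: `P` is in `S2` with `r^(l+1) m + ε7`. ECA: `f x ↔ ∃ y, P (pair x y)`. -/
def StEB : Prop := ∀ c : ℝ, 1 ≤ c → c ≤ 2 → Easy c → ∀ (j l : ℕ) (B ε : ℝ),
  dseq c j ≤ c ^ 2 → 0 < ε → ∃ η : ℝ, 0 < η ∧ ∀ᶠ k : ℕ in atTop, ∀ (m : ℝ) (f : Word → Prop),
    1 ≤ m → m ≤ B → Dk k m (sseq (dseq c j) (c ^ 2 / dseq c j) l * m) η f →
    S2 k ((c ^ 2 / dseq c j) ^ l * m + ε) ε f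

/-- MODULE NUM1 (about 100 lines). The cubic polynomial of `2 cos (π/7)`.

PROOF. With `x = 2 cos (π/7)`: `cos (3 π/7) = - cos (4 π/7)` gives `(x + 2)(x^3 - x^2 - 2x + 1) = 0`
(use `Real.cos_three_mul`, `Real.cos_two_mul` twice). The polynomial `p(t) = t^3 - t^2 - 2t + 1` is
strictly increasing on `[13/10, ∞)` and `p(x) = 0`, `x ≥ 8/5` (for instance because
`cos (π/7) ≥ 4/5`: `Real.one_sub_sq_div_two_le_cos`), `p(t) < 0` for `8/5 ≤ t < x`;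
`x < 19/10` because `p(19/10) > 0`. -/
def StNum1 : Prop := 17 / 10 < 2 * Real.cos (Real.pi / 7) ∧ 2 * Real.cos (Real.pi / 7) < 19 / 10 ∧
  ∀ t : ℝ, 17 / 10 ≤ t → t < 2 * Real.cos (Real.pi / 7) → t ^ 3 - t ^ 2 - 2 * t + 1 < 0

/-- MODULE NUM2 (about 150 lines). The choice of `j` and `l`.

PROOF. `dseq c j - c/(c-1) = c^(-j) (2 - c/(c-1))`, so `dseq c j` tends to `d0 = c/(c-1)` (from
above or below; for `17/10 ≤ c < 19/10` it is `> c/(c-1)` iff `c > 2`..: here `d0 > 2`, so it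
increases to `d0` from below). `r0 = c^2/d0 = c (c-1) > 1`. The inequality
`c^3 - c^2 - 2c + 1 < 0` says `c^2 (r0 - 1) < r0`. As `r = c^2 / dseq c j → r0` there is `j` with
`dseq c j ≤ c^2`, `c^2 (r - 1) < r` and `r > 1`. Since
`sseq d r l = d + (r^(l+1) - r)/(r - 1)`, we get `sseq d r l - c^2 r^l = d - r/(r-1) +
r^l (r/(r-1) - c^2) → ∞`. -/
def StNum2 : Prop := ∀ c : ℝ, 17 / 10 ≤ c → c < 19 / 10 → c ^ 3 - c ^ 2 - 2 * c + 1 < 0 →
  ∃ j l : ℕ, dseq c j ≤ c ^ 2 ∧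
    c ^ 2 * (c ^ 2 / dseq c j) ^ l < sseq (dseq c j) (c ^ 2 / dseq c j) l

/-- MODULE TSM (about 30 lines). More time.

PROOF. `n^c ≤ n^c'` for `n ≥ 1`. -/
def StTsm : Prop := ∀ (c c' δ : ℝ) (S : Set (List Bool)), c ≤ c' → TimeSpace c δ S →
  TimeSpace c' δ S

/-- MODULE EFIN (about 200 lines, from DIAG, EB, ESLO, ECPL, ETR, EST, NUM1, NUM2, TSM, EPOL,
MONO). The contradiction.

PROOF. By TSM one may assume `17/10 ≤ c < 2 cos (π/7)`. Take `j, l` from NUM2, `d, r, s_l`; choose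
`ρ > r^l` with `c^2 ρ < s_l` (and `ρ ≥ 1`). Let `ε3 > 0` be small. For large `k` apply DIAG with
`v = τ = ⌊(r^l + ε3) k⌋`, size `s` about `2^(C ε3 k)`, `β` about `5 C ε3 k`, `κ = k`
(`2 β + 2 ≤ k`): `h` has width and time exponents at most `ρ` and size polynomial in `k`, hence
`≤ 2^(η k)` for every `η > 0` and large `k`. By EST (regroup), ECPL, ESLO, ECPL the predicate
`∀ z, h (pair x (pair y z))` of `pair x y` has exponents `ρ + ε`, `c ρ + ε`, by ESLO `Δ` has time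
exponent `c * max (ρ + ε) (c ρ + ε) + ε ≤ s_l` and by ETR (`Δ x ↔ Δ (tr k x)`) width exponent `1`.
So `¬ Δ` has exponents `1`, `s_l` and is in `S2` with `r^l + ε3` and size exponent `ε3` by EB
(ECPL), i.e. `Δ x ↔ ∀ y, ∃ z, ¬ h' (pair x (pair y z))`, and after MONO, COMPL this contradicts
DIAG. -/
def StEfin : Prop := ∀ c : ℝ, c < 2 * Real.cos (Real.pi / 7) → ¬ Easy c

end Pool.Agent.Helper93.TS
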