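import Pool.Agent.Helper93.TS.Base
import Pool.Agent.Helper93.TS.Off

/-!
# Project TS, statements about machines (part M)

All proofs are by explicit constructions of machines; `Mod.lean` has the definitions, `Fm.lean` the
toolkit for formulas (`eqc`, `incF`, `conjL`, `bind`, ...). Constants: every statement says
`∃ C, ...`, choose `C` as large as convenient.
-/

namespace Pool.Agent.Helper93.TS

/-- MODULE MONO (about 120 lines). Machines may be given more width, time and size.

PROOF. Let `M` compute `f` (width `v`, time `2^t`). New machine on the same cells, width `v'`: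
`ad' j = if j < v then (ad j)[clk i := if i < t then clk i else ff] else ff` and
`nx' i = and g ((nx i)[clk j := if j < t then clk j else ff])`, where
`g = conjL (clk j, t ≤ j < t')`. During the first `2^t' - 2^t` steps `g` is false (a time
`T < 2^t'` has all bits `t, ..., t'-1` equal to one iff `T ≥ 2^t' - 2^t`), so the memory stays zero;
at time `2^t' - 2^t + u`, `u < 2^t`, the low bits of the time are those of `u`, so after the last
`2^t` steps the memory is `M.run v w zero 0 zero (2^t)`. Hint: `T = 2^t' - 2^t + u` gives
`T.testBit j = u.testBit j` for `j < t` and `true` for `t ≤ j < t'`: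
`2^t' - 2^t + u = 2^t * (2^(t'-t) - 1) + u`, use `Nat.testBit_two_pow_mul_add` and
`Nat.testBit_two_pow_sub_one`. -/
def StMono : Prop := ∃ C : ℕ, ∀ (v v' t t' s : ℕ) (f : Word → Prop), Dc v t s f → v ≤ v' →
  t ≤ t' → Dc v' t' ((s + t' + 2) ^ C) f

/-- MODULE COMPL (about 120 lines). The complement.

PROOF. Cells `Option ι`. While `clk t` is false run `M` on the cells `some i` (in its formulas
replace `clk j` by `if j < t then clk j else ff`), while `clk t` is true keep them; the cell
`none` always gets the value `not (mem (some out))`. After `2^(t+1)` steps the cell `none` holds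
the negation of the output of `M` after `2^t` steps. -/
def StCompl : Prop := ∃ C : ℕ, ∀ (v t s : ℕ) (f : Word → Prop), Dc v t s f →
  Dc v (t + 1) ((s + t + 2) ^ C) (fun w => ¬ f w)

/-- MODULE RR (about 100 lines). Rerouting: a machine reading the transformed word `R w c` can be
replaced by one with parameters `c` reading `w`.

PROOF. With `F, Q` from `RepP`: put `A i = if i < v then (M.ad i)[par := ff] else ff` (formulas
over `V ι`), `ad' j = (F j)[inl i := A i, inr i := par i]` and
`nx' i = (M.nx i)[none := Q[none := var none, some (inl i) := A i, some (inr i) := par i],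
some (mem ..), some (clk ..) unchanged, some (par j) := ff]`. The address that `M` would read is
supported on `v` bits and is the value of `A`. -/
def StRR : Prop := ∃ C : ℕ, ∀ (ι : Type) [Fintype ι] (M : Mac ι) (v v' q s : ℕ)
  (R : Word → (ℕ → Bool) → Word), M.Bd v s → RepP v v' q R →
  ∃ M' : Mac ι, M'.Bd v' ((s + q + 2) ^ C) ∧ M'.out = M.out ∧
    ∀ w c t m n, M'.run v' w c t m n = M.run v (R w c) zero t m n

/-- MODULE LR (about 200 lines). Loading parameters: the parameters `c j = L w (bin j)`, `j < 2^lam`,
are loaded into registers in the first half of the time, then `M` is run.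

PROOF. Let `F, Q` represent `L`. Cells `ι ⊕ Fin (2^lam)`, width `v`, time `2^(t+1)`. First half
(`clk t` false): cells `inl i` stay zero; the address is `F[inl b := if b < lam then clk b else ff,
inr _ := ff]`, the register `inr j` gets `Q[none := read bit, same substitution]` if the clock bits
below `lam` are the digits of `j` (`eqc`), and is kept otherwise. As `lam ≤ t` every register has
been loaded (perhaps several times, with the same value) after `2^t` steps. Second half: the
registers are kept, the cells `inl i` are updated by `nx i` with `par j` replaced by register `j`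
(`ff` if `2^lam ≤ j`) and `clk j` replaced by `if j < t then clk j else ff`. -/
def StLR : Prop := ∃ C : ℕ, ∀ (ι : Type) [Fintype ι] (M : Mac ι) (v t lam q s : ℕ)
  (L : Word → Word), M.Bd v s → lam ≤ t → Rep lam v q L →
  Dc v (t + 1) ((s + q + 2 ^ lam + t + 2) ^ C) (fun w =>
    M.run v w (fun j => decide (j < 2 ^ lam) && L w (bin j)) 0 zero (2 ^ t) M.out = true)

/-- MODULE LD (about 60 lines, from MONO, RR, LR). Transformations of words that depend on loaded
parameters.

PROOF. Take `M` for `f`, reroute it (RR), raise `v'` (as `RepP v v1 q R` implies `RepP v v' q' R`: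
module REP, or redo the rerouting with `F j := ff` for `j ≥ v1`), then LR. -/
def StLD : Prop := ∃ C : ℕ, ∀ (v t s v' lam q : ℕ) (f : Word → Prop)
  (R : Word → (ℕ → Bool) → Word) (L : Word → Word), Dc v t s f → RepP v v' q R →
  Rep lam v' q L → lam ≤ t →
  Dc v' (t + 1) ((s + q + 2 ^ lam + t + 2) ^ C) (fun w =>
    f (R w (fun j => decide (j < 2 ^ lam) && L w (bin j))))

/-- MODULE DR (about 30 lines, from RR). Static transformations of words.

PROOF. RR with parameters `zero` (note `Rep v v' q R` is `RepP v v' q (fun w _ => R w)`). -/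
def StDR : Prop := ∃ C : ℕ, ∀ (v t s v' q : ℕ) (f : Word → Prop) (R : Word → Word),
  Dc v t s f → Rep v v' q R → Dc v' t ((s + q + 2) ^ C) (fun w => f (R w))

/-- MODULE TAB (about 120 lines, from LR). Formulas in finitely many bits at fixed addresses.

PROOF. Apply LR with `t = lam`, the machine with one cell whose next value is `φ` with `j` replaced
by `par j`, and `L w a = decide (∃ j < m, a = bin j ∧ w (A j) = true)`. The parameters are
`c j = decide (j < m) && w (A j)`. For an address `a` with `lam` bits let `E j` be the formula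
`eqc (fun b => var (inl b)) lam j` saying `a = bin j`. `L` is represented by
`F i = disjL (E j, j < m with A j i = true)` and `Q = and (var none) (disjL (E j, j < m))`. -/
def StTab : Prop := ∃ C : ℕ, ∀ (v lam m : ℕ) (A : ℕ → Addr) (φ : Fm ℕ), m ≤ 2 ^ lam →
  (∀ j < m, Supp v (A j)) → Dc v (lam + 1) ((φ.size + 2 ^ lam + 2) ^ C) (fun w =>
    φ.eval (fun j => decide (j < m) && w (A j)) = true)

/-- the word holding the number `n`: its bit `j` is at address `bin j` -/
noncomputable def iw (n : ℕ) : Word := by
  classical exact fun a => decide (∃ j, a = bin j ∧ n.testBit j = true)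

/-- MODULE LOOP (about 200 lines). Exhaustive search over `2^U` numbers.

PROOF. Cells `Option ι`. The time is `u + 2^(t+1) * n`, `u < 2^(t+1)`, `n < 2^U`. Let
`first = conjL (not (clk i), i ≤ t)`, `last = conjL (clk i, i ≤ t)`. In the formulas of `M` replace
`mem i` by `and (mem (some i)) (not first)`, `clk j` by `if j < t then clk j else ff`, `par j` by
`ff`. The width is `v`; the address read is the tail `a (i+1)`, `i + 1 < v`, of the address `a` of
`M`, and the bit given to `M` is `ite (a 0) (disjL (and (tail a = bin j) (clk (t+1+j)), j < U)) rd`,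
where `tail a = bin j` is `eqc` on the `v - 1` bits of the tail if `j < 2^(v-1)` and `ff`
otherwise. While `clk t` is false the cells `some i` are updated in this way, while `clk t` is true
they are kept. The cell `none` gets `or (mem none) (and last (mem (some out)))`. -/
def StLoop : Prop := ∃ C : ℕ, ∀ (v t s U : ℕ) (f : Word → Prop), Dc v t s f →
  Dc v (t + 1 + U) ((s + v + t + U + 2) ^ C) (fun w => ∃ n < 2 ^ U, f (pair w (iw n)))

/-- the word for one block of a computation: `x`, the block of `y` with the index held by `z`, the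
next block, and `z` -/
def ixw (U β : ℕ) (x y z : Word) : Word :=
  pair x (pair (sub U β (idx z) y) (pair (sub U β (inc (idx z)) y) z))

/-- The condition on a block of a computation of the machine `M` (cells numbered by `e`), cut into
`2^U` blocks of `2^(t-U)` steps: `u` is the memory at the beginning of block `n` (the cells are the
bits at `bin i`), `u'` the memory at its end, `z` holds the index `n` of the block. -/
def gpr {ι : Type} {σ : ℕ} (M : Mac ι) (e : ι ≃ Fin σ) (v t U : ℕ) (x u u' z : Word) : Prop :=
  let n := Nat.ofBits (fun j : Fin U => z (bin j))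
  let m := M.run v x zero (n * 2 ^ (t - U)) (fun i => u (bin (e i))) (2 ^ (t - U))
  (n = 0 → ∀ i, u (bin (e i)) = false) ∧
    (if n + 1 = 2 ^ U then m M.out = true else ∀ i, m i = u' (bin (e i)))

/-- MODULE SP1 (about 150 lines). Cutting a computation into blocks.

PROOF. `t1 = t - U`. (=>) Take for `y` a word with
`y (cat U (bin n) (bin (e i))) = M.run v x zero 0 zero (n * 2^t1) i` for `n < 2^U` (define `y a` via
`n = Nat.ofBits (fun j : Fin U => a j)` and the number `Nat.ofBits (fun j : Fin β => a (U + j))`);
`idx z` agrees below `U` with `bin n`, and `inc (idx z)` with `bin (n + 1)`, and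
`M.run (0 -> (n+1) 2^t1)` is `M.run` of `2^t1` steps from time `n 2^t1` (a lemma
`run (a + b) = run from the memory after a`). (<=) For `n < 2^U` apply the right side to a word
`z` with `z (bin j) = n.testBit j`; by induction on `n` the block `n` of `y` holds the memory at
time `n * 2^t1`; the last block gives acceptance. Note `bin (e i)` has at most `β` bits, so
`trunc β (bin (e i)) = bin (e i)`. -/
def StSP1 : Prop := ∀ (ι : Type) (σ : ℕ) (M : Mac ι) (e : ι ≃ Fin σ) (v t U β : ℕ) (x : Word),
  U ≤ t → σ ≤ 2 ^ β → (M.run v x zero 0 zero (2 ^ t) M.out = true ↔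
    ∃ y, ∀ z, gpr M e v t U x (sub U β (idx z) y) (sub U β (inc (idx z)) y) z)

/-- MODULE SP2 (about 250 lines, from LR, REP). The condition on a block is in `Dc`.

PROOF. `t1 = t - U`. Parameters: number `j = 4 i + 2 b1 + b0`, `L w = pair (pair u z) (pair u' u')`
for `w = pair x (pair u (pair u' z))`, i.e. the parameter `4 i` is `u (bin i)`, `4 i + 1` is
`u' (bin i)`, `4 i + 2` is `z (bin i)` (`bin (4 i + 2 b1 + b0) = acons b0 (acons b1 (bin i))`; `L`
is in `Rep` by module REP; all needed `j` are `< 2^lam`). Machine with cells `Option ι` running for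
`2^(t1+1)` steps: in the first half (`clk t1` false) `M` is run on `x = fst w` (address
`acons false a`) with `mem i` replaced by `ite first (par (4 (e i))) (mem (some i))` where `first`
says that the clock bits `0, ..., t1` are zero, `clk j` replaced by `clk j` (`j < t1`),
`par (4 (j - t1) + 2)` (`t1 ≤ j < t`), `ff` (`j ≥ t`), `par` by `ff`; in the second half these
cells are kept and the cell `none` gets the value of the formula: (`n ≠ 0` or all `par (4 (e i))`
false) and (if `n + 1 = 2^U`, i.e. all `par (4 j + 2)`, `j < U`, are true, then `mem (some out)`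
else all `mem (some i)` equal to `par (4 (e i) + 1)`). At time `n 2^t1 + u'`, `u' < 2^t1`, the
digits of the time are those of `u'` below `t1` and those of `n` above. Then LR with `t := t1 + 1`.
If `t1 = 0` the first half is one step. -/
def StSP2 : Prop := ∃ C : ℕ, ∀ (ι : Type) [Fintype ι] (σ : ℕ) (M : Mac ι) (e : ι ≃ Fin σ)
  (v t s U β lam : ℕ), M.Bd v s → U ≤ t → σ ≤ 2 ^ β → U ≤ 2 ^ β → β + 2 ≤ lam →
  lam ≤ t - U + 1 → Dc (v + lam + 3) (t - U + 2) ((s + t + 2 ^ lam + 2) ^ C) (fun w =>
    gpr M e v t U (fst w) (fst (snd w)) (fst (snd (snd w))) (snd (snd (snd w))))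

/-- MODULE SP (about 40 lines, from SP1, SP2). Speed up.

PROOF. `g w = gpr M e v t U (fst w) (fst (snd w)) (fst (snd (snd w))) (snd (snd (snd w)))` with
`e = Fintype.equivFin ι`, `σ = card ι ≤ s ≤ 2^β`. -/
def StSP : Prop := ∃ C : ℕ, ∀ (v t s U β lam : ℕ) (f : Word → Prop), Dc v t s f → U ≤ t →
  s ≤ 2 ^ β → U ≤ 2 ^ β → β + 2 ≤ lam → lam ≤ t - U + 1 →
  ∃ g : Word → Prop, Dc (v + lam + 3) (t - U + 2) ((s + t + 2 ^ lam + 2) ^ C) g ∧
    ∀ x, f x ↔ ∃ y, ∀ z, g (ixw U β x y z)

/-- MODULE OI (about 200 lines). The machines of the official definition are covered.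

PROOF. Let `M : Machine`, `M.Small s`. Formulas `BForm` become `Fm` formulas (`neg`, `conj`,
`disj` are `Fm.not`, `Fm.and`, `Fm.or`; size grows by a factor at most 6). Cells
`Option (Fin M.mem)`. The input is `x = List.ofFn fun j : Fin N => w (bin j)`, so `x.getD p false`
is `w (bin p)` for `p < N` and `false` otherwise. The address bits are `addr i` for
`i < min M.adr v` and `ff` beyond; the position is `p = Σ_{i < M.adr} [addr i] 2^i`, it is `< N`
iff the bits `i ≥ v` are zero and the number formed by the others is `< N`: comparison with the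
constant `N` is the formula `disjL` over `i < v` with `N.testBit i = true` of (bit `i` is zero and
the bits `> i` are those of `N`), if `N < 2^v`; if `N = 2^v` the comparison is `tt` (module FML has
this formula). For `2^t ≥ T`: while (clock `< T`) - comparison of the clock bits with the constant
`T`, `T ≤ 2^t`, and `clk t` false - the memory is updated as by `M`, otherwise it is kept; the cell
`none` gets the value of `M.out`. After `2^(t+1)` steps `none` holds the answer. -/
def StOI : Prop := ∃ C : ℕ, ∀ (M : Machine) (s T t N v : ℕ), M.Small s → T ≤ 2 ^ t →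
  N ≤ 2 ^ v → Dc v (t + 1) ((s + t + v + 2) ^ C) (fun w =>
    M.Accepts (List.ofFn fun j : Fin N => w (bin j)) T)

/-- MODULE FML (about 80 lines). Comparison of a binary number with a constant.

PROOF. The formula is `disjL` over `i < m` with `n.testBit i = true` of
`and (not (f i)) (conjL (f j or its negation according to n.testBit j, i < j < m))`. -/
def StLt : Prop := ∃ C : ℕ, ∀ (m n : ℕ) (ι : Type) (f : ℕ → Fm ι) (s : ℕ), n < 2 ^ m →
  (∀ i < m, (f i).size ≤ s) → ∃ φ : Fm ι, φ.size ≤ (m + s + 2) ^ C ∧ ∀ (e : ι → Bool) (p : ℕ),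
    p < 2 ^ m → (∀ i < m, (f i).eval e = p.testBit i) → (φ.eval e = true ↔ p < n)

/-- MODULE DIV3 (about 150 lines). Division by three.

PROOF. Let `a` be the number with the bits `f i`, `i < m`. Its remainder modulo 3 is the sum of the
digits in base 4 modulo 3. For lists `l` of triples `(f0, f1, f2)` of formulas (saying that the
digit is 0, 1, 2 modulo 3, exactly one of them true) a formula saying that the sum of the digits is
`c` modulo 3 is obtained by halving the list: `disjL` over `a + b = c` of `and` of the formulas for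
the two halves; the size is at most `s * 20 ^ (depth)`, i.e. a polynomial in `m * s`
(`20 ^ ⌈log2 m⌉ ≤ (2 m) ^ 5`). The `i`-th binary digit of `a / 3` is
`[ρ = 2] or ([ρ = 1] and f i)` where `ρ = (a / 2^(i+1)) % 3`, because
`a / 2^i = 2 (a / 2^(i+1)) + a_i` and digit `i` of `a / 3` is the parity of
`(a / 2^i) / 3`: `(a / 2^i) / 3 = 2 * ((a / 2^(i+1)) / 3) + (2 ρ + a_i) / 3`. -/
def StDiv3 : Prop := ∃ C : ℕ, ∀ (m : ℕ) (ι : Type) (f : ℕ → Fm ι) (s : ℕ),
  (∀ i < m, (f i).size ≤ s) → ∃ (D : ℕ → Fm ι) (R : ℕ → Fm ι),
    (∀ i, (D i).size ≤ (m + s + 2) ^ C) ∧ (∀ c < 3, (R c).size ≤ (m + s + 2) ^ C) ∧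
    ∀ (e : ι → Bool) (a : ℕ), a < 2 ^ m → (∀ i < m, (f i).eval e = a.testBit i) →
      (∀ i, (D i).eval e = (a / 3).testBit i) ∧ ∀ c < 3, ((R c).eval e = true ↔ a % 3 = c)

/-- MODULE FIN (about 60 lines). Normal form: cells are numbers, the output cell is `0`.

PROOF. Transport along an equivalence `ι ≃ Fin (σ + 1)` sending `M.out` to `0` (`ι` is nonempty
because of `M.out`; compose `Fintype.equivFin` with a transposition). -/
def StFin : Prop := ∀ (v t s : ℕ) (f : Word → Prop), Dc v t s f → ∃ (σ : ℕ)
  (M : Mac (Fin (σ + 1))), M.out = 0 ∧ M.Bd v s ∧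
    ∀ w, f w ↔ M.run v w zero 0 zero (2 ^ t) 0 = true

/-- MODULE REP (about 200 lines). Closure properties of representable transformations.

PROOF. Explicit formulas. `id`: `F j = var (inl j)`, `Q = var none`. `fst`: `F 0 = ff`,
`F (j+1) = var (inl j)`. `snd`: `F 0 = tt`. `pair`: `F j = ite (var (inl 0)) (F2 j) (F1 j)` where in
`F1 j`, `F2 j` (`ff` beyond their widths) `inl i` is replaced by `inl (i+1)`, similarly for `Q`.
`comp`: substitution. `sub`: `F j = if j < U then P j (with inr) else if j - U < β then
var (inl (j - U)) else ff`. `bit`: `Q` does not use the bit read. Width: `F j = ff` for the new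
`j`. `par`: the parameters are replaced by constants. -/
structure StRep (C : ℕ) : Prop where
  id : ∀ v, RepP v v C (fun w _ => w)
  fst : ∀ v, RepP v (v + 1) C (fun w _ => fst w)
  snd : ∀ v, RepP v (v + 1) C (fun w _ => snd w)
  pair : ∀ v v1 v2 q1 q2 R1 R2, RepP v v1 q1 R1 → RepP v v2 q2 R2 →
    RepP (v + 1) (max v1 v2) (q1 + q2 + C) (fun w c => pair (R1 w c) (R2 w c))
  comp : ∀ v v1 v2 q1 q2 R1 R2, RepP v v1 q1 R1 → RepP v1 v2 q2 R2 →
    RepP v v2 ((q1 + q2 + 2) ^ C) (fun w c => R1 (R2 w c) c)
  sub : ∀ v U β q (P : ℕ → Fm ℕ), (∀ j < U, (P j).size ≤ q) →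
    RepP v (U + β) (q + C) (fun w c => sub U β (fun j => (P j).eval c) w)
  bit : ∀ v q (P : Fm ℕ), P.size ≤ q → RepP v 0 (q + C) (fun _ c _ => P.eval c)
  tr : ∀ v κ, RepP v κ C (fun w _ => tr κ w)
  mono : ∀ v v1 v' v1' q q' R, RepP v v1 q R → v' ≤ v → v1 ≤ v1' → q + C ≤ q' →
    RepP v' v1' q' R
  par : ∀ v v1 q R (c : ℕ → Bool), RepP v v1 q R → RepP v v1 (q * C) (fun w _ => R w c)
  congr : ∀ v v1 q R R', RepP v v1 q R → (∀ w c a, Supp v a → R w c a = R' w c a) →
    RepP v v1 q R'

/-- MODULE REP, see `StRep` -/
def StRepC : Prop := ∃ C : ℕ, 1 ≤ C ∧ StRep C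

end Pool.Agent.Helper93.TS
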